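import Pool.Agent.J4.H44.LP.Rp

set_option autoImplicit false

/-! Plancherel for smoothed functions. -/

namespace Pool.Agent.J4.H44.LP

open Complex MeasureTheory Filter Topology Set Pool.Agent.W182.KO Pool.Agent.R446.KR Pool.Agent.TH535.SM
open scoped ContDiff FourierTransform Convolution

noncomputable section

variable {ξ1 : ℝ} {φ : ℝ → ℂ}

/-- smoothing of a function -/
def kF (φ : ℝ → ℂ) (L : ℝ) (F : ℝ → ℂ) (t : ℝ) : ℂ := ∫ y, KL φ L y * F (t + y)

lemma KL_w (h : TF ξ1 φ) {L : ℝ} (hL : 1 ≤ L) : Integrable (fun y => ‖KL φ L y‖ * (1 + |y|) ^ 2) := by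
  obtain ⟨C1, hC1, h1⟩ := KL_gl h
  obtain ⟨C2, hC2, h2⟩ := KL_far h 2
  have hL0 : 0 < L := by linarith
  refine ((gl_int hL0).const_mul (2 * (C1 + C2))).mono'
    (((KL_cont h L).norm).mul (by fun_prop)).aestronglyMeasurable (Eventually.of_forall fun y => ?_)
  rw [Real.norm_of_nonneg (by positivity)]
  have h3 := h1 L y hL0
  have h4 := h2 L y hL
  have h5 : (1 + |y|) ^ 2 ≤ 2 * (1 + |y| ^ 2) := by nlinarith [sq_nonneg (1 - |y|)]
  have h6 := norm_nonneg (KL φ L y)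
  calc ‖KL φ L y‖ * (1 + |y|) ^ 2 ≤ ‖KL φ L y‖ * (2 * (1 + |y| ^ 2)) := by gcongr
    _ = 2 * (‖KL φ L y‖ + ‖KL φ L y‖ * |y| ^ 2) := by ring
    _ ≤ 2 * (C1 * gl L y + C2 * gl L y) := by gcongr
    _ = _ := by ring

lemma kF_int (h : TF ξ1 φ) {L : ℝ} (hL : 1 ≤ L) {F : ℝ → ℂ} (hF : Dec F) (t : ℝ) :
    Integrable (fun y => KL φ L y * F (t + y)) := by
  obtain ⟨B, hB, hb⟩ := hF.bd
  refine ((KL_int h (by linarith : 0 < L)).norm.mul_const B).mono'
    ((KL_cont h L).mul (hF.cont.comp (by fun_prop))).aestronglyMeasurable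
    (Eventually.of_forall fun y => ?_)
  rw [norm_mul]
  refine mul_le_mul_of_nonneg_left ((hb _).trans ?_) (norm_nonneg _)
  have : ((1 + |t + y|) ^ 2)⁻¹ ≤ 1 := inv_le_one_of_one_le₀ (one_le_pow₀ (by linarith [abs_nonneg (t + y)]))
  exact mul_le_of_le_one_right hB this

lemma kF_dec (h : TF ξ1 φ) {L : ℝ} (hL : 1 ≤ L) {F : ℝ → ℂ} (hF : Dec F) : Dec (kF φ L F) := by
  obtain ⟨B, hB, hb⟩ := hF.bd
  have hw := KL_w h hL
  refine ⟨?_, B * ∫ y, ‖KL φ L y‖ * (1 + |y|) ^ 2, ?_, fun t => ?_⟩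
  · unfold kF
    refine continuous_of_dominated (bound := fun y => ‖KL φ L y‖ * B) (fun t => ?_) (fun t => ?_) ?_ ?_
    · exact ((KL_cont h L).mul (hF.cont.comp (by fun_prop))).aestronglyMeasurable
    · refine Eventually.of_forall fun y => ?_
      rw [norm_mul]
      refine mul_le_mul_of_nonneg_left ((hb _).trans ?_) (norm_nonneg _)
      have : ((1 + |t + y|) ^ 2)⁻¹ ≤ 1 :=
        inv_le_one_of_one_le₀ (one_le_pow₀ (by linarith [abs_nonneg (t + y)]))
      exact mul_le_of_le_one_right hB this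
    · exact (KL_int h (by linarith : 0 < L)).norm.mul_const B
    · exact Eventually.of_forall fun y => continuous_const.mul (hF.cont.comp (by fun_prop))
  · exact mul_nonneg hB (integral_nonneg fun y => by positivity)
  · unfold kF
    refine (norm_integral_le_integral_norm _).trans ?_
    have h0 : 0 < (1 + |t|) ^ 2 := by positivity
    have e : B * (∫ y, ‖KL φ L y‖ * (1 + |y|) ^ 2) * ((1 + |t|) ^ 2)⁻¹ =
        ∫ y, (B * ((1 + |t|) ^ 2)⁻¹) * (‖KL φ L y‖ * (1 + |y|) ^ 2) := by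
      rw [integral_const_mul]; ring
    rw [e]
    refine integral_mono_of_nonneg (Eventually.of_forall fun y => norm_nonneg _) (hw.const_mul _)
      (Eventually.of_forall fun y => ?_)
    simp only
    rw [norm_mul]
    have h1 := one_add_abs_le t y
    have h2 : ((1 + |t + y|) ^ 2)⁻¹ ≤ ((1 + |t|) ^ 2)⁻¹ * (1 + |y|) ^ 2 := by
      have h3 : 0 < (1 + |t + y|) ^ 2 := by positivity
      rw [inv_mul_eq_div, le_div_iff₀ h0, inv_mul_le_iff₀ h3, ← mul_pow]
      gcongr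
    calc ‖KL φ L y‖ * ‖F (t + y)‖ ≤ ‖KL φ L y‖ * (B * (((1 + |t|) ^ 2)⁻¹ * (1 + |y|) ^ 2)) := by
          refine mul_le_mul_of_nonneg_left ((hb _).trans ?_) (norm_nonneg _)
          gcongr
      _ = _ := by ring

lemma ft_KL (h : TF ξ1 φ) {L : ℝ} (hL : 0 < L) (w : ℝ) :
    𝓕 (fun s => KL φ L (-s)) w = φ (-(2 * Real.pi * w / L)) := by
  rw [ft_eq, ← KL_symbol h hL (-(2 * Real.pi * w / L)), ← integral_neg_eq_self]
  refine integral_congr_ae (Eventually.of_forall fun y => ?_)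
  simp only [neg_neg]
  rw [mul_comm]
  congr 2
  have hLc : (L : ℂ) ≠ 0 := by exact_mod_cast hL.ne'
  push_cast
  field_simp

lemma kF_conv (φ : ℝ → ℂ) (L : ℝ) (F : ℝ → ℂ) :
    kF φ L F = (fun s => KL φ L (-s)) ⋆[ContinuousLinearMap.mul ℂ ℂ] F := by
  funext t
  rw [convolution_def]
  unfold kF
  rw [← integral_neg_eq_self]
  refine integral_congr_ae (Eventually.of_forall fun y => ?_)
  simp only [ContinuousLinearMap.mul_apply']
  rw [← sub_eq_add_neg]

lemma ft_kF (h : TF ξ1 φ) {L : ℝ} (hL : 1 ≤ L) {F : ℝ → ℂ} (hF : Dec F) (w : ℝ) :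
    𝓕 (kF φ L F) w = φ (-(2 * Real.pi * w / L)) * 𝓕 F w := by
  have hL0 : 0 < L := by linarith
  rw [kF_conv, Real.fourier_mul_convolution_eq (KL_int h hL0).comp_neg hF.int, ft_KL h hL0]

/-- the spectral functional -/
def St (F : ℝ → ℂ) (L : ℝ) (g : ℝ → ℝ) : ℝ := ∫ w, g (-(2 * Real.pi * w / L)) * ‖𝓕 F w‖ ^ 2

lemma kF_norm (h : TF ξ1 φ) {L : ℝ} (hL : 1 ≤ L) {F : ℝ → ℂ} (hF : Dec F) :
    ∫ t, ‖kF φ L F t‖ ^ 2 = St F L (fun v => ‖φ v‖ ^ 2) := by
  rw [← (planch (kF_dec h hL hF)).2]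
  unfold St
  refine integral_congr_ae (Eventually.of_forall fun w => ?_)
  simp only
  rw [ft_kF h hL hF, norm_mul, mul_pow]

lemma St_int {F : ℝ → ℂ} (hF : Dec F) {L : ℝ} {g : ℝ → ℝ} (hg : Continuous g) {S : ℝ}
    (hS : ∀ v, |g v| ≤ S) : Integrable (fun w => g (-(2 * Real.pi * w / L)) * ‖𝓕 F w‖ ^ 2) := by
  refine ((planch hF).1.const_mul S).mono' ?_ (Eventually.of_forall fun w => ?_)
  · have : Continuous (fun w => g (-(2 * Real.pi * w / L)) * ‖𝓕 F w‖ ^ 2) := by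
      have := ft_cont hF
      fun_prop
    exact this.aestronglyMeasurable
  · rw [Real.norm_eq_abs, abs_mul, abs_of_nonneg (by positivity : 0 ≤ ‖𝓕 F w‖ ^ 2)]
    exact mul_le_mul_of_nonneg_right (hS _) (by positivity)

lemma St_one {F : ℝ → ℂ} (hF : Dec F) (L : ℝ) : St F L (fun _ => 1) = ∫ t, ‖F t‖ ^ 2 := by
  rw [← (planch hF).2]
  unfold St
  simp only [one_mul]

/-- comparison of two test functions -/
lemma St_close {F : ℝ → ℂ} (hF : Dec F) {L : ℝ} (hL : 0 < L) {g g' : ℝ → ℝ} (hg : Continuous g)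
    (hg' : Continuous g') {S : ℝ} (hS0 : 0 ≤ S) (hS : ∀ v, |g v| ≤ S) (hS' : ∀ v, |g' v| ≤ S) {a b e : ℝ}
    (he : 0 ≤ e) (hab : ∀ v, a ≤ v → v ≤ b → |g v - g' v| ≤ e) :
    |St F L g - St F L g'| ≤ e * (∫ t, ‖F t‖ ^ 2) + 2 * S * (ms F (Iic (-(b * L / (2 * Real.pi)))) +
      ms F (Ici (-(a * L / (2 * Real.pi))))) := by
  have hp := Real.pi_pos
  have h1 := St_int hF (L := L) hg hS
  have h2 := St_int hF (L := L) hg' hS'
  have hI := (planch hF).1
  unfold St ms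
  rw [← integral_sub h1 h2]
  rw [← (planch hF).2, ← integral_const_mul]
  set A : Set ℝ := Iic (-(b * L / (2 * Real.pi)))
  set A' : Set ℝ := Ici (-(a * L / (2 * Real.pi)))
  have e1 : 2 * S * ((∫ w in A, ‖𝓕 F w‖ ^ 2) + ∫ w in A', ‖𝓕 F w‖ ^ 2) =
      ∫ w, (2 * S * (A.indicator (fun w => ‖𝓕 F w‖ ^ 2) w + A'.indicator (fun w => ‖𝓕 F w‖ ^ 2) w)) := by
    rw [integral_const_mul, integral_add (hI.indicator measurableSet_Iic) (hI.indicator measurableSet_Ici),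
      integral_indicator measurableSet_Iic, integral_indicator measurableSet_Ici]
  have hII : Integrable (fun w => 2 * S * (A.indicator (fun w => ‖𝓕 F w‖ ^ 2) w +
      A'.indicator (fun w => ‖𝓕 F w‖ ^ 2) w)) :=
    (iadd (hI.indicator measurableSet_Iic) (hI.indicator measurableSet_Ici)).const_mul (2 * S)
  rw [e1, ← integral_add (hI.const_mul e) hII]
  refine abs_integral_le_integral_abs.trans ?_
  refine integral_mono_of_nonneg (Eventually.of_forall fun w => abs_nonneg _)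
    (iadd (hI.const_mul e) hII) (Eventually.of_forall fun w => ?_)
  simp only
  rw [← sub_mul, abs_mul, abs_of_nonneg (by positivity : 0 ≤ ‖𝓕 F w‖ ^ 2)]
  set v : ℝ := -(2 * Real.pi * w / L) with hv
  have q0 : 0 ≤ ‖𝓕 F w‖ ^ 2 := by positivity
  have i1 : 0 ≤ A.indicator (fun w => ‖𝓕 F w‖ ^ 2) w := indicator_nonneg (fun _ _ => by positivity) w
  have i2 : 0 ≤ A'.indicator (fun w => ‖𝓕 F w‖ ^ 2) w := indicator_nonneg (fun _ _ => by positivity) w
  have hg2 : |g v - g' v| ≤ 2 * S := by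
    have := abs_sub (g v) (g' v)
    linarith [hS v, hS' v]
  by_cases hA : w ∈ A
  · rw [indicator_of_mem hA]
    have := mul_le_mul_of_nonneg_right hg2 q0
    have h5 : 0 ≤ e * ‖𝓕 F w‖ ^ 2 := by positivity
    have h6 : 0 ≤ 2 * S * A'.indicator (fun w => ‖𝓕 F w‖ ^ 2) w := by positivity
    nlinarith
  by_cases hA' : w ∈ A'
  · rw [indicator_of_mem hA']
    have := mul_le_mul_of_nonneg_right hg2 q0
    have h5 : 0 ≤ e * ‖𝓕 F w‖ ^ 2 := by positivity
    have h6 : 0 ≤ 2 * S * A.indicator (fun w => ‖𝓕 F w‖ ^ 2) w := by positivity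
    nlinarith
  have hva : a ≤ v := by
    have h5 : w < -(a * L / (2 * Real.pi)) := not_le.1 hA'
    rw [hv, ← neg_div, le_div_iff₀ hL]
    rw [← neg_div, lt_div_iff₀ (by positivity)] at h5
    linarith
  have hvb : v ≤ b := by
    have h5 : -(b * L / (2 * Real.pi)) < w := not_le.1 hA
    rw [hv, ← neg_div, div_le_iff₀ hL]
    rw [← neg_div, div_lt_iff₀ (by positivity)] at h5
    linarith
  have h7 := mul_le_mul_of_nonneg_right (hab v hva hvb) q0
  have h8 : 0 ≤ 2 * S * (A.indicator (fun w => ‖𝓕 F w‖ ^ 2) w + A'.indicator (fun w => ‖𝓕 F w‖ ^ 2) w) := by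
    positivity
  linarith

end

end Pool.Agent.J4.H44.LP
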