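import Mathlib

set_option autoImplicit false

/-! Complementary pairs of smooth cut-offs exist. -/

namespace Pool.Agent.J4.H44.LP

open Complex Filter Topology Set
open scoped ContDiff

noncomputable section

lemma st_symm (x : ℝ) : Real.smoothTransition (1 - x) = 1 - Real.smoothTransition x := by
  unfold Real.smoothTransition
  have h := Real.smoothTransition.pos_denom x
  rw [sub_sub_cancel, add_comm (expNegInvGlue (1 - x))]
  field_simp
  ring

/-- a smooth cut-off near `θ` -/
def stp (θ δ v : ℝ) : ℝ :=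
  Real.cos (Real.pi / 2 * Real.smoothTransition ((v - θ + δ) / (2 * δ))) * Real.smoothTransition (v + 1)

lemma stp_smooth (θ δ : ℝ) : ContDiff ℝ ∞ (stp θ δ) := by
  unfold stp
  have h1 : ContDiff ℝ ∞ Real.smoothTransition := Real.smoothTransition.contDiff
  have h2 : ContDiff ℝ ∞ (fun v : ℝ => Real.smoothTransition ((v - θ + δ) / (2 * δ))) :=
    h1.comp ((((contDiff_id.sub contDiff_const).add contDiff_const)).div_const _)
  have h3 : ContDiff ℝ ∞ (fun v : ℝ => Real.smoothTransition (v + 1)) :=
    h1.comp (contDiff_id.add contDiff_const)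
  exact (Real.contDiff_cos.comp (contDiff_const.mul h2)).mul h3

lemma stp_right {θ δ v : ℝ} (hδ : 0 < δ) (h : θ + δ ≤ v) : stp θ δ v = 0 := by
  unfold stp
  rw [Real.smoothTransition.one_of_one_le (x := (v - θ + δ) / (2 * δ)), mul_one, Real.cos_pi_div_two,
    zero_mul]
  rw [le_div_iff₀ (by positivity)]
  linarith

lemma stp_left {θ δ v : ℝ} (h : v ≤ -1) : stp θ δ v = 0 := by
  unfold stp
  rw [Real.smoothTransition.zero_of_nonpos (x := v + 1) (by linarith), mul_zero]

lemma stp_one {θ δ v : ℝ} (hδ : 0 < δ) (h0 : 0 ≤ v) (h : v ≤ θ - δ) : stp θ δ v = 1 := by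
  unfold stp
  rw [Real.smoothTransition.zero_of_nonpos (x := (v - θ + δ) / (2 * δ)), mul_zero, Real.cos_zero,
    Real.smoothTransition.one_of_one_le (by linarith), one_mul]
  exact div_nonpos_of_nonpos_of_nonneg (by linarith) (by positivity)

lemma stp_compl {k θ δ v : ℝ} (hδ : 0 < δ) (h0 : 0 ≤ v) (h : v ≤ k) :
    stp θ δ v ^ 2 + stp (k - θ) δ (k - v) ^ 2 = 1 := by
  unfold stp
  rw [Real.smoothTransition.one_of_one_le (x := v + 1) (by linarith),
    Real.smoothTransition.one_of_one_le (x := k - v + 1) (by linarith), mul_one, mul_one]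
  have e : (k - v - (k - θ) + δ) / (2 * δ) = 1 - (v - θ + δ) / (2 * δ) := by
    field_simp
    ring
  rw [e, st_symm]
  have e2 : Real.pi / 2 * (1 - Real.smoothTransition ((v - θ + δ) / (2 * δ))) =
      Real.pi / 2 - Real.pi / 2 * Real.smoothTransition ((v - θ + δ) / (2 * δ)) := by ring
  rw [e2, Real.cos_pi_div_two_sub]
  rw [add_comm]
  exact Real.sin_sq_add_cos_sq _

lemma stp_cs {θ δ : ℝ} (hδ : 0 < δ) : HasCompactSupport (fun v => (stp θ δ v : ℂ)) := by
  refine HasCompactSupport.intro (K := Icc (-1) (θ + δ)) isCompact_Icc fun v hv => ?_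
  have : stp θ δ v = 0 := by
    by_contra hne
    apply hv
    constructor
    · by_contra hcon
      push Not at hcon
      exact hne (stp_left hcon.le)
    · by_contra hcon
      push Not at hcon
      exact hne (stp_right hδ hcon.le)
  rw [this]; simp

lemma stpc_smooth (θ δ : ℝ) : ContDiff ℝ ∞ (fun v => (stp θ δ v : ℂ)) :=
  (ofRealCLM.contDiff (n := ∞)).comp (stp_smooth θ δ)

end

end Pool.Agent.J4.H44.LP
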