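import Pool.Agent.J4.H44.LP.Sv
import Pool.Agent.J4.H44.LP.Pe

set_option autoImplicit false

/-! Polynomials determine the shifted moments. -/

namespace Pool.Agent.J4.H44.LP

open Complex MeasureTheory Filter Topology Set Pool.Agent.W182.KO Pool.Agent.R446.KR Pool.Agent.TH535.SM
open Pool.Agent.J4.H44.OL (Rs Rs_int Rs_Sp)
open scoped ContDiff FourierTransform ENNReal ComplexConjugate

noncomputable section

variable {ξ1 ξ2 : ℝ} {φ φ1 φ2 g : ℝ → ℂ} {z : ℝ → ℂ} {G : ℂ → ℂ} {u K : ℕ}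

/-- a smooth cut-off equal to one on `[-1, k + 1]` -/
def cut (k : ℕ) (v : ℝ) : ℝ := Real.smoothTransition (v + 2) * Real.smoothTransition (k + 2 - v)

lemma cut_one {k : ℕ} {v : ℝ} (h0 : -1 ≤ v) (h1 : v ≤ k + 1) : cut k v = 1 := by
  unfold cut
  rw [Real.smoothTransition.one_of_one_le (by linarith), Real.smoothTransition.one_of_one_le (by linarith),
    one_mul]

lemma cut_smooth (k : ℕ) : ContDiff ℝ ∞ (cut k) := by
  unfold cut
  have h1 : ContDiff ℝ ∞ Real.smoothTransition := Real.smoothTransition.contDiff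
  exact (h1.comp (contDiff_id.add contDiff_const)).mul (h1.comp (contDiff_const.sub contDiff_id))

lemma cut_nonneg (k : ℕ) (v : ℝ) : 0 ≤ cut k v :=
  mul_nonneg (Real.smoothTransition.nonneg _) (Real.smoothTransition.nonneg _)

lemma cut_le (k : ℕ) (v : ℝ) : cut k v ≤ 1 :=
  mul_le_one₀ (Real.smoothTransition.le_one _) (Real.smoothTransition.nonneg _)
    (Real.smoothTransition.le_one _)

lemma cut_cs (k : ℕ) : HasCompactSupport (fun v => (cut k v : ℂ)) := by
  refine HasCompactSupport.intro (K := Icc (-2) (k + 2)) isCompact_Icc fun v hv => ?_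
  have : cut k v = 0 := by
    unfold cut
    by_contra hne
    apply hv
    constructor
    · by_contra hcon
      push Not at hcon
      exact hne (by rw [Real.smoothTransition.zero_of_nonpos (x := v + 2) (by linarith), zero_mul])
    · by_contra hcon
      push Not at hcon
      exact hne (by rw [Real.smoothTransition.zero_of_nonpos (x := k + 2 - v) (by linarith), mul_zero])
  rw [this]; simp

/-- the test functions -/
def tst (k : ℕ) (α κ v : ℝ) : ℂ := (cut k v : ℂ) * (1 + cexp ((2 * α * v - κ : ℝ) * I))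

lemma tst_smooth (k : ℕ) (α κ : ℝ) : ContDiff ℝ ∞ (tst k α κ) := by
  unfold tst
  have h1 : ContDiff ℝ ∞ (fun v => (cut k v : ℂ)) := (ofRealCLM.contDiff (n := ∞)).comp (cut_smooth k)
  have h2 : ContDiff ℝ ∞ (fun v : ℝ => (((2 * α * v - κ : ℝ) : ℂ))) :=
    (ofRealCLM.contDiff (n := ∞)).comp ((contDiff_const.mul contDiff_id).sub contDiff_const)
  have h3 : ContDiff ℝ ∞ (fun v : ℝ => cexp (((2 * α * v - κ : ℝ) : ℂ) * I)) :=
    (h2.mul contDiff_const).cexp
  exact h1.mul (contDiff_const.add h3)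

lemma tst_cs (k : ℕ) (α κ : ℝ) : HasCompactSupport (tst k α κ) := (cut_cs k).mul_right

lemma tst_sq (k : ℕ) (α κ v : ℝ) : ‖tst k α κ v‖ ^ 2 = cut k v ^ 2 * (2 + 2 * Real.cos (2 * α * v - κ)) := by
  unfold tst
  rw [norm_mul, mul_pow, Complex.norm_real, Real.norm_eq_abs, sq_abs]
  congr 1
  rw [← Complex.normSq_eq_norm_sq, Complex.normSq_apply]
  rw [Complex.add_re, Complex.add_im, Complex.exp_ofReal_mul_I_re, Complex.exp_ofReal_mul_I_im,
    Complex.one_re, Complex.one_im]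
  nlinarith [Real.sin_sq_add_cos_sq (2 * α * v - κ)]

lemma St_sub {F : ℝ → ℂ} (hF : Dec F) {L : ℝ} {g g' : ℝ → ℝ} (hg : Continuous g)
    (hg' : Continuous g') {S : ℝ} (hS : ∀ v, |g v| ≤ S) (hS' : ∀ v, |g' v| ≤ S) (c : ℝ) :
    St F L (fun v => g v - c * g' v) = St F L g - c * St F L g' := by
  unfold St
  rw [← integral_const_mul, ← integral_sub (St_int hF hg hS) ((St_int hF hg' hS').const_mul c)]
  refine integral_congr_ae (Eventually.of_forall fun w => ?_)
  simp only
  ring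

/-- the spectral side of a shift through the two polynomials -/
lemma Sp_tst (k : ℕ) (α κ : ℝ) : ∃ C : ℝ, 0 ≤ C ∧ ∀ T : ℝ, Real.exp 1 ≤ T →
    |(St (Fn (H k 1) T 0) (Real.log T) (fun v => ‖tst k α κ v‖ ^ 2) -
      2 * St (Fn (H k 1) T 0) (Real.log T) (fun v => ‖(cut k v : ℂ)‖ ^ 2)) -
      2 * Sp (Fn (H k 1) T 0) (α / Real.log T) κ| ≤ C := by
  have D := zk_dat k (u := 1) le_rfl
  obtain ⟨c5, hc5, m5⟩ := out_right D (δ := 1) one_pos (by norm_num)
  obtain ⟨c6, hc6, m6⟩ := out_left D (δ := 1) one_pos (by norm_num)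
  refine ⟨2 * 6 * (c6 + c5), by positivity, fun T te => ?_⟩
  have hTp : 0 < T := (Real.exp_pos 1).trans_le te
  have hT1 : 1 ≤ T := le_trans (by have := Real.add_one_le_exp 1; linarith) te
  have hL : 1 ≤ Real.log T := by rwa [Real.le_log_iff_exp_le hTp]
  have hL0 : 0 < Real.log T := by linarith
  have hF := Fn_dec D.pg hT1 (r := 0) (neg_nonpos.2 (Nat.cast_nonneg 1)) (Nat.cast_nonneg 1)
  have hc := (cut_smooth k).continuous
  have hg1 : Continuous (fun v => ‖tst k α κ v‖ ^ 2) := (tst_smooth k α κ).continuous.norm.pow 2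
  have hg2 : Continuous (fun v => ‖(cut k v : ℂ)‖ ^ 2) := by fun_prop
  have hcs : ∀ v, cut k v ^ 2 ≤ 1 := fun v => pow_le_one₀ (cut_nonneg k v) (cut_le k v)
  have b1 : ∀ v, |‖tst k α κ v‖ ^ 2| ≤ 4 := fun v => by
    rw [abs_of_nonneg (by positivity), tst_sq]
    have h1 := Real.cos_le_one (2 * α * v - κ)
    have h2 := Real.neg_one_le_cos (2 * α * v - κ)
    nlinarith [hcs v, sq_nonneg (cut k v)]
  have b2 : ∀ v, |‖(cut k v : ℂ)‖ ^ 2| ≤ 4 := fun v => by
    rw [abs_of_nonneg (by positivity), Complex.norm_real, Real.norm_eq_abs, sq_abs]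
    linarith [hcs v]
  have hsub := St_sub hF (L := Real.log T) hg1 hg2 b1 b2 2
  rw [← hsub]
  have e1 : 2 * Sp (Fn (H k 1) T 0) (α / Real.log T) κ =
      St (Fn (H k 1) T 0) (Real.log T) (fun v => 2 * Real.cos (2 * α * v - κ)) := by
    unfold Sp St
    rw [← integral_const_mul]
    refine integral_congr_ae (Eventually.of_forall fun w => ?_)
    simp only
    rw [← mul_assoc]
    congr 2
    rw [← Real.cos_neg]
    congr 1
    field_simp
    ring
  rw [e1]
  have cl := St_close hF hL0 (g := fun v => ‖tst k α κ v‖ ^ 2 - 2 * ‖(cut k v : ℂ)‖ ^ 2)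
    (g' := fun v => 2 * Real.cos (2 * α * v - κ)) (by fun_prop) (by fun_prop) (S := 6) (by norm_num)
    (fun v => by
      have h1 := abs_le.1 (b1 v)
      rw [abs_le]
      have h3 : ‖(cut k v : ℂ)‖ ^ 2 ≤ 1 := by
        rw [Complex.norm_real, Real.norm_eq_abs, sq_abs]; exact hcs v
      have h4 : 0 ≤ ‖(cut k v : ℂ)‖ ^ 2 := by positivity
      have h5 : 0 ≤ ‖tst k α κ v‖ ^ 2 := by positivity
      constructor <;> linarith) (fun v => by
      rw [abs_mul, abs_two]
      linarith [Real.abs_cos_le_one (2 * α * v - κ)]) (a := -1) (b := k + 1) (e := 0) le_rfl (fun v h0 h1 => by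
      rw [tst_sq, cut_one h0 h1]
      simp)
  have e5 : -(-1 * Real.log T / (2 * Real.pi)) = 1 * Real.log T / (2 * Real.pi) := by ring
  rw [e5, zero_mul, zero_add] at cl
  refine cl.trans ?_
  have a5 := m5 T hT1
  have a6 := m6 T hT1
  have : ms (Fn (H k 1) T 0) (Iic (-((k + 1) * Real.log T / (2 * Real.pi)))) +
      ms (Fn (H k 1) T 0) (Ici (1 * Real.log T / (2 * Real.pi))) ≤ c6 + c5 := add_le_add a6 a5
  linarith

lemma PD_zero (k : ℕ) (ϑ T : ℝ) : PD k (fun _ => 0) ϑ T = 0 := by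
  unfold PD Dir
  simp

/-- **polynomials determine shifts** -/
theorem PD_shifts (k : ℕ) {q : ℕ} {ϑ : ℝ} (h0 : 0 < ϑ) (h1 : ϑ < 1) {Pf : (ℝ → ℂ) → ℝ}
    (hP : ∀ φ : ℝ → ℂ, ContDiff ℝ ∞ φ → HasCompactSupport φ →
      Tendsto (fun T => PD k φ ϑ T / NN q T) atTop (𝓝 (Pf φ))) (α : ℝ) :
    Tendsto (fun T => Cor (zk k) (α / Real.log T) T / (NN q T : ℂ)) atTop
      (𝓝 ((((Pf (tst k α 0) - 2 * Pf (fun v => (cut k v : ℂ))) / 2 : ℝ) : ℂ) +
        (((Pf (tst k α (-(Real.pi / 2))) - 2 * Pf (fun v => (cut k v : ℂ))) / 2 : ℝ) : ℂ) * I)) := by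
  have D := zk_dat k (u := 1) le_rfl
  have hcsm : ContDiff ℝ ∞ (fun v => (cut k v : ℂ)) := (ofRealCLM.contDiff (n := ∞)).comp (cut_smooth k)
  obtain ⟨ξ1, hξ1, hχ⟩ := mk_TF hcsm (cut_cs k)
  -- the moment
  have hM : Tendsto (fun T => M (zk k) T / NN q T) atTop (𝓝 (Pf (fun v => (cut k v : ℂ)))) := by
    refine (abs_iff (M_Gr k) q _ (P := fun T => PD k (fun v => (cut k v : ℂ)) ϑ T) fun η hη => ?_).2
      (hP _ hcsm (cut_cs k))
    obtain ⟨ξ2, hξ2, hz⟩ := mk_TF (φ := fun _ => (0:ℂ)) contDiff_const HasCompactSupport.zero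
    obtain ⟨ϑ', C, T0, a1, a2, hC, -, hb⟩ := pair_PD k hχ hξ1 hz hξ2 (fun v hv hk => by
      rw [cut_one (by linarith) (by linarith)]; simp) (ε := 1 / 2) (by norm_num) hη h0 h1
    refine ⟨ϑ', C, T0, by linarith, a2, hC, fun T hT => ?_⟩
    have := hb T hT
    rw [PD_zero, add_zero, Er_eq] at this
    exact this
  -- the rotated correlations
  have key : ∀ κ : ℝ, Tendsto (fun T => (cexp (κ * I) * (Cor (zk k) (α / Real.log T) T / (NN q T : ℂ))).re)
      atTop (𝓝 ((Pf (tst k α κ) - 2 * Pf (fun v => (cut k v : ℂ))) / 2)) := by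
    intro κ
    obtain ⟨ξ3, hξ3, ht⟩ := mk_TF (tst_smooth k α κ) (tst_cs k α κ)
    have l1 := hP _ (tst_smooth k α κ) (tst_cs k α κ)
    have l2 := hP _ hcsm (cut_cs k)
    have l3 := PD_St_lim k ht hξ3 hM h0 h1
    have l4 := PD_St_lim k hχ hξ1 hM h0 h1
    obtain ⟨C, hC, hb⟩ := Sp_tst k α κ
    have l5 : Tendsto (fun T => ((St (Fn (H k 1) T 0) (Real.log T) (fun v => ‖tst k α κ v‖ ^ 2) -
      2 * St (Fn (H k 1) T 0) (Real.log T) (fun v => ‖(cut k v : ℂ)‖ ^ 2)) -
      2 * Sp (Fn (H k 1) T 0) (α / Real.log T) κ) / NN q T) atTop (𝓝 0) := by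
      rw [Metric.tendsto_nhds]
      intro δ hδ
      filter_upwards [one_small q C (show 0 < δ / 2 by positivity), eventually_ge_atTop (Real.exp 1),
        eventually_gt_atTop 1] with T a1 a2 a3
      have hN := NN_pos q a3
      rw [Real.dist_eq, sub_zero, abs_div, abs_of_pos hN, div_lt_iff₀ hN]
      have := hb T a2
      have h5 : 0 < δ * NN q T := by positivity
      linarith
    have l6 := (Complex.continuous_re.tendsto _).comp ((Cor_Rs_lim k hM α).const_mul (cexp (κ * I)))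
    rw [mul_zero, Complex.zero_re] at l6
    have lim := l6.add ((((l1.sub l3).sub ((l2.sub l4).const_mul 2)).sub l5).div_const 2)
    rw [sub_zero, sub_zero, sub_zero, zero_add] at lim
    refine lim.congr' ?_
    filter_upwards [eventually_gt_atTop 1] with T hT
    have hF := Fn_dec D.pg hT.le (r := 0) (neg_nonpos.2 (Nat.cast_nonneg 1)) (Nat.cast_nonneg 1)
    have hN := NN_pos q hT
    have e := Rs_Sp hF (α / Real.log T) κ
    simp only [Function.comp]
    have e2 : (cexp (κ * I) * ((Cor (zk k) (α / Real.log T) T - Rs (Fn (H k 1) T 0) (α / Real.log T)) /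
        (NN q T : ℂ))).re = (cexp (κ * I) * (Cor (zk k) (α / Real.log T) T / (NN q T : ℂ))).re -
        Sp (Fn (H k 1) T 0) (α / Real.log T) κ / NN q T := by
      rw [← e, sub_div, mul_sub, Complex.sub_re]
      congr 1
      rw [← mul_div_assoc, Complex.div_ofReal_re]
    rw [e2]
    field_simp
    ring
  have kr := key 0
  have ki := key (-(Real.pi / 2))
  have er : cexp (-(Real.pi / 2 : ℝ) * I) = -I := by
    rw [neg_mul, Complex.exp_neg]
    push_cast
    rw [Complex.exp_pi_div_two_mul_I, Complex.inv_I]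
  have h3 := ((Complex.continuous_ofReal.tendsto _).comp kr).add
    (((Complex.continuous_ofReal.tendsto _).comp ki).mul_const I)
  refine h3.congr fun T => ?_
  simp only [Function.comp, Complex.ofReal_zero, zero_mul, Complex.exp_zero, one_mul, Complex.ofReal_neg]
  rw [er]
  apply Complex.ext <;> simp

end

end Pool.Agent.J4.H44.LP
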