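import Pool.Agent.J4.H44.LP.Sw
import Pool.Agent.J4.H44.OL.Wc

set_option autoImplicit false

/-! Truncated characteristic polynomials. -/

namespace Pool.Agent.J4.H44.LP

open Complex MeasureTheory Filter Topology Set Pool.Agent.W182.KO Pool.Agent.R446.KR
open scoped ContDiff ComplexConjugate Matrix

noncomputable section

variable {ξ1 : ℝ} {φ : ℝ → ℂ}

/-- polynomials with continuous coefficients -/
def CC {X : Type} [TopologicalSpace X] (f : X → Polynomial ℂ) : Prop := ∀ m, Continuous fun x => (f x).coeff m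

section
variable {X : Type} [TopologicalSpace X]

lemma CC.mul {f g : X → Polynomial ℂ} (hf : CC f) (hg : CC g) : CC (fun x => f x * g x) := by
  intro m
  simp only [Polynomial.coeff_mul]
  exact continuous_finsetSum _ fun p _ => (hf p.1).mul (hg p.2)

lemma CC.const (p : Polynomial ℂ) : CC (fun _ : X => p) := fun _ => continuous_const

lemma CC.add {f g : X → Polynomial ℂ} (hf : CC f) (hg : CC g) : CC (fun x => f x + g x) := by
  intro m
  simp only [Polynomial.coeff_add]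
  exact (hf m).add (hg m)

lemma CC.C {a : X → ℂ} (ha : Continuous a) : CC (fun x => Polynomial.C (a x)) := by
  intro m
  simp only [Polynomial.coeff_C]
  split_ifs
  · exact ha
  · exact continuous_const

lemma CC.sum {ι : Type} (s : Finset ι) {f : ι → X → Polynomial ℂ} (hf : ∀ i ∈ s, CC (f i)) :
    CC (fun x => ∑ i ∈ s, f i x) := by
  intro m
  simp only [Polynomial.finsetSum_coeff]
  exact continuous_finsetSum _ fun i hi => hf i hi m

lemma CC.prod {ι : Type} (s : Finset ι) {f : ι → X → Polynomial ℂ} (hf : ∀ i ∈ s, CC (f i)) :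
    CC (fun x => ∏ i ∈ s, f i x) := by
  classical
  induction s using Finset.induction_on with
  | empty => simpa using CC.const (X := X) (1 : Polynomial ℂ)
  | insert a s ha ih =>
      simp only [Finset.prod_insert ha]
      exact (hf a (Finset.mem_insert_self _ _)).mul (ih fun i hi => hf i (Finset.mem_insert_of_mem hi))

lemma CC.pow {f : X → Polynomial ℂ} (hf : CC f) (k : ℕ) : CC (fun x => f x ^ k) := by
  induction k with
  | zero => simpa using CC.const (X := X) (1 : Polynomial ℂ)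
  | succ k ih =>
      simp only [pow_succ]
      exact ih.mul hf

end

lemma pp_CC (k N : ℕ) : CC (fun U : Matrix.unitaryGroup (Fin N) ℂ => pp k (U : Matrix (Fin N) (Fin N) ℂ)) := by
  unfold pp
  refine CC.pow ?_ k
  simp only [Matrix.det_apply']
  refine CC.sum _ fun σ _ => CC.mul (CC.const _) (CC.prod _ fun i _ => ?_)
  simp only [Matrix.add_apply, Matrix.smul_apply, Matrix.map_apply, Matrix.neg_apply, smul_eq_mul]
  refine CC.add (CC.mul (CC.const _) (CC.C ?_)) (CC.const _)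
  have h : Continuous (fun U : Matrix.unitaryGroup (Fin N) ℂ => (U : Matrix (Fin N) (Fin N) ℂ)) :=
    continuous_subtype_val
  exact (h.matrix_elem (σ i) i).neg

/-- the mean squares of the coefficients -/
def mu (k N m : ℕ) : ℝ := ((N : ℝ) ^ (k ^ 2))⁻¹ * ∫ U : Matrix.unitaryGroup (Fin N) ℂ,
  ‖(pp k (U : Matrix (Fin N) (Fin N) ℂ)).coeff m‖ ^ 2 ∂(haarU N)

lemma mu_nonneg (k N m : ℕ) : 0 ≤ mu k N m :=
  mul_nonneg (by positivity) (integral_nonneg fun _ => by positivity)

lemma co_int (k N m : ℕ) : Integrable (fun U : Matrix.unitaryGroup (Fin N) ℂ =>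
    ‖(pp k (U : Matrix (Fin N) (Fin N) ℂ)).coeff m‖ ^ 2) (haarU N) :=
  (((pp_CC k N m).norm.pow 2)).integrable_of_hasCompactSupport (HasCompactSupport.of_compactSpace _)

/-- the mean square of the smoothed `det(1 - xU)^k` -/
def Vk (k : ℕ) (φ : ℝ → ℂ) (N : ℕ) : ℝ :=
  ((N : ℝ) ^ (k ^ 2))⁻¹ * ∫ U : Matrix.unitaryGroup (Fin N) ℂ,
    ∑ m ∈ Finset.range (k * N + 1), ‖φ (m / N)‖ ^ 2 * ‖(pp k (U : Matrix (Fin N) (Fin N) ℂ)).coeff m‖ ^ 2 ∂(haarU N)

lemma Vk_eq (k : ℕ) (φ : ℝ → ℂ) (N : ℕ) :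
    Vk k φ N = ∑ m ∈ Finset.range (k * N + 1), ‖φ (m / N)‖ ^ 2 * mu k N m := by
  unfold Vk mu
  rw [integral_finsetSum _ fun m _ => (co_int k N m).const_mul _, Finset.mul_sum]
  refine Finset.sum_congr rfl fun m _ => ?_
  rw [integral_const_mul]
  ring

lemma Wk_eq (k : ℕ) (α : ℝ) {N : ℕ} (hN : 1 ≤ N) :
    Wk k α N = ∑ m ∈ Finset.range (k * N + 1), (mu k N m : ℂ) * cexp (-(2 * α * (m / N : ℝ) : ℝ) * I) := by
  have hN0 : (0:ℝ) < N := by exact_mod_cast hN
  have hNc : (N : ℂ) ≠ 0 := by exact_mod_cast hN0.ne'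
  have h1 : Wk k α N = ((N : ℂ) ^ (k ^ 2))⁻¹ * ∫ U, av k N (cexp (-(I * α / N))) U ∂(haarU N) := by
    rw [← av_int]; rfl
  rw [h1]
  unfold av
  rw [integral_finsetSum _ fun m _ => ((co_int k N m).ofReal).mul_const _, Finset.mul_sum]
  refine Finset.sum_congr rfl fun m _ => ?_
  rw [integral_mul_const, integral_complex_ofReal, ← Complex.exp_nat_mul]
  unfold mu
  push_cast
  rw [← mul_assoc]
  congr 2
  field_simp

/-- the zero shift bounds all shifts -/
lemma Wk_le (k : ℕ) (α : ℝ) {N : ℕ} (hN : 1 ≤ N) : ‖Wk k α N‖ ≤ ‖Wk k 0 N‖ := by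
  have h0 : Wk k 0 N = ((∑ m ∈ Finset.range (k * N + 1), mu k N m : ℝ) : ℂ) := by
    rw [Wk_eq k 0 hN]
    push_cast
    refine Finset.sum_congr rfl fun m _ => ?_
    simp
  rw [h0, Complex.norm_real, Real.norm_of_nonneg (Finset.sum_nonneg fun m _ => mu_nonneg k N m),
    Wk_eq k α hN]
  refine (norm_sum_le _ _).trans (Finset.sum_le_sum fun m _ => ?_)
  rw [norm_mul, ← Complex.ofReal_neg, Complex.norm_exp_ofReal_mul_I, mul_one, Complex.norm_real,
    Real.norm_of_nonneg (mu_nonneg k N m)]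

/-- **shifts determine truncated polynomials** -/
lemma Vk_int (k : ℕ) (hφ : TF ξ1 φ) {N : ℕ} (hN : 1 ≤ N) :
    ((Vk k φ N : ℝ) : ℂ) = ∫ y, KL (sqm φ) 1 y * Wk k (y / 2) N := by
  have hs := sqm_TF hφ
  have hK := KL_int hs one_pos
  rw [Vk_eq]
  have e : (fun y => KL (sqm φ) 1 y * Wk k (y / 2) N) = fun y => ∑ m ∈ Finset.range (k * N + 1),
      (mu k N m : ℂ) * (KL (sqm φ) 1 y * cexp (-((m / N : ℝ) * (1:ℝ) * y) * I)) := by
    funext y
    rw [Wk_eq k _ hN, Finset.mul_sum]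
    refine Finset.sum_congr rfl fun m _ => ?_
    rw [mul_left_comm]
    congr 3
    push_cast
    ring
  have hi : ∀ m : ℕ, Integrable (fun y : ℝ => KL (sqm φ) 1 y * cexp (-((m / N : ℝ) * (1:ℝ) * y) * I)) := fun m => by
    refine hK.norm.mono' ?_ (Eventually.of_forall fun y => ?_)
    · have := KL_cont hs 1
      refine Continuous.aestronglyMeasurable ?_
      fun_prop
    · have e2 : cexp (-((m / N : ℝ) * (1:ℝ) * y) * I) = cexp (((-(m / N * 1 * y) : ℝ) : ℂ) * I) := by
        push_cast; ring_nf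
      rw [norm_mul, e2, Complex.norm_exp_ofReal_mul_I, mul_one]
  rw [e, integral_finsetSum _ fun m _ => (hi m).const_mul _]
  push_cast
  refine Finset.sum_congr rfl fun m _ => ?_
  rw [integral_const_mul]
  have h3 := KL_symbol hs one_pos (m / N : ℝ)
  push_cast at h3 ⊢
  rw [h3]
  unfold sqm
  push_cast
  ring

/-- **truncated polynomials determine shifts** -/
lemma Wk_re (k : ℕ) (α κ : ℝ) {N : ℕ} (hN : 1 ≤ N) :
    (cexp (κ * I) * Wk k α N).re = (Vk k (tst k α κ) N - 2 * Vk k (fun v => (cut k v : ℂ)) N) / 2 := by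
  have hN0 : (0:ℝ) < N := by exact_mod_cast hN
  rw [Wk_eq k α hN, Vk_eq, Vk_eq, Finset.mul_sum, Complex.re_sum, Finset.mul_sum, ← Finset.sum_sub_distrib,
    Finset.sum_div]
  refine Finset.sum_congr rfl fun m hm => ?_
  have hm1 : m ≤ k * N := by have := Finset.mem_range.1 hm; omega
  have hm2 : (m : ℝ) / N ≤ k := by
    rw [div_le_iff₀ hN0]; exact_mod_cast hm1
  have hm3 : (0:ℝ) ≤ (m : ℝ) / N := by positivity
  have hc : cut k (m / N) = 1 := cut_one (by linarith) (by linarith)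
  rw [tst_sq, hc, Complex.norm_real, Real.norm_eq_abs, abs_one]
  have e : cexp (κ * I) * ((mu k N m : ℂ) * cexp (-(2 * α * (m / N : ℝ) : ℝ) * I)) =
      (mu k N m : ℂ) * cexp (((κ - 2 * α * (m / N) : ℝ) : ℂ) * I) := by
    rw [mul_left_comm, ← Complex.exp_add]
    congr 2
    push_cast; ring
  rw [e, Complex.re_ofReal_mul, Complex.exp_ofReal_mul_I_re]
  have e2 : Real.cos (κ - 2 * α * (m / N)) = Real.cos (2 * α * (m / N) - κ) := by
    rw [← Real.cos_neg]; congr 1; ring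
  rw [e2]
  ring

lemma Wk_V (k : ℕ) (α : ℝ) {N : ℕ} (hN : 1 ≤ N) : Wk k α N =
    (((Vk k (tst k α 0) N - 2 * Vk k (fun v => (cut k v : ℂ)) N) / 2 : ℝ) : ℂ) +
      (((Vk k (tst k α (-(Real.pi / 2))) N - 2 * Vk k (fun v => (cut k v : ℂ)) N) / 2 : ℝ) : ℂ) * I := by
  rw [← Wk_re k α 0 hN, ← Wk_re k α (-(Real.pi / 2)) hN]
  have er : cexp (-(Real.pi / 2 : ℝ) * I) = -I := by
    rw [neg_mul, Complex.exp_neg]
    push_cast
    rw [Complex.exp_pi_div_two_mul_I, Complex.inv_I]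
  simp only [Complex.ofReal_zero, zero_mul, Complex.exp_zero, one_mul, Complex.ofReal_neg]
  rw [er]
  apply Complex.ext <;> simp

end

end Pool.Agent.J4.H44.LP
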