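import Pool.Agent.J4.H44.LP.Ex

set_option autoImplicit false

/-! The Tauberian equivalence between a monotone function and its approximate companion. -/

namespace Pool.Agent.J4.H44.LP

open MeasureTheory Filter Topology Set Pool.Agent.R446.KR

noncomputable section

/-- the bracket of error terms -/
def Br (F : ℝ → ℝ) (ϑ T : ℝ) : ℝ :=
  1 + (2 * F (T ^ (1 / 2 : ℝ)) + (F (T + T ^ (1 / 2 : ℝ)) - F (T - T ^ (1 / 2 : ℝ)))) + F (2 * T ^ ϑ)

lemma NN_ge (q : ℕ) : ∀ᶠ T : ℝ in atTop, T ≤ NN q T := by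
  filter_upwards [Real.tendsto_log_atTop.eventually_ge_atTop 1, eventually_ge_atTop 0] with T h1 h2
  unfold NN
  have : (1:ℝ) ≤ Real.log T ^ q := one_le_pow₀ h1
  nlinarith

lemma one_small (q : ℕ) (C : ℝ) {δ : ℝ} (hδ : 0 < δ) : ∀ᶠ T : ℝ in atTop, C ≤ δ * NN q T := by
  filter_upwards [NN_ge q, eventually_ge_atTop (|C| / δ)] with T h1 h2
  rw [div_le_iff₀ hδ] at h2
  have := le_abs_self C
  nlinarith

/-- an upper bound of the expected size makes the mass up to `a T ^ θ` negligible -/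
lemma small_shift {F : ℝ → ℝ} {q : ℕ} {C : ℝ} (hC : 0 ≤ C) (h : ∀ᶠ T : ℝ in atTop, F T ≤ C * NN q T)
    {a θ : ℝ} (ha : 0 < a) (hθ0 : 0 < θ) (hθ : θ < 1) {δ : ℝ} (hδ : 0 < δ) :
    ∀ᶠ T : ℝ in atTop, F (a * T ^ θ) ≤ δ * NN q T := by
  have t1 : Tendsto (fun T : ℝ => a * T ^ θ) atTop atTop := (tendsto_rpow_atTop hθ0).const_mul_atTop ha
  have t2 : Tendsto (fun T : ℝ => T ^ (1 - θ)) atTop atTop := tendsto_rpow_atTop (by linarith)
  filter_upwards [t1.eventually h, t1.eventually_ge_atTop 1, t2.eventually_ge_atTop (C * a / δ),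
    t2.eventually_ge_atTop a, eventually_gt_atTop 1] with T h1 h2 h3 h4 h5
  have hT : 0 < T := by linarith
  have hl := Real.log_pos h5
  have e1 : T = T ^ θ * T ^ (1 - θ) := by
    rw [← Real.rpow_add hT, show θ + (1 - θ) = 1 by ring, Real.rpow_one]
  have hθp : 0 < T ^ θ := by positivity
  have h6 : a * T ^ θ ≤ T := by
    nth_rewrite 2 [e1]
    rw [mul_comm]
    exact mul_le_mul_of_nonneg_left h4 hθp.le
  have h7 : Real.log (a * T ^ θ) ^ q ≤ Real.log T ^ q :=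
    pow_le_pow_left₀ (Real.log_nonneg h2) (Real.log_le_log (by linarith) h6) q
  rw [div_le_iff₀ hδ] at h3
  refine h1.trans ?_
  unfold NN
  calc C * (a * T ^ θ * Real.log (a * T ^ θ) ^ q) ≤ C * (a * T ^ θ * Real.log T ^ q) := by gcongr
    _ = (C * a) * (T ^ θ * Real.log T ^ q) := by ring
    _ ≤ (T ^ (1 - θ) * δ) * (T ^ θ * Real.log T ^ q) := by gcongr
    _ = δ * ((T ^ θ * T ^ (1 - θ)) * Real.log T ^ q) := by ring
    _ = δ * (T * Real.log T ^ q) := by rw [← e1]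

lemma ratio_bd {F : ℝ → ℝ} {q : ℕ} {c : ℝ} (h : Tendsto (fun T => F T / NN q T) atTop (𝓝 c)) {δ : ℝ}
    (hδ : 0 < δ) : ∀ᶠ T : ℝ in atTop, |F T - c * NN q T| ≤ δ * NN q T := by
  have h1 := (Metric.tendsto_nhds.1 h δ hδ)
  filter_upwards [h1, eventually_gt_atTop 1] with T h2 h3
  have hN := NN_pos q h3
  rw [Real.dist_eq, show F T / NN q T - c = (F T - c * NN q T) / NN q T by field_simp, abs_div,
    abs_of_pos hN, div_lt_iff₀ hN] at h2
  exact h2.le

lemma ratio_of {F : ℝ → ℝ} {q : ℕ} {c : ℝ} (h : ∀ δ : ℝ, 0 < δ → ∀ᶠ T : ℝ in atTop,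
    |F T - c * NN q T| ≤ δ * NN q T) : Tendsto (fun T => F T / NN q T) atTop (𝓝 c) := by
  rw [Metric.tendsto_nhds]
  intro δ hδ
  filter_upwards [h (δ / 2) (by positivity), eventually_gt_atTop 1] with T h2 h3
  have hN := NN_pos q h3
  rw [Real.dist_eq, show F T / NN q T - c = (F T - c * NN q T) / NN q T by field_simp, abs_div,
    abs_of_pos hN, div_lt_iff₀ hN]
  nlinarith

lemma up_of_ratio {F : ℝ → ℝ} {q : ℕ} {c : ℝ} (h : Tendsto (fun T => F T / NN q T) atTop (𝓝 c)) :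
    ∀ᶠ T : ℝ in atTop, F T ≤ (|c| + 1) * NN q T := by
  filter_upwards [ratio_bd h one_pos, eventually_gt_atTop 1] with T h1 h2
  have hN := NN_pos q h2
  have h3 := (abs_le.1 h1).2
  have h4 : c * NN q T ≤ |c| * NN q T := mul_le_mul_of_nonneg_right (le_abs_self c) hN.le
  linarith

/-- short intervals carry little mass -/
lemma near_small {F : ℝ → ℝ} {q : ℕ} {c : ℝ} (h : Tendsto (fun T => F T / NN q T) atTop (𝓝 c)) {δ : ℝ}
    (hδ : 0 < δ) : ∀ᶠ T : ℝ in atTop,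
      F (T + T ^ (1 / 2 : ℝ)) - F (T - T ^ (1 / 2 : ℝ)) ≤ δ * NN q T := by
  set ε : ℝ := min 1 (δ / (2 * |c| + 4)) with hε
  have hε0 : 0 < ε := by positivity
  have hε1 : ε ≤ 1 := min_le_left _ _
  have hε2 : ε * (2 * |c| + 4) ≤ δ := by
    have := min_le_right 1 (δ / (2 * |c| + 4))
    rwa [← hε, le_div_iff₀ (by positivity)] at this
  obtain ⟨d, T1, hd0, hd1, hT1, hN⟩ := NN_slow q hε0
  obtain ⟨T2, hT2⟩ := eventually_atTop.1 (ratio_bd h hε0)
  have t2 : Tendsto (fun T : ℝ => T ^ (1 / 2 : ℝ)) atTop atTop := tendsto_rpow_atTop (by norm_num)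
  filter_upwards [t2.eventually_ge_atTop (1 / d), eventually_ge_atTop T1, eventually_ge_atTop (2 * |T2|),
    eventually_ge_atTop 4] with T h1 h2 h3 h4
  have hT : 0 < T := by linarith
  set s : ℝ := T ^ (1 / 2 : ℝ) with hs
  have hss : s * s = T := by
    rw [hs, ← Real.rpow_add hT]; norm_num
  have hs0 : 0 < s := by positivity
  have hsd : s ≤ d * T := by
    rw [div_le_iff₀ hd0] at h1
    nlinarith
  have hsT : s ≤ T / 4 := by nlinarith
  have hNT : 0 < NN q T := NN_pos q (by linarith)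
  have a1 := hN T (T + s) h2 (by rw [add_sub_cancel_left, abs_of_pos hs0]; exact hsd)
  have a2 := hN T (T - s) h2 (by rw [sub_sub_cancel_left, abs_neg, abs_of_pos hs0]; exact hsd)
  have hab := le_abs_self T2
  have hab0 := abs_nonneg T2
  have b1 := hT2 (T + s) (by linarith)
  have b2 := hT2 (T - s) (by linarith)
  obtain ⟨N, hNd⟩ : ∃ N, N = NN q T := ⟨_, rfl⟩
  rw [← hNd] at a1 a2 hNT ⊢
  have p1 : NN q (T + s) ≤ 2 * N := by have := (abs_le.1 a1).2; nlinarith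
  have p2 : NN q (T - s) ≤ 2 * N := by have := (abs_le.1 a2).2; nlinarith
  have c1 : ε * NN q (T + s) ≤ ε * (2 * N) := mul_le_mul_of_nonneg_left p1 hε0.le
  have c2 : ε * NN q (T - s) ≤ ε * (2 * N) := mul_le_mul_of_nonneg_left p2 hε0.le
  have c3 : |c * (NN q (T + s) - NN q (T - s))| ≤ |c| * (2 * (ε * N)) := by
    rw [abs_mul]
    refine mul_le_mul_of_nonneg_left ?_ (abs_nonneg _)
    have : NN q (T + s) - NN q (T - s) = (NN q (T + s) - N) - (NN q (T - s) - N) := by ring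
    rw [this]
    refine (abs_sub _ _).trans ?_
    linarith
  have c4 := (abs_le.1 c3).2
  have c5 := (abs_le.1 b1).2
  have c6 := (abs_le.1 b2).1
  have c7 : ε * (2 * |c| + 4) * N ≤ δ * N := mul_le_mul_of_nonneg_right hε2 hNT.le
  linarith

lemma NN_two (q : ℕ) {T : ℝ} (hT : 4 ≤ T) : NN q (2 * T) ≤ 2 ^ (q + 1) * NN q T := by
  have hT0 : 0 < T := by linarith
  unfold NN
  have y2 : Real.log (2 * T) ≤ 2 * Real.log T := by
    rw [Real.log_mul (by norm_num) hT0.ne', two_mul]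
    have := Real.log_le_log (show (0:ℝ) < 2 by norm_num) (show (2:ℝ) ≤ T by linarith)
    linarith
  have y3 : 0 ≤ Real.log (2 * T) := Real.log_nonneg (by linarith)
  calc 2 * T * Real.log (2 * T) ^ q ≤ 2 * T * (2 * Real.log T) ^ q := by gcongr
    _ = _ := by rw [mul_pow, pow_succ]; ring

/-- an upper bound for the companion gives one for the monotone function -/
theorem up_of_P {F P : ℝ → ℝ} (G : Gr F) (q : ℕ)
    (hP : ∀ η : ℝ, 0 < η → ∃ ϑ C T0 : ℝ, 0 < ϑ ∧ ϑ < 1 ∧ 0 ≤ C ∧ ∀ T : ℝ, T0 ≤ T →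
      |P T - F T| ≤ η * F T + C * Br F ϑ T) {A0 : ℝ} (hA0 : 0 ≤ A0)
    (hPup : ∀ᶠ T : ℝ in atTop, P T ≤ A0 * NN q T) :
    ∃ C T2 : ℝ, 0 ≤ C ∧ ∀ T : ℝ, T2 ≤ T → F T ≤ C * NN q T := by
  obtain ⟨ϑ, C1, T0, h0, h1, hC1, hb⟩ := hP (1 / 4) (by norm_num)
  obtain ⟨X0, hX0, hgood⟩ := good_above G (ε := 1 / 2) (by norm_num) (by norm_num)
    (η := 1 / (4 * (C1 + 1))) (by positivity)
  obtain ⟨T3, hT3⟩ := eventually_atTop.1 hPup
  set β : ℝ := max ϑ (1 / 2) with hβ
  have hβ0 : 0 < β := lt_of_lt_of_le h0 (le_max_left _ _)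
  have hβ1 : β < 1 := max_lt h1 (by norm_num)
  obtain ⟨T4, hT4⟩ := eventually_atTop.1 (one_small q 1 one_pos)
  refine boot G q hβ0 hβ1 ⟨(A0) * 2 * 2 ^ (q + 1) + 4 * C1 + 6 * C1 + 1, max (max T0 X0) (max T3 (max T4 4)), by positivity,
    fun T hT => ?_⟩
  have u0 : T0 ≤ T := ((le_max_left _ _).trans (le_max_left _ _)).trans hT
  have u1 : X0 ≤ T := ((le_max_right _ _).trans (le_max_left _ _)).trans hT
  have u2 : T3 ≤ T := ((le_max_left _ _).trans (le_max_right _ _)).trans hT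
  have u3 : T4 ≤ T := ((le_max_left _ _).trans ((le_max_right _ _).trans (le_max_right _ _))).trans hT
  have u4 : (4:ℝ) ≤ T := ((le_max_right _ _).trans ((le_max_right _ _).trans (le_max_right _ _))).trans hT
  have hT0 : 0 < T := by linarith
  obtain ⟨T', ⟨v1, v2⟩, v3⟩ := hgood T u1
  have hT'0 : 0 < T' := by linarith
  have w1 := hb T' (u0.trans v1)
  have w2 := hT3 T' (u2.trans v1)
  have w3 := hT4 T u3
  have hβT : T' ^ β ≤ 2 * T ^ β := by
    calc T' ^ β ≤ (2 * T) ^ β := Real.rpow_le_rpow hT'0.le v2 hβ0.le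
      _ = 2 ^ β * T ^ β := Real.mul_rpow (by norm_num) hT0.le
      _ ≤ 2 ^ (1:ℝ) * T ^ β := by
          gcongr
          · norm_num
      _ = _ := by rw [Real.rpow_one]
  have hTβ0 : 0 ≤ T' ^ β := by positivity
  have x1 : F (2 * T' ^ ϑ) ≤ F (4 * T ^ β) := by
    refine G.mono _ _ (by positivity) ?_
    have : T' ^ ϑ ≤ T' ^ β := Real.rpow_le_rpow_of_exponent_le (by linarith) (le_max_left _ _)
    linarith
  have x2 : F (T' ^ (1 / 2 : ℝ)) ≤ F (4 * T ^ β) := by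
    refine G.mono _ _ (by positivity) ?_
    have : T' ^ (1 / 2 : ℝ) ≤ T' ^ β := Real.rpow_le_rpow_of_exponent_le (by linarith) (le_max_right _ _)
    linarith
  have x3 : NN q T' ≤ 2 ^ (q + 1) * NN q T := by
    have y1 := NN_mono q (show 1 ≤ T' by linarith) v2
    refine y1.trans ?_
    unfold NN
    have y2 : Real.log (2 * T) ≤ 2 * Real.log T := by
      rw [Real.log_mul (by norm_num) hT0.ne', two_mul]
      have := Real.log_le_log (show (0:ℝ) < 2 by norm_num) (show (2:ℝ) ≤ T by linarith)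
      linarith
    have y3 : 0 ≤ Real.log (2 * T) := Real.log_nonneg (by linarith)
    calc 2 * T * Real.log (2 * T) ^ q ≤ 2 * T * (2 * Real.log T) ^ q := by gcongr
      _ = _ := by rw [mul_pow, pow_succ]; ring
  have hF' := G.nonneg T' hT'0.le
  have hF4 := G.nonneg (4 * T ^ β) (by positivity)
  have hm := G.mono T T' hT0.le v1
  have e1 : C1 * Br F ϑ T' ≤ C1 * (1 + (2 * F (4 * T ^ β) + 1 / (4 * (C1 + 1)) * (1 + F T')) + F (4 * T ^ β)) := by
    refine mul_le_mul_of_nonneg_left ?_ hC1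
    unfold Br; linarith
  have e2 : C1 * (1 / (4 * (C1 + 1)) * (1 + F T')) ≤ 1 / 4 * (1 + F T') := by
    have : C1 * (1 / (4 * (C1 + 1))) ≤ 1 / 4 := by
      rw [mul_one_div, div_le_div_iff₀ (by positivity) (by norm_num)]; linarith
    calc _ = C1 * (1 / (4 * (C1 + 1))) * (1 + F T') := by ring
      _ ≤ _ := mul_le_mul_of_nonneg_right this (by linarith)
  have w4 := (abs_le.1 w1).1
  have e3 : F T' ≤ 2 * P T' + 2 * C1 + 6 * C1 * F (4 * T ^ β) + 1 / 2 := by linarith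
  have hNT : 0 < NN q T := NN_pos q (by linarith)
  have e4 : (A0) * NN q T' ≤ (A0) * (2 ^ (q + 1) * NN q T) :=
    mul_le_mul_of_nonneg_left x3 (by positivity)
  have e5 : 0 ≤ (A0) * 2 * 2 ^ (q + 1) * F (4 * T ^ β) := by positivity
  have e6 : C1 * 1 ≤ C1 * NN q T := by
    refine mul_le_mul_of_nonneg_left ?_ hC1
    linarith
  have e7 : 0 ≤ C1 * NN q T := by positivity
  have e8 : 0 ≤ C1 * F (4 * T ^ β) := by positivity
  nlinarith

/-- order of magnitude -/
theorem abs_O {F P : ℝ → ℝ} (G : Gr F) (q : ℕ)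
    (hP : ∀ η : ℝ, 0 < η → ∃ ϑ C T0 : ℝ, 0 < ϑ ∧ ϑ < 1 ∧ 0 ≤ C ∧ ∀ T : ℝ, T0 ≤ T →
      |P T - F T| ≤ η * F T + C * Br F ϑ T) :
    (∃ C : ℝ, ∀ᶠ T : ℝ in atTop, F T ≤ C * NN q T) ↔ ∃ C : ℝ, ∀ᶠ T : ℝ in atTop, P T ≤ C * NN q T := by
  constructor
  · rintro ⟨C, hC⟩
    obtain ⟨ϑ, C1, T0, h0, h1, hC1, hb⟩ := hP 1 one_pos
    obtain ⟨T1, hT1⟩ := eventually_atTop.1 hC
    set C' : ℝ := |C| with hC'
    have hC'0 : 0 ≤ C' := abs_nonneg _
    refine ⟨2 * C' + C1 * (1 + 4 * (C' * 2 ^ (q + 1))), ?_⟩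
    filter_upwards [eventually_ge_atTop T0, eventually_ge_atTop T1, eventually_ge_atTop 4, NN_ge q]
      with T a0 a1 a2 a3
    have hT0 : 0 < T := by linarith
    have hup : ∀ S, T ≤ S → F S ≤ C' * NN q S := fun S hS => by
      refine (hT1 S (a1.trans hS)).trans (mul_le_mul_of_nonneg_right (le_abs_self C) ?_)
      exact (NN_pos q (by linarith)).le
    have b := hb T a0
    have hs : T ^ (1 / 2 : ℝ) ≤ T := by
      calc T ^ (1 / 2 : ℝ) ≤ T ^ (1:ℝ) := Real.rpow_le_rpow_of_exponent_le (by linarith) (by norm_num)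
        _ = T := Real.rpow_one T
    have hs2 : T ^ ϑ ≤ T := by
      calc T ^ ϑ ≤ T ^ (1:ℝ) := Real.rpow_le_rpow_of_exponent_le (by linarith) h1.le
        _ = T := Real.rpow_one T
    have hs0 : 0 ≤ T ^ (1 / 2 : ℝ) := by positivity
    have c1 := G.mono (T ^ (1 / 2 : ℝ)) (2 * T) hs0 (by linarith)
    have c2 := G.mono (T + T ^ (1 / 2 : ℝ)) (2 * T) (by linarith) (by linarith)
    have c3 := G.mono (2 * T ^ ϑ) (2 * T) (by positivity) (by linarith)
    have c4 := G.nonneg (T - T ^ (1 / 2 : ℝ)) (by linarith)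
    have c5 := hup (2 * T) (by linarith)
    have c6 := hup T le_rfl
    have c7 : C' * NN q (2 * T) ≤ C' * (2 ^ (q + 1) * NN q T) := mul_le_mul_of_nonneg_left (NN_two q a2) hC'0
    have hN : 0 < NN q T := NN_pos q (by linarith)
    have c8 : Br F ϑ T ≤ (1 + 4 * (C' * 2 ^ (q + 1))) * NN q T := by
      unfold Br
      have : 1 ≤ NN q T := by linarith
      nlinarith
    have c9 := mul_le_mul_of_nonneg_left c8 hC1
    have c10 := (abs_le.1 b).2
    nlinarith
  · rintro ⟨C, hC⟩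
    have hC' : ∀ᶠ T : ℝ in atTop, P T ≤ |C| * NN q T := by
      filter_upwards [hC, eventually_gt_atTop 1] with T h1 h2
      exact h1.trans (mul_le_mul_of_nonneg_right (le_abs_self C) (NN_pos q h2).le)
    obtain ⟨C2, T2, -, h⟩ := up_of_P G q hP (abs_nonneg C) hC'
    exact ⟨C2, eventually_atTop.2 ⟨T2, h⟩⟩

theorem abs_iff {F P : ℝ → ℝ} (G : Gr F) (q : ℕ) (c : ℝ)
    (hP : ∀ η : ℝ, 0 < η → ∃ ϑ C T0 : ℝ, 0 < ϑ ∧ ϑ < 1 ∧ 0 ≤ C ∧ ∀ T : ℝ, T0 ≤ T →
      |P T - F T| ≤ η * F T + C * Br F ϑ T) :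
    Tendsto (fun T => F T / NN q T) atTop (𝓝 c) ↔ Tendsto (fun T => P T / NN q T) atTop (𝓝 c) := by
  constructor
  · intro h
    have hup := up_of_ratio h
    have hc1 : 0 ≤ |c| + 1 := by positivity
    refine ratio_of fun δ hδ => ?_
    obtain ⟨ϑ, C, T0, h0, h1, hC, hb⟩ := hP (δ / (4 * (|c| + 1))) (by positivity)
    have s1 := one_small q 1 (show 0 < δ / (16 * (C + 1)) by positivity)
    have s2 := small_shift hc1 hup (a := 1) (θ := 1 / 2) one_pos (by norm_num) (by norm_num)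
      (show 0 < δ / (32 * (C + 1)) by positivity)
    have s3 := near_small h (show 0 < δ / (16 * (C + 1)) by positivity)
    have s4 := small_shift hc1 hup (a := 2) (θ := ϑ) two_pos h0 h1 (show 0 < δ / (16 * (C + 1)) by positivity)
    filter_upwards [s1, s2, s3, s4, hup, ratio_bd h (show 0 < δ / 4 by positivity), eventually_ge_atTop T0,
      eventually_gt_atTop 1] with T a1 a2 a3 a4 a5 a6 a7 a8
    have b := hb T a7
    rw [one_mul] at a2
    have hN := NN_pos q a8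
    obtain ⟨N, hNd⟩ : ∃ N, N = NN q T := ⟨_, rfl⟩
    rw [← hNd] at a1 a2 a3 a4 a5 a6 hN ⊢
    have e1 : Br F ϑ T ≤ δ / (16 * (C + 1)) * N + (2 * (δ / (32 * (C + 1)) * N) + δ / (16 * (C + 1)) * N) +
        δ / (16 * (C + 1)) * N := by
      unfold Br; linarith
    have e2 : C * Br F ϑ T ≤ δ / 4 * N := by
      calc C * Br F ϑ T ≤ C * (δ / (16 * (C + 1)) * N + (2 * (δ / (32 * (C + 1)) * N) +
            δ / (16 * (C + 1)) * N) + δ / (16 * (C + 1)) * N) := mul_le_mul_of_nonneg_left e1 hC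
        _ = (C / (C + 1)) * (δ / 4 * N) := by field_simp; ring
        _ ≤ 1 * (δ / 4 * N) := by
            refine mul_le_mul_of_nonneg_right ?_ (by positivity)
            rw [div_le_one (by linarith)]; linarith
        _ = _ := one_mul _
    have e3 : δ / (4 * (|c| + 1)) * F T ≤ δ / 4 * N := by
      calc δ / (4 * (|c| + 1)) * F T ≤ δ / (4 * (|c| + 1)) * ((|c| + 1) * N) :=
            mul_le_mul_of_nonneg_left a5 (by positivity)
        _ = _ := by field_simp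
    rw [abs_le] at b a6 ⊢
    constructor <;> linarith [b.1, b.2, a6.1, a6.2, mul_pos hδ hN]
  · intro h
    obtain ⟨C, T2, hC, hup⟩ := up_of_P G q hP (show 0 ≤ |c| + 1 by positivity) (up_of_ratio h)
    have hup' : ∀ᶠ T : ℝ in atTop, F T ≤ C * NN q T := eventually_atTop.2 ⟨T2, hup⟩
    refine monotone_step' G.mono fun ε δ hε hδ => ?_
    obtain ⟨ϑ, C1, T0, h0, h1, hC1, hb⟩ := hP (ε / (8 * (C + 1))) (by positivity)
    obtain ⟨X0, hX0, hexc⟩ := exc' G (ε := 1 / 2) (by norm_num) (by norm_num)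
      (η := ε / (8 * (C1 + 1) * (C + 1))) (by positivity) hδ
    have s1 := one_small q 1 (show 0 < ε / (32 * (C1 + 1)) by positivity)
    have s2 := small_shift hC hup' (a := 1) (θ := 1 / 2) one_pos (by norm_num) (by norm_num)
      (show 0 < ε / (64 * (C1 + 1)) by positivity)
    have s4 := small_shift hC hup' (a := 2) (θ := ϑ) two_pos h0 h1 (show 0 < ε / (32 * (C1 + 1)) by positivity)
    have sE := s1.and (s2.and (s4.and ((ratio_bd h (show 0 < ε / 4 by positivity)).and (NN_ge q))))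
    obtain ⟨T5, hT5⟩ := eventually_atTop.1 sE
    refine ⟨max (max T0 X0) (max T5 (max T2 4)), fun X hX => ?_⟩
    obtain ⟨E, hE1, hE2, hE3⟩ := hexc X (((le_max_right _ _).trans (le_max_left _ _)).trans hX)
    refine ⟨E, hE1, hE2, fun T hT hTE => ?_⟩
    have hXT := hT.1
    obtain ⟨a1, a2, a3, a4, a5⟩ := hT5 T ((((le_max_left _ _).trans (le_max_right _ _)).trans hX).trans hXT)
    have b := hb T ((((le_max_left _ _).trans (le_max_left _ _)).trans hX).trans hXT)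
    have b2 := hup T ((((le_max_left _ _).trans ((le_max_right _ _).trans (le_max_right _ _))).trans hX).trans hXT)
    have b4 : (4:ℝ) ≤ T :=
      (((le_max_right _ _).trans ((le_max_right _ _).trans (le_max_right _ _))).trans hX).trans hXT
    have b3 := hE3 T hT hTE
    rw [one_mul] at a2
    have hN : 0 < NN q T := NN_pos q (by linarith)
    have hN1 : 1 ≤ NN q T := by linarith
    obtain ⟨N, hNd⟩ : ∃ N, N = NN q T := ⟨_, rfl⟩
    rw [← hNd] at a1 a2 a3 a4 hN b2 hN1 ⊢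
    have hF := G.nonneg T (by linarith)
    have e0 : ε / (8 * (C1 + 1) * (C + 1)) * (1 + F T) ≤ ε / (8 * (C1 + 1)) * N := by
      calc ε / (8 * (C1 + 1) * (C + 1)) * (1 + F T) ≤ ε / (8 * (C1 + 1) * (C + 1)) * ((C + 1) * N) := by
            gcongr; linarith
        _ = _ := by field_simp
    have e1 : Br F ϑ T ≤ ε / (32 * (C1 + 1)) * N + (2 * (ε / (64 * (C1 + 1)) * N) + ε / (8 * (C1 + 1)) * N) +
        ε / (32 * (C1 + 1)) * N := by
      unfold Br; linarith
    have e2 : C1 * Br F ϑ T ≤ ε / 4 * N := by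
      calc C1 * Br F ϑ T ≤ C1 * (ε / (32 * (C1 + 1)) * N + (2 * (ε / (64 * (C1 + 1)) * N) +
            ε / (8 * (C1 + 1)) * N) + ε / (32 * (C1 + 1)) * N) := mul_le_mul_of_nonneg_left e1 hC1
        _ = (C1 / (C1 + 1)) * (7 / 32 * (ε * N)) := by field_simp; ring
        _ ≤ 1 * (7 / 32 * (ε * N)) := by
            refine mul_le_mul_of_nonneg_right ?_ (by positivity)
            rw [div_le_one (by linarith)]; linarith
        _ ≤ _ := by nlinarith [mul_pos hε hN]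
    have e3 : ε / (8 * (C + 1)) * F T ≤ ε / 8 * N := by
      calc ε / (8 * (C + 1)) * F T ≤ ε / (8 * (C + 1)) * ((C + 1) * N) := by
            gcongr; linarith
        _ = _ := by field_simp
    rw [abs_le] at b a4 ⊢
    constructor <;> linarith [b.1, b.2, a4.1, a4.2, mul_pos hε hN]

end

end Pool.Agent.J4.H44.LP
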