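import Pool.Agent.J4.H44.LP.Dq
import Pool.Agent.J4.H44.LP.Ab
import Pool.Agent.J4.H44.OL.Co

set_option autoImplicit false

/-! Shifted moments and the spectral functional. -/

namespace Pool.Agent.J4.H44.LP

open Complex MeasureTheory Filter Topology Set Pool.Agent.W182.KO Pool.Agent.R446.KR Pool.Agent.TH535.SM
open Pool.Agent.J4.H44.OL (Rs Rs_int Rs_Sp)
open scoped ContDiff FourierTransform ENNReal ComplexConjugate

noncomputable section

variable {ξ1 ξ2 : ℝ} {φ φ1 φ2 g : ℝ → ℂ} {z : ℝ → ℂ} {G : ℂ → ℂ} {u K : ℕ}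

lemma norm_le_of_rot {w : ℂ} {X : ℝ} (h : ∀ κ : ℝ, (cexp (κ * I) * w).re ≤ X) : ‖w‖ ≤ X := by
  have h1 := h (-(arg w))
  have e : cexp (((-(arg w) : ℝ) : ℂ) * I) * w = (‖w‖ : ℂ) := by
    nth_rewrite 2 [← Complex.norm_mul_exp_arg_mul_I w]
    rw [mul_left_comm, ← Complex.exp_add]
    push_cast
    rw [neg_mul, neg_add_cancel, Complex.exp_zero, mul_one]
  rw [e, Complex.ofReal_re] at h1
  exact h1

/-- the correlation against its spectral side -/
lemma Cor_Rs (D : Dat z G u K) {ε : ℝ} (hε : 0 < ε) (hε1 : ε < 1) :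
    ∃ C T0 : ℝ, 0 ≤ C ∧ 1 ≤ T0 ∧ ∀ T : ℝ, T0 ≤ T → ∀ a : ℝ, |a| ≤ 1 →
      ‖Cor z a T - Rs (Fn G T 0) a‖ ≤ ε * M z T + C * (1 + B z T) := by
  obtain ⟨C, T0, hC, hT0, h⟩ := spec_close D hε hε1
  refine ⟨C, T0, hC, hT0, fun T hT a ha => norm_le_of_rot fun κ => ?_⟩
  have hF := Fn_dec D.pg (hT0.trans hT) (r := 0) (neg_nonpos.2 (Nat.cast_nonneg u)) (Nat.cast_nonneg u)
  have h1 := h T hT a κ ha
  rw [← Rs_Sp hF] at h1
  rw [mul_sub, Complex.sub_re]
  exact (le_abs_self _).trans h1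

lemma Rs_le {F : ℝ → ℂ} (hF : Dec F) (a : ℝ) : ‖Rs F a‖ ≤ ∫ t, ‖F t‖ ^ 2 := by
  rw [← (planch hF).2]
  unfold Rs
  refine norm_integral_le_of_norm_le (planch hF).1 (Eventually.of_forall fun w => ?_)
  rw [norm_mul, Complex.norm_exp_ofReal_mul_I, one_mul, Complex.norm_real, Real.norm_of_nonneg (by positivity)]

lemma Rs_cont {F : ℝ → ℂ} (hF : Dec F) : Continuous (Rs F) := by
  unfold Rs
  refine continuous_of_dominated (bound := fun w => ‖𝓕 F w‖ ^ 2) (fun a => (Rs_int hF a).1) (fun a => ?_)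
    (planch hF).1 ?_
  · refine Eventually.of_forall fun w => ?_
    rw [norm_mul, Complex.norm_exp_ofReal_mul_I, one_mul, Complex.norm_real,
      Real.norm_of_nonneg (by positivity)]
  · refine Eventually.of_forall fun w => ?_
    fun_prop

/-- the complex spectral functional -/
def Sg (F : ℝ → ℂ) (L : ℝ) (g : ℝ → ℂ) : ℂ := ∫ w, g (-(2 * Real.pi * w / L)) * ((‖𝓕 F w‖ ^ 2 : ℝ) : ℂ)

lemma Sg_real {F : ℝ → ℂ} {L : ℝ} (g : ℝ → ℝ) : Sg F L (fun v => (g v : ℂ)) = (St F L g : ℂ) := by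
  unfold Sg St
  rw [← integral_complex_ofReal]
  refine integral_congr_ae (Eventually.of_forall fun w => ?_)
  simp only
  push_cast; ring

/-- a smooth test function is a superposition of shifts -/
lemma Sg_Rs (h : TF ξ1 g) {F : ℝ → ℂ} (hF : Dec F) {L : ℝ} (hL : 0 < L) :
    Sg F L g = ∫ y, KL g 1 y * Rs F (y / (2 * L)) := by
  have hK := KL_int h one_pos
  have hP := (planch hF).1
  have e1 : Sg F L g = ∫ w, ∫ y, KL g 1 y * (cexp ((4 * Real.pi * (y / (2 * L)) * w : ℝ) * I) *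
      ((‖𝓕 F w‖ ^ 2 : ℝ) : ℂ)) := by
    unfold Sg
    refine integral_congr_ae (Eventually.of_forall fun w => ?_)
    simp only
    rw [← KL_symbol h one_pos (-(2 * Real.pi * w / L)), ← integral_mul_const]
    refine integral_congr_ae (Eventually.of_forall fun y => ?_)
    simp only
    rw [mul_assoc]
    congr 3
    have hLc : (L : ℂ) ≠ 0 := by exact_mod_cast hL.ne'
    push_cast
    field_simp
    ring
  rw [e1, integral_integral_swap]
  · refine integral_congr_ae (Eventually.of_forall fun y => ?_)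
    simp only
    rw [integral_const_mul]
    rfl
  · have hprod : Integrable (fun p : ℝ × ℝ => (‖𝓕 F p.1‖ ^ 2) * ‖KL g 1 p.2‖) (volume.prod volume) :=
      hP.mul_prod hK.norm
    refine hprod.mono' ?_ (Eventually.of_forall fun p => ?_)
    · refine Continuous.aestronglyMeasurable ?_
      have h1 := KL_cont h 1
      have h2 := ft_cont hF
      unfold Function.uncurry
      fun_prop
    · unfold Function.uncurry
      rw [norm_mul, norm_mul, Complex.norm_exp_ofReal_mul_I, one_mul, Complex.norm_real,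
        Real.norm_of_nonneg (by positivity), mul_comm]

/-- the square of the modulus of a cut-off -/
def sqm (φ : ℝ → ℂ) (v : ℝ) : ℂ := ((‖φ v‖ ^ 2 : ℝ) : ℂ)

lemma sqm_TF (h : TF ξ1 φ) : TF ξ1 (sqm φ) := by
  have e : sqm φ = fun v => φ v * conj (φ v) := by
    funext v
    unfold sqm
    rw [Complex.mul_conj, Complex.normSq_eq_norm_sq]
  refine ⟨?_, ?_, fun v hv => ?_⟩
  · rw [e]
    exact h.cd.mul ((conjCLE.contDiff (n := ∞)).comp h.cd)
  · rw [e]
    exact h.cs.mul_right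
  · unfold sqm
    rw [h.sp v hv]; simp

/-- the error terms are small if the moment is asymptotic -/
lemma Er_small (k : ℕ) {q : ℕ} {c : ℝ} (h : Tendsto (fun T => M (zk k) T / NN q T) atTop (𝓝 c)) {ϑ : ℝ}
    (h0 : 0 < ϑ) (h1 : ϑ < 1) {δ : ℝ} (hδ : 0 < δ) : ∀ᶠ T : ℝ in atTop, Er k (1 / 2) ϑ T ≤ δ * NN q T := by
  have hup := up_of_ratio h
  have hc1 : 0 ≤ |c| + 1 := by positivity
  have s1 := one_small q 1 (show 0 < δ / 4 by positivity)
  have s2 := small_shift hc1 hup (a := 1) (θ := 1 / 2) one_pos (by norm_num) (by norm_num)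
    (show 0 < δ / 8 by positivity)
  have s3 := near_small h (show 0 < δ / 4 by positivity)
  have s4 := small_shift hc1 hup (a := 2) (θ := ϑ) two_pos h0 h1 (show 0 < δ / 4 by positivity)
  filter_upwards [s1, s2, s3, s4] with T a1 a2 a3 a4
  rw [one_mul] at a2
  rw [Er_eq]
  linarith

/-- the shifted moments on the scale `1 / log T` against the spectral side, normalised -/
lemma Cor_Rs_lim (k : ℕ) {q : ℕ} {c : ℝ} (h : Tendsto (fun T => M (zk k) T / NN q T) atTop (𝓝 c))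
    (α : ℝ) : Tendsto (fun T => (Cor (zk k) (α / Real.log T) T - Rs (Fn (H k 1) T 0) (α / Real.log T)) /
      (NN q T : ℂ)) atTop (𝓝 0) := by
  have D := zk_dat k (u := 1) le_rfl
  rw [tendsto_zero_iff_norm_tendsto_zero, Metric.tendsto_nhds]
  intro δ hδ
  obtain ⟨C, T0, hC, hT0, h1⟩ := Cor_Rs D (ε := min (1 / 2) (δ / (4 * (|c| + 1)))) (by positivity)
    (lt_of_le_of_lt (min_le_left _ _) (by norm_num))
  have s1 := one_small q 1 (show 0 < δ / (8 * (C + 1)) by positivity)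
  have s2 := bsmall D h (show 0 < δ / (8 * (C + 1)) by positivity)
  filter_upwards [s1, s2, up_of_ratio h, eventually_ge_atTop T0, eventually_gt_atTop 1,
    Real.tendsto_log_atTop.eventually_ge_atTop (|α| + 1)] with T a1 a2 a3 a4 a5 a6
  have hN := NN_pos q a5
  have hM := M_nonneg (zk k) (T := T) (by linarith)
  have hl : 0 < Real.log T := by have := abs_nonneg α; linarith
  have hα : |α / Real.log T| ≤ 1 := by
    rw [abs_div, abs_of_pos hl, div_le_one hl]; linarith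
  have h2 := h1 T a4 _ hα
  rw [Real.dist_eq, sub_zero, abs_of_nonneg (norm_nonneg _), norm_div, Complex.norm_real,
    Real.norm_of_nonneg hN.le, div_lt_iff₀ hN]
  have h3 : min (1 / 2) (δ / (4 * (|c| + 1))) * M (zk k) T ≤ δ / 4 * NN q T := by
    calc _ ≤ δ / (4 * (|c| + 1)) * M (zk k) T := mul_le_mul_of_nonneg_right (min_le_right _ _) hM
      _ ≤ δ / (4 * (|c| + 1)) * ((|c| + 1) * NN q T) := mul_le_mul_of_nonneg_left a3 (by positivity)
      _ = _ := by field_simp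
  have h4 : C * (1 + B (zk k) T) ≤ δ / 4 * NN q T := by
    calc C * (1 + B (zk k) T) ≤ C * (δ / (8 * (C + 1)) * NN q T + δ / (8 * (C + 1)) * NN q T) :=
          mul_le_mul_of_nonneg_left (add_le_add a1 a2) hC
      _ = (C / (C + 1)) * (δ / 4 * NN q T) := by field_simp; ring
      _ ≤ 1 * (δ / 4 * NN q T) := by
          refine mul_le_mul_of_nonneg_right ?_ (by positivity)
          rw [div_le_one (by linarith)]; linarith
      _ = _ := one_mul _
  have h5 : 0 < δ * NN q T := by positivity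
  linarith

/-- the polynomial against the spectral side, normalised -/
lemma PD_St_lim (k : ℕ) (hφ : TF ξ1 φ) (hξ : 0 ≤ ξ1) {q : ℕ} {c : ℝ}
    (h : Tendsto (fun T => M (zk k) T / NN q T) atTop (𝓝 c)) {ϑ : ℝ} (h0 : 0 < ϑ) (h1 : ϑ < 1) :
    Tendsto (fun T => (PD k φ ϑ T - St (Fn (H k 1) T 0) (Real.log T) (fun v => ‖φ v‖ ^ 2)) / NN q T)
      atTop (𝓝 0) := by
  have key : ∀ η : ℝ, 0 < η → ∃ C T0 : ℝ, 0 ≤ C ∧ ∀ T : ℝ, T0 ≤ T →
      |PD k φ ϑ T - St (Fn (H k 1) T 0) (Real.log T) (fun v => ‖φ v‖ ^ 2)| ≤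
        η * M (zk k) T + C * Er k (1 / 2) ϑ T := by
    intro η hη
    obtain ⟨C1, T1, hC1, hT1, a⟩ := msq_kz k (u := 1) le_rfl hφ (ε := 1 / 2) (by norm_num) h0 h1
      (η := η / 2) (by positivity)
    obtain ⟨C2, T2, hC2, hT2, b⟩ := PD_close k hφ hξ (ε := 1 / 2) (by norm_num) h0 h1
      (η := η / 2) (by positivity) ϑ
    refine ⟨C1 + C2, max T1 T2, by positivity, fun T hT => ?_⟩
    have a' := a T ((le_max_left _ _).trans hT)
    have b' := b T ((le_max_right _ _).trans hT)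
    have e : PK k φ ϑ T = ∫ t in (T ^ ϑ)..T, ‖kF φ (Real.log T) (zk k) t‖ ^ 2 := rfl
    rw [← e] at a'
    rw [abs_le] at a' b' ⊢
    constructor <;> linarith [a'.1, a'.2, b'.1, b'.2]
  rw [Metric.tendsto_nhds]
  intro δ hδ
  obtain ⟨C, T0, hC, hb⟩ := key (δ / (4 * (|c| + 1))) (by positivity)
  have s := Er_small k h h0 h1 (show 0 < δ / (4 * (C + 1)) by positivity)
  filter_upwards [s, up_of_ratio h, eventually_ge_atTop T0, eventually_gt_atTop 1] with T a1 a2 a3 a4
  have hN := NN_pos q a4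
  have hM := M_nonneg (zk k) (T := T) (by linarith)
  have h2 := hb T a3
  rw [Real.dist_eq, sub_zero, abs_div, abs_of_pos hN, div_lt_iff₀ hN]
  have h3 : δ / (4 * (|c| + 1)) * M (zk k) T ≤ δ / 4 * NN q T := by
    calc _ ≤ δ / (4 * (|c| + 1)) * ((|c| + 1) * NN q T) := mul_le_mul_of_nonneg_left a2 (by positivity)
      _ = _ := by field_simp
  have h4 : C * Er k (1 / 2) ϑ T ≤ δ / 4 * NN q T := by
    calc C * Er k (1 / 2) ϑ T ≤ C * (δ / (4 * (C + 1)) * NN q T) := mul_le_mul_of_nonneg_left a1 hC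
      _ = (C / (C + 1)) * (δ / 4 * NN q T) := by field_simp
      _ ≤ 1 * (δ / 4 * NN q T) := by
          refine mul_le_mul_of_nonneg_right ?_ (by positivity)
          rw [div_le_one (by linarith)]; linarith
      _ = _ := one_mul _
  have h5 : 0 < δ * NN q T := by positivity
  linarith

/-- total mass of the spectral side -/
lemma mass_up (k : ℕ) {q : ℕ} {c : ℝ} (h : Tendsto (fun T => M (zk k) T / NN q T) atTop (𝓝 c)) :
    ∃ C : ℝ, 0 ≤ C ∧ ∀ᶠ T : ℝ in atTop, ∫ t, ‖Fn (H k 1) T 0 t‖ ^ 2 ≤ C * NN q T := by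
  have D := zk_dat k (u := 1) le_rfl
  obtain ⟨C, T0, hC, hb⟩ := unit D (η := 1) one_pos (ε := 1 / 2) (by norm_num)
  refine ⟨2 * (|c| + 1) + C, by positivity, ?_⟩
  filter_upwards [up_of_ratio h, eventually_ge_atTop T0, eventually_gt_atTop 1,
    Er_small k h (ϑ := 1 / 2) (by norm_num) (by norm_num) one_pos] with T a1 a2 a3 a4
  have h1 := (abs_le.1 (hb T a2)).2
  have hM2 := M_nonneg (zk k) (T := 2 * T ^ (1 / 2 : ℝ)) (by positivity)
  have h2 : 1 + Ed (zk k) T (T ^ (1 / 2 : ℝ)) ≤ NN q T := by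
    unfold Er at a4; linarith
  have h3 := mul_le_mul_of_nonneg_left h2 hC
  linarith

/-- **shifts determine polynomials** -/
theorem shifts_PD (k : ℕ) (hφ : TF ξ1 φ) (hξ : 0 ≤ ξ1) {q : ℕ} {G : ℝ → ℂ}
    (hG : ∀ α : ℝ, Tendsto (fun T => Cor (zk k) (α / Real.log T) T / (NN q T : ℂ)) atTop (𝓝 (G α))) {ϑ : ℝ}
    (h0 : 0 < ϑ) (h1 : ϑ < 1) :
    Tendsto (fun T => ((PD k φ ϑ T / NN q T : ℝ) : ℂ)) atTop (𝓝 (∫ y, KL (sqm φ) 1 y * G (y / 2))) := by
  have D := zk_dat k (u := 1) le_rfl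
  have hM : Tendsto (fun T => M (zk k) T / NN q T) atTop (𝓝 (G 0).re) := by
    have h2 := (Complex.continuous_re.tendsto _).comp (hG 0)
    refine h2.congr fun T => ?_
    simp only [Function.comp, zero_div]
    rw [Cor_zero, ← Complex.ofReal_div, Complex.ofReal_re]
  have hs := sqm_TF hφ
  -- the spectral sides
  have hR : ∀ α : ℝ, Tendsto (fun T => Rs (Fn (H k 1) T 0) (α / Real.log T) / (NN q T : ℂ)) atTop
      (𝓝 (G α)) := by
    intro α
    have h2 := (hG α).sub (Cor_Rs_lim k hM α)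
    rw [sub_zero] at h2
    refine h2.congr fun T => ?_
    rw [← sub_div, sub_sub_cancel]
  obtain ⟨C, hC, hmass⟩ := mass_up k hM
  have hlim : Tendsto (fun T => ∫ y, KL (sqm φ) 1 y * (Rs (Fn (H k 1) T 0) (y / 2 / Real.log T) /
      (NN q T : ℂ))) atTop (𝓝 (∫ y, KL (sqm φ) 1 y * G (y / 2))) := by
    refine tendsto_integral_filter_of_dominated_convergence (fun y => ‖KL (sqm φ) 1 y‖ * C) ?_ ?_
      ((KL_int hs one_pos).norm.mul_const C) ?_
    · filter_upwards [eventually_ge_atTop 1] with T hT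
      have hF := Fn_dec D.pg hT (r := 0) (neg_nonpos.2 (Nat.cast_nonneg 1)) (Nat.cast_nonneg 1)
      have := Rs_cont hF
      have h2 := KL_cont hs 1
      refine Continuous.aestronglyMeasurable ?_
      exact h2.mul ((this.comp (by fun_prop)).div_const _)
    · filter_upwards [hmass, eventually_gt_atTop 1] with T hT1 hT
      have hF := Fn_dec D.pg hT.le (r := 0) (neg_nonpos.2 (Nat.cast_nonneg 1)) (Nat.cast_nonneg 1)
      have hN := NN_pos q hT
      refine Eventually.of_forall fun y => ?_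
      rw [norm_mul, norm_div, Complex.norm_real, Real.norm_of_nonneg hN.le]
      refine mul_le_mul_of_nonneg_left ?_ (norm_nonneg _)
      rw [div_le_iff₀ hN]
      exact (Rs_le hF _).trans hT1
    · exact Eventually.of_forall fun y => (hR (y / 2)).const_mul _
  have hPS := PD_St_lim k hφ hξ hM h0 h1
  have hPSc : Tendsto (fun T => (((PD k φ ϑ T - St (Fn (H k 1) T 0) (Real.log T) (fun v => ‖φ v‖ ^ 2)) /
      NN q T : ℝ) : ℂ)) atTop (𝓝 0) := by
    have := (Complex.continuous_ofReal.tendsto 0).comp hPS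
    rw [Complex.ofReal_zero] at this
    exact this
  have h3 := hPSc.add hlim
  rw [zero_add] at h3
  refine h3.congr' ?_
  filter_upwards [eventually_gt_atTop 1] with T hT
  have hF := Fn_dec D.pg hT.le (r := 0) (neg_nonpos.2 (Nat.cast_nonneg 1)) (Nat.cast_nonneg 1)
  have hl := Real.log_pos hT
  have hN := NN_pos q hT
  have hNc : (NN q T : ℂ) ≠ 0 := by exact_mod_cast hN.ne'
  have e1 : ∫ y, KL (sqm φ) 1 y * (Rs (Fn (H k 1) T 0) (y / 2 / Real.log T) / (NN q T : ℂ)) =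
      (St (Fn (H k 1) T 0) (Real.log T) (fun v => ‖φ v‖ ^ 2) : ℂ) / NN q T := by
    have e2 := Sg_Rs hs hF hl
    have e3 : Sg (Fn (H k 1) T 0) (Real.log T) (sqm φ) =
        (St (Fn (H k 1) T 0) (Real.log T) (fun v => ‖φ v‖ ^ 2) : ℂ) := Sg_real (fun v => ‖φ v‖ ^ 2)
    rw [← e3, e2, ← integral_div]
    refine integral_congr_ae (Eventually.of_forall fun y => ?_)
    simp only
    rw [div_div y 2, mul_div_assoc]
  rw [e1]
  push_cast
  field_simp
  ring

end

end Pool.Agent.J4.H44.LP
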