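import Pool.Agent.J4.H44.LP.Pl

set_option autoImplicit false

/-! The commutator of smoothing and localisation. -/

namespace Pool.Agent.J4.H44.LP

open Complex MeasureTheory Filter Topology Set Pool.Agent.W182.KO Pool.Agent.R446.KR Pool.Agent.TH535.SM
open scoped ContDiff FourierTransform ENNReal

noncomputable section

variable {ξ1 : ℝ} {φ : ℝ → ℂ} {z : ℝ → ℂ} {G : ℂ → ℂ} {u K : ℕ}

/-- weighted Cauchy–Schwarz -/
lemma cs_int {w g : ℝ → ℝ} (hw : ∀ y, 0 ≤ w y) (h0 : Integrable w)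
    (h1 : Integrable (fun y => w y * g y)) (h2 : Integrable (fun y => w y * g y ^ 2)) :
    (∫ y, w y * g y) ^ 2 ≤ (∫ y, w y) * ∫ y, w y * g y ^ 2 := by
  have key : ∀ m : ℝ, 0 ≤ (∫ y, w y) * (m * m) + (-(2 * ∫ y, w y * g y)) * m + ∫ y, w y * g y ^ 2 := by
    intro m
    have e : (∫ y, w y) * (m * m) + (-(2 * ∫ y, w y * g y)) * m + ∫ y, w y * g y ^ 2 =
        ∫ y, w y * (g y - m) ^ 2 := by
      have e1 : (fun y => w y * (g y - m) ^ 2) = fun y => (m * m * w y + -(2 * m) * (w y * g y)) +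
          w y * g y ^ 2 := by
        funext y; ring
      rw [e1, integral_add (iadd (h0.const_mul _) (h1.const_mul _)) h2,
        integral_add (h0.const_mul _) (h1.const_mul _), integral_const_mul, integral_const_mul]
      ring
    rw [e]
    exact integral_nonneg fun y => mul_nonneg (hw y) (sq_nonneg _)
  have h := discrim_le_zero key
  unfold discrim at h
  nlinarith

lemma KL_poly (h : TF ξ1 φ) (N : ℕ) : ∃ C : ℝ, 0 ≤ C ∧ ∀ L : ℝ, 1 ≤ L →
    (∀ y, ‖KL φ L y‖ * (1 + |y|) ^ N ≤ C * gl L y) ∧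
    Integrable (fun y => ‖KL φ L y‖ * (1 + |y|) ^ N) ∧ ∫ y, ‖KL φ L y‖ * (1 + |y|) ^ N ≤ C := by
  obtain ⟨C1, hC1, h1⟩ := KL_gl h
  obtain ⟨C2, hC2, h2⟩ := KL_far h N
  have hJ := J2_nonneg
  refine ⟨2 ^ N * (C1 + C2) * (1 + J2), by positivity, fun L hL => ?_⟩
  have hL0 : 0 < L := by linarith
  have hb : ∀ y, ‖KL φ L y‖ * (1 + |y|) ^ N ≤ 2 ^ N * (C1 + C2) * gl L y := by
    intro y
    have h3 := h1 L y hL0
    have h4 := h2 L y hL
    have h5 : (1 + |y|) ^ N ≤ 2 ^ N * (1 + |y| ^ N) := by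
      rcases le_total |y| 1 with hy | hy
      · calc (1 + |y|) ^ N ≤ 2 ^ N := pow_le_pow_left₀ (by positivity) (by linarith) N
          _ ≤ 2 ^ N * (1 + |y| ^ N) := le_mul_of_one_le_right (by positivity)
            (by have := pow_nonneg (abs_nonneg y) N; linarith)
      · calc (1 + |y|) ^ N ≤ (2 * |y|) ^ N := pow_le_pow_left₀ (by positivity) (by linarith) N
          _ = 2 ^ N * |y| ^ N := mul_pow _ _ _
          _ ≤ 2 ^ N * (1 + |y| ^ N) := by gcongr; linarith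
    calc ‖KL φ L y‖ * (1 + |y|) ^ N ≤ ‖KL φ L y‖ * (2 ^ N * (1 + |y| ^ N)) :=
          mul_le_mul_of_nonneg_left h5 (norm_nonneg _)
      _ = 2 ^ N * (‖KL φ L y‖ + ‖KL φ L y‖ * |y| ^ N) := by ring
      _ ≤ 2 ^ N * (C1 * gl L y + C2 * gl L y) := by gcongr
      _ = _ := by ring
  have hi : Integrable (fun y => ‖KL φ L y‖ * (1 + |y|) ^ N) := by
    refine ((gl_int hL0).const_mul (2 ^ N * (C1 + C2))).mono'
      (((KL_cont h L).norm).mul (by fun_prop)).aestronglyMeasurable (Eventually.of_forall fun y => ?_)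
    rw [Real.norm_of_nonneg (by positivity)]
    exact hb y
  refine ⟨fun y => (hb y).trans ?_, hi, ?_⟩
  · have := gl_nonneg hL0 y
    have h6 : 2 ^ N * (C1 + C2) * 1 ≤ 2 ^ N * (C1 + C2) * (1 + J2) := by gcongr; linarith
    rw [mul_one] at h6
    exact mul_le_mul_of_nonneg_right h6 this
  · calc ∫ y, ‖KL φ L y‖ * (1 + |y|) ^ N ≤ ∫ y, 2 ^ N * (C1 + C2) * gl L y :=
          integral_mono hi ((gl_int hL0).const_mul _) hb
      _ = 2 ^ N * (C1 + C2) * J2 := by rw [integral_const_mul, gl_val hL0]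
      _ ≤ _ := by gcongr; linarith

lemma z_bd (D : Dat z G u K) : ∃ (C : ℝ) (p : ℕ), 1 ≤ C ∧ ∀ t : ℝ, ‖z t‖ ≤ C * (1 + |t|) ^ p := by
  obtain ⟨C, p, hC, hb⟩ := D.zb
  refine ⟨1 + C, p, by linarith, fun t => ?_⟩
  have h1 := hb t
  have h2 : (1:ℝ) ≤ (1 + |t|) ^ p := one_le_pow₀ (by linarith [abs_nonneg t])
  have h3 : ‖z t‖ ≤ 1 + ‖z t‖ ^ 2 := by nlinarith [sq_nonneg (‖z t‖ - 1), norm_nonneg (z t)]
  nlinarith

lemma kz_int (h : TF ξ1 φ) (D : Dat z G u K) {L : ℝ} (hL : 1 ≤ L) (t : ℝ) :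
    Integrable (fun y => KL φ L y * z (t + y)) := by
  obtain ⟨C, p, hC, hb⟩ := z_bd D
  obtain ⟨C', -, hk⟩ := KL_poly h p
  refine ((hk L hL).2.1.mul_const (C * (1 + |t|) ^ p)).mono'
    ((KL_cont h L).mul (D.zc.comp (by fun_prop))).aestronglyMeasurable (Eventually.of_forall fun y => ?_)
  rw [norm_mul]
  have h1 : (1 + |t + y|) ^ p ≤ (1 + |t|) ^ p * (1 + |y|) ^ p := by
    rw [← mul_pow]
    refine pow_le_pow_left₀ (by positivity) ?_ p
    have := abs_add_le t y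
    nlinarith [mul_nonneg (abs_nonneg t) (abs_nonneg y)]
  calc ‖KL φ L y‖ * ‖z (t + y)‖ ≤ ‖KL φ L y‖ * (C * ((1 + |t|) ^ p * (1 + |y|) ^ p)) := by
        refine mul_le_mul_of_nonneg_left ((hb _).trans ?_) (norm_nonneg _)
        gcongr
    _ = _ := by ring

lemma kz_cont (h : TF ξ1 φ) (D : Dat z G u K) {L : ℝ} (hL : 1 ≤ L) : Continuous (kF φ L z) := by
  obtain ⟨C, p, hC, hb⟩ := z_bd D
  obtain ⟨C', -, hk⟩ := KL_poly h p
  rw [continuous_iff_continuousAt]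
  intro t0
  unfold kF
  refine continuousAt_of_dominated (bound := fun y => ‖KL φ L y‖ * (1 + |y|) ^ p *
    (C * (2 + |t0|) ^ p)) ?_ ?_ ((hk L hL).2.1.mul_const _) ?_
  · exact Eventually.of_forall fun t =>
      ((KL_cont h L).mul (D.zc.comp (by fun_prop))).aestronglyMeasurable
  · filter_upwards [Metric.ball_mem_nhds t0 one_pos] with t ht
    refine Eventually.of_forall fun y => ?_
    rw [norm_mul]
    rw [Metric.mem_ball, Real.dist_eq] at ht
    have h0 : |t| ≤ |t0| + 1 := by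
      have := abs_sub_abs_le_abs_sub t t0
      linarith
    have h1 : (1 + |t + y|) ^ p ≤ (2 + |t0|) ^ p * (1 + |y|) ^ p := by
      rw [← mul_pow]
      refine pow_le_pow_left₀ (by positivity) ?_ p
      have := abs_add_le t y
      nlinarith [mul_nonneg (abs_nonneg t0) (abs_nonneg y), abs_nonneg y]
    calc ‖KL φ L y‖ * ‖z (t + y)‖ ≤ ‖KL φ L y‖ * (C * ((2 + |t0|) ^ p * (1 + |y|) ^ p)) := by
          refine mul_le_mul_of_nonneg_left ((hb _).trans ?_) (norm_nonneg _)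
          gcongr
      _ = _ := by ring
  · exact Eventually.of_forall fun y =>
      (continuous_const.mul (D.zc.comp (by fun_prop))).continuousAt

/-- the mass near the two ends -/
def Ed (z : ℝ → ℂ) (T r : ℝ) : ℝ := (∫ t in (-r)..r, ‖z t‖ ^ 2) + ∫ t in (T - r)..(T + r), ‖z t‖ ^ 2

lemma Ed_mono (D : Dat z G u K) (T : ℝ) {r s : ℝ} (hr : 0 ≤ r) (h : r ≤ s) : Ed z T r ≤ Ed z T s := by
  unfold Ed
  have hc := D.sc
  have g : ∀ a b c d : ℝ, c ≤ a → a ≤ b → b ≤ d → ∫ t in a..b, ‖z t‖ ^ 2 ≤ ∫ t in c..d, ‖z t‖ ^ 2 := by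
    intro a b c d h1 h2 h3
    exact intervalIntegral.integral_mono_interval h1 h2 h3 (Eventually.of_forall fun t => by positivity)
      (hc.intervalIntegrable _ _)
  exact add_le_add (g _ _ _ _ (by linarith) (by linarith) h) (g _ _ _ _ (by linarith) (by linarith) (by linarith))

lemma Ed_nonneg (z : ℝ → ℂ) (T : ℝ) {r : ℝ} (hr : 0 ≤ r) : 0 ≤ Ed z T r :=
  add_nonneg (intervalIntegral.integral_nonneg (by linarith) fun t _ => by positivity)
    (intervalIntegral.integral_nonneg (by linarith) fun t _ => by positivity)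

/-- the trivial bound -/
lemma Ed_triv (D : Dat z G u K) : ∃ (C : ℝ) (p : ℕ), 1 ≤ C ∧ ∀ T r : ℝ, 1 ≤ T → 1 ≤ r →
    Ed z T r ≤ C * T ^ p * r ^ (p + 1) := by
  obtain ⟨C, p, hC, hb⟩ := D.zb
  refine ⟨4 * C * 3 ^ p, p, ?_, fun T r hT hr => ?_⟩
  · have : (1:ℝ) ≤ 3 ^ p := one_le_pow₀ (by norm_num)
    nlinarith
  have hbd : ∀ t, |t| ≤ T + r → ‖z t‖ ^ 2 ≤ C * (3 * (T * r)) ^ p := by
    intro t ht
    refine (hb t).trans ?_
    have : 1 + |t| ≤ 3 * (T * r) := by nlinarith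
    gcongr
  have g : ∀ a b : ℝ, a ≤ b → (∀ t ∈ Icc a b, |t| ≤ T + r) → b - a = 2 * r →
      ∫ t in a..b, ‖z t‖ ^ 2 ≤ 2 * r * (C * (3 * (T * r)) ^ p) := by
    intro a b hab ht hd
    calc ∫ t in a..b, ‖z t‖ ^ 2 ≤ ∫ t in a..b, C * (3 * (T * r)) ^ p :=
          intervalIntegral.integral_mono_on hab (D.sc.intervalIntegrable _ _)
            (continuous_const.intervalIntegrable _ _) fun t h => hbd t (ht t h)
      _ = _ := by rw [intervalIntegral.integral_const, smul_eq_mul, hd]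
  have g1 := g (-r) r (by linarith) (fun t ht => by
    rw [abs_le]; constructor <;> linarith [ht.1, ht.2]) (by ring)
  have g2 := g (T - r) (T + r) (by linarith) (fun t ht => by
    rw [abs_le]; constructor <;> linarith [ht.1, ht.2]) (by ring)
  unfold Ed
  calc _ ≤ 2 * r * (C * (3 * (T * r)) ^ p) + 2 * r * (C * (3 * (T * r)) ^ p) := add_le_add g1 g2
    _ = _ := by rw [mul_pow, mul_pow]; ring

lemma Ed_all (D : Dat z G u K) {ε : ℝ} (hε : 0 < ε) : ∃ (C : ℝ) (q : ℕ), 0 ≤ C ∧ ∀ T y : ℝ, 1 ≤ T →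
    Ed z T |y| ≤ Ed z T (T ^ ε) + C * (1 + |y|) ^ q := by
  obtain ⟨C, p, hC, h⟩ := Ed_triv D
  obtain ⟨m, hm⟩ := exists_nat_ge ((p : ℝ) / ε)
  refine ⟨C, p + 1 + m, by linarith, fun T y hT => ?_⟩
  have hT0 : 0 < T := by linarith
  have hY : 1 ≤ T ^ ε := Real.one_le_rpow hT hε.le
  rcases le_total |y| (T ^ ε) with hy | hy
  · have := Ed_mono D T (abs_nonneg y) hy
    have : 0 ≤ C * (1 + |y|) ^ (p + 1 + m) := by positivity
    linarith
  · have h0 := Ed_nonneg z T (by linarith : 0 ≤ T ^ ε)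
    refine le_trans ((h T |y| hT (hY.trans hy)).trans ?_) (le_add_of_nonneg_left h0)
    have h1 : T ^ p ≤ |y| ^ m := by
      calc T ^ p = T ^ (p : ℝ) := (Real.rpow_natCast _ _).symm
        _ ≤ T ^ (ε * m) := by
            refine Real.rpow_le_rpow_of_exponent_le hT ?_
            rw [div_le_iff₀ hε] at hm; linarith
        _ = (T ^ ε) ^ m := by rw [Real.rpow_mul hT0.le, Real.rpow_natCast]
        _ ≤ |y| ^ m := pow_le_pow_left₀ (by positivity) hy m
    calc C * T ^ p * |y| ^ (p + 1) ≤ C * |y| ^ m * |y| ^ (p + 1) := by gcongr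
      _ = C * |y| ^ (p + 1 + m) := by rw [pow_add |y| (p + 1) m]; ring
      _ ≤ _ := by gcongr; linarith

end

end Pool.Agent.J4.H44.LP
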