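import Pool.Agent.J4.H44.LP.Cm

set_option autoImplicit false

/-! The commutator estimate in mean square. -/

namespace Pool.Agent.J4.H44.LP

open Complex MeasureTheory Filter Topology Set Pool.Agent.W182.KO Pool.Agent.R446.KR Pool.Agent.TH535.SM
open scoped ContDiff FourierTransform ENNReal

noncomputable section

variable {ξ1 : ℝ} {φ : ℝ → ℂ} {z : ℝ → ℂ} {G : ℂ → ℂ} {u K : ℕ}

lemma ind_sub_le {T x y : ℝ} : (ind T x - ind T (x - y)) ^ 2 ≤
    (Icc (-|y|) |y|).indicator (fun _ => (1:ℝ)) x + (Icc (T - |y|) (T + |y|)).indicator (fun _ => (1:ℝ)) x := by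
  have i1 : 0 ≤ (Icc (-|y|) |y|).indicator (fun _ => (1:ℝ)) x := indicator_nonneg (fun _ _ => zero_le_one) x
  have i2 : 0 ≤ (Icc (T - |y|) (T + |y|)).indicator (fun _ => (1:ℝ)) x :=
    indicator_nonneg (fun _ _ => zero_le_one) x
  have hy1 := le_abs_self y
  have hy2 := neg_abs_le y
  by_cases h1 : x ∈ Icc 0 T
  · by_cases h2 : x - y ∈ Icc 0 T
    · rw [ind_mem h1, ind_mem h2]; simp; linarith
    · rw [ind_mem h1, ind_not h2]
      rw [mem_Icc, not_and_or, not_le, not_le] at h2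
      rcases h2 with h2 | h2
      · have : x ∈ Icc (-|y|) |y| := ⟨by linarith [h1.1, abs_nonneg y], by linarith⟩
        rw [indicator_of_mem this]; norm_num; exact i2
      · have : x ∈ Icc (T - |y|) (T + |y|) := ⟨by linarith, by linarith [h1.2, abs_nonneg y]⟩
        rw [indicator_of_mem this]; norm_num; exact i1
  · by_cases h2 : x - y ∈ Icc 0 T
    · rw [ind_not h1, ind_mem h2]
      rw [mem_Icc, not_and_or, not_le, not_le] at h1
      rcases h1 with h1 | h1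
      · have : x ∈ Icc (-|y|) |y| := ⟨by linarith [h2.1], by linarith [abs_nonneg y]⟩
        rw [indicator_of_mem this]; norm_num; exact i2
      · have : x ∈ Icc (T - |y|) (T + |y|) := ⟨by linarith [abs_nonneg y], by linarith [h2.2]⟩
        rw [indicator_of_mem this]; norm_num; exact i1
    · rw [ind_not h1, ind_not h2]; simp; linarith

/-- the difference -/
def dd (z : ℝ → ℂ) (G : ℂ → ℂ) (T y t : ℝ) : ℂ := Fn G T 0 (t + y) - ind T t * z (t + y)

lemma dd_int (D : Dat z G u K) : ∃ C : ℝ, 1 ≤ C ∧ ∀ T : ℝ, 1 ≤ T → ∀ y : ℝ,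
    Integrable (fun t => ‖dd z G T y t‖ ^ 2) ∧
    ∫ t, ‖dd z G T y t‖ ^ 2 ≤ C * Om z T + 2 * Ed z T |y| := by
  obtain ⟨C, hC, hcl⟩ := close D
  refine ⟨2 * C, by linarith, fun T hT y => ?_⟩
  have hT0 : 0 ≤ T := by linarith
  have hF := Fn_dec D.pg hT (r := 0) (neg_nonpos.2 (Nat.cast_nonneg u)) (Nat.cast_nonneg u)
  have hc : Continuous (fun t => ‖z t‖ ^ 2) := D.sc
  set I1 : Set ℝ := Icc (-|y|) |y|
  set I2 : Set ℝ := Icc (T - |y|) (T + |y|)
  set f : ℝ → ℝ := fun x => 2 * (C * (Wq T x * ‖z x‖ ^ 2)) +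
    2 * (I1.indicator (fun x => ‖z x‖ ^ 2) x + I2.indicator (fun x => ‖z x‖ ^ 2) x) with hf
  have j1 : Integrable (I1.indicator (fun x => ‖z x‖ ^ 2)) :=
    (integrable_indicator_iff measurableSet_Icc).2 hc.continuousOn.integrableOn_Icc
  have j2 : Integrable (I2.indicator (fun x => ‖z x‖ ^ 2)) :=
    (integrable_indicator_iff measurableSet_Icc).2 hc.continuousOn.integrableOn_Icc
  have hfi : Integrable f := iadd (((Om_int D T).const_mul C).const_mul 2) ((iadd j1 j2).const_mul 2)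
  have hle : ∀ t, ‖dd z G T y t‖ ^ 2 ≤ f (t + y) := by
    intro t
    have h1 := hcl T hT (t + y) 0 (by simp)
    rw [add_zero] at h1
    have h2 := ind_sub_le (T := T) (x := t + y) (y := y)
    rw [add_sub_cancel_right] at h2
    have e : dd z G T y t = (Fn G T 0 (t + y) - ind T (t + y) * z (t + y)) +
        ((ind T (t + y) - ind T t : ℝ) : ℂ) * z (t + y) := by
      unfold dd; push_cast; ring
    have h3 : ‖dd z G T y t‖ ^ 2 ≤ 2 * ‖Fn G T 0 (t + y) - ind T (t + y) * z (t + y)‖ ^ 2 +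
        2 * ‖((ind T (t + y) - ind T t : ℝ) : ℂ) * z (t + y)‖ ^ 2 := by
      rw [e]
      have h4 := norm_add_le (Fn G T 0 (t + y) - ind T (t + y) * z (t + y))
        (((ind T (t + y) - ind T t : ℝ) : ℂ) * z (t + y))
      have h5 := pow_le_pow_left₀ (norm_nonneg _) h4 2
      nlinarith [sq_nonneg (‖Fn G T 0 (t + y) - ind T (t + y) * z (t + y)‖ -
        ‖((ind T (t + y) - ind T t : ℝ) : ℂ) * z (t + y)‖)]
    have h6 : ‖((ind T (t + y) - ind T t : ℝ) : ℂ) * z (t + y)‖ ^ 2 ≤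
        I1.indicator (fun x => ‖z x‖ ^ 2) (t + y) + I2.indicator (fun x => ‖z x‖ ^ 2) (t + y) := by
      rw [norm_mul, mul_pow, Complex.norm_real, Real.norm_eq_abs, sq_abs]
      have e1 : ∀ S : Set ℝ, S.indicator (fun x => ‖z x‖ ^ 2) (t + y) =
          S.indicator (fun _ => (1:ℝ)) (t + y) * ‖z (t + y)‖ ^ 2 := by
        intro S
        by_cases hS : t + y ∈ S
        · rw [indicator_of_mem hS, indicator_of_mem hS, one_mul]
        · rw [indicator_of_notMem hS, indicator_of_notMem hS, zero_mul]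
      rw [e1, e1, ← add_mul]
      exact mul_le_mul_of_nonneg_right h2 (by positivity)
    calc ‖dd z G T y t‖ ^ 2 ≤ _ := h3
      _ ≤ 2 * (C * (Wq T (t + y) * ‖z (t + y)‖ ^ 2)) + 2 * (I1.indicator (fun x => ‖z x‖ ^ 2) (t + y) +
          I2.indicator (fun x => ‖z x‖ ^ 2) (t + y)) := by gcongr
  have hm : AEStronglyMeasurable (fun t => ‖dd z G T y t‖ ^ 2) volume := by
    unfold dd
    have m1 : Measurable (fun t => Fn G T 0 (t + y)) := (hF.cont.comp (by fun_prop)).measurable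
    have m2 : Measurable (fun t : ℝ => ((ind T t : ℝ) : ℂ)) := Complex.measurable_ofReal.comp (ind_meas T)
    have m3 : Measurable (fun t => z (t + y)) := (D.zc.comp (by fun_prop)).measurable
    exact ((m1.sub (m2.mul m3)).norm.pow_const 2).aestronglyMeasurable
  have hfi' : Integrable (fun t => f (t + y)) := hfi.comp_add_right y
  have hI : Integrable (fun t => ‖dd z G T y t‖ ^ 2) := by
    refine hfi'.mono' hm (Eventually.of_forall fun t => ?_)
    rw [Real.norm_of_nonneg (by positivity)]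
    exact hle t
  refine ⟨hI, ?_⟩
  calc ∫ t, ‖dd z G T y t‖ ^ 2 ≤ ∫ t, f (t + y) := integral_mono hI hfi' hle
    _ = ∫ x, f x := integral_add_right_eq_self f y
    _ = 2 * C * Om z T + 2 * Ed z T |y| := by
        rw [hf, integral_add (((Om_int D T).const_mul C).const_mul 2) ((iadd j1 j2).const_mul 2),
          integral_const_mul, integral_const_mul, integral_const_mul, integral_add j1 j2,
          integral_indicator measurableSet_Icc, integral_indicator measurableSet_Icc]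
        unfold Om Ed
        rw [intervalIntegral.integral_of_le (by linarith [abs_nonneg y]),
          intervalIntegral.integral_of_le (by linarith [abs_nonneg y]),
          ← integral_Icc_eq_integral_Ioc, ← integral_Icc_eq_integral_Ioc]
        ring

/-- integrating a weighted average of squares -/
theorem mink {w : ℝ → ℝ} (hw : Measurable w) (hw0 : ∀ y, 0 ≤ w y) {d : ℝ → ℝ → ℝ}
    (hdm : Measurable (fun x : ℝ × ℝ => d x.2 x.1)) (hd0 : ∀ y t, 0 ≤ d y t)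
    (hi : ∀ t, Integrable (fun y => w y * d y t)) {Nb : ℝ → ℝ} (hNb0 : ∀ y, 0 ≤ Nb y)
    (hNbi : Integrable (fun y => w y * Nb y))
    (hd : ∀ y, Integrable (fun t => d y t) ∧ ∫ t, d y t ≤ Nb y) {e : ℝ → ℝ} (he0 : ∀ t, 0 ≤ e t)
    (hem : AEStronglyMeasurable e volume) {κ : ℝ} (hκ : 0 ≤ κ)
    (hcs : ∀ t, e t ≤ κ * ∫ y, w y * d y t) :
    Integrable e ∧ ∫ t, e t ≤ κ * ∫ y, w y * Nb y := by
  have hton : ∫⁻ t, ENNReal.ofReal (∫ y, w y * d y t) ≤ ENNReal.ofReal (∫ y, w y * Nb y) := by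
    have e1 : ∀ t, ENNReal.ofReal (∫ y, w y * d y t) = ∫⁻ y, ENNReal.ofReal (w y * d y t) := fun t =>
      ofReal_integral_eq_lintegral_ofReal (hi t) (Eventually.of_forall fun y => mul_nonneg (hw0 y) (hd0 y t))
    simp only [e1]
    rw [lintegral_lintegral_swap]
    · rw [ofReal_integral_eq_lintegral_ofReal hNbi
        (Eventually.of_forall fun y => mul_nonneg (hw0 y) (hNb0 y))]
      refine lintegral_mono fun y => ?_
      obtain ⟨d1, d2⟩ := hd y
      have e2 : ∫⁻ t, ENNReal.ofReal (w y * d y t) = ENNReal.ofReal (∫ t, w y * d y t) :=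
        (ofReal_integral_eq_lintegral_ofReal (d1.const_mul _)
          (Eventually.of_forall fun t => mul_nonneg (hw0 y) (hd0 y t))).symm
      rw [e2, integral_const_mul]
      exact ENNReal.ofReal_le_ofReal (mul_le_mul_of_nonneg_left d2 (hw0 y))
    · have m : Measurable (fun x : ℝ × ℝ => ENNReal.ofReal (w x.2 * d x.2 x.1)) :=
        ENNReal.measurable_ofReal.comp ((hw.comp measurable_snd).mul hdm)
      exact m.aemeasurable
  have hv : 0 ≤ ∫ y, w y * Nb y := integral_nonneg fun y => mul_nonneg (hw0 y) (hNb0 y)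
  have hfin : ∫⁻ t, ENNReal.ofReal (e t) ≤ ENNReal.ofReal (κ * ∫ y, w y * Nb y) := by
    calc ∫⁻ t, ENNReal.ofReal (e t) ≤ ∫⁻ t, ENNReal.ofReal κ * ENNReal.ofReal (∫ y, w y * d y t) := by
          refine lintegral_mono fun t => ?_
          rw [← ENNReal.ofReal_mul hκ]
          exact ENNReal.ofReal_le_ofReal (hcs t)
      _ = ENNReal.ofReal κ * ∫⁻ t, ENNReal.ofReal (∫ y, w y * d y t) :=
          lintegral_const_mul' _ _ ENNReal.ofReal_ne_top
      _ ≤ ENNReal.ofReal κ * ENNReal.ofReal (∫ y, w y * Nb y) := by gcongr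
      _ = _ := by rw [← ENNReal.ofReal_mul hκ]
  have hI : Integrable e := by
    refine ⟨hem, ?_⟩
    rw [hasFiniteIntegral_iff_ofReal (Eventually.of_forall he0)]
    exact hfin.trans_lt ENNReal.ofReal_lt_top
  refine ⟨hI, ?_⟩
  rw [integral_eq_lintegral_of_nonneg_ae (Eventually.of_forall he0) hem]
  refine (ENNReal.toReal_mono ENNReal.ofReal_ne_top hfin).trans ?_
  rw [ENNReal.toReal_ofReal (mul_nonneg hκ hv)]

lemma poly_shift (p : ℕ) (t y : ℝ) : (1 + |t + y|) ^ p ≤ (1 + |t|) ^ p * (1 + |y|) ^ p := by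
  rw [← mul_pow]
  refine pow_le_pow_left₀ (by positivity) ?_ p
  have := abs_add_le t y
  nlinarith [mul_nonneg (abs_nonneg t) (abs_nonneg y)]

lemma dd_bd (D : Dat z G u K) {T : ℝ} (hT : 1 ≤ T) : ∃ (C : ℝ) (p : ℕ), 0 ≤ C ∧ ∀ t y : ℝ,
    ‖dd z G T y t‖ ≤ C * (1 + |t|) ^ p * (1 + |y|) ^ p := by
  obtain ⟨C5, p, hC5, hz⟩ := z_bd D
  have hF := Fn_dec D.pg hT (r := 0) (neg_nonpos.2 (Nat.cast_nonneg u)) (Nat.cast_nonneg u)
  obtain ⟨B, hB, hFb⟩ := hF.bd
  refine ⟨B + C5, p, by positivity, fun t y => ?_⟩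
  have h1 : ‖Fn G T 0 (t + y)‖ ≤ B := (hFb _).trans (mul_le_of_le_one_right hB
    (inv_le_one_of_one_le₀ (one_le_pow₀ (by linarith [abs_nonneg (t + y)]))))
  have h2 := poly_shift p t y
  have h3 : (1:ℝ) ≤ (1 + |y|) ^ p := one_le_pow₀ (by linarith [abs_nonneg y])
  have h3' : (1:ℝ) ≤ (1 + |t|) ^ p := one_le_pow₀ (by linarith [abs_nonneg t])
  have h4 : (1:ℝ) ≤ (1 + |t|) ^ p * (1 + |y|) ^ p := one_le_mul_of_one_le_of_one_le h3' h3
  unfold dd
  refine (norm_sub_le _ _).trans ?_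
  rw [norm_mul, Complex.norm_real, Real.norm_of_nonneg (ind_nonneg T t)]
  have h5 : ind T t * ‖z (t + y)‖ ≤ 1 * (C5 * ((1 + |t|) ^ p * (1 + |y|) ^ p)) := by
    refine mul_le_mul (ind_le T t) ((hz _).trans ?_) (norm_nonneg _) zero_le_one
    gcongr
  have h6 : B ≤ B * ((1 + |t|) ^ p * (1 + |y|) ^ p) := le_mul_of_one_le_right hB h4
  calc _ ≤ B * ((1 + |t|) ^ p * (1 + |y|) ^ p) + 1 * (C5 * ((1 + |t|) ^ p * (1 + |y|) ^ p)) :=
        add_le_add (h1.trans h6) h5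
    _ = _ := by ring

lemma dd_meas (D : Dat z G u K) {T : ℝ} (hT : 1 ≤ T) :
    Measurable (fun x : ℝ × ℝ => dd z G T x.2 x.1) := by
  have hF := Fn_dec D.pg hT (r := 0) (neg_nonpos.2 (Nat.cast_nonneg u)) (Nat.cast_nonneg u)
  unfold dd
  have m1 : Measurable (fun x : ℝ × ℝ => Fn G T 0 (x.1 + x.2)) := (hF.cont.comp (by fun_prop)).measurable
  have m2 : Measurable (fun x : ℝ × ℝ => ((ind T x.1 : ℝ) : ℂ)) :=
    Complex.measurable_ofReal.comp ((ind_meas T).comp measurable_fst)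
  have m3 : Measurable (fun x : ℝ × ℝ => z (x.1 + x.2)) := (D.zc.comp (by fun_prop)).measurable
  exact m1.sub (m2.mul m3)

lemma dd_meas1 (D : Dat z G u K) {T : ℝ} (hT : 1 ≤ T) (t : ℝ) : Measurable (fun y => dd z G T y t) := by
  have hF := Fn_dec D.pg hT (r := 0) (neg_nonpos.2 (Nat.cast_nonneg u)) (Nat.cast_nonneg u)
  unfold dd
  have m1 : Measurable (fun y : ℝ => Fn G T 0 (t + y)) := (hF.cont.comp (by fun_prop)).measurable
  have m3 : Measurable (fun y : ℝ => z (t + y)) := (D.zc.comp (by fun_prop)).measurable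
  exact m1.sub (m3.const_mul _)

/-- pointwise Cauchy–Schwarz for kernels -/
lemma ker_cs (h : TF ξ1 φ) {L : ℝ} (hL : 1 ≤ L) {g : ℝ → ℂ} (hg : Measurable g) {C : ℝ} {p : ℕ}
    (hb : ∀ y, ‖g y‖ ≤ C * (1 + |y|) ^ p) :
    Integrable (fun y => KL φ L y * g y) ∧ Integrable (fun y => ‖KL φ L y‖ * ‖g y‖ ^ 2) ∧
    ‖∫ y, KL φ L y * g y‖ ^ 2 ≤ (∫ y, ‖KL φ L y‖) * ∫ y, ‖KL φ L y‖ * ‖g y‖ ^ 2 := by
  obtain ⟨C6, -, hKp⟩ := KL_poly h p
  obtain ⟨C7, -, hKp2⟩ := KL_poly h (p * 2)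
  obtain ⟨C4, -, hK0⟩ := KL_poly h 0
  have hi0 : Integrable (fun y => ‖KL φ L y‖) := by simpa using (hK0 L hL).2.1
  have hKm := (KL_cont h L).norm.measurable
  have hi1 : Integrable (fun y => ‖KL φ L y‖ * ‖g y‖) := by
    refine ((hKp L hL).2.1.mul_const C).mono' (hKm.mul hg.norm).aestronglyMeasurable
      (Eventually.of_forall fun y => ?_)
    rw [Real.norm_of_nonneg (by positivity), mul_assoc]
    exact mul_le_mul_of_nonneg_left ((hb y).trans (le_of_eq (mul_comm _ _))) (norm_nonneg _)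
  have hi2 : Integrable (fun y => ‖KL φ L y‖ * ‖g y‖ ^ 2) := by
    refine ((hKp2 L hL).2.1.mul_const (C ^ 2)).mono' (hKm.mul (hg.norm.pow_const 2)).aestronglyMeasurable
      (Eventually.of_forall fun y => ?_)
    rw [Real.norm_of_nonneg (by positivity), mul_assoc]
    refine mul_le_mul_of_nonneg_left ?_ (norm_nonneg _)
    calc ‖g y‖ ^ 2 ≤ (C * (1 + |y|) ^ p) ^ 2 := pow_le_pow_left₀ (norm_nonneg _) (hb y) 2
      _ = _ := by rw [mul_pow, pow_mul]; ring
  refine ⟨?_, hi2, ?_⟩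
  · refine hi1.mono' (((KL_cont h L).measurable).mul hg).aestronglyMeasurable
      (Eventually.of_forall fun y => le_of_eq (norm_mul _ _))
  · have h1 : ‖∫ y, KL φ L y * g y‖ ≤ ∫ y, ‖KL φ L y‖ * ‖g y‖ := by
      refine (norm_integral_le_integral_norm _).trans (le_of_eq ?_)
      exact integral_congr_ae (Eventually.of_forall fun y => norm_mul _ _)
    exact (pow_le_pow_left₀ (norm_nonneg _) h1 2).trans
      (cs_int (fun y => norm_nonneg (KL φ L y)) hi0 hi1 hi2)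

/-- one step of the commutator estimate -/
lemma comm_step (h : TF ξ1 φ) (D : Dat z G u K) {T L : ℝ} (hT : 1 ≤ T) (hL : 1 ≤ L) {a b : ℝ}
    (q : ℕ) (ha : 0 ≤ a) (hb : 0 ≤ b)
    (hd : ∀ y, Integrable (fun t => ‖dd z G T y t‖ ^ 2) ∧
      ∫ t, ‖dd z G T y t‖ ^ 2 ≤ a + b * (1 + |y|) ^ q) :
    Integrable (fun t => ‖kF φ L (Fn G T 0) t - ind T t * kF φ L z t‖ ^ 2) ∧
    ∫ t, ‖kF φ L (Fn G T 0) t - ind T t * kF φ L z t‖ ^ 2 ≤
      (∫ y, ‖KL φ L y‖) * ∫ y, ‖KL φ L y‖ * (a + b * (1 + |y|) ^ q) := by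
  have hF := Fn_dec D.pg hT (r := 0) (neg_nonpos.2 (Nat.cast_nonneg u)) (Nat.cast_nonneg u)
  obtain ⟨C, p, hC, hbd⟩ := dd_bd D hT
  have hm := dd_meas D hT
  have hm' : ∀ t, Measurable (fun y => dd z G T y t) := dd_meas1 D hT
  obtain ⟨C3, -, hK⟩ := KL_poly h q
  obtain ⟨C4, -, hK0⟩ := KL_poly h 0
  have hi0 : Integrable (fun y => ‖KL φ L y‖) := by simpa using (hK0 L hL).2.1
  have hv00 : 0 ≤ ∫ y, ‖KL φ L y‖ := integral_nonneg fun _ => norm_nonneg _
  have hrep : ∀ t, kF φ L (Fn G T 0) t - ind T t * kF φ L z t = ∫ y, KL φ L y * dd z G T y t := by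
    intro t
    unfold kF dd
    rw [← integral_const_mul, ← integral_sub (kF_int h hL hF t) ((kz_int h D hL t).const_mul _)]
    refine integral_congr_ae (Eventually.of_forall fun y => ?_)
    simp only
    ring
  have hNbi : Integrable (fun y => ‖KL φ L y‖ * (a + b * (1 + |y|) ^ q)) := by
    refine (iadd (hi0.const_mul a) ((hK L hL).2.1.const_mul b)).congr (Eventually.of_forall fun y => ?_)
    simp only
    ring
  have hem : AEStronglyMeasurable
      (fun t => ‖kF φ L (Fn G T 0) t - ind T t * kF φ L z t‖ ^ 2) volume := by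
    have m1 : Measurable (kF φ L (Fn G T 0)) := (kF_dec h hL hF).cont.measurable
    have m2 : Measurable (fun t : ℝ => ((ind T t : ℝ) : ℂ)) := Complex.measurable_ofReal.comp (ind_meas T)
    have m3 : Measurable (kF φ L z) := (kz_cont h D hL).measurable
    exact ((m1.sub (m2.mul m3)).norm.pow_const 2).aestronglyMeasurable
  have hcs := fun t => ker_cs h hL (hm' t) (C := C * (1 + |t|) ^ p) (p := p) (fun y => hbd t y)
  refine mink (w := fun y => ‖KL φ L y‖) (d := fun y t => ‖dd z G T y t‖ ^ 2)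
    (KL_cont h L).norm.measurable (fun _ => norm_nonneg _) (hm.norm.pow_const 2)
    (fun y t => by positivity) (fun t => (hcs t).2.1) (fun y => by positivity) hNbi hd
    (fun t => by positivity) hem hv00 (fun t => ?_)
  rw [hrep t]
  exact (hcs t).2.2

theorem comm (h : TF ξ1 φ) (D : Dat z G u K) {ε : ℝ} (hε : 0 < ε) : ∃ C : ℝ, 0 ≤ C ∧ ∀ T : ℝ,
    Real.exp 1 ≤ T →
    Integrable (fun t => ‖kF φ (Real.log T) (Fn G T 0) t - ind T t * kF φ (Real.log T) z t‖ ^ 2) ∧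
    ∫ t, ‖kF φ (Real.log T) (Fn G T 0) t - ind T t * kF φ (Real.log T) z t‖ ^ 2 ≤
      C * (Om z T + Ed z T (T ^ ε) + 1) := by
  obtain ⟨C1, hC1, hd⟩ := dd_int D
  obtain ⟨C2, q, hC2, hE⟩ := Ed_all D hε
  obtain ⟨C3, hC3, hK⟩ := KL_poly h q
  obtain ⟨C4, hC4, hK0⟩ := KL_poly h 0
  refine ⟨C4 * (C1 * C4 + 2 * C4 + 2 * C2 * C3), by positivity, fun T hT => ?_⟩
  have hT0 : 0 < T := (Real.exp_pos 1).trans_le hT
  have hT1 : 1 ≤ T := le_trans (by have := Real.add_one_le_exp 1; linarith) hT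
  have hL : 1 ≤ Real.log T := by rwa [Real.le_log_iff_exp_le hT0]
  obtain ⟨L, hLd⟩ : ∃ L, L = Real.log T := ⟨_, rfl⟩
  rw [← hLd] at hL ⊢
  have hY0 : 0 ≤ T ^ ε := by positivity
  have hOm : 0 ≤ Om z T := integral_nonneg fun t => mul_nonneg (Wq_nonneg T t) (by positivity)
  have hEd := Ed_nonneg z T hY0
  have hi0 : Integrable (fun y => ‖KL φ L y‖) := by simpa using (hK0 L hL).2.1
  have hv0 : ∫ y, ‖KL φ L y‖ ≤ C4 := by simpa using (hK0 L hL).2.2
  obtain ⟨hI, hle⟩ := comm_step h D hT1 hL (a := C1 * Om z T + 2 * Ed z T (T ^ ε)) (b := 2 * C2) q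
    (by positivity) (by positivity) (fun y => ⟨(hd T hT1 y).1, (hd T hT1 y).2.trans (by
      have := hE T y hT1
      linarith)⟩)
  refine ⟨hI, hle.trans ?_⟩
  have e : (fun y => ‖KL φ L y‖ * (C1 * Om z T + 2 * Ed z T (T ^ ε) + 2 * C2 * (1 + |y|) ^ q)) =
      fun y => (C1 * Om z T + 2 * Ed z T (T ^ ε)) * ‖KL φ L y‖ +
        2 * C2 * (‖KL φ L y‖ * (1 + |y|) ^ q) := by
    funext y; ring
  rw [e, integral_add (hi0.const_mul _) ((hK L hL).2.1.const_mul _), integral_const_mul, integral_const_mul]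
  have h1 : (C1 * Om z T + 2 * Ed z T (T ^ ε)) * ∫ y, ‖KL φ L y‖ ≤
      (C1 * Om z T + 2 * Ed z T (T ^ ε)) * C4 := mul_le_mul_of_nonneg_left hv0 (by positivity)
  have h2 : 2 * C2 * ∫ y, ‖KL φ L y‖ * (1 + |y|) ^ q ≤ 2 * C2 * C3 :=
    mul_le_mul_of_nonneg_left (hK L hL).2.2 (by positivity)
  obtain ⟨E, hE'⟩ : ∃ E, E = Ed z T (T ^ ε) := ⟨_, rfl⟩
  obtain ⟨O, hO'⟩ : ∃ O, O = Om z T := ⟨_, rfl⟩
  rw [← hE'] at hEd h1 ⊢
  rw [← hO'] at hOm h1 ⊢
  have h3 : (C1 * O + 2 * E) * C4 + 2 * C2 * C3 ≤ (C1 * C4 + 2 * C4 + 2 * C2 * C3) * (O + E + 1) := by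
    have q1 : 0 ≤ C1 * C4 * E := by positivity
    have q2 : 0 ≤ 2 * C4 * O := by positivity
    have q3 : 0 ≤ 2 * C2 * C3 * (O + E) := by positivity
    have q4 : 0 ≤ C1 * C4 + 2 * C4 := by positivity
    linarith
  have h4 : 0 ≤ (∫ y, ‖KL φ L y‖) := integral_nonneg fun _ => norm_nonneg _
  have h5 : (C1 * O + 2 * E) * (∫ y, ‖KL φ L y‖) + 2 * C2 * ∫ y, ‖KL φ L y‖ * (1 + |y|) ^ q ≤
      (C1 * C4 + 2 * C4 + 2 * C2 * C3) * (O + E + 1) := by linarith
  have h6 : 0 ≤ (C1 * C4 + 2 * C4 + 2 * C2 * C3) * (O + E + 1) := by positivity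
  calc _ ≤ (∫ y, ‖KL φ L y‖) * ((C1 * C4 + 2 * C4 + 2 * C2 * C3) * (O + E + 1)) :=
        mul_le_mul_of_nonneg_left h5 h4
    _ ≤ C4 * ((C1 * C4 + 2 * C4 + 2 * C2 * C3) * (O + E + 1)) := mul_le_mul_of_nonneg_right hv0 h6
    _ = _ := by ring

end

end Pool.Agent.J4.H44.LP
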