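import Pool.Agent.R446.KR.Slow

set_option autoImplicit false

/-! Exceptional sets for a monotone function of polynomial growth. -/

namespace Pool.Agent.J4.H44.LP

open MeasureTheory Filter Topology Set Pool.Agent.R446.KR

noncomputable section

/-- a nonnegative nondecreasing continuous function of polynomial growth -/
structure Gr (F : ℝ → ℝ) : Prop where
  cont : Continuous F
  nonneg : ∀ T, 0 ≤ T → 0 ≤ F T
  mono : ∀ S T, 0 ≤ S → S ≤ T → F S ≤ F T
  poly : ∃ (B : ℝ) (m : ℕ), 1 ≤ B ∧ ∀ T, 1 ≤ T → F T ≤ B * T ^ m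

lemma small_pow {ε : ℝ} (hε1 : ε < 1) (C : ℝ) {δ : ℝ} (hδ : 0 < δ) :
    ∀ᶠ X : ℝ in atTop, C * (2 * X) ^ ε * Real.log X ≤ δ * X := by
  have hlog := (isLittleO_log_rpow_atTop (show 0 < (1 - ε) / 2 by linarith)).bound (show (0:ℝ) < 1 by norm_num)
  have t1 : Tendsto (fun X : ℝ => X ^ ((1 - ε) / 2)) atTop atTop := tendsto_rpow_atTop (by linarith)
  filter_upwards [hlog, t1.eventually_ge_atTop (|C| * 2 ^ ε / δ), eventually_ge_atTop 1] with X h1 h2 h3
  have hX : 0 < X := by linarith
  rw [Real.norm_of_nonneg (Real.log_nonneg h3), Real.norm_of_nonneg (by positivity), one_mul] at h1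
  rw [div_le_iff₀ hδ] at h2
  have e1 : (2 * X) ^ ε = 2 ^ ε * X ^ ε := Real.mul_rpow (by norm_num) hX.le
  have e2 : X ^ ε * X ^ ((1 - ε) / 2) * X ^ ((1 - ε) / 2) = X := by
    rw [← Real.rpow_add hX, ← Real.rpow_add hX, show ε + (1 - ε) / 2 + (1 - ε) / 2 = 1 by ring, Real.rpow_one]
  have p1 : 0 ≤ X ^ ε := by positivity
  have hl := Real.log_nonneg h3
  calc C * (2 * X) ^ ε * Real.log X ≤ |C| * (2 * X) ^ ε * Real.log X := by
        gcongr
        exact le_abs_self C
    _ = (|C| * 2 ^ ε) * X ^ ε * Real.log X := by rw [e1]; ring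
    _ ≤ (X ^ ((1 - ε) / 2) * δ) * X ^ ε * X ^ ((1 - ε) / 2) := by gcongr
    _ = δ * (X ^ ε * X ^ ((1 - ε) / 2) * X ^ ((1 - ε) / 2)) := by ring
    _ = δ * X := by rw [e2]

/-- outside a small exceptional set, short intervals carry little mass -/
theorem exc' {F : ℝ → ℝ} (G : Gr F) {ε η δ : ℝ} (hε : 0 < ε) (hε1 : ε < 1) (hη : 0 < η) (hδ : 0 < δ) :
    ∃ X0 : ℝ, 1 ≤ X0 ∧ ∀ X : ℝ, X0 ≤ X → ∃ E : Set ℝ, E ⊆ Icc X (2 * X) ∧ volume.real E ≤ δ * X ∧
      ∀ T ∈ Icc X (2 * X), T ∉ E → F (T + T ^ ε) - F (T - T ^ ε) ≤ η * (1 + F T) := by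
  obtain ⟨B, m, hB, hpoly⟩ := G.poly
  have hl1 : 0 < Real.log (1 + η) := Real.log_pos (by linarith)
  have ev : ∀ᶠ X : ℝ in atTop, (2 * X) ^ ε ≤ X / 2 ∧ 1 + F (3 * X) ≤ X ^ (m + 1) ∧
      (2 * ((m + 1 : ℕ) : ℝ)) * (2 * X) ^ ε * Real.log X ≤ (δ * Real.log (1 + η)) * X ∧ 3 ≤ X := by
    refine Eventually.and ?_ (Eventually.and ?_ ((small_pow hε1 _ (by positivity)).and (eventually_ge_atTop 3)))
    · have h := small_pow hε1 1 (show (0:ℝ) < 1 / 2 by norm_num)
      filter_upwards [h, Real.tendsto_log_atTop.eventually_ge_atTop 1, eventually_ge_atTop 1] with X h1 h2 h3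
      have h4 : 0 ≤ (2 * X) ^ ε := by positivity
      nlinarith
    · filter_upwards [eventually_ge_atTop (1 + B * 3 ^ m), eventually_ge_atTop 1] with X h1 h2
      have h3 := hpoly (3 * X) (by linarith)
      have h4 : (1:ℝ) ≤ X ^ m := one_le_pow₀ h2
      calc 1 + F (3 * X) ≤ X ^ m + B * (3 * X) ^ m := add_le_add h4 h3
        _ = (1 + B * 3 ^ m) * X ^ m := by rw [mul_pow]; ring
        _ ≤ X * X ^ m := by gcongr
        _ = X ^ (m + 1) := by ring
  obtain ⟨X1, hX1⟩ := eventually_atTop.1 ev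
  refine ⟨max X1 1, le_max_right _ _, fun X hX => ?_⟩
  obtain ⟨t1, t2, t3, t4⟩ := hX1 X ((le_max_left _ _).trans hX)
  set h := (2 * X) ^ ε with hh
  have hX0 : 0 < X := by linarith
  have hh0 : 0 ≤ h := by positivity
  set l : ℝ → ℝ := fun T => Real.log (1 + F T) with hl
  have hMn : ∀ T, 0 ≤ T → 0 ≤ F T := G.nonneg
  have hlnn : ∀ T, 0 ≤ T → 0 ≤ l T := fun T hT => Real.log_nonneg (by linarith [hMn T hT])
  have hlmono : ∀ S T, 0 ≤ S → S ≤ T → l S ≤ l T := fun S T hS hST =>
    Real.log_le_log (by linarith [hMn S hS]) (by linarith [G.mono S T hS hST])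
  have hlc : ContinuousOn l (Ici 0) := by
    refine ContinuousOn.log ((continuous_const.add G.cont).continuousOn) fun T hT => ?_
    have := hMn T hT
    positivity
  set φ : ℝ → ℝ := fun T => l (T + h) - l (T - h) with hφ
  have hφc : ContinuousOn φ (Icc X (2 * X)) := by
    refine ContinuousOn.sub (hlc.comp (by fun_prop) fun T hT => ?_)
      (hlc.comp (by fun_prop) fun T hT => ?_)
    · have := hT.1
      show 0 ≤ T + h
      linarith
    · have := hT.1
      show 0 ≤ T - h
      linarith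
  have hφm : Measurable (fun T => Real.log (1 + F (T + h)) - Real.log (1 + F (T - h))) := by
    have h1 : Measurable F := G.cont.measurable
    have h2 : Measurable (fun T => 1 + F (T + h)) :=
      measurable_const.add (h1.comp (measurable_id.add_const h))
    have h3 : Measurable (fun T => 1 + F (T - h)) :=
      measurable_const.add (h1.comp (measurable_id.sub_const h))
    exact h2.log.sub h3.log
  refine ⟨Icc X (2 * X) ∩ {T | Real.log (1 + η) ≤ φ T}, inter_subset_left, ?_, ?_⟩
  · -- the measure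
    have hφ0 : ∀ T ∈ Icc X (2 * X), 0 ≤ φ T := by
      intro T hT
      have := hlmono (T - h) (T + h) (by linarith [hT.1]) (by linarith)
      simp only [hφ]
      linarith
    have hint : IntegrableOn φ (Icc X (2 * X)) := hφc.integrableOn_Icc
    have hmk := mul_meas_ge_le_integral_of_nonneg (μ := volume.restrict (Icc X (2 * X))) (f := φ)
      ((ae_restrict_iff' measurableSet_Icc).2 (Eventually.of_forall hφ0)) hint (Real.log (1 + η))
    have e1 : (volume.restrict (Icc X (2 * X))).real {T | Real.log (1 + η) ≤ φ T} =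
        (volume : Measure ℝ).real (Icc X (2 * X) ∩ {T | Real.log (1 + η) ≤ φ T}) := by
      rw [measureReal_restrict_apply (measurableSet_le measurable_const hφm), inter_comm]
    rw [e1] at hmk
    have e2 : ∫ T in Icc X (2 * X), φ T ≤ 2 * h * (((m + 1 : ℕ) : ℝ) * Real.log X) := by
      have hii : ∀ a b : ℝ, 0 ≤ a → 0 ≤ b → IntervalIntegrable l volume a b := by
        intro a b ha hb
        refine (hlc.mono ?_).intervalIntegrable
        intro x hx
        rw [mem_uIcc] at hx
        show 0 ≤ x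
        rcases hx with hx | hx <;> linarith [hx.1]
      rw [integral_Icc_eq_integral_Ioc, ← intervalIntegral.integral_of_le (by linarith)]
      have c1 : IntervalIntegrable (fun T => l (T + h)) volume X (2 * X) := by
        refine (hlc.comp (by fun_prop) fun T hT => ?_).intervalIntegrable
        rw [uIcc_of_le (by linarith)] at hT
        show 0 ≤ T + h
        linarith [hT.1]
      have c2 : IntervalIntegrable (fun T => l (T - h)) volume X (2 * X) := by
        refine (hlc.comp (by fun_prop) fun T hT => ?_).intervalIntegrable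
        rw [uIcc_of_le (by linarith)] at hT
        show 0 ≤ T - h
        linarith [hT.1]
      simp only [hφ]
      rw [intervalIntegral.integral_sub c1 c2, intervalIntegral.integral_comp_add_right,
        intervalIntegral.integral_comp_sub_right]
      have s1 := intervalIntegral.integral_add_adjacent_intervals
        (hii (X + h) (2 * X - h) (by linarith) (by linarith))
        (hii (2 * X - h) (2 * X + h) (by linarith) (by linarith))
      have s2 := intervalIntegral.integral_add_adjacent_intervals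
        (hii (X - h) (X + h) (by linarith) (by linarith))
        (hii (X + h) (2 * X - h) (by linarith) (by linarith))
      have s3 : 0 ≤ ∫ x in (X - h)..(X + h), l x :=
        intervalIntegral.integral_nonneg (by linarith) fun x hx => hlnn x (by linarith [hx.1])
      have s4 : ∫ x in (2 * X - h)..(2 * X + h), l x ≤
          ∫ x in (2 * X - h)..(2 * X + h), ((m + 1 : ℕ) : ℝ) * Real.log X := by
        refine intervalIntegral.integral_mono_on (by linarith) (hii _ _ (by linarith) (by linarith))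
          (continuous_const.intervalIntegrable _ _) fun x hx => ?_
        have h1 : l x ≤ l (3 * X) := hlmono x (3 * X) (by linarith [hx.1]) (by linarith [hx.2])
        refine h1.trans ?_
        have h7 : l (3 * X) ≤ Real.log (X ^ (m + 1)) := by
          refine Real.log_le_log ?_ t2
          have := hMn (3 * X) (by linarith)
          linarith
        rwa [Real.log_pow] at h7
      rw [intervalIntegral.integral_const, smul_eq_mul] at s4
      have e5 : (2 * X + h - (2 * X - h)) * (((m + 1 : ℕ) : ℝ) * Real.log X) =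
          2 * h * (((m + 1 : ℕ) : ℝ) * Real.log X) := by ring
      rw [e5] at s4
      linarith
    have h3 := hmk.trans e2
    have h4 : Real.log (1 + η) * (volume : Measure ℝ).real (Icc X (2 * X) ∩ {T | Real.log (1 + η) ≤ φ T}) ≤
        Real.log (1 + η) * (δ * X) := by
      refine h3.trans (le_trans (le_of_eq ?_) (t3.trans (le_of_eq ?_)))
      · ring
      · ring
    exact le_of_mul_le_mul_left h4 hl1
  · intro T hT hTE
    have h1 : φ T < Real.log (1 + η) := by
      by_contra hcon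
      push Not at hcon
      exact hTE ⟨hT, hcon⟩
    have hT1 : 0 ≤ T - h := by linarith [hT.1]
    have hT0 : 0 ≤ T := by linarith [hT.1]
    have hTh : T ^ ε ≤ h := Real.rpow_le_rpow hT0 hT.2 hε.le
    have hTh0 : 0 ≤ T ^ ε := by positivity
    have p1 : 0 < 1 + F (T - h) := by linarith [hMn _ hT1]
    have p2 : 0 < 1 + F (T + h) := by linarith [hMn (T + h) (by linarith)]
    have h2 : 1 + F (T + h) ≤ (1 + η) * (1 + F (T - h)) := by
      have h3 : Real.log (1 + F (T + h)) < Real.log ((1 + η) * (1 + F (T - h))) := by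
        rw [Real.log_mul (by linarith) p1.ne']
        simp only [hφ, hl] at h1
        linarith
      exact ((Real.log_lt_log_iff p2 (by positivity)).1 h3).le
    have h6 := G.mono (T - h) T hT1 (by linarith)
    have h7 := G.mono (T + T ^ ε) (T + h) (by linarith) (by linarith)
    have h8 := G.mono (T - h) (T - T ^ ε) hT1 (by linarith)
    nlinarith [mul_le_mul_of_nonneg_left h6 hη.le]

/-- a good point just above -/
lemma good_above {F : ℝ → ℝ} (G : Gr F) {ε η : ℝ} (hε : 0 < ε) (hε1 : ε < 1) (hη : 0 < η) :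
    ∃ X0 : ℝ, 1 ≤ X0 ∧ ∀ T : ℝ, X0 ≤ T → ∃ T' ∈ Icc T (2 * T),
      F (T' + T' ^ ε) - F (T' - T' ^ ε) ≤ η * (1 + F T') := by
  obtain ⟨X0, hX0, h⟩ := exc' G hε hε1 hη (δ := 1 / 2) (by norm_num)
  refine ⟨X0, hX0, fun T hT => ?_⟩
  obtain ⟨E, h1, h2, h3⟩ := h T hT
  have hfin : volume E ≠ ⊤ :=
    ne_top_of_le_ne_top (by rw [Real.volume_Icc]; exact ENNReal.ofReal_ne_top) (measure_mono h1)
  obtain ⟨T', -, a, b⟩ := exists_good (X := T) (a := T) (b := 2 * T) (m := 1 / 2 * T) h2 hfin (by linarith)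
    le_rfl le_rfl
  exact ⟨T', a, h3 T' a b⟩

/-- the normalisation against powers -/
lemma NN_pow (q : ℕ) {s : ℝ} (hs : 1 < s) : ∃ C : ℝ, 0 ≤ C ∧ ∀ T : ℝ, 1 ≤ T → NN q T ≤ C * T ^ s := by
  have h := (isLittleO_log_rpow_rpow_atTop (q : ℝ) (show 0 < s - 1 by linarith)).bound (show (0:ℝ) < 1 by norm_num)
  obtain ⟨X0, hX0⟩ := eventually_atTop.1 h
  set X1 : ℝ := max X0 1 with hX1
  refine ⟨1 + Real.log X1 ^ q, by
    have : 0 ≤ Real.log X1 := Real.log_nonneg (le_max_right _ _)
    positivity, fun T hT => ?_⟩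
  have hT0 : 0 < T := by linarith
  have hlX : 0 ≤ Real.log X1 := Real.log_nonneg (le_max_right _ _)
  have hlT : 0 ≤ Real.log T := Real.log_nonneg hT
  have hTs : 1 ≤ T ^ (s - 1) := Real.one_le_rpow hT (by linarith)
  have e1 : T ^ s = T * T ^ (s - 1) := by
    nth_rewrite 2 [← Real.rpow_one T]
    rw [← Real.rpow_add hT0]; congr 1; ring
  have key : Real.log T ^ q ≤ (1 + Real.log X1 ^ q) * T ^ (s - 1) := by
    rcases le_total X1 T with h1 | h1
    · have h2 := hX0 T ((le_max_left _ _).trans h1)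
      rw [Real.norm_of_nonneg (by positivity), Real.norm_of_nonneg (by positivity), one_mul,
        Real.rpow_natCast] at h2
      have : 0 ≤ Real.log X1 ^ q * T ^ (s - 1) := by positivity
      linarith
    · have h2 : Real.log T ^ q ≤ Real.log X1 ^ q :=
        pow_le_pow_left₀ hlT (Real.log_le_log hT0 h1) q
      have h3 : 0 ≤ Real.log X1 ^ q := by positivity
      nlinarith
  unfold NN
  rw [e1]
  calc T * Real.log T ^ q ≤ T * ((1 + Real.log X1 ^ q) * T ^ (s - 1)) :=
        mul_le_mul_of_nonneg_left key hT0.le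
    _ = _ := by ring

/-- bootstrap of an upper bound -/
theorem boot {F : ℝ → ℝ} (G : Gr F) (q : ℕ) {β : ℝ} (hβ0 : 0 < β) (hβ1 : β < 1)
    (hstep : ∃ A T1 : ℝ, 0 ≤ A ∧ ∀ T : ℝ, T1 ≤ T → F T ≤ A * (NN q T + F (4 * T ^ β))) :
    ∃ C T2 : ℝ, 0 ≤ C ∧ ∀ T : ℝ, T2 ≤ T → F T ≤ C * NN q T := by
  obtain ⟨B, m, hB, hpoly⟩ := G.poly
  obtain ⟨A, T1, hA, hst⟩ := hstep
  set b : ℝ := 1 / β with hb
  have hb1 : 1 < b := by rw [hb, lt_div_iff₀ hβ0]; linarith
  have hβb : β * b = 1 := by rw [hb]; field_simp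
  obtain ⟨CN, hCN, hNN⟩ := NN_pow q hb1
  have main : ∀ n : ℕ, ∃ An : ℝ, 0 ≤ An ∧ ∀ T : ℝ, 1 ≤ T → F T ≤ An * T ^ (max b (m * β ^ n)) := by
    intro n
    induction n with
    | zero =>
        refine ⟨B, by linarith, fun T hT => ?_⟩
        refine (hpoly T hT).trans ?_
        rw [pow_zero, mul_one, ← Real.rpow_natCast T m]
        exact mul_le_mul_of_nonneg_left (Real.rpow_le_rpow_of_exponent_le hT (le_max_right _ _)) (by linarith)
    | succ n ih =>
        obtain ⟨An, hAn, ih⟩ := ih
        set r : ℝ := max b (m * β ^ n) with hr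
        set r' : ℝ := max b (m * β ^ (n + 1)) with hr'
        have hr0 : 0 < r := lt_of_lt_of_le (by linarith) (le_max_left _ _)
        have hrr : β * r ≤ r' := by
          rw [hr, hr', mul_max_of_nonneg _ _ hβ0.le, hβb]
          refine max_le_max hb1.le (le_of_eq ?_)
          rw [pow_succ]; ring
        have hr'b : b ≤ r' := le_max_left _ _
        have hr'0 : 0 ≤ r' := by linarith
        set T3 : ℝ := max T1 1 with hT3
        refine ⟨A * (CN + An * 4 ^ r) + F T3, ?_, fun T hT => ?_⟩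
        · have := G.nonneg T3 (by have := le_max_right T1 1; linarith)
          positivity
        have hT0 : 0 < T := by linarith
        have hp : 1 ≤ T ^ r' := Real.one_le_rpow hT hr'0
        have hF3 := G.nonneg T3 (by have := le_max_right T1 1; linarith)
        rcases le_total T T3 with h1 | h1
        · have h2 := G.mono T T3 hT0.le h1
          have h3 : 0 ≤ A * (CN + An * 4 ^ r) := by positivity
          calc F T ≤ F T3 * 1 := by rw [mul_one]; exact h2
            _ ≤ (A * (CN + An * 4 ^ r) + F T3) * T ^ r' := by gcongr; linarith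
        · have h2 := hst T ((le_max_left _ _).trans h1)
          have hTβ : 1 ≤ T ^ β := Real.one_le_rpow hT hβ0.le
          have h3 := ih (4 * T ^ β) (by linarith)
          have e1 : (4 * T ^ β) ^ r = 4 ^ r * T ^ (β * r) := by
            rw [Real.mul_rpow (by norm_num) (by positivity), ← Real.rpow_mul hT0.le]
          have h4 : T ^ (β * r) ≤ T ^ r' := Real.rpow_le_rpow_of_exponent_le hT hrr
          have h5 : T ^ b ≤ T ^ r' := Real.rpow_le_rpow_of_exponent_le hT hr'b
          have h6 := hNN T hT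
          rw [e1] at h3
          calc F T ≤ A * (NN q T + F (4 * T ^ β)) := h2
            _ ≤ A * (CN * T ^ r' + An * (4 ^ r * T ^ r')) := by
                refine mul_le_mul_of_nonneg_left (add_le_add (h6.trans ?_) (h3.trans ?_)) hA
                · gcongr
                · gcongr
            _ = A * (CN + An * 4 ^ r) * T ^ r' := by ring
            _ ≤ _ := by gcongr; linarith
  -- finitely many steps
  have hlim : Tendsto (fun n : ℕ => (m : ℝ) * β ^ n) atTop (𝓝 ((m : ℝ) * 0)) :=
    (tendsto_pow_atTop_nhds_zero_of_lt_one hβ0.le hβ1).const_mul _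
  rw [mul_zero] at hlim
  obtain ⟨n, hn⟩ := (hlim.eventually_le_const (show (0:ℝ) < b by linarith)).exists
  obtain ⟨An, hAn, hM⟩ := main n
  rw [max_eq_left hn] at hM
  refine ⟨A * (1 + An * 4 ^ b), max T1 (Real.exp 1), by positivity, fun T hT => ?_⟩
  have te : Real.exp 1 ≤ T := (le_max_right _ _).trans hT
  have hT0 : 0 < T := (Real.exp_pos 1).trans_le te
  have hT1 : 1 ≤ T := le_trans (by have := Real.add_one_le_exp 1; linarith) te
  have hL : 1 ≤ Real.log T := by rwa [Real.le_log_iff_exp_le hT0]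
  have hTβ : 1 ≤ T ^ β := Real.one_le_rpow hT1 hβ0.le
  have h3 := hM (4 * T ^ β) (by linarith)
  have e1 : (4 * T ^ β) ^ b = 4 ^ b * T := by
    rw [Real.mul_rpow (by norm_num) (by positivity), ← Real.rpow_mul hT0.le, hβb, Real.rpow_one]
  rw [e1] at h3
  have h4 : T ≤ NN q T := by
    unfold NN
    have : (1:ℝ) ≤ Real.log T ^ q := one_le_pow₀ hL
    nlinarith
  calc F T ≤ A * (NN q T + F (4 * T ^ β)) := hst T ((le_max_left _ _).trans hT)
    _ ≤ A * (NN q T + An * (4 ^ b * NN q T)) := by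
        refine mul_le_mul_of_nonneg_left (add_le_add le_rfl (h3.trans ?_)) hA
        gcongr
    _ = _ := by ring

/-- exceptional sets of small density do not matter for monotone functions -/
theorem monotone_step' {M : ℝ → ℝ} {q : ℕ} {m : ℝ} (hmono : ∀ S T : ℝ, 0 ≤ S → S ≤ T → M S ≤ M T)
    (h : ∀ ε δ : ℝ, 0 < ε → 0 < δ → ∃ X0 : ℝ, ∀ X : ℝ, X0 ≤ X → ∃ E : Set ℝ,
      E ⊆ Icc X (2 * X) ∧ volume.real E ≤ δ * X ∧
      ∀ T ∈ Icc X (2 * X), T ∉ E → |M T - m * NN q T| ≤ ε * NN q T) :
    Tendsto (fun T => M T / NN q T) atTop (𝓝 m) := by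
  rw [Metric.tendsto_atTop]
  intro ε0 hε0
  set ε : ℝ := ε0 / (2 * (|m| + 3)) with hε
  have hεp : 0 < ε := by positivity
  obtain ⟨δ, T1, hδ, hδ4, hT1, hN⟩ := NN_slow q (ε := min ε 1) (by positivity)
  obtain ⟨X0, hE⟩ := h (min ε 1) (δ / 2) (by positivity) (by positivity)
  refine ⟨max (2 * max X0 1) T1, fun T hT => ?_⟩
  have a1 : 2 * max X0 1 ≤ T := (le_max_left _ _).trans hT
  have a2 : T1 ≤ T := (le_max_right _ _).trans hT
  have a5 : X0 ≤ T := by have := le_max_left X0 1; have := le_max_right X0 1; linarith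
  have a6 : X0 ≤ T / 2 := by have := le_max_left X0 1; linarith
  have a7 : 1 ≤ T / 2 := by have := le_max_right X0 1; linarith
  have hT4 : 4 ≤ T := hT1.trans a2
  have hT0 : 0 < T := by linarith
  have hNT : 0 < NN q T := NN_pos q (by linarith)
  have hmin : min ε 1 ≤ ε := min_le_left _ _
  have hmin1 : min ε 1 ≤ 1 := min_le_right _ _
  have hmin0 : 0 < min ε 1 := by positivity
  have hfin : ∀ X : ℝ, ∀ E : Set ℝ, E ⊆ Icc X (2 * X) → volume E ≠ ⊤ := fun X E hEs =>
    ne_top_of_le_ne_top (by rw [Real.volume_Icc]; exact ENNReal.ofReal_ne_top) (measure_mono hEs)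
  set w : ℝ := δ * T with hw
  have hw0 : 0 < w := by positivity
  have hwT : w ≤ T / 4 := by rw [hw]; nlinarith
  -- upper point
  obtain ⟨E1, hE1s, hE1m, hE1⟩ := hE T a5
  obtain ⟨t1, ht1, ht1', ht1E⟩ := exists_good (X := T) (a := T) (b := T + w) (m := δ / 2 * T)
    hE1m (hfin _ _ hE1s) (by rw [hw]; nlinarith) le_rfl (by linarith)
  have u1 := hE1 t1 ht1' ht1E
  have u2 := hN T t1 a2 (by rw [abs_le]; constructor <;> linarith [ht1.1, ht1.2])
  -- lower point
  obtain ⟨E2, hE2s, hE2m, hE2⟩ := hE (T / 2) a6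
  obtain ⟨t2, ht2, ht2', ht2E⟩ := exists_good (X := T / 2) (a := T - w) (b := T) (m := δ / 2 * (T / 2))
    hE2m (hfin _ _ hE2s) (by rw [hw]; nlinarith) (by linarith) (by linarith)
  have v1 := hE2 t2 ht2' ht2E
  have v2 := hN T t2 a2 (by rw [abs_le]; constructor <;> linarith [ht2.1, ht2.2])
  have m1 := hmono T t1 (by linarith) ht1.1
  have m2 := hmono t2 T (by linarith [ht2'.1]) ht2.2
  rw [Real.dist_eq, show M T / NN q T - m = (M T - m * NN q T) / NN q T by field_simp, abs_div,
    abs_of_pos hNT, div_lt_iff₀ hNT]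
  obtain ⟨e, he⟩ : ∃ e, e = min ε 1 := ⟨_, rfl⟩
  rw [← he] at u1 u2 v1 v2 hmin hmin1 hmin0
  have key : |M T - m * NN q T| ≤ (|m| + 2) * (e * NN q T) := by
    have hmb : |m * NN q t1 - m * NN q T| ≤ |m| * (e * NN q T) := by
      rw [← mul_sub, abs_mul]; exact mul_le_mul_of_nonneg_left u2 (abs_nonneg _)
    have hmb2 : |m * NN q t2 - m * NN q T| ≤ |m| * (e * NN q T) := by
      rw [← mul_sub, abs_mul]; exact mul_le_mul_of_nonneg_left v2 (abs_nonneg _)
    have p0 : e * NN q T ≤ 1 * NN q T := mul_le_mul_of_nonneg_right hmin1 hNT.le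
    have p1 : NN q t1 ≤ 2 * NN q T := by
      have := (abs_le.1 u2).2
      linarith
    have p2 : NN q t2 ≤ 2 * NN q T := by
      have := (abs_le.1 v2).2
      linarith
    have p3 : e * NN q t1 ≤ e * (2 * NN q T) := mul_le_mul_of_nonneg_left p1 hmin0.le
    have p4 : e * NN q t2 ≤ e * (2 * NN q T) := mul_le_mul_of_nonneg_left p2 hmin0.le
    have p5 : (|m| + 2) * (e * NN q T) = |m| * (e * NN q T) + e * (2 * NN q T) := by ring
    rw [p5, abs_le]
    constructor
    · have h20 := (abs_le.1 v1).1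
      have h21 := (abs_le.1 hmb2).1
      linarith
    · have h20 := (abs_le.1 u1).2
      have h21 := (abs_le.1 hmb).2
      linarith
  refine lt_of_le_of_lt key ?_
  have h10 : (|m| + 2) * (e * NN q T) ≤ (|m| + 2) * (ε * NN q T) := by gcongr
  refine lt_of_le_of_lt h10 ?_
  have h11 : (|m| + 2) * ε < ε0 := by
    rw [hε]
    rw [mul_div_assoc', div_lt_iff₀ (by positivity)]
    nlinarith [abs_nonneg m]
  nlinarith

end

end Pool.Agent.J4.H44.LP
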