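import Pool.Agent.J4.H44.LP.Pr
import Pool.Agent.J4.H44.LP.Ex

set_option autoImplicit false

/-! From the smoothed function to the Dirichlet polynomial. -/

namespace Pool.Agent.J4.H44.LP

open Complex MeasureTheory Filter Topology Set Pool.Agent.W182.KO Pool.Agent.R446.KR Pool.Agent.TH535.SM
open scoped ContDiff FourierTransform ENNReal ComplexConjugate

noncomputable section

variable {ξ1 ξ2 : ℝ} {φ φ1 φ2 : ℝ → ℂ} {z : ℝ → ℂ} {G : ℂ → ℂ} {u K : ℕ}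

lemma Dir_cont (k : ℕ) (h : TF ξ1 φ) {L : ℝ} (hL : 0 < L) : Continuous (Dir k φ L) := by
  obtain ⟨R, hR, hb⟩ := supp_bd h.cs
  obtain ⟨N, hN⟩ := exists_nat_ge (Real.exp (R * L))
  have e : Dir k φ L = fun t : ℝ => ∑ n ∈ Finset.range (N + 1),
      (dk k n : ℂ) * φ (Real.log n / L) * (n : ℂ) ^ (-(1 / 2 + I * t)) := by
    funext t
    unfold Dir
    refine tsum_eq_sum fun n hn => ?_
    rw [Finset.mem_range, not_lt] at hn
    have hn1 : (N : ℝ) < n := by exact_mod_cast hn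
    have hn0 : (0:ℝ) < n := (Real.exp_pos _).trans_le (hN.trans hn1.le)
    have hlog : R < Real.log n / L := by
      rw [lt_div_iff₀ hL, Real.lt_log_iff_exp_lt hn0]
      linarith
    rw [hb _ (hlog.trans_le (le_abs_self _)), mul_zero, zero_mul]
  rw [e]
  refine continuous_finset_sum _ fun n _ => ?_
  refine continuous_const.mul (Continuous.const_cpow (by fun_prop) (Or.inr fun t ht => ?_))
  have := congrArg Complex.re ht
  simp at this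

lemma PD_PK (k : ℕ) (h : TF ξ1 φ) (hξ : 0 ≤ ξ1) {ϑ ζ : ℝ} (hϑ0 : 0 < ϑ) (hϑ : ϑ < 1) (hζ0 : 0 < ζ)
    (hζ1 : ζ ≤ 1) : ∃ C T0 : ℝ, 0 ≤ C ∧ Real.exp 1 ≤ T0 ∧ ∀ T : ℝ, T0 ≤ T →
      |PD k φ ϑ T - PK k φ ϑ T| ≤ ζ * PK k φ ϑ T + C := by
  have D := zk_dat k (u := 1) le_rfl
  obtain ⟨C, T0, hC, hT0, hr⟩ := rep k h hξ hϑ0
  set ζ' : ℝ := ζ / 2 with hζ'
  have hζ'0 : 0 < ζ' := by positivity
  refine ⟨2 * (1 + ζ'⁻¹) * C ^ 2, T0, by positivity, hT0, fun T hT => ?_⟩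
  have te : Real.exp 1 ≤ T := hT0.trans hT
  have hTp : 0 < T := (Real.exp_pos 1).trans_le te
  have hT1 : 1 ≤ T := le_trans (by have := Real.add_one_le_exp 1; linarith) te
  have hL : 1 ≤ Real.log T := by rwa [Real.le_log_iff_exp_le hTp]
  have a2 := rpow_le_self hT1 hϑ.le
  have a3 : 1 ≤ T ^ ϑ := Real.one_le_rpow hT1 (by linarith)
  have hf := Dir_cont k h (L := Real.log T) (by linarith)
  have hg := kz_cont h D hL
  have hc := sq_cmp (μ := volume.restrict (Ioc (T ^ ϑ) T)) (f := Dir k φ (Real.log T))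
    (g := kF φ (Real.log T) (zk k))
    ((hf.norm.pow 2).integrableOn_Ioc) ((hg.norm.pow 2).integrableOn_Ioc)
    (((hf.sub hg).norm.pow 2).integrableOn_Ioc) hζ'0 (by rw [hζ']; linarith)
  rw [← intervalIntegral.integral_of_le a2, ← intervalIntegral.integral_of_le a2,
    ← intervalIntegral.integral_of_le a2] at hc
  have hd : ∫ t in (T ^ ϑ)..T, ‖Dir k φ (Real.log T) t - kF φ (Real.log T) (zk k) t‖ ^ 2 ≤ C ^ 2 := by
    calc _ ≤ ∫ t in (T ^ ϑ)..T, (C / T) ^ 2 := by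
          refine intervalIntegral.integral_mono_on a2 (((hf.sub hg).norm.pow 2).intervalIntegrable _ _)
            (continuous_const.intervalIntegrable _ _) fun t ht => ?_
          have := hr T hT t ht.1 ht.2
          rw [norm_sub_rev] at this
          exact pow_le_pow_left₀ (norm_nonneg _) this 2
      _ = (T - T ^ ϑ) * (C / T) ^ 2 := by rw [intervalIntegral.integral_const, smul_eq_mul]
      _ ≤ T * (C / T) ^ 2 := by gcongr; linarith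
      _ = C ^ 2 / T := by field_simp
      _ ≤ C ^ 2 := div_le_self (by positivity) hT1
  have e1 : PD k φ ϑ T = ∫ t in (T ^ ϑ)..T, ‖Dir k φ (Real.log T) t‖ ^ 2 := rfl
  have e2 : PK k φ ϑ T = ∫ t in (T ^ ϑ)..T, ‖kF φ (Real.log T) (zk k) t‖ ^ 2 := rfl
  rw [← e1, ← e2] at hc
  have i1 : 0 < ζ'⁻¹ := inv_pos.2 hζ'0
  have i2 := mul_le_mul_of_nonneg_left hd (show 0 ≤ 2 * (1 + ζ'⁻¹) by positivity)
  have e3 : 2 * ζ' = ζ := by rw [hζ']; ring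
  rw [e3] at hc
  linarith

lemma PK_le (k : ℕ) (h : TF ξ1 φ) {ε : ℝ} (hε : 0 < ε) : ∃ C : ℝ, 0 ≤ C ∧ ∀ ϑ ϑ' T : ℝ, Real.exp 1 ≤ T →
    0 < ϑ → ϑ ≤ 1 → PK k φ ϑ T ≤ C * (M (zk k) T + Er k ε ϑ' T) := by
  have D := zk_dat k (u := 1) le_rfl
  obtain ⟨C2, q, hC2, hwin⟩ := win_all k hε
  obtain ⟨C3, hC3, hsq⟩ := kz_sq' h D q
  refine ⟨C3 * (1 + C2), by positivity, fun ϑ ϑ' T te h0 h1 => ?_⟩
  have hTp : 0 < T := (Real.exp_pos 1).trans_le te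
  have hT1 : 1 ≤ T := le_trans (by have := Real.add_one_le_exp 1; linarith) te
  have hL : 1 ≤ Real.log T := by rwa [Real.le_log_iff_exp_le hTp]
  have a2 := rpow_le_self hT1 h1
  have hM := M_nonneg (zk k) (T := T) hTp.le
  have hEd := Ed_nonneg (zk k) T (r := T ^ ε) (by positivity)
  have hM2 := M_nonneg (zk k) (T := 2 * T ^ ϑ') (by positivity)
  have a := hsq (Real.log T) (T ^ ϑ) T (M (zk k) T + Ed (zk k) T (T ^ ε)) C2 hL a2 (by positivity) hC2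
    (fun y => hwin T (T ^ ϑ) y hT1 (by positivity) a2)
  have e2 : PK k φ ϑ T = ∫ t in (T ^ ϑ)..T, ‖kF φ (Real.log T) (zk k) t‖ ^ 2 := rfl
  rw [← e2] at a
  refine a.trans ?_
  have h2 : M (zk k) T + Ed (zk k) T (T ^ ε) + C2 ≤ (1 + C2) * (M (zk k) T + Er k ε ϑ' T) := by
    unfold Er
    nlinarith [mul_nonneg hC2 hM, mul_nonneg hC2 hEd, mul_nonneg hC2 hM2]
  calc C3 * (M (zk k) T + Ed (zk k) T (T ^ ε) + C2) ≤ C3 * ((1 + C2) * (M (zk k) T + Er k ε ϑ' T)) :=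
        mul_le_mul_of_nonneg_left h2 hC3
    _ = _ := by ring

/-- the difference between the two mean squares -/
theorem PD_close (k : ℕ) (h : TF ξ1 φ) (hξ : 0 ≤ ξ1) {ε ϑ η : ℝ} (hε : 0 < ε) (hϑ0 : 0 < ϑ) (hϑ : ϑ < 1)
    (hη : 0 < η) (ϑ' : ℝ) : ∃ C T0 : ℝ, 0 ≤ C ∧ Real.exp 1 ≤ T0 ∧ ∀ T : ℝ, T0 ≤ T →
      |PD k φ ϑ T - PK k φ ϑ T| ≤ η * M (zk k) T + C * Er k ε ϑ' T := by
  obtain ⟨C1, hC1, h1⟩ := PK_le k h hε
  set ζ : ℝ := min 1 (η / (C1 + 1)) with hζ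
  have hζ0 : 0 < ζ := by positivity
  have hζ1 : ζ ≤ 1 := min_le_left _ _
  have hζ2 : ζ * (C1 + 1) ≤ η := by
    have := min_le_right 1 (η / (C1 + 1))
    rwa [← hζ, le_div_iff₀ (by positivity)] at this
  obtain ⟨C2, T0, hC2, hT0, h2⟩ := PD_PK k h hξ hϑ0 hϑ hζ0 hζ1
  refine ⟨C1 + C2, T0, by positivity, hT0, fun T hT => ?_⟩
  have te : Real.exp 1 ≤ T := hT0.trans hT
  have hTp : 0 < T := (Real.exp_pos 1).trans_le te
  have a1 := h1 ϑ ϑ' T te hϑ0 hϑ.le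
  have a2 := h2 T hT
  have hM := M_nonneg (zk k) (T := T) hTp.le
  have hE := Er_pos k ε ϑ' hTp.le
  obtain ⟨m, hm⟩ : ∃ m, m = M (zk k) T := ⟨_, rfl⟩
  obtain ⟨R, hR⟩ : ∃ R, R = Er k ε ϑ' T := ⟨_, rfl⟩
  rw [← hm, ← hR] at a1
  rw [← hm] at hM
  rw [← hR] at hE
  rw [← hm, ← hR]
  have i1 : ζ * PK k φ ϑ T ≤ ζ * (C1 * (m + R)) := mul_le_mul_of_nonneg_left a1 hζ0.le
  have i2 : ζ * C1 * m ≤ η * m := by
    refine mul_le_mul_of_nonneg_right ?_ hM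
    nlinarith
  have i3 : ζ * (C1 * R) ≤ 1 * (C1 * R) := mul_le_mul_of_nonneg_right hζ1 (by positivity)
  have i4 : C2 ≤ C2 * R := le_mul_of_one_le_right hC2 hE
  refine a2.trans ?_
  nlinarith

/-- **the pair identity** for the Dirichlet polynomials -/
theorem pair_PD (k : ℕ) (h1 : TF ξ1 φ1) (hξ1 : 0 ≤ ξ1) (h2 : TF ξ2 φ2) (hξ2 : 0 ≤ ξ2)
    (hp : ∀ v : ℝ, 0 ≤ v → v ≤ k → ‖φ1 v‖ ^ 2 + ‖φ2 (k - v)‖ ^ 2 = 1) {ε η ϑ : ℝ} (hε : 0 < ε)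
    (hη : 0 < η) (hϑ0 : 0 < ϑ) (hϑ : ϑ < 1) :
    ∃ ϑ' C T0 : ℝ, ϑ ≤ ϑ' ∧ ϑ' < 1 ∧ 0 ≤ C ∧ Real.exp 1 ≤ T0 ∧ ∀ T : ℝ, T0 ≤ T →
      |PD k φ1 ϑ T + PD k φ2 ϑ T - M (zk k) T| ≤ η * M (zk k) T + C * Er k ε ϑ' T := by
  obtain ⟨ϑ', C1, T1, a1, a2, hC1, hT1, h3⟩ := pair_PK k h1 h2 hp hε (η := η / 3) (by positivity) hϑ0 hϑ
  obtain ⟨C2, T2, hC2, hT2, h4⟩ := PD_close k h1 hξ1 hε hϑ0 hϑ (η := η / 3) (by positivity) ϑ'
  obtain ⟨C3, T3, hC3, hT3, h5⟩ := PD_close k h2 hξ2 hε hϑ0 hϑ (η := η / 3) (by positivity) ϑ'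
  refine ⟨ϑ', C1 + C2 + C3, max T1 (max T2 T3), a1, a2, by positivity, le_max_of_le_left hT1, fun T hT => ?_⟩
  have b1 := h3 T ((le_max_left _ _).trans hT)
  have b2 := h4 T (((le_max_left _ _).trans (le_max_right _ _)).trans hT)
  have b3 := h5 T (((le_max_right _ _).trans (le_max_right _ _)).trans hT)
  rw [abs_le] at b1 b2 b3 ⊢
  constructor <;> linarith [b1.1, b1.2, b2.1, b2.2, b3.1, b3.2]

lemma M_Gr (k : ℕ) : Gr (M (zk k)) := by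
  have D := zk_dat k (u := 1) le_rfl
  refine ⟨M_cont D, fun T hT => M_nonneg (zk k) hT, fun S T _ h => M_mono D h, ?_⟩
  obtain ⟨C, q, hC, h⟩ := M_upper D
  refine ⟨C * 2 ^ q, q, ?_, fun T hT => ?_⟩
  · have : (1:ℝ) ≤ 2 ^ q := one_le_pow₀ (by norm_num)
    nlinarith
  · refine (h T (by linarith)).trans ?_
    have : (1 + T) ^ q ≤ (2 * T) ^ q := pow_le_pow_left₀ (by linarith) (by linarith) q
    calc C * (1 + T) ^ q ≤ C * (2 * T) ^ q := by gcongr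
      _ = _ := by rw [mul_pow]; ring

/-- the error term in terms of the moment -/
lemma Er_eq (k : ℕ) (ε ϑ : ℝ) {T : ℝ} : Er k ε ϑ T = 1 + (2 * M (zk k) (T ^ ε) +
    (M (zk k) (T + T ^ ε) - M (zk k) (T - T ^ ε))) + M (zk k) (2 * T ^ ϑ) := by
  have D := zk_dat k (u := 1) le_rfl
  have e1 : M (zk k) (T + T ^ ε) - M (zk k) (T - T ^ ε) = ∫ t in (T - T ^ ε)..(T + T ^ ε), ‖zk k t‖ ^ 2 := by
    unfold M
    rw [intervalIntegral.integral_interval_sub_left (D.sc.intervalIntegrable _ _)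
      (D.sc.intervalIntegrable _ _)]
  have e2 : ∫ t in (-(T ^ ε))..(T ^ ε), ‖zk k t‖ ^ 2 = 2 * M (zk k) (T ^ ε) := by
    rw [← intervalIntegral.integral_add_adjacent_intervals (b := 0) (D.sc.intervalIntegrable _ _)
      (D.sc.intervalIntegrable _ _), M_neg]
    unfold M
    ring
  unfold Er Ed
  rw [e1, e2]

end

end Pool.Agent.J4.H44.LP
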