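import Pool.Agent.J4.H44.LP.Eg
import Pool.Agent.W182.KO.Fin2

set_option autoImplicit false

/-! The edges of the spectrum. -/

namespace Pool.Agent.J4.H44.LP

open Complex MeasureTheory Filter Topology Set Pool.Agent.W182.KO Pool.Agent.R446.KR Pool.Agent.TH535.SM
open scoped ContDiff FourierTransform ENNReal ComplexConjugate

noncomputable section

variable {g : ℝ → ℂ}

lemma Qk_Cor (k : ℕ) (α : ℝ) (T : ℝ) :
    Qk k α T = Cor (zk k) (α / Real.log T) T / ((NN (k ^ 2) T : ℝ) : ℂ) := by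
  unfold Qk Cor NN
  have e : ∫ t in (0:ℝ)..T, riemannZeta (1 / 2 + I * α / Real.log T + I * t) ^ k *
      riemannZeta (1 / 2 + I * α / Real.log T - I * t) ^ k =
      ∫ t in (0:ℝ)..T, zk k (t + α / Real.log T) * conj (zk k (t + -(α / Real.log T))) := by
    refine intervalIntegral.integral_congr fun t _ => ?_
    have e1 : (1 / 2 + I * α / Real.log T + I * t : ℂ) = 1 / 2 + ((t + α / Real.log T : ℝ) : ℂ) * I := by
      push_cast; ring
    have e2 : (1 / 2 + I * α / Real.log T - I * t : ℂ) =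
        conj (1 / 2 + ((t + -(α / Real.log T) : ℝ) : ℂ) * I) := by
      rw [map_add, map_mul, conj_I, Complex.conj_ofReal, map_div₀, map_one, map_ofNat]
      push_cast
      ring
    unfold zk ze
    rw [e1, e2, riemannZeta_conj, ← map_pow]
  rw [e, Complex.ofReal_mul, Complex.ofReal_pow, ← mul_inv]
  exact (div_eq_inv_mul _ _).symm

/-- the edge constant -/
def edg (k : ℕ) (g : ℝ → ℂ) : ℂ :=
  (∫ x in (0:ℝ)..1, (x : ℂ) ^ (k ^ 2 - 1) / (k ^ 2 - 1).factorial * g x) +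
    ∫ x in (k - 1 : ℝ)..k, ((k : ℂ) - x) ^ (k ^ 2 - 1) / (k ^ 2 - 1).factorial * g x

lemma P_half (g : ℝ → ℂ) (α : ℝ) : P (fun ξ => g (ξ / 2)) (α * I) = 2 * P g (2 * α * I) := by
  unfold P
  have h := Measure.integral_comp_div (fun v : ℝ => g v * cexp (v * (2 * α * I))) (2:ℝ)
  have e : (fun ξ : ℝ => g (ξ / 2) * cexp (ξ * (α * I))) =
      fun ξ : ℝ => g (ξ / 2) * cexp (((ξ / 2 : ℝ) : ℂ) * (2 * α * I)) := by
    funext ξ
    congr 2
    push_cast; ring
  rw [e, h, abs_two]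
  rw [Complex.real_smul]
  push_cast
  rfl

/-- **the edges** -/
theorem edge_lim {k : ℕ} (hk : 2 ≤ k) (hcd : ContDiff ℝ ∞ g) (hcs : HasCompactSupport g)
    (hs : ∀ x ∈ Icc (1:ℝ) (k - 1), x ∉ tsupport g) :
    Tendsto (fun T => (∫ y, KL g 1 y * Cor (zk k) (y / (2 * Real.log T)) T) / ((NN (k ^ 2) T : ℝ) : ℂ)) atTop
      (𝓝 (H306R2.aF k * edg k g)) := by
  have hcd' : ContDiff ℝ ∞ (fun ξ : ℝ => g (ξ / 2)) := hcd.comp (contDiff_id.div_const 2)
  have hcs' : HasCompactSupport (fun ξ : ℝ => g (ξ / 2)) := by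
    obtain ⟨R, hR, hb⟩ := supp_bd hcs
    refine HasCompactSupport.intro (K := Icc (-(2 * R)) (2 * R)) isCompact_Icc fun v hv => ?_
    refine hb _ ?_
    by_contra hcon
    push Not at hcon
    apply hv
    have := abs_le.1 hcon
    constructor <;> linarith [this.1, this.2]
  have hs' : ∀ ξ ∈ Icc (2:ℝ) (2 * k - 2), ξ ∉ tsupport (fun ξ : ℝ => g (ξ / 2)) := by
    intro ξ hξ
    have h1 := hs (ξ / 2) ⟨by linarith [hξ.1], by linarith [hξ.2]⟩
    rw [notMem_tsupport_iff_eventuallyEq] at h1 ⊢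
    have ht : Tendsto (fun x : ℝ => x / 2) (𝓝 ξ) (𝓝 (ξ / 2)) := by
      have : Continuous (fun x : ℝ => x / 2) := by fun_prop
      exact this.tendsto ξ
    exact ht.eventually h1
  have h := both_limit hk hcd' hcs' hs'
  have h2 := h.const_mul ((2 * Real.pi : ℂ)⁻¹)
  have hp : (2 * (Real.pi : ℂ)) ≠ 0 := by
    have := Real.pi_ne_zero
    simp [this]
  have e1 : (2 * Real.pi : ℂ)⁻¹ * (2 * Real.pi * H306R2.aF k *
        ((∫ x in (0:ℝ)..1, (x : ℂ) ^ (k ^ 2 - 1) / (k ^ 2 - 1).factorial * g (2 * x / 2)) +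
        ∫ x in (k - 1 : ℝ)..k, ((k : ℂ) - x) ^ (k ^ 2 - 1) / (k ^ 2 - 1).factorial * g (2 * x / 2))) =
      H306R2.aF k * edg k g := by
    unfold edg
    have e2 : ∀ x : ℝ, 2 * x / 2 = x := fun x => by ring
    simp only [e2]
    field_simp
  rw [e1] at h2
  refine h2.congr fun T => ?_
  have e3 : ∀ α : ℝ, P (fun ξ => g (ξ / 2)) (α * I) * Qk k α T = 2 * (P g (2 * α * I) * Qk k α T) := by
    intro α
    rw [P_half]; ring
  simp only [e3]
  rw [integral_const_mul]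
  have h4 := Measure.integral_comp_mul_left (fun y : ℝ => P g (y * I) * Qk k (y / 2) T) (2:ℝ)
  have e4 : (fun x : ℝ => P g (((2 * x : ℝ) : ℂ) * I) * Qk k (2 * x / 2) T) =
      fun x : ℝ => P g (2 * x * I) * Qk k x T := by
    funext x
    have : 2 * x / 2 = x := by ring
    rw [this]
    push_cast; rfl
  rw [e4] at h4
  rw [h4, abs_of_pos (by norm_num : (0:ℝ) < 2⁻¹), Complex.real_smul, ← integral_div]
  have e5 : ∀ y : ℝ, KL g 1 y * Cor (zk k) (y / (2 * Real.log T)) T / ((NN (k ^ 2) T : ℝ) : ℂ) =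
      (2 * Real.pi : ℂ)⁻¹ * (P g (y * I) * Qk k (y / 2) T) := by
    intro y
    rw [Qk_Cor, div_div]
    unfold KL
    push_cast
    rw [one_mul]
    field_simp
  simp only [e5]
  rw [integral_const_mul]
  push_cast
  ring

end

end Pool.Agent.J4.H44.LP
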