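import Pool.Agent.J4.H44.LP.Sv

set_option autoImplicit false

/-! The spectral functional of a smooth test function is an average of shifted moments. -/

namespace Pool.Agent.J4.H44.LP

open Complex MeasureTheory Filter Topology Set Pool.Agent.W182.KO Pool.Agent.R446.KR Pool.Agent.TH535.SM
open Pool.Agent.J4.H44.OL (Rs Rs_int Rs_Sp)
open scoped ContDiff FourierTransform ENNReal ComplexConjugate

noncomputable section

variable {ξ1 ξ2 : ℝ} {φ φ1 φ2 g : ℝ → ℂ} {z : ℝ → ℂ} {G : ℂ → ℂ} {u K : ℕ}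

lemma Cor_cont (D : Dat z G u K) (T : ℝ) : Continuous (fun a => Cor z a T) := by
  unfold Cor
  have hz := D.zc
  refine intervalIntegral.continuous_parametric_intervalIntegral_of_continuous' ?_ 0 T
  unfold Function.uncurry
  fun_prop

/-- the trivial bound of the correlations -/
lemma Cor_le (D : Dat z G u K) {ε : ℝ} (hε : 0 < ε) : ∃ (C : ℝ) (q : ℕ), 0 ≤ C ∧ ∀ T a : ℝ, 1 ≤ T →
    ‖Cor z a T‖ ≤ (M z T + Ed z T (T ^ ε)) + C * (1 + |a|) ^ q := by
  obtain ⟨C, q, hC, hE⟩ := Ed_all D hε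
  refine ⟨C, q, hC, fun T a hT => ?_⟩
  have hT0 : 0 ≤ T := by linarith
  have w1 := mass_win D (S := T) (y := a) (a := 0) le_rfl hT0
  have w2 := mass_win D (S := T) (y := -a) (a := 0) le_rfl hT0
  rw [abs_neg] at w2
  have e1 : ∫ t in (0 + a)..(T + a), ‖z t‖ ^ 2 = ∫ t in (0:ℝ)..T, ‖z (t + a)‖ ^ 2 :=
    (intervalIntegral.integral_comp_add_right (fun t => ‖z t‖ ^ 2) a).symm
  have e2 : ∫ t in (0 + -a)..(T + -a), ‖z t‖ ^ 2 = ∫ t in (0:ℝ)..T, ‖z (t + -a)‖ ^ 2 :=
    (intervalIntegral.integral_comp_add_right (fun t => ‖z t‖ ^ 2) (-a)).symm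
  rw [e1] at w1
  rw [e2] at w2
  have hE' := hE T a hT
  have hz := D.zc
  have i1 : IntervalIntegrable (fun t => ‖z (t + a)‖ ^ 2) volume 0 T :=
    Continuous.intervalIntegrable (by fun_prop) _ _
  have i2 : IntervalIntegrable (fun t => ‖z (t + -a)‖ ^ 2) volume 0 T :=
    Continuous.intervalIntegrable (by fun_prop) _ _
  have key : ‖Cor z a T‖ ≤ ∫ t in (0:ℝ)..T, (1 / 2) * (‖z (t + a)‖ ^ 2 + ‖z (t + -a)‖ ^ 2) := by
    unfold Cor
    refine (intervalIntegral.norm_integral_le_integral_norm hT0).trans ?_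
    refine intervalIntegral.integral_mono_on hT0 (Continuous.intervalIntegrable (by fun_prop) _ _)
      (Continuous.intervalIntegrable (by fun_prop) _ _) fun t _ => ?_
    rw [norm_mul, RCLike.norm_conj]
    nlinarith [sq_nonneg (‖z (t + a)‖ - ‖z (t + -a)‖)]
  rw [intervalIntegral.integral_const_mul, intervalIntegral.integral_add i1 i2] at key
  linarith

/-- the tail of the kernel -/
lemma KL_tail (h : TF ξ1 g) (N : ℕ) : ∃ C : ℝ, 0 ≤ C ∧ ∀ L : ℝ, 1 ≤ L →
    ∫ y in {y : ℝ | 2 * L < |y|}, ‖KL g 1 y‖ * (1 + |y|) ^ N ≤ C / L := by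
  obtain ⟨C, hC, hk⟩ := KL_poly h (N + 1)
  obtain ⟨C0, -, hk0⟩ := KL_poly h N
  refine ⟨C, hC, fun L hL => ?_⟩
  have hL0 : 0 < L := by linarith
  have hi := (hk 1 le_rfl).2.1
  have hi0 := (hk0 1 le_rfl).2.1
  have hm : MeasurableSet {y : ℝ | 2 * L < |y|} := measurableSet_lt measurable_const measurable_id.abs
  calc ∫ y in {y : ℝ | 2 * L < |y|}, ‖KL g 1 y‖ * (1 + |y|) ^ N ≤
        ∫ y in {y : ℝ | 2 * L < |y|}, (1 / L) * (‖KL g 1 y‖ * (1 + |y|) ^ (N + 1)) := by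
        refine setIntegral_mono_on hi0.integrableOn (hi.const_mul _).integrableOn hm fun y hy => ?_
        have h1 : L ≤ 1 + |y| := by
          have : 2 * L < |y| := hy
          linarith
        rw [pow_succ]
        have h2 : 0 ≤ ‖KL g 1 y‖ * (1 + |y|) ^ N := by positivity
        rw [one_div, ← div_eq_inv_mul, le_div_iff₀ hL0]
        calc ‖KL g 1 y‖ * (1 + |y|) ^ N * L ≤ ‖KL g 1 y‖ * (1 + |y|) ^ N * (1 + |y|) :=
              mul_le_mul_of_nonneg_left h1 h2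
          _ = _ := by ring
    _ ≤ ∫ y, (1 / L) * (‖KL g 1 y‖ * (1 + |y|) ^ (N + 1)) :=
        setIntegral_le_integral (hi.const_mul _) (Eventually.of_forall fun y => by
          simp only [Pi.zero_apply]; positivity)
    _ = (1 / L) * ∫ y, ‖KL g 1 y‖ * (1 + |y|) ^ (N + 1) := by rw [integral_const_mul]
    _ ≤ (1 / L) * C := mul_le_mul_of_nonneg_left (hk 1 le_rfl).2.2 (by positivity)
    _ = _ := by ring

/-- **the spectral functional as an average of shifted moments** -/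
theorem Sg_Cor (k : ℕ) (hu : 1 ≤ u) (h : TF ξ1 g) {ε η : ℝ} (hε : 0 < ε) (hη : 0 < η) (ϑ : ℝ) :
    ∃ C T0 : ℝ, 0 ≤ C ∧ Real.exp 1 ≤ T0 ∧ ∀ T : ℝ, T0 ≤ T →
      ‖Sg (Fn (H k u) T 0) (Real.log T) g - ∫ y, KL g 1 y * Cor (zk k) (y / (2 * Real.log T)) T‖ ≤
        η * M (zk k) T + C * Er k ε ϑ T := by
  have D := zk_dat k (u := u) hu
  obtain ⟨c1, q, hc1, hCor⟩ := Cor_le D hε
  obtain ⟨Ck, hCk, hK0⟩ := KL_poly h 0
  obtain ⟨Ct, hCt, hKt⟩ := KL_tail h q
  obtain ⟨Ct0, hCt0, hKt0⟩ := KL_tail h 0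
  obtain ⟨Cq, hCq, hKq⟩ := KL_poly h q
  obtain ⟨c2, T2, hc2, hT2, hcr⟩ := Cor_Rs D (ε := min (1 / 2) (η / (4 * (Ck + 1)))) (by positivity)
    (lt_of_le_of_lt (min_le_left _ _) (by norm_num))
  obtain ⟨c3, T3, hc3, hun⟩ := unit D (η := 1) one_pos hε
  obtain ⟨T4, hT4⟩ := eventually_atTop.1 (B_Ed D hε)
  obtain ⟨T5, hT5⟩ := eventually_atTop.1 (Real.tendsto_log_atTop.eventually_ge_atTop (16 * (Ct0 + 1) / η))
  refine ⟨2 * Ck * c2 + Ct0 * (2 + c3) + Ct * c1, max (max T2 T3) (max (max T4 T5) (Real.exp 1)),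
    by positivity, (le_max_right _ _).trans (le_max_right _ _), fun T hT => ?_⟩
  have u2 : T2 ≤ T := ((le_max_left _ _).trans (le_max_left _ _)).trans hT
  have u3 : T3 ≤ T := ((le_max_right _ _).trans (le_max_left _ _)).trans hT
  have u4 : T4 ≤ T := (((le_max_left _ _).trans (le_max_left _ _)).trans (le_max_right _ _)).trans hT
  have u5 : T5 ≤ T := (((le_max_right _ _).trans (le_max_left _ _)).trans (le_max_right _ _)).trans hT
  have te : Real.exp 1 ≤ T := ((le_max_right _ _).trans (le_max_right _ _)).trans hT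
  have hTp : 0 < T := (Real.exp_pos 1).trans_le te
  have hT1 : 1 ≤ T := le_trans (by have := Real.add_one_le_exp 1; linarith) te
  have hL : 1 ≤ Real.log T := by rwa [Real.le_log_iff_exp_le hTp]
  obtain ⟨L, hLd⟩ : ∃ L, L = Real.log T := ⟨_, rfl⟩
  have v5 := hT5 T u5
  rw [← hLd] at hL v5 ⊢
  have hL0 : 0 < L := by linarith
  have hF := Fn_dec D.pg hT1 (r := 0) (neg_nonpos.2 (Nat.cast_nonneg u)) (Nat.cast_nonneg u)
  have hM := M_nonneg (zk k) (T := T) hTp.le
  have hEd := Ed_nonneg (zk k) T (r := T ^ ε) (by positivity)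
  have hM2 := M_nonneg (zk k) (T := 2 * T ^ ϑ) (by positivity)
  obtain ⟨F, hFd⟩ : ∃ F, F = Fn (H k u) T 0 := ⟨_, rfl⟩
  have v2 := hcr T u2
  have v3 := (abs_le.1 (hun T u3)).2
  have v4 := hT4 T u4
  rw [← hFd] at hF v2 v3 ⊢
  rw [Sg_Rs h hF hL0]
  -- integrability
  have iR : Integrable (fun y => KL g 1 y * Rs F (y / (2 * L))) := by
    refine ((KL_int h one_pos).norm.mul_const (∫ t, ‖F t‖ ^ 2)).mono'
      ((KL_cont h 1).mul ((Rs_cont hF).comp (by fun_prop))).aestronglyMeasurable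
      (Eventually.of_forall fun y => ?_)
    rw [norm_mul]
    exact mul_le_mul_of_nonneg_left (Rs_le hF _) (norm_nonneg _)
  have hya : ∀ y : ℝ, (1 + |y / (2 * L)|) ^ q ≤ (1 + |y|) ^ q := fun y => by
    refine pow_le_pow_left₀ (by positivity) ?_ q
    rw [abs_div, abs_of_pos (by positivity : 0 < 2 * L)]
    have : |y| / (2 * L) ≤ |y| := div_le_self (abs_nonneg y) (by linarith)
    linarith
  have iC : Integrable (fun y => KL g 1 y * Cor (zk k) (y / (2 * L)) T) := by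
    refine (((hK0 1 le_rfl).2.1.mul_const (M (zk k) T + Ed (zk k) T (T ^ ε))).add
      ((hKq 1 le_rfl).2.1.mul_const c1)).mono'
      ((KL_cont h 1).mul ((Cor_cont D T).comp (by fun_prop))).aestronglyMeasurable
      (Eventually.of_forall fun y => ?_)
    rw [norm_mul, Pi.add_apply, pow_zero, mul_one]
    have a1 := hCor T (y / (2 * L)) hT1
    have a2 := mul_le_mul_of_nonneg_left (hya y) hc1
    calc ‖KL g 1 y‖ * ‖Cor (zk k) (y / (2 * L)) T‖ ≤
          ‖KL g 1 y‖ * ((M (zk k) T + Ed (zk k) T (T ^ ε)) + c1 * (1 + |y|) ^ q) :=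
          mul_le_mul_of_nonneg_left (by linarith) (norm_nonneg _)
      _ = _ := by ring
  rw [← integral_sub iR iC]
  obtain ⟨m, hm⟩ : ∃ m, m = M (zk k) T := ⟨_, rfl⟩
  obtain ⟨E, hE⟩ : ∃ E, E = Ed (zk k) T (T ^ ε) := ⟨_, rfl⟩
  obtain ⟨R, hR⟩ : ∃ R, R = Er k ε ϑ T := ⟨_, rfl⟩
  have hRE : 1 + E ≤ R := by rw [hR, hE]; unfold Er; linarith
  rw [← hm, ← hR]
  rw [← hm] at hM v2 v3
  rw [← hE] at hEd v3 v4
  set X : ℝ := min (1 / 2) (η / (4 * (Ck + 1))) * m + c2 * (1 + B (zk k) T) with hX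
  have hB := B_nonneg (zk k) T
  have hX0 : 0 ≤ X := by positivity
  set Y : ℝ := 2 * m + c3 * (1 + E) + (m + E) with hY
  have hY0 : 0 ≤ Y := by positivity
  have hm' : MeasurableSet {y : ℝ | 2 * L < |y|} := measurableSet_lt measurable_const measurable_id.abs
  -- pointwise
  have hpt : ∀ y, ‖KL g 1 y * Rs F (y / (2 * L)) - KL g 1 y * Cor (zk k) (y / (2 * L)) T‖ ≤
      ‖KL g 1 y‖ * X + {y : ℝ | 2 * L < |y|}.indicator
        (fun y => ‖KL g 1 y‖ * (1 + |y|) ^ 0 * Y + ‖KL g 1 y‖ * (1 + |y|) ^ q * c1) y := by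
    intro y
    rw [← mul_sub, norm_mul, norm_sub_rev]
    by_cases hy : 2 * L < |y|
    · rw [indicator_of_mem (show y ∈ {y : ℝ | 2 * L < |y|} from hy)]
      have a1 := hCor T (y / (2 * L)) hT1
      have a2 := mul_le_mul_of_nonneg_left (hya y) hc1
      have a3 := Rs_le hF (y / (2 * L))
      rw [← hm, ← hE] at a1
      have a4 : ‖Cor (zk k) (y / (2 * L)) T - Rs F (y / (2 * L))‖ ≤ Y + (1 + |y|) ^ q * c1 := by
        refine (norm_sub_le _ _).trans ?_
        rw [hY]; linarith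
      have a5 := mul_le_mul_of_nonneg_left a4 (norm_nonneg (KL g 1 y))
      have a6 : 0 ≤ ‖KL g 1 y‖ * X := by positivity
      refine a5.trans ?_
      rw [pow_zero, mul_one]
      linarith
    · rw [indicator_of_notMem (show y ∉ {y : ℝ | 2 * L < |y|} from hy), add_zero]
      refine mul_le_mul_of_nonneg_left (v2 _ ?_) (norm_nonneg _)
      rw [abs_div, abs_of_pos (by positivity : 0 < 2 * L), div_le_one (by positivity)]
      exact not_lt.1 hy
  have j0 := (hK0 1 le_rfl).2.1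
  have jq := (hKq 1 le_rfl).2.1
  have jI : Integrable (fun y => ‖KL g 1 y‖ * (1 + |y|) ^ 0 * Y + ‖KL g 1 y‖ * (1 + |y|) ^ q * c1) :=
    iadd (j0.mul_const Y) (jq.mul_const c1)
  have jK : Integrable (fun y => ‖KL g 1 y‖ * X) := (KL_int h one_pos).norm.mul_const X
  refine (norm_integral_le_of_norm_le (iadd jK (jI.indicator hm')) (Eventually.of_forall hpt)).trans ?_
  rw [integral_add jK (jI.indicator hm'), integral_indicator hm', integral_mul_const,
    integral_add (j0.mul_const Y).integrableOn (jq.mul_const c1).integrableOn, integral_mul_const,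
    integral_mul_const]
  have b0 : ∫ y, ‖KL g 1 y‖ ≤ Ck := by simpa using (hK0 1 le_rfl).2.2
  have b1 := hKt0 L hL
  have b2 := hKt L hL
  have d1 : (∫ y, ‖KL g 1 y‖) * X ≤ Ck * X := mul_le_mul_of_nonneg_right b0 hX0
  have d2 : Ck * X ≤ η / 4 * m + 2 * Ck * c2 * R := by
    have e1 : Ck * (min (1 / 2) (η / (4 * (Ck + 1))) * m) ≤ η / 4 * m := by
      calc Ck * (min (1 / 2) (η / (4 * (Ck + 1))) * m) ≤ Ck * (η / (4 * (Ck + 1)) * m) := by
            gcongr; exact min_le_right _ _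
        _ = (Ck / (Ck + 1)) * (η / 4 * m) := by field_simp
        _ ≤ 1 * (η / 4 * m) := by
            refine mul_le_mul_of_nonneg_right ?_ (by positivity)
            rw [div_le_one (by linarith)]; linarith
        _ = _ := one_mul _
    have e2 : c2 * (1 + B (zk k) T) ≤ c2 * (2 * R) := mul_le_mul_of_nonneg_left (by linarith) hc2
    rw [hX, mul_add]
    have e3 := mul_le_mul_of_nonneg_left e2 hCk
    linarith
  have d3 : (∫ y in {y : ℝ | 2 * L < |y|}, ‖KL g 1 y‖ * (1 + |y|) ^ 0) * Y ≤ Ct0 / L * Y :=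
    mul_le_mul_of_nonneg_right b1 hY0
  have d4 : Ct0 / L * Y ≤ η / 4 * m + Ct0 * (2 + c3) * R := by
    have hYle : Y ≤ 3 * m + (1 + c3) * R := by
      rw [hY]
      have : c3 * (1 + E) ≤ c3 * R := mul_le_mul_of_nonneg_left hRE hc3
      linarith
    have e1 : Ct0 / L * (3 * m) ≤ η / 4 * m := by
      have : Ct0 / L * 3 ≤ η / 4 := by
        rw [div_mul_eq_mul_div, div_le_iff₀ hL0]
        rw [div_le_iff₀ hη] at v5
        nlinarith
      calc Ct0 / L * (3 * m) = (Ct0 / L * 3) * m := by ring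
        _ ≤ _ := mul_le_mul_of_nonneg_right this hM
    have e2 : Ct0 / L ≤ Ct0 := div_le_self hCt0 hL
    have hR0 : 0 ≤ R := by linarith
    have e3 : Ct0 / L * ((1 + c3) * R) ≤ Ct0 * ((1 + c3) * R) :=
      mul_le_mul_of_nonneg_right e2 (by positivity)
    have e4 : Ct0 / L * Y ≤ Ct0 / L * (3 * m + (1 + c3) * R) :=
      mul_le_mul_of_nonneg_left hYle (by positivity)
    have e5 : 0 ≤ Ct0 * R := by positivity
    rw [mul_add] at e4
    linarith
  have d5 : (∫ y in {y : ℝ | 2 * L < |y|}, ‖KL g 1 y‖ * (1 + |y|) ^ q) * c1 ≤ Ct * c1 * R := by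
    have e1 : Ct / L ≤ Ct := div_le_self hCt hL
    have e2 := mul_le_mul_of_nonneg_right (b2.trans e1) hc1
    have hR1 : 1 ≤ R := by linarith
    have e3 : Ct * c1 * 1 ≤ Ct * c1 * R := mul_le_mul_of_nonneg_left hR1 (by positivity)
    linarith
  have d6 : 0 ≤ η * m := by positivity
  linarith

end

end Pool.Agent.J4.H44.LP
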