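import Pool.Agent.W182.KO.Spec

set_option autoImplicit false

/-! The kernel of a smooth cut-off and its bounds. -/

namespace Pool.Agent.J4.H44.LP

open Complex MeasureTheory Filter Topology Set Pool.Agent.W182.KO
open scoped ContDiff

noncomputable section

variable {ξ1 : ℝ} {φ : ℝ → ℂ}

/-- the kernel with symbol `φ` at the scale `1 / L` -/
def KL (φ : ℝ → ℂ) (L y : ℝ) : ℂ := ((L / (2 * Real.pi) : ℝ) : ℂ) * P φ (L * y * I)

lemma KL_cont (h : TF ξ1 φ) (L : ℝ) : Continuous (KL φ L) := by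
  unfold KL
  exact continuous_const.mul ((P_diff h).continuous.comp (by fun_prop))

lemma KL_bd (h : TF ξ1 φ) (N : ℕ) : ∃ C : ℝ, 0 ≤ C ∧ ∀ L y : ℝ, 0 < L →
    ‖KL φ L y‖ * (1 + L * |y|) ^ N ≤ C * L := by
  obtain ⟨C, hC, hP⟩ := P_bound h N
  refine ⟨C, hC, fun L y hL => ?_⟩
  have h1 := hP (L * y * I) (by simp)
  have e1 : ((L:ℂ) * y * I).re = 0 := by simp
  have e2 : ‖(L:ℂ) * y * I‖ = L * |y| := by
    rw [norm_mul, norm_mul, norm_I, mul_one, Complex.norm_real, Complex.norm_real,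
      Real.norm_of_nonneg hL.le, Real.norm_eq_abs]
  rw [e1, e2, mul_zero, Real.exp_zero, mul_one] at h1
  unfold KL
  rw [norm_mul, Complex.norm_real, Real.norm_of_nonneg (by positivity), mul_assoc]
  have h2 : L / (2 * Real.pi) ≤ L := div_le_self hL.le (by linarith [Real.pi_gt_three])
  calc _ ≤ L * C := mul_le_mul h2 h1 (by positivity) hL.le
    _ = C * L := mul_comm _ _

/-- the scaled majorant -/
def gl (L y : ℝ) : ℝ := L * ((1 + L * |y|) ^ 2)⁻¹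

lemma gl_nonneg {L : ℝ} (hL : 0 < L) (y : ℝ) : 0 ≤ gl L y := by unfold gl; positivity

lemma gl_eq {L : ℝ} (hL : 0 < L) (y : ℝ) : gl L y = L * ((1 + |L * y|) ^ 2)⁻¹ := by
  unfold gl
  rw [abs_mul, abs_of_pos hL]

lemma gl_int {L : ℝ} (hL : 0 < L) : Integrable (gl L) := by
  have h := (one_add_inv_sq_int.comp_mul_left' hL.ne').const_mul L
  refine h.congr (Eventually.of_forall fun y => ?_)
  simp only
  rw [gl_eq hL]

lemma gl_val {L : ℝ} (hL : 0 < L) : ∫ y, gl L y = J2 := by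
  have h := Measure.integral_comp_mul_left (fun y : ℝ => ((1 + |y|) ^ 2)⁻¹) L
  have e : ∫ y, gl L y = L * ∫ y : ℝ, ((1 + |L * y|) ^ 2)⁻¹ := by
    rw [← integral_const_mul]
    exact integral_congr_ae (Eventually.of_forall fun y => gl_eq hL y)
  rw [e, h, abs_of_pos (by positivity), smul_eq_mul, ← mul_assoc, mul_inv_cancel₀ hL.ne', one_mul]
  rfl

lemma KL_gl (h : TF ξ1 φ) : ∃ C : ℝ, 0 ≤ C ∧ ∀ L y : ℝ, 0 < L → ‖KL φ L y‖ ≤ C * gl L y := by
  obtain ⟨C, hC, hb⟩ := KL_bd h 2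
  refine ⟨C, hC, fun L y hL => ?_⟩
  have h1 := hb L y hL
  have h2 : 0 < (1 + L * |y|) ^ 2 := by positivity
  rw [← le_div_iff₀ h2] at h1
  refine h1.trans (le_of_eq ?_)
  unfold gl
  rw [div_eq_mul_inv]; ring

lemma KL_int (h : TF ξ1 φ) {L : ℝ} (hL : 0 < L) : Integrable (KL φ L) := by
  obtain ⟨C, hC, hb⟩ := KL_gl h
  exact ((gl_int hL).const_mul C).mono' (KL_cont h L).aestronglyMeasurable
    (Eventually.of_forall fun y => hb L y hL)

/-- the second moment of the kernel -/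
lemma KL_sq (h : TF ξ1 φ) : ∃ C : ℝ, 0 ≤ C ∧ ∀ L y : ℝ, 0 < L →
    ‖KL φ L y‖ * y ^ 2 ≤ C / L ^ 2 * gl L y := by
  obtain ⟨C, hC, hb⟩ := KL_bd h 4
  refine ⟨C, hC, fun L y hL => ?_⟩
  have h1 := hb L y hL
  have hy := abs_nonneg y
  have h2 : (L * |y|) ^ 2 * (1 + L * |y|) ^ 2 ≤ (1 + L * |y|) ^ 4 := by
    have : (L * |y|) ^ 2 ≤ (1 + L * |y|) ^ 2 := by
      refine pow_le_pow_left₀ (by positivity) (by linarith) 2
    calc (L * |y|) ^ 2 * (1 + L * |y|) ^ 2 ≤ (1 + L * |y|) ^ 2 * (1 + L * |y|) ^ 2 := by gcongr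
      _ = _ := by ring
  have h3 : ‖KL φ L y‖ * ((L * |y|) ^ 2 * (1 + L * |y|) ^ 2) ≤ C * L :=
    (mul_le_mul_of_nonneg_left h2 (norm_nonneg _)).trans h1
  have h4 : 0 < (1 + L * |y|) ^ 2 := by positivity
  have e : C / L ^ 2 * gl L y = (C * L) / (L ^ 2 * (1 + L * |y|) ^ 2) := by
    unfold gl; field_simp
  rw [e, le_div_iff₀ (by positivity)]
  refine le_trans (le_of_eq ?_) h3
  rw [mul_pow, sq_abs]
  ring

/-- the far part of the kernel -/
lemma KL_far (h : TF ξ1 φ) (N : ℕ) : ∃ C : ℝ, 0 ≤ C ∧ ∀ L y : ℝ, 1 ≤ L →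
    ‖KL φ L y‖ * |y| ^ N ≤ C * gl L y := by
  obtain ⟨C, hC, hb⟩ := KL_bd h (N + 2)
  refine ⟨C, hC, fun L y hL => ?_⟩
  have hL0 : 0 < L := by linarith
  have h1 := hb L y hL0
  have hy := abs_nonneg y
  have h2 : |y| ^ N ≤ (1 + L * |y|) ^ N := by
    refine pow_le_pow_left₀ hy ?_ N
    nlinarith
  have h3 : ‖KL φ L y‖ * (|y| ^ N * (1 + L * |y|) ^ 2) ≤ C * L := by
    refine le_trans (mul_le_mul_of_nonneg_left ?_ (norm_nonneg _)) h1
    rw [pow_add]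
    gcongr
  have h4 : 0 < (1 + L * |y|) ^ 2 := by positivity
  have e : C * gl L y = (C * L) / (1 + L * |y|) ^ 2 := by
    unfold gl; field_simp
  rw [e, le_div_iff₀ h4]
  refine le_trans (le_of_eq ?_) h3
  ring

/-- the far part of the kernel, with a gain in `L` -/
lemma KL_far2 (h : TF ξ1 φ) (N : ℕ) : ∃ C : ℝ, 0 ≤ C ∧ ∀ L y : ℝ, 1 ≤ L → 1 ≤ |y| →
    ‖KL φ L y‖ * |y| ^ N ≤ C / L ^ 2 * gl L y := by
  obtain ⟨C, hC, hb⟩ := KL_bd h (N + 4)
  refine ⟨C, hC, fun L y hL hy1 => ?_⟩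
  have hL0 : 0 < L := by linarith
  have h1 := hb L y hL0
  have hy := abs_nonneg y
  have h2 : |y| ^ N ≤ (1 + L * |y|) ^ N := by
    refine pow_le_pow_left₀ hy ?_ N
    nlinarith
  have h22 : L ^ 2 ≤ (1 + L * |y|) ^ 2 := by
    refine pow_le_pow_left₀ hL0.le ?_ 2
    nlinarith
  have h3 : ‖KL φ L y‖ * (|y| ^ N * (L ^ 2 * (1 + L * |y|) ^ 2)) ≤ C * L := by
    refine le_trans (mul_le_mul_of_nonneg_left ?_ (norm_nonneg _)) h1
    calc |y| ^ N * (L ^ 2 * (1 + L * |y|) ^ 2) ≤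
          (1 + L * |y|) ^ N * ((1 + L * |y|) ^ 2 * (1 + L * |y|) ^ 2) := by gcongr
      _ = _ := by ring
  have e : C / L ^ 2 * gl L y = (C * L) / (L ^ 2 * (1 + L * |y|) ^ 2) := by
    unfold gl; field_simp
  rw [e, le_div_iff₀ (by positivity)]
  refine le_trans (le_of_eq ?_) h3
  ring

/-- the symbol -/
lemma KL_symbol (h : TF ξ1 φ) {L : ℝ} (hL : 0 < L) (lam : ℝ) :
    ∫ y, KL φ L y * cexp (-(lam * L * y) * I) = φ lam := by
  have h1 := P_inv h (σ := 0) le_rfl hL lam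
  have e : ∫ y, KL φ L y * cexp (-(lam * L * y) * I) = ((L / (2 * Real.pi) : ℝ) : ℂ) *
      ∫ y : ℝ, P φ ((0:ℝ) + L * y * I) * cexp (-(lam * L * y) * I) := by
    rw [← integral_const_mul]
    refine integral_congr_ae (Eventually.of_forall fun y => ?_)
    unfold KL
    simp only [Complex.ofReal_zero, zero_add]
    ring
  rw [e, h1]
  have hp : (Real.pi : ℂ) ≠ 0 := by exact_mod_cast Real.pi_ne_zero
  have hLc : (L : ℂ) ≠ 0 := by exact_mod_cast hL.ne'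
  simp only [Complex.ofReal_zero, mul_zero, Complex.exp_zero, mul_one]
  push_cast
  field_simp

end

end Pool.Agent.J4.H44.LP
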