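import Pool.Agent.J4.H44.LP.Ee
import Pool.Agent.J4.H44.LP.Sw

set_option autoImplicit false

/-! The middle block of the spectrum. -/

namespace Pool.Agent.J4.H44.LP

open Complex MeasureTheory Filter Topology Set Pool.Agent.W182.KO Pool.Agent.R446.KR Pool.Agent.TH535.SM
open scoped ContDiff FourierTransform ENNReal ComplexConjugate

noncomputable section

variable {ξ1 ξ2 : ℝ} {φ φ1 φ2 g : ℝ → ℂ}

lemma PD_St (k : ℕ) (hφ : TF ξ1 φ) (hξ : 0 ≤ ξ1) {ϑ : ℝ} (h0 : 0 < ϑ) (h1 : ϑ < 1) {η : ℝ} (hη : 0 < η)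
    (ϑ' : ℝ) (hϑ' : ϑ ≤ ϑ') : ∃ C T0 : ℝ, 0 ≤ C ∧ Real.exp 1 ≤ T0 ∧ ∀ T : ℝ, T0 ≤ T →
      |PD k φ ϑ T - St (Fn (H k 1) T 0) (Real.log T) (fun v => ‖φ v‖ ^ 2)| ≤
        η * M (zk k) T + C * Er k (1 / 2) ϑ' T := by
  obtain ⟨C1, T1, hC1, hT1, a⟩ := msq_kz k (u := 1) le_rfl hφ (ε := 1 / 2) (by norm_num) h0 h1
    (η := η / 2) (by positivity)
  obtain ⟨C2, T2, hC2, hT2, b⟩ := PD_close k hφ hξ (ε := 1 / 2) (by norm_num) h0 h1
    (η := η / 2) (by positivity) ϑ'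
  refine ⟨C1 + C2, max T1 T2, by positivity, hT1.trans (le_max_left _ _), fun T hT => ?_⟩
  have te : Real.exp 1 ≤ T := hT1.trans ((le_max_left _ _).trans hT)
  have hT1' : 1 ≤ T := le_trans (by have := Real.add_one_le_exp 1; linarith) te
  have a' := a T ((le_max_left _ _).trans hT)
  have b' := b T ((le_max_right _ _).trans hT)
  have e : PK k φ ϑ T = ∫ t in (T ^ ϑ)..T, ‖kF φ (Real.log T) (zk k) t‖ ^ 2 := rfl
  rw [← e] at a'
  have c := mul_le_mul_of_nonneg_left (Er_mono k (1 / 2) hT1' hϑ') hC1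
  rw [abs_le] at a' b' ⊢
  constructor <;> linarith [a'.1, a'.2, b'.1, b'.2]

lemma PD_St_refl (k : ℕ) (hφ : TF ξ1 φ) (hξ : 0 ≤ ξ1) {ϑ : ℝ} (h0 : 0 < ϑ) (h1 : ϑ < 1) {η : ℝ} (hη : 0 < η) :
    ∃ ϑ' C T0 : ℝ, ϑ ≤ ϑ' ∧ ϑ' < 1 ∧ 0 ≤ C ∧ Real.exp 1 ≤ T0 ∧ ∀ T : ℝ, T0 ≤ T →
      |PD k φ ϑ T - St (Fn (H k 1) T 0) (Real.log T) (fun v => ‖refl k φ v‖ ^ 2)| ≤
        η * M (zk k) T + C * Er k (1 / 2) ϑ' T := by
  obtain ⟨ξ, hξ', hr⟩ := refl_TF hφ k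
  obtain ⟨C1, T1, hC1, hT1, a⟩ := msq_kz k (u := 1) le_rfl hr (ε := 1 / 2) (by norm_num) h0 h1
    (η := η / 3) (by positivity)
  obtain ⟨ϑ', C3, T3, hϑ1, hϑ2, hC3, hT3, c⟩ := PK_refl k hφ (ε := 1 / 2) (by norm_num) (η := η / 3)
    (by positivity) h0 h1
  obtain ⟨C2, T2, hC2, hT2, b⟩ := PD_close k hφ hξ (ε := 1 / 2) (by norm_num) h0 h1
    (η := η / 3) (by positivity) ϑ'
  refine ⟨ϑ', C1 + C2 + C3, max T1 (max T2 T3), hϑ1, hϑ2, by positivity, hT1.trans (le_max_left _ _),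
    fun T hT => ?_⟩
  have te : Real.exp 1 ≤ T := hT1.trans ((le_max_left _ _).trans hT)
  have hT1' : 1 ≤ T := le_trans (by have := Real.add_one_le_exp 1; linarith) te
  have a' := a T ((le_max_left _ _).trans hT)
  have b' := b T (((le_max_left _ _).trans (le_max_right _ _)).trans hT)
  have c' := c T (((le_max_right _ _).trans (le_max_right _ _)).trans hT)
  have e : PK k (refl k φ) ϑ T = ∫ t in (T ^ ϑ)..T, ‖kF (refl k φ) (Real.log T) (zk k) t‖ ^ 2 := rfl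
  rw [← e] at a'
  have d := mul_le_mul_of_nonneg_left (Er_mono k (1 / 2) hT1' hϑ1) hC1
  rw [abs_le] at a' b' c' ⊢
  constructor <;> linarith [a'.1, a'.2, b'.1, b'.2, c'.1, c'.2]

/-- the average of shifted moments attached to a test function -/
def Xg (k : ℕ) (g : ℝ → ℂ) (T : ℝ) : ℂ := ∫ y, KL g 1 y * Cor (zk k) (y / (2 * Real.log T)) T

/-- **the general pair identity** -/
theorem gen_PD (k : ℕ) (h1 : TF ξ1 φ1) (hξ1 : 0 ≤ ξ1) (h2 : TF ξ2 φ2) (hξ2 : 0 ≤ ξ2) {g : ℝ → ℝ}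
    {ξ3 : ℝ} (hg : TF ξ3 (fun v => (g v : ℂ)))
    (hp : ∀ v : ℝ, -1 ≤ v → v ≤ k + 1 → ‖φ1 v‖ ^ 2 + ‖φ2 (k - v)‖ ^ 2 + g v = 1) {η ϑ : ℝ}
    (hη : 0 < η) (hϑ0 : 0 < ϑ) (hϑ : ϑ < 1) :
    ∃ ϑ' C T0 : ℝ, ϑ ≤ ϑ' ∧ ϑ' < 1 ∧ 0 ≤ C ∧ Real.exp 1 ≤ T0 ∧ ∀ T : ℝ, T0 ≤ T →
      |PD k φ1 ϑ T + PD k φ2 ϑ T + (Xg k (fun v => (g v : ℂ)) T).re - M (zk k) T| ≤
        η * M (zk k) T + C * Er k (1 / 2) ϑ' T := by
  have D := zk_dat k (u := 1) le_rfl
  obtain ⟨ϑ', C2, T2, hϑ1, hϑ2, hC2, hT2, b⟩ := PD_St_refl k h2 hξ2 hϑ0 hϑ (η := η / 5) (by positivity)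
  obtain ⟨C1, T1, hC1, hT1, a⟩ := PD_St k h1 hξ1 hϑ0 hϑ (η := η / 5) (by positivity) ϑ' hϑ1
  obtain ⟨C3, T3, hC3, hT3, c⟩ := Sg_Cor k (u := 1) le_rfl hg (ε := 1 / 2) (η := η / 5) (by norm_num)
    (by positivity) ϑ'
  obtain ⟨C4, T4, hC4, d⟩ := unit D (η := η / 5) (by positivity) (ε := 1 / 2) (by norm_num)
  obtain ⟨c5, hc5, m5⟩ := out_right D (δ := 1) one_pos (by norm_num)
  obtain ⟨c6, hc6, m6⟩ := out_left D (δ := 1) one_pos (by norm_num)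
  obtain ⟨ξ, -, hr⟩ := refl_TF h2 k
  obtain ⟨S1, hS1⟩ := h1.cont.norm.bounded_above_of_compact_support h1.cs.norm
  obtain ⟨S2, hS2⟩ := h2.cont.norm.bounded_above_of_compact_support h2.cs.norm
  obtain ⟨S3, hS3⟩ := hg.cont.norm.bounded_above_of_compact_support hg.cs.norm
  simp only [norm_norm] at hS1 hS2 hS3
  simp only [Complex.norm_real, Real.norm_eq_abs] at hS3
  have hS10 : 0 ≤ S1 := (norm_nonneg _).trans (hS1 0)
  have hS20 : 0 ≤ S2 := (norm_nonneg _).trans (hS2 0)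
  have hS30 : 0 ≤ S3 := (abs_nonneg _).trans (hS3 0)
  have hS3' : ∀ v, |g v| ≤ S3 := hS3
  have hrn : ∀ v, ‖refl k φ2 v‖ = ‖φ2 (k - v)‖ := fun v => by unfold refl; rw [RCLike.norm_conj]
  have hgc : Continuous g := by
    have := Complex.continuous_re.comp hg.cont
    exact this
  set S : ℝ := S1 ^ 2 + S2 ^ 2 + S3 + 1 with hS
  have hS0 : 0 ≤ S := by positivity
  refine ⟨ϑ', C1 + C2 + C3 + C4 + 2 * S * (c5 + c6), max (max T1 T2) (max T3 T4), hϑ1, hϑ2, by positivity,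
    hT1.trans ((le_max_left _ _).trans (le_max_left _ _)), fun T hT => ?_⟩
  have a' := a T (((le_max_left _ _).trans (le_max_left _ _)).trans hT)
  have b' := b T (((le_max_right _ _).trans (le_max_left _ _)).trans hT)
  have c' := c T (((le_max_left _ _).trans (le_max_right _ _)).trans hT)
  have d' := d T (((le_max_right _ _).trans (le_max_right _ _)).trans hT)
  have te : Real.exp 1 ≤ T := hT1.trans (((le_max_left _ _).trans (le_max_left _ _)).trans hT)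
  have hTp : 0 < T := (Real.exp_pos 1).trans_le te
  have hT1' : 1 ≤ T := le_trans (by have := Real.add_one_le_exp 1; linarith) te
  have hL : 1 ≤ Real.log T := by rwa [Real.le_log_iff_exp_le hTp]
  have hL0 : 0 < Real.log T := by linarith
  have a5 := m5 T hT1'
  have a6 := m6 T hT1'
  have hF := Fn_dec D.pg hT1' (r := 0) (neg_nonpos.2 (Nat.cast_nonneg 1)) (Nat.cast_nonneg 1)
  have hb1 : ∀ v, |‖φ1 v‖ ^ 2| ≤ S1 ^ 2 := fun v => by
    rw [abs_of_nonneg (by positivity)]; exact pow_le_pow_left₀ (norm_nonneg _) (hS1 v) 2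
  have hb2 : ∀ v, |‖refl k φ2 v‖ ^ 2| ≤ S2 ^ 2 := fun v => by
    rw [abs_of_nonneg (by positivity), hrn]; exact pow_le_pow_left₀ (norm_nonneg _) (hS2 _) 2
  have add : St (Fn (H k 1) T 0) (Real.log T) (fun v => ‖φ1 v‖ ^ 2 + ‖refl k φ2 v‖ ^ 2 + g v) =
      St (Fn (H k 1) T 0) (Real.log T) (fun v => ‖φ1 v‖ ^ 2) +
      St (Fn (H k 1) T 0) (Real.log T) (fun v => ‖refl k φ2 v‖ ^ 2) + St (Fn (H k 1) T 0) (Real.log T) g := by
    unfold St
    have i1 := St_int hF (L := Real.log T) (g := fun v => ‖φ1 v‖ ^ 2) (h1.cont.norm.pow 2) hb1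
    have i2 := St_int hF (L := Real.log T) (g := fun v => ‖refl k φ2 v‖ ^ 2) (hr.cont.norm.pow 2) hb2
    have i3 := St_int hF (L := Real.log T) hgc hS3'
    rw [← integral_add i1 i2, ← integral_add (iadd i1 i2) i3]
    refine integral_congr_ae (Eventually.of_forall fun w => ?_)
    simp only
    ring
  have cl := St_close hF hL0 (g := fun v => ‖φ1 v‖ ^ 2 + ‖refl k φ2 v‖ ^ 2 + g v) (g' := fun _ => 1)
    (((h1.cont.norm.pow 2).add (hr.cont.norm.pow 2)).add hgc) continuous_const hS0 (fun v => by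
      have i1 := hb1 v
      have i2 := hb2 v
      have i3 := hS3' v
      refine (abs_add_le _ _).trans ((add_le_add_left (abs_add_le _ _) _).trans ?_)
      rw [hS]; linarith) (fun v => by
      rw [abs_one, hS]
      have i1 : 0 ≤ S1 ^ 2 := by positivity
      have i2 : 0 ≤ S2 ^ 2 := by positivity
      linarith) (a := -1) (b := k + 1) (e := 0) le_rfl (fun v x y => by
        rw [hrn, hp v x y]; simp)
  rw [St_one hF, add] at cl
  have e5 : -(-1 * Real.log T / (2 * Real.pi)) = 1 * Real.log T / (2 * Real.pi) := by ring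
  rw [e5, zero_mul, zero_add] at cl
  have cre : |St (Fn (H k 1) T 0) (Real.log T) g - (Xg k (fun v => (g v : ℂ)) T).re| ≤
      η / 5 * M (zk k) T + C3 * Er k (1 / 2) ϑ' T := by
    refine le_trans ?_ c'
    rw [Sg_real g]
    have h := Complex.abs_re_le_norm ((St (Fn (H k 1) T 0) (Real.log T) g : ℂ) - Xg k (fun v => (g v : ℂ)) T)
    rw [Complex.sub_re, Complex.ofReal_re] at h
    exact h
  obtain ⟨m, hm⟩ : ∃ m, m = M (zk k) T := ⟨_, rfl⟩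
  obtain ⟨R, hR⟩ : ∃ R, R = Er k (1 / 2) ϑ' T := ⟨_, rfl⟩
  have hER : 1 + Ed (zk k) T (T ^ (1 / 2 : ℝ)) ≤ R := by
    rw [hR]
    unfold Er
    have hM2 := M_nonneg (zk k) (T := 2 * T ^ ϑ') (by positivity)
    linarith
  have hR1 : 1 ≤ R := by rw [hR]; exact Er_pos k _ _ hTp.le
  rw [← hm, ← hR] at a' b' cre ⊢
  rw [← hm] at d'
  have s4 := mul_le_mul_of_nonneg_left hER hC4
  have s5 : 2 * S * (c6 + c5) ≤ 2 * S * (c5 + c6) * R := by
    have : 2 * S * (c5 + c6) * 1 ≤ 2 * S * (c5 + c6) * R := mul_le_mul_of_nonneg_left hR1 (by positivity)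
    linarith
  have s6 : 2 * S * (ms (Fn (H k 1) T 0) (Iic (-((k + 1) * Real.log T / (2 * Real.pi)))) +
      ms (Fn (H k 1) T 0) (Ici (1 * Real.log T / (2 * Real.pi)))) ≤ 2 * S * (c6 + c5) :=
    mul_le_mul_of_nonneg_left (add_le_add a6 a5) (by positivity)
  have s9 : 0 ≤ η * m := by
    have hM := M_nonneg (zk k) (T := T) hTp.le
    rw [← hm] at hM
    exact mul_nonneg hη.le hM
  rw [abs_le] at a' b' cre d' cl ⊢
  constructor <;> linarith [a'.1, a'.2, b'.1, b'.2, cre.1, cre.2, d'.1, d'.2, cl.1, cl.2]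

/-- the edge function of a pair -/
def ge (k : ℕ) (φ1 φ2 : ℝ → ℂ) (v : ℝ) : ℝ := cut k v * (1 - ‖φ1 v‖ ^ 2 - ‖φ2 (k - v)‖ ^ 2)

lemma ge_TF (k : ℕ) (h1 : TF ξ1 φ1) (h2 : TF ξ2 φ2) : ∃ ξ : ℝ, 0 ≤ ξ ∧ TF ξ (fun v => (ge k φ1 φ2 v : ℂ)) := by
  obtain ⟨ξ, -, hr⟩ := refl_TF h2 k
  have e : (fun v => (ge k φ1 φ2 v : ℂ)) = fun v => (cut k v : ℂ) * (1 - sqm φ1 v - sqm (refl k φ2) v) := by
    funext v
    unfold ge sqm refl
    rw [RCLike.norm_conj]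
    push_cast
    ring
  rw [e]
  have hc : ContDiff ℝ ∞ (fun v => (cut k v : ℂ)) := (ofRealCLM.contDiff (n := ∞)).comp (cut_smooth k)
  exact mk_TF (hc.mul ((contDiff_const.sub (sqm_TF h1).cd).sub (sqm_TF hr).cd)) (cut_cs k).mul_right

/-- **the middle block** -/
theorem mid_iff {k : ℕ} (hk : 2 ≤ k) (h1 : TF ξ1 φ1) (hξ1 : 0 ≤ ξ1) (h2 : TF ξ2 φ2) (hξ2 : 0 ≤ ξ2) {δ : ℝ}
    (hδ : 0 < δ) (hp : ∀ v : ℝ, 1 - δ ≤ v → v ≤ k - 1 + δ → ‖φ1 v‖ ^ 2 + ‖φ2 (k - v)‖ ^ 2 = 1) {ϑ : ℝ}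
    (hϑ0 : 0 < ϑ) (hϑ : ϑ < 1) (c : ℝ) :
    Tendsto (fun T => M (zk k) T / NN (k ^ 2) T) atTop (𝓝 c) ↔
      Tendsto (fun T => (PD k φ1 ϑ T + PD k φ2 ϑ T) / NN (k ^ 2) T) atTop
        (𝓝 (c - H306R2.aF k * (edg k (fun v => (ge k φ1 φ2 v : ℂ))).re)) := by
  obtain ⟨ξ, hξ, hg⟩ := ge_TF k h1 h2
  have hk2 : (2:ℝ) ≤ k := by exact_mod_cast hk
  have hE : Tendsto (fun T => (Xg k (fun v => (ge k φ1 φ2 v : ℂ)) T).re / NN (k ^ 2) T) atTop
      (𝓝 (H306R2.aF k * (edg k (fun v => (ge k φ1 φ2 v : ℂ))).re)) := by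
    have h := edge_lim hk hg.cd hg.cs (fun x hx => by
      rw [notMem_tsupport_iff_eventuallyEq]
      filter_upwards [Ioo_mem_nhds (show 1 - δ < x by linarith [hx.1]) (show x < k - 1 + δ by linarith [hx.2])]
        with v hv
      have := hp v hv.1.le hv.2.le
      simp only [ge, Pi.zero_apply]
      rw [sub_sub, this, sub_self, mul_zero, Complex.ofReal_zero])
    have h2 := (Complex.continuous_re.tendsto _).comp h
    rw [Complex.re_ofReal_mul] at h2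
    refine h2.congr fun T => ?_
    simp only [Function.comp]
    rw [Complex.div_ofReal_re]
    rfl
  have key := abs_iff (M_Gr k) (k ^ 2) c (P := fun T => PD k φ1 ϑ T + PD k φ2 ϑ T +
    (Xg k (fun v => (ge k φ1 φ2 v : ℂ)) T).re) (fun η hη => by
      obtain ⟨ϑ', C, T0, a1, a2, hC, -, hb⟩ := gen_PD k h1 hξ1 h2 hξ2 hg (fun v hv1 hv2 => by
        unfold ge
        rw [cut_one hv1 hv2]; ring) hη hϑ0 hϑ
      refine ⟨ϑ', C, T0, by linarith, a2, hC, fun T hT => ?_⟩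
      have := hb T hT
      rw [Er_eq] at this
      exact this)
  rw [key]
  constructor
  · intro h
    refine (h.sub hE).congr fun T => ?_
    ring
  · intro h
    have h2 := h.add hE
    rw [sub_add_cancel] at h2
    refine h2.congr fun T => ?_
    ring

end

end Pool.Agent.J4.H44.LP
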