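import Pool.Agent.J4.H44.LP.Mb
import Pool.Agent.J4.H44.LP.Pe
import Pool.Agent.J4.H44.LP.Ak

set_option autoImplicit false

/-! Supplements on the middle block. -/

namespace Pool.Agent.J4.H44.LP

open Complex MeasureTheory Filter Topology Set Pool.Agent.W182.KO Pool.Agent.R446.KR Pool.Agent.TH535.SM
open scoped ContDiff FourierTransform ENNReal ComplexConjugate

noncomputable section

variable {ξ1 ξ2 : ℝ} {φ φ1 φ2 g : ℝ → ℂ}

/-- the limit of the edge terms -/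
lemma Xg_lim {k : ℕ} (hk : 2 ≤ k) (h1 : TF ξ1 φ1) (h2 : TF ξ2 φ2) {δ : ℝ}
    (hδ : 0 < δ) (hp : ∀ v : ℝ, 1 - δ ≤ v → v ≤ k - 1 + δ → ‖φ1 v‖ ^ 2 + ‖φ2 (k - v)‖ ^ 2 = 1) :
    Tendsto (fun T => (Xg k (fun v => (ge k φ1 φ2 v : ℂ)) T).re / NN (k ^ 2) T) atTop
      (𝓝 (H306R2.aF k * (edg k (fun v => (ge k φ1 φ2 v : ℂ))).re)) := by
  obtain ⟨ξ, hξ, hg⟩ := ge_TF k h1 h2
  have h := edge_lim hk hg.cd hg.cs (fun x hx => by
    rw [notMem_tsupport_iff_eventuallyEq]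
    filter_upwards [Ioo_mem_nhds (show 1 - δ < x by linarith [hx.1]) (show x < k - 1 + δ by linarith [hx.2])]
      with v hv
    have := hp v hv.1.le hv.2.le
    simp only [ge, Pi.zero_apply]
    rw [sub_sub, this, sub_self, mul_zero, Complex.ofReal_zero])
  have h2 := (Complex.continuous_re.tendsto _).comp h
  rw [Complex.re_ofReal_mul] at h2
  refine h2.congr fun T => ?_
  simp only [Function.comp]
  rw [Complex.div_ofReal_re]
  rfl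

/-- the order of magnitude -/
theorem mid_O {k : ℕ} (hk : 2 ≤ k) (h1 : TF ξ1 φ1) (hξ1 : 0 ≤ ξ1) (h2 : TF ξ2 φ2) (hξ2 : 0 ≤ ξ2) {δ : ℝ}
    (hδ : 0 < δ) (hp : ∀ v : ℝ, 1 - δ ≤ v → v ≤ k - 1 + δ → ‖φ1 v‖ ^ 2 + ‖φ2 (k - v)‖ ^ 2 = 1) {ϑ : ℝ}
    (hϑ0 : 0 < ϑ) (hϑ : ϑ < 1) :
    (∃ C : ℝ, ∀ᶠ T : ℝ in atTop, M (zk k) T ≤ C * NN (k ^ 2) T) ↔
      ∃ C : ℝ, ∀ᶠ T : ℝ in atTop, PD k φ1 ϑ T + PD k φ2 ϑ T ≤ C * NN (k ^ 2) T := by
  obtain ⟨ξ, hξ, hg⟩ := ge_TF k h1 h2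
  have hE := Xg_lim hk h1 h2 hδ hp
  have key := abs_O (M_Gr k) (k ^ 2) (P := fun T => PD k φ1 ϑ T + PD k φ2 ϑ T +
    (Xg k (fun v => (ge k φ1 φ2 v : ℂ)) T).re) (fun η hη => by
      obtain ⟨ϑ', C, T0, a1, a2, hC, -, hb⟩ := gen_PD k h1 hξ1 h2 hξ2 hg (fun v hv1 hv2 => by
        unfold ge
        rw [cut_one hv1 hv2]; ring) hη hϑ0 hϑ
      refine ⟨ϑ', C, T0, by linarith, a2, hC, fun T hT => ?_⟩
      have := hb T hT
      rw [Er_eq] at this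
      exact this)
  rw [key]
  obtain ⟨x, hx⟩ : ∃ x, x = H306R2.aF k * (edg k (fun v => (ge k φ1 φ2 v : ℂ))).re := ⟨_, rfl⟩
  rw [← hx] at hE
  have hb := (hE.eventually (Icc_mem_nhds (show x - 1 < x by linarith) (show x < x + 1 by linarith))).and
    (eventually_gt_atTop 1)
  constructor
  · rintro ⟨C, hC⟩
    refine ⟨C + (1 - x), ?_⟩
    filter_upwards [hC, hb] with T h1 h2
    have hN := NN_pos (k ^ 2) h2.2
    have h3 := h2.1.1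
    rw [le_div_iff₀ hN] at h3
    nlinarith
  · rintro ⟨C, hC⟩
    refine ⟨C + (x + 1), ?_⟩
    filter_upwards [hC, hb] with T h1 h2
    have hN := NN_pos (k ^ 2) h2.2
    have h3 := h2.1.2
    rw [div_le_iff₀ hN] at h3
    nlinarith

/-- the edge constant of a pair -/
def ed (k : ℕ) (φ ψ : ℝ → ℂ) : ℝ :=
  ∫ v in (0:ℝ)..1, (2 - ‖φ v‖ ^ 2 - ‖ψ (k - v)‖ ^ 2 - ‖φ (k - v)‖ ^ 2 - ‖ψ v‖ ^ 2) *
    (v ^ (k ^ 2 - 1) / (k ^ 2 - 1).factorial)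

lemma edg_ge {k : ℕ} (hk : 2 ≤ k) (h1 : Continuous φ1) (h2 : Continuous φ2) :
    (edg k (fun v => (ge k φ1 φ2 v : ℂ))).re = ed k φ1 φ2 := by
  have hk2 : (2:ℝ) ≤ k := by exact_mod_cast hk
  have e1 : ∫ x in (0:ℝ)..1, (x : ℂ) ^ (k ^ 2 - 1) / (k ^ 2 - 1).factorial * (ge k φ1 φ2 x : ℂ) =
      ((∫ x in (0:ℝ)..1, (1 - ‖φ1 x‖ ^ 2 - ‖φ2 (k - x)‖ ^ 2) * (x ^ (k ^ 2 - 1) / (k ^ 2 - 1).factorial) : ℝ) : ℂ) := by
    rw [← intervalIntegral.integral_ofReal]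
    refine intervalIntegral.integral_congr fun x hx => ?_
    rw [uIcc_of_le zero_le_one] at hx
    unfold ge
    rw [cut_one (by linarith [hx.1]) (by linarith [hx.2])]
    push_cast
    ring
  have e2 : ∫ x in (k - 1 : ℝ)..k, ((k : ℂ) - x) ^ (k ^ 2 - 1) / (k ^ 2 - 1).factorial * (ge k φ1 φ2 x : ℂ) =
      ((∫ x in (0:ℝ)..1, (1 - ‖φ1 (k - x)‖ ^ 2 - ‖φ2 x‖ ^ 2) * (x ^ (k ^ 2 - 1) / (k ^ 2 - 1).factorial) : ℝ) : ℂ) := by
    have h := intervalIntegral.integral_comp_sub_left (a := 0) (b := 1)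
      (fun x : ℝ => ((k : ℂ) - x) ^ (k ^ 2 - 1) / (k ^ 2 - 1).factorial * (ge k φ1 φ2 x : ℂ)) (k : ℝ)
    rw [sub_zero] at h
    rw [← h, ← intervalIntegral.integral_ofReal]
    refine intervalIntegral.integral_congr fun x hx => ?_
    rw [uIcc_of_le zero_le_one] at hx
    unfold ge
    rw [cut_one (by linarith [hx.1, hx.2]) (by linarith [hx.1, hx.2])]
    have e3 : (k:ℝ) - (k - x) = x := by ring
    rw [e3]
    push_cast
    ring
  unfold edg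
  rw [e1, e2, ← Complex.ofReal_add, Complex.ofReal_re]
  unfold ed
  have c1 : Continuous fun x : ℝ => (1 - ‖φ1 x‖ ^ 2 - ‖φ2 (k - x)‖ ^ 2) * (x ^ (k ^ 2 - 1) / (k ^ 2 - 1).factorial) := by
    fun_prop
  have c2 : Continuous fun x : ℝ => (1 - ‖φ1 (k - x)‖ ^ 2 - ‖φ2 x‖ ^ 2) * (x ^ (k ^ 2 - 1) / (k ^ 2 - 1).factorial) := by
    fun_prop
  rw [← intervalIntegral.integral_add (c1.intervalIntegrable _ _) (c2.intervalIntegrable _ _)]
  refine intervalIntegral.integral_congr fun x _ => ?_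
  ring

/-- the block cut-off near `θ` -/
def blk (θ δ v : ℝ) : ℝ := stp θ δ v * Real.smoothTransition ((v - (1 - 2 * δ)) / δ)

lemma blk_smooth (θ δ : ℝ) : ContDiff ℝ ∞ (fun v => (blk θ δ v : ℂ)) := by
  have h1 : ContDiff ℝ ∞ Real.smoothTransition := Real.smoothTransition.contDiff
  have h2 : ContDiff ℝ ∞ (blk θ δ) := by
    unfold blk
    exact (stp_smooth θ δ).mul (h1.comp ((contDiff_id.sub contDiff_const).div_const _))
  exact (ofRealCLM.contDiff (n := ∞)).comp h2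

lemma blk_left {θ δ v : ℝ} (hδ : 0 < δ) (h : v ≤ 1 - 2 * δ) : blk θ δ v = 0 := by
  unfold blk
  rw [Real.smoothTransition.zero_of_nonpos (x := (v - (1 - 2 * δ)) / δ), mul_zero]
  exact div_nonpos_of_nonpos_of_nonneg (by linarith) hδ.le

lemma blk_mid {θ δ v : ℝ} (hδ : 0 < δ) (h : 1 - δ ≤ v) : blk θ δ v = stp θ δ v := by
  unfold blk
  rw [Real.smoothTransition.one_of_one_le (x := (v - (1 - 2 * δ)) / δ), mul_one]
  rw [le_div_iff₀ hδ]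
  linarith

lemma blk_right {θ δ v : ℝ} (hδ : 0 < δ) (h : θ + δ ≤ v) : blk θ δ v = 0 := by
  unfold blk
  rw [stp_right hδ h, zero_mul]

lemma blk_cs {θ δ : ℝ} (hδ : 0 < δ) : HasCompactSupport (fun v => (blk θ δ v : ℂ)) := by
  have e : (fun v => (blk θ δ v : ℂ)) = fun v => (stp θ δ v : ℂ) *
      ((Real.smoothTransition ((v - (1 - 2 * δ)) / δ) : ℝ) : ℂ) := by
    funext v
    unfold blk
    push_cast; rfl
  rw [e]
  exact (stp_cs hδ).mul_right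

lemma stp_abs (θ δ v : ℝ) : |stp θ δ v| ≤ 1 := by
  unfold stp
  rw [abs_mul, abs_of_nonneg (Real.smoothTransition.nonneg _)]
  exact mul_le_one₀ (Real.abs_cos_le_one _) (Real.smoothTransition.nonneg _) (Real.smoothTransition.le_one _)

lemma blk_abs (θ δ v : ℝ) : |blk θ δ v| ≤ 1 := by
  unfold blk
  rw [abs_mul]
  rw [abs_of_nonneg (Real.smoothTransition.nonneg ((v - (1 - 2 * δ)) / δ))]
  exact mul_le_one₀ (stp_abs _ _ _) (Real.smoothTransition.nonneg _) (Real.smoothTransition.le_one _)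

lemma blk_compl {k θ δ v : ℝ} (hδ : 0 < δ) (hδ1 : δ ≤ 1) (h0 : 1 - δ ≤ v) (h : v ≤ k - 1 + δ) :
    blk θ δ v ^ 2 + blk (k - θ) δ (k - v) ^ 2 = 1 := by
  rw [blk_mid hδ h0, blk_mid hδ (by linarith)]
  exact stp_compl hδ (by linarith) (by linarith)

end

end Pool.Agent.J4.H44.LP
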