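import Pool.Agent.J4.H44.LP.Ms

set_option autoImplicit false

/-! The mean square of the smoothed Dirichlet polynomial is a spectral integral, continued. -/

namespace Pool.Agent.J4.H44.LP

open Complex MeasureTheory Filter Topology Set Pool.Agent.W182.KO Pool.Agent.R446.KR Pool.Agent.TH535.SM
open scoped ContDiff FourierTransform ENNReal ComplexConjugate

noncomputable section

variable {ξ1 : ℝ} {φ : ℝ → ℂ} {z : ℝ → ℂ} {G : ℂ → ℂ} {u K : ℕ}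

lemma zk_neg (k : ℕ) (t : ℝ) : ‖zk k (-t)‖ = ‖zk k t‖ := by
  unfold zk ze
  have e : (1 / 2 + ((-t : ℝ) : ℂ) * I) = conj (1 / 2 + (t : ℂ) * I) := by
    rw [map_add, map_mul, conj_I, Complex.conj_ofReal, map_div₀, map_one, map_ofNat]
    push_cast; ring
  rw [e, riemannZeta_conj, norm_pow, norm_pow, RCLike.norm_conj]

lemma M_neg (k : ℕ) (S : ℝ) : ∫ t in (-S)..0, ‖zk k t‖ ^ 2 = M (zk k) S := by
  have h := intervalIntegral.integral_comp_neg (a := 0) (b := S) (fun t => ‖zk k t‖ ^ 2)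
  simp only [zk_neg, neg_zero] at h
  unfold M
  rw [h]

lemma mass_win (D : Dat z G u K) {S y : ℝ} {a : ℝ} (ha : 0 ≤ a) (haS : a ≤ S) :
    ∫ t in (a + y)..(S + y), ‖z t‖ ^ 2 ≤ M z S + Ed z S |y| := by
  have hc := D.sc
  have hy := abs_nonneg y
  have h1 : ∫ t in (a + y)..(S + y), ‖z t‖ ^ 2 ≤ ∫ t in (-|y|)..(S + |y|), ‖z t‖ ^ 2 :=
    intervalIntegral.integral_mono_interval (by linarith [neg_abs_le y]) (by linarith)
      (by linarith [le_abs_self y]) (Eventually.of_forall fun t => by positivity) (hc.intervalIntegrable _ _)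
  have h2 : ∫ t in (-|y|)..(S + |y|), ‖z t‖ ^ 2 = (∫ t in (-|y|)..0, ‖z t‖ ^ 2) + M z S +
      ∫ t in S..(S + |y|), ‖z t‖ ^ 2 := by
    unfold M
    rw [intervalIntegral.integral_add_adjacent_intervals (hc.intervalIntegrable _ _) (hc.intervalIntegrable _ _),
      intervalIntegral.integral_add_adjacent_intervals (hc.intervalIntegrable _ _) (hc.intervalIntegrable _ _)]
  have h3 : ∫ t in (-|y|)..0, ‖z t‖ ^ 2 ≤ ∫ t in (-|y|)..|y|, ‖z t‖ ^ 2 :=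
    intervalIntegral.integral_mono_interval le_rfl (by linarith) hy
      (Eventually.of_forall fun t => by positivity) (hc.intervalIntegrable _ _)
  have h4 : ∫ t in S..(S + |y|), ‖z t‖ ^ 2 ≤ ∫ t in (S - |y|)..(S + |y|), ‖z t‖ ^ 2 :=
    intervalIntegral.integral_mono_interval (by linarith) (by linarith) le_rfl
      (Eventually.of_forall fun t => by positivity) (hc.intervalIntegrable _ _)
  unfold Ed
  linarith

lemma kz_small (k : ℕ) (h : TF ξ1 φ) : ∃ C : ℝ, 0 ≤ C ∧ ∀ L S : ℝ, 1 ≤ L → 1 ≤ S →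
    ∫ t in (0:ℝ)..S, ‖kF φ L (zk k) t‖ ^ 2 ≤ C * (M (zk k) (2 * S) + 1) := by
  have D := zk_dat k (u := 1) le_rfl
  obtain ⟨C1, q, hC1, hE⟩ := Ed_all D (ε := 1) one_pos
  obtain ⟨C2, hC2, hz⟩ := kz_sq' h D q
  refine ⟨C2 * (4 + C1), by positivity, fun L S hL hS => ?_⟩
  have hM := M_nonneg (zk k) (T := 2 * S) (by linarith)
  have h1 := hz L 0 S (4 * M (zk k) (2 * S)) C1 hL (by linarith) (by positivity) hC1 (fun y => by
    have h2 := mass_win D (S := S) (y := y) (a := 0) le_rfl (by linarith)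
    have h3 := hE S y hS
    rw [Real.rpow_one] at h3
    have h4 : Ed (zk k) S S ≤ 3 * M (zk k) (2 * S) := by
      unfold Ed
      have e1 : ∫ t in (-S)..S, ‖zk k t‖ ^ 2 = (∫ t in (-S)..0, ‖zk k t‖ ^ 2) + M (zk k) S := by
        unfold M
        rw [intervalIntegral.integral_add_adjacent_intervals (D.sc.intervalIntegrable _ _)
          (D.sc.intervalIntegrable _ _)]
      have e2 : ∫ t in (S - S)..(S + S), ‖zk k t‖ ^ 2 = M (zk k) (2 * S) := by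
        unfold M; rw [sub_self, two_mul]
      rw [e1, e2, M_neg]
      have := M_mono D (show S ≤ 2 * S by linarith)
      linarith
    have h5 := M_mono D (show S ≤ 2 * S by linarith)
    linarith)
  refine h1.trans ?_
  have h6 : 4 * M (zk k) (2 * S) + C1 ≤ (4 + C1) * (M (zk k) (2 * S) + 1) := by
    nlinarith [mul_nonneg hC1 hM]
  calc C2 * (4 * M (zk k) (2 * S) + C1) ≤ C2 * ((4 + C1) * (M (zk k) (2 * S) + 1)) :=
        mul_le_mul_of_nonneg_left h6 hC2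
    _ = _ := by ring

/-- the error term -/
def Er (k : ℕ) (ε ϑ T : ℝ) : ℝ := 1 + Ed (zk k) T (T ^ ε) + M (zk k) (2 * T ^ ϑ)

lemma Er_pos (k : ℕ) (ε ϑ : ℝ) {T : ℝ} (hT : 0 ≤ T) : 1 ≤ Er k ε ϑ T := by
  unfold Er
  have h1 := Ed_nonneg (zk k) T (r := T ^ ε) (by positivity)
  have h2 := M_nonneg (zk k) (T := 2 * T ^ ϑ) (by positivity)
  linarith

lemma Om_ev (D : Dat z G u K) {η ε : ℝ} (hη : 0 < η) (hε : 0 < ε) : ∃ C T0 : ℝ, 0 ≤ C ∧ 1 ≤ T0 ∧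
    ∀ T : ℝ, T0 ≤ T → Om z T ≤ η * M z T + C * (1 + Ed z T (T ^ ε)) := by
  obtain ⟨C, T0, hC, hT0, h⟩ := Om_le D hη
  obtain ⟨T1, hT1⟩ := eventually_atTop.1 (B_Ed D hε)
  refine ⟨C + 1, max T0 T1, by positivity, le_max_of_le_left hT0, fun T hT => ?_⟩
  have h1 := h T ((le_max_left _ _).trans hT)
  have h2 := hT1 T ((le_max_right _ _).trans hT)
  have h3 := Ed_nonneg z T (r := T ^ ε) (by
    have : 0 ≤ T := by linarith [(le_max_left T0 T1).trans hT]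
    positivity)
  nlinarith [mul_nonneg hC h3]

/-- the smoothed function on `[T^ϑ, T]` against the spectral integral -/
theorem msq_kz (k : ℕ) (hu : 1 ≤ u) (h : TF ξ1 φ) {ε ϑ η : ℝ} (hε : 0 < ε) (hϑ : 0 < ϑ) (hϑ1 : ϑ < 1)
    (hη : 0 < η) : ∃ C T0 : ℝ, 0 ≤ C ∧ Real.exp 1 ≤ T0 ∧ ∀ T : ℝ, T0 ≤ T →
      |(∫ t in (T ^ ϑ)..T, ‖kF φ (Real.log T) (zk k) t‖ ^ 2) -
        St (Fn (H k u) T 0) (Real.log T) (fun v => ‖φ v‖ ^ 2)| ≤ η * M (zk k) T + C * Er k ε ϑ T := by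
  have D := zk_dat k (u := u) hu
  obtain ⟨S, hS⟩ := h.cont.norm.bounded_above_of_compact_support h.cs.norm
  have hS0 : 0 ≤ S := (norm_nonneg _).trans (hS 0)
  have hS' : ∀ v, ‖φ v‖ ≤ S := fun v => by simpa using hS v
  obtain ⟨C1, hC1, hcm⟩ := comm h D hε
  set ζ : ℝ := min 1 (η / (8 * (S ^ 2 + 1))) with hζ
  have hζ0 : 0 < ζ := by positivity
  have hζ1 : ζ ≤ 1 := min_le_left _ _
  have hζ2 : ζ * (8 * (S ^ 2 + 1)) ≤ η := by
    have := min_le_right 1 (η / (8 * (S ^ 2 + 1)))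
    rwa [← hζ, le_div_iff₀ (by positivity)] at this
  have hζi : 0 < ζ⁻¹ := inv_pos.2 hζ0
  set W : ℝ := 2 * (1 + ζ⁻¹) * C1 with hW
  have hW0 : 0 ≤ W := by positivity
  obtain ⟨C2, T2, hC2, hT2, hOm⟩ := Om_ev D (η := η / (4 * (W + 1))) (by positivity) hε
  obtain ⟨C3, T3, hC3, hun⟩ := unit D (η := 1) one_pos hε
  obtain ⟨C4, hC4, hsm⟩ := kz_small k h
  refine ⟨W * (C2 + 1) + 2 * ζ * S ^ 2 * C3 + C4, max (max T2 T3) (Real.exp 1), by positivity,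
    le_max_right _ _, fun T hT => ?_⟩
  have t2 : T2 ≤ T := ((le_max_left _ _).trans (le_max_left _ _)).trans hT
  have t3 : T3 ≤ T := ((le_max_right _ _).trans (le_max_left _ _)).trans hT
  have te : Real.exp 1 ≤ T := (le_max_right _ _).trans hT
  have hT0 : 0 < T := (Real.exp_pos 1).trans_le te
  have hT1 : 1 ≤ T := le_trans (by have := Real.add_one_le_exp 1; linarith) te
  have hL : 1 ≤ Real.log T := by rwa [Real.le_log_iff_exp_le hT0]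
  obtain ⟨L, hLd⟩ : ∃ L, L = Real.log T := ⟨_, rfl⟩
  have hF := Fn_dec D.pg hT1 (r := 0) (neg_nonpos.2 (Nat.cast_nonneg _)) (Nat.cast_nonneg _)
  obtain ⟨g1, g2⟩ := hcm T te
  have g3 := hOm T t2
  have g4 := hun T t3
  have hTϑ : 1 ≤ T ^ ϑ := Real.one_le_rpow hT1 hϑ.le
  have g5 := hsm (Real.log T) (T ^ ϑ) hL hTϑ
  rw [← hLd] at g1 g2 g5 hL ⊢
  have hM := M_nonneg (zk k) (T := T) hT0.le
  have hEd := Ed_nonneg (zk k) T (r := T ^ ε) (by positivity)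
  have hM2 := M_nonneg (zk k) (T := 2 * T ^ ϑ) (by positivity)
  have hkc : Continuous (fun t => ‖kF φ L (zk k) t‖ ^ 2) := (kz_cont h D hL).norm.pow 2
  have hTT : T ^ ϑ ≤ T := by
    calc T ^ ϑ ≤ T ^ (1:ℝ) := Real.rpow_le_rpow_of_exponent_le hT1 hϑ1.le
      _ = T := Real.rpow_one T
  -- split the interval
  have e1 : ∫ t in (T ^ ϑ)..T, ‖kF φ L (zk k) t‖ ^ 2 = (∫ t in (0:ℝ)..T, ‖kF φ L (zk k) t‖ ^ 2) -
      ∫ t in (0:ℝ)..(T ^ ϑ), ‖kF φ L (zk k) t‖ ^ 2 := by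
    rw [intervalIntegral.integral_interval_sub_left (hkc.intervalIntegrable _ _)
      (hkc.intervalIntegrable _ _)]
  have n1 : 0 ≤ ∫ t in (0:ℝ)..(T ^ ϑ), ‖kF φ L (zk k) t‖ ^ 2 :=
    intervalIntegral.integral_nonneg (by linarith) fun t _ => by positivity
  -- compare
  have hfi : Integrable (fun t => ‖(ind T t : ℂ) * kF φ L (zk k) t‖ ^ 2) := by
    refine (ind_bd (T := T) hkc).congr (Eventually.of_forall fun t => ?_)
    simp only
    rw [ind_sq]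
  have hgi := (kF_dec h hL hF).sq
  have hdi : Integrable (fun t => ‖(ind T t : ℂ) * kF φ L (zk k) t - kF φ L (Fn (H k u) T 0) t‖ ^ 2) := by
    refine g1.congr (Eventually.of_forall fun t => ?_)
    simp only
    rw [norm_sub_rev]
  have hc := sq_cmp hfi hgi hdi hζ0 hζ1
  have e2 : ∫ t, ‖(ind T t : ℂ) * kF φ L (zk k) t‖ ^ 2 = ∫ t in (0:ℝ)..T, ‖kF φ L (zk k) t‖ ^ 2 := by
    rw [← ind_val hT0.le]
    refine integral_congr_ae (Eventually.of_forall fun t => ?_)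
    simp only
    rw [ind_sq]
  have e3 : ∫ t, ‖(ind T t : ℂ) * kF φ L (zk k) t - kF φ L (Fn (H k u) T 0) t‖ ^ 2 =
      ∫ t, ‖kF φ L (Fn (H k u) T 0) t - ind T t * kF φ L (zk k) t‖ ^ 2 := by
    refine integral_congr_ae (Eventually.of_forall fun t => ?_)
    simp only
    rw [norm_sub_rev]
  rw [e2, e3, kF_norm h hL hF] at hc
  -- size of the spectral integral
  have hst : St (Fn (H k u) T 0) L (fun v => ‖φ v‖ ^ 2) ≤ S ^ 2 * ∫ t, ‖Fn (H k u) T 0 t‖ ^ 2 := by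
    have h1 : St (Fn (H k u) T 0) L (fun v => ‖φ v‖ ^ 2) ≤ ∫ w, S ^ 2 * ‖𝓕 (Fn (H k u) T 0) w‖ ^ 2 := by
      unfold St
      refine integral_mono (St_int hF (g := fun v => ‖φ v‖ ^ 2) (S := S ^ 2) (h.cont.norm.pow 2)
        fun v => ?_) ((planch hF).1.const_mul _) fun w => ?_
      · rw [abs_of_nonneg (sq_nonneg ‖φ v‖)]
        exact pow_le_pow_left₀ (norm_nonneg _) (hS' v) 2
      · simp only
        refine mul_le_mul_of_nonneg_right (pow_le_pow_left₀ (norm_nonneg _) (hS' _) 2) (by positivity)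
    rw [integral_const_mul, (planch hF).2] at h1
    exact h1
  have hFM : ∫ t, ‖Fn (H k u) T 0 t‖ ^ 2 ≤ 2 * M (zk k) T + C3 * (1 + Ed (zk k) T (T ^ ε)) := by
    have := (abs_le.1 g4).2
    linarith
  obtain ⟨m, hm⟩ : ∃ m, m = M (zk k) T := ⟨_, rfl⟩
  obtain ⟨E, hE⟩ : ∃ E, E = Ed (zk k) T (T ^ ε) := ⟨_, rfl⟩
  obtain ⟨m2, hm2⟩ : ∃ m2, m2 = M (zk k) (2 * T ^ ϑ) := ⟨_, rfl⟩
  obtain ⟨X, hX⟩ : ∃ X, X = St (Fn (H k u) T 0) L (fun v => ‖φ v‖ ^ 2) := ⟨_, rfl⟩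
  obtain ⟨Y, hY⟩ : ∃ Y, Y = ∫ t in (0:ℝ)..T, ‖kF φ L (zk k) t‖ ^ 2 := ⟨_, rfl⟩
  obtain ⟨Z, hZ⟩ : ∃ Z, Z = ∫ t in (0:ℝ)..(T ^ ϑ), ‖kF φ L (zk k) t‖ ^ 2 := ⟨_, rfl⟩
  obtain ⟨Δ, hΔ⟩ : ∃ Δ, Δ = ∫ t, ‖kF φ L (Fn (H k u) T 0) t - ind T t * kF φ L (zk k) t‖ ^ 2 := ⟨_, rfl⟩
  obtain ⟨N, hN⟩ : ∃ N, N = ∫ t, ‖Fn (H k u) T 0 t‖ ^ 2 := ⟨_, rfl⟩
  obtain ⟨O, hO⟩ : ∃ O, O = Om (zk k) T := ⟨_, rfl⟩
  rw [e1]
  unfold Er
  rw [← hm, ← hE, ← hm2, ← hX, ← hY, ← hZ]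
  rw [← hY, ← hX, ← hΔ] at hc
  rw [← hΔ, ← hO, ← hE] at g2
  rw [← hO, ← hm, ← hE] at g3
  rw [← hX, ← hN] at hst
  rw [← hN, ← hm, ← hE] at hFM
  rw [← hZ, ← hm2] at g5
  rw [← hZ] at n1
  rw [← hm] at hM
  rw [← hE] at hEd
  rw [← hm2] at hM2
  have p1 : 2 * ζ * X ≤ 2 * ζ * (S ^ 2 * (2 * m + C3 * (1 + E))) := by
    refine mul_le_mul_of_nonneg_left (hst.trans ?_) (by positivity)
    exact mul_le_mul_of_nonneg_left hFM (by positivity)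
  have p2 : 2 * (1 + ζ⁻¹) * Δ ≤ W * (O + E + 1) := by
    rw [hW, mul_assoc (2 * (1 + ζ⁻¹)) C1]
    exact mul_le_mul_of_nonneg_left g2 (by positivity)
  have p3 : W * O ≤ W * (η / (4 * (W + 1)) * m + C2 * (1 + E)) := mul_le_mul_of_nonneg_left g3 hW0
  have p4 : W * (η / (4 * (W + 1)) * m) ≤ η / 4 * m := by
    have : W * (η / (4 * (W + 1)) * m) = η / 4 * m * (W / (W + 1)) := by field_simp
    rw [this]
    refine mul_le_of_le_one_right (by positivity) ?_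
    rw [div_le_one (by linarith)]; linarith
  have p5 : 2 * ζ * (S ^ 2 * (2 * m)) ≤ η / 2 * m := by
    have : 2 * ζ * (S ^ 2 * 2) ≤ η / 2 := by nlinarith [sq_nonneg S]
    calc 2 * ζ * (S ^ 2 * (2 * m)) = (2 * ζ * (S ^ 2 * 2)) * m := by ring
      _ ≤ _ := mul_le_mul_of_nonneg_right this hM
  have q1 : 0 ≤ W * (C2 + 1) * m2 := by positivity
  have q2 : 0 ≤ 2 * ζ * S ^ 2 * C3 * m2 := by positivity
  have q3 : 0 ≤ C4 * E := by positivity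
  have q4 : 0 ≤ η * m := by positivity
  have e5 : 2 * ζ * (S ^ 2 * (2 * m + C3 * (1 + E))) = 2 * ζ * (S ^ 2 * (2 * m)) +
      2 * ζ * S ^ 2 * C3 * (1 + E) := by ring
  have e6 : W * (O + E + 1) = W * O + W * (1 + E) := by ring
  have e7 : W * (η / (4 * (W + 1)) * m + C2 * (1 + E)) = W * (η / (4 * (W + 1)) * m) +
      W * C2 * (1 + E) := by ring
  have e8 : (W * (C2 + 1) + 2 * ζ * S ^ 2 * C3 + C4) * (1 + E + m2) = W * C2 * (1 + E) + W * (1 + E) +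
      W * (C2 + 1) * m2 + 2 * ζ * S ^ 2 * C3 * (1 + E) + 2 * ζ * S ^ 2 * C3 * m2 +
      C4 * (m2 + 1) + C4 * E := by ring
  rw [e5] at p1
  rw [e6] at p2
  rw [e7] at p3
  have q5 : 0 ≤ W * (C2 + 1) * m2 := by positivity
  have key : |Y - X| + Z ≤ η * m + (W * (C2 + 1) + 2 * ζ * S ^ 2 * C3 + C4) * (1 + E + m2) := by
    rw [e8]
    linarith
  have h9 : |Y - Z - X| ≤ |Y - X| + Z := by
    have : Y - Z - X = (Y - X) - Z := by ring
    rw [this]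
    have := abs_sub (Y - X) Z
    rwa [abs_of_nonneg n1] at this
  exact h9.trans key

end

end Pool.Agent.J4.H44.LP
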