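import Pool.Agent.J4.H44.LP.Cn

set_option autoImplicit false

/-! The mean square of the smoothed Dirichlet polynomial is a spectral integral. -/

namespace Pool.Agent.J4.H44.LP

open Complex MeasureTheory Filter Topology Set Pool.Agent.W182.KO Pool.Agent.R446.KR Pool.Agent.TH535.SM
open scoped ContDiff FourierTransform ENNReal

noncomputable section

variable {ξ1 : ℝ} {φ : ℝ → ℂ} {z : ℝ → ℂ} {G : ℂ → ℂ} {u K : ℕ}

/-- comparison of two mean squares -/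
lemma sq_cmp {μ : Measure ℝ} {f g : ℝ → ℂ} (hf : Integrable (fun t => ‖f t‖ ^ 2) μ)
    (hg : Integrable (fun t => ‖g t‖ ^ 2) μ) (hd : Integrable (fun t => ‖f t - g t‖ ^ 2) μ) {η : ℝ}
    (h0 : 0 < η) (h1 : η ≤ 1) : |∫ t, ‖f t‖ ^ 2 ∂μ - ∫ t, ‖g t‖ ^ 2 ∂μ| ≤
      2 * η * (∫ t, ‖g t‖ ^ 2 ∂μ) + 2 * (1 + η⁻¹) * ∫ t, ‖f t - g t‖ ^ 2 ∂μ := by
  have a1 : ∫ t, ‖f t‖ ^ 2 ∂μ ≤ (1 + η) * (∫ t, ‖g t‖ ^ 2 ∂μ) + (1 + η⁻¹) * ∫ t, ‖f t - g t‖ ^ 2 ∂μ := by
    rw [← integral_const_mul, ← integral_const_mul, ← integral_add (hg.const_mul _) (hd.const_mul _)]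
    exact integral_mono hf ((hg.const_mul _).add (hd.const_mul _)) fun t => sq_split h0
  have a2 : ∫ t, ‖g t‖ ^ 2 ∂μ ≤ (1 + η) * (∫ t, ‖f t‖ ^ 2 ∂μ) + (1 + η⁻¹) * ∫ t, ‖f t - g t‖ ^ 2 ∂μ := by
    rw [← integral_const_mul, ← integral_const_mul, ← integral_add (hf.const_mul _) (hd.const_mul _)]
    refine integral_mono hg ((hf.const_mul _).add (hd.const_mul _)) fun t => ?_
    have := sq_split (x := g t) (y := f t) h0
    rwa [norm_sub_rev] at this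
  have n1 : 0 ≤ ∫ t, ‖g t‖ ^ 2 ∂μ := integral_nonneg fun _ => by positivity
  have n2 : 0 ≤ ∫ t, ‖f t - g t‖ ^ 2 ∂μ := integral_nonneg fun _ => by positivity
  have hi : 0 < η⁻¹ := inv_pos.2 h0
  obtain ⟨X, hX⟩ : ∃ X, X = ∫ t, ‖f t‖ ^ 2 ∂μ := ⟨_, rfl⟩
  obtain ⟨Y, hY⟩ : ∃ Y, Y = ∫ t, ‖g t‖ ^ 2 ∂μ := ⟨_, rfl⟩
  obtain ⟨Δ, hΔ⟩ : ∃ Δ, Δ = ∫ t, ‖f t - g t‖ ^ 2 ∂μ := ⟨_, rfl⟩
  rw [← hX, ← hY, ← hΔ] at a1 a2
  rw [← hX, ← hY, ← hΔ]
  rw [← hY] at n1
  rw [← hΔ] at n2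
  have q1 : 0 ≤ η * Y := by positivity
  have q2 : 0 ≤ (1 + η⁻¹) * Δ := by positivity
  have q3 : η * X ≤ η * ((1 + η) * Y + (1 + η⁻¹) * Δ) := mul_le_mul_of_nonneg_left a1 h0.le
  have q4 : η * ((1 + η⁻¹) * Δ) ≤ 1 * ((1 + η⁻¹) * Δ) := mul_le_mul_of_nonneg_right h1 q2
  have q5 : η * (η * Y) ≤ 1 * (η * Y) := mul_le_mul_of_nonneg_right h1 q1
  rw [abs_le]
  constructor <;> nlinarith

lemma Ed_M (D : Dat z G u K) (T : ℝ) {r : ℝ} (hr : 0 ≤ r) : M z (T + r) - M z (T - r) ≤ Ed z T r := by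
  have e1 : M z (T + r) - M z (T - r) = ∫ t in (T - r)..(T + r), ‖z t‖ ^ 2 := by
    unfold M
    rw [intervalIntegral.integral_interval_sub_left (D.sc.intervalIntegrable _ _)
      (D.sc.intervalIntegrable _ _)]
  unfold Ed
  rw [e1]
  have : 0 ≤ ∫ t in (-r)..r, ‖z t‖ ^ 2 :=
    intervalIntegral.integral_nonneg (by linarith) fun t _ => by positivity
  linarith

lemma log_le_rpow_ev {ε : ℝ} (hε : 0 < ε) : ∀ᶠ T : ℝ in atTop, Real.log T ≤ T ^ ε := by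
  have h := (isLittleO_log_rpow_atTop hε).bound (show (0:ℝ) < 1 by norm_num)
  filter_upwards [h, eventually_ge_atTop 1] with T h1 h2
  rw [Real.norm_of_nonneg (Real.log_nonneg h2), Real.norm_of_nonneg (by positivity), one_mul] at h1
  exact h1

/-- the gaussian local moment is dominated by the mass near the ends -/
lemma B_Ed (D : Dat z G u K) {ε : ℝ} (hε : 0 < ε) : ∀ᶠ T : ℝ in atTop, B z T ≤ Ed z T (T ^ ε) + 1 := by
  obtain ⟨C, p, hC, hB⟩ := B_split D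
  filter_upwards [tail_small C p (by linarith), log_le_rpow_ev hε, eventually_ge_atTop 1] with T h1 h2 h3
  have hl : 0 ≤ Real.log T := Real.log_nonneg h3
  have h4 := hB T (Real.log T) (by linarith) hl
  have h5 := Ed_M D T hl
  have h6 := Ed_mono D T hl h2
  have h7 : C * (1 + T) ^ p * Real.exp (-Real.log T ^ 2 / 8) ≤
      C * (1 + 2 * T) ^ p * Real.exp (-Real.log T ^ 2 / 8) := by
    have : (1 + T) ^ p ≤ (1 + 2 * T) ^ p := pow_le_pow_left₀ (by linarith) (by linarith) p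
    gcongr
  linarith

/-- the total mass -/
lemma unit (D : Dat z G u K) {η ε : ℝ} (hη : 0 < η) (hε : 0 < ε) : ∃ C T0 : ℝ, 0 ≤ C ∧
    ∀ T : ℝ, T0 ≤ T → |(∫ t, ‖Fn G T 0 t‖ ^ 2) - M z T| ≤ η * M z T + C * (1 + Ed z T (T ^ ε)) := by
  obtain ⟨C, T0, hC, hT0, h⟩ := spec_close D (ε := min η (1 / 2)) (by positivity)
    (lt_of_le_of_lt (min_le_right _ _) (by norm_num))
  obtain ⟨T1, hT1⟩ := eventually_atTop.1 (B_Ed D hε)
  refine ⟨2 * C, max T0 T1, by positivity, fun T hT => ?_⟩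
  have t0 : T0 ≤ T := (le_max_left _ _).trans hT
  have hT1' : 1 ≤ T := hT0.trans t0
  have hF := Fn_dec D.pg hT1' (r := 0) (neg_nonpos.2 (Nat.cast_nonneg u)) (Nat.cast_nonneg u)
  have h1 := h T t0 0 0 (by simp)
  have h2 := hT1 T ((le_max_right _ _).trans hT)
  have e1 : Sp (Fn G T 0) 0 0 = ∫ t, ‖Fn G T 0 t‖ ^ 2 := by
    rw [← (planch hF).2]
    unfold Sp
    refine integral_congr_ae (Eventually.of_forall fun w => ?_)
    simp
  have e2 : (cexp (((0:ℝ) : ℂ) * I) * Cor z 0 T).re = M z T := by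
    rw [Cor_zero]; simp
  rw [e1, e2, abs_sub_comm] at h1
  have hM := M_nonneg z (T := T) (by linarith)
  have h3 : min η (1 / 2) * M z T ≤ η * M z T := mul_le_mul_of_nonneg_right (min_le_left _ _) hM
  have h4 := Ed_nonneg z T (r := T ^ ε) (by positivity)
  have h5 : C * (1 + B z T) ≤ 2 * C * (1 + Ed z T (T ^ ε)) := by
    have : C * (1 + B z T) ≤ C * (2 * (1 + Ed z T (T ^ ε))) := mul_le_mul_of_nonneg_left (by linarith) hC
    linarith
  linarith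

/-- the smoothed function on an interval -/
lemma kz_sq (h : TF ξ1 φ) (D : Dat z G u K) {a b : ℝ} (hab : a ≤ b) {L : ℝ} (hL : 1 ≤ L) {A A' : ℝ}
    (q : ℕ) (hA : 0 ≤ A) (hA' : 0 ≤ A')
    (hN : ∀ y : ℝ, ∫ t in (a + y)..(b + y), ‖z t‖ ^ 2 ≤ A + A' * (1 + |y|) ^ q) :
    ∫ t in a..b, ‖kF φ L z t‖ ^ 2 ≤
      (∫ y, ‖KL φ L y‖) * ∫ y, ‖KL φ L y‖ * (A + A' * (1 + |y|) ^ q) := by
  obtain ⟨C, p, hC, hz⟩ := z_bd D
  obtain ⟨C3, -, hK⟩ := KL_poly h q
  obtain ⟨C4, -, hK0⟩ := KL_poly h 0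
  have hi0 : Integrable (fun y => ‖KL φ L y‖) := by simpa using (hK0 L hL).2.1
  have hv00 : 0 ≤ ∫ y, ‖KL φ L y‖ := integral_nonneg fun _ => norm_nonneg _
  have hNbi : Integrable (fun y => ‖KL φ L y‖ * (A + A' * (1 + |y|) ^ q)) := by
    refine (iadd (hi0.const_mul A) ((hK L hL).2.1.const_mul A')).congr (Eventually.of_forall fun y => ?_)
    simp only
    ring
  have hbd : ∀ t y, ‖z (t + y)‖ ≤ (C * (1 + |t|) ^ p) * (1 + |y|) ^ p := by
    intro t y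
    have h2 := poly_shift p t y
    calc ‖z (t + y)‖ ≤ C * (1 + |t + y|) ^ p := hz _
      _ ≤ C * ((1 + |t|) ^ p * (1 + |y|) ^ p) := by gcongr
      _ = _ := by ring
  have hcs := fun t => ker_cs h hL ((D.zc.comp (by fun_prop : Continuous fun y : ℝ => t + y)).measurable)
    (C := C * (1 + |t|) ^ p) (p := p) (fun y => hbd t y)
  set S : Set ℝ := Icc a b with hS
  have key := mink (w := fun y => ‖KL φ L y‖) (d := fun y t => S.indicator (fun _ => (1:ℝ)) t * ‖z (t + y)‖ ^ 2)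
    (Nb := fun y => A + A' * (1 + |y|) ^ q) (e := fun t => S.indicator (fun t => ‖kF φ L z t‖ ^ 2) t)
    (κ := ∫ y, ‖KL φ L y‖)
    (KL_cont h L).norm.measurable (fun _ => norm_nonneg _) ?_ ?_ ?_ (fun y => by positivity) hNbi ?_ ?_ ?_ hv00 ?_
  · have e1 : ∫ t, S.indicator (fun t => ‖kF φ L z t‖ ^ 2) t = ∫ t in a..b, ‖kF φ L z t‖ ^ 2 := by
      rw [integral_indicator measurableSet_Icc, intervalIntegral.integral_of_le hab,
        integral_Icc_eq_integral_Ioc]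
    rw [e1] at key
    exact key.2
  · have m1 : Measurable (fun x : ℝ × ℝ => S.indicator (fun _ => (1:ℝ)) x.1) :=
      (measurable_const.indicator measurableSet_Icc).comp measurable_fst
    have m2 : Measurable (fun x : ℝ × ℝ => ‖z (x.1 + x.2)‖ ^ 2) :=
      (D.sc.comp (by fun_prop : Continuous fun x : ℝ × ℝ => x.1 + x.2)).measurable
    exact m1.mul m2
  · intro y t
    exact mul_nonneg (indicator_nonneg (fun _ _ => zero_le_one) t) (by positivity)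
  · intro t
    refine ((hcs t).2.1.const_mul (S.indicator (fun _ => (1:ℝ)) t)).congr (Eventually.of_forall fun y => ?_)
    simp only [Function.comp]
    ring
  · intro y
    have hc : Continuous (fun t => ‖z (t + y)‖ ^ 2) := D.sc.comp (by fun_prop)
    have e : (fun t => S.indicator (fun _ => (1:ℝ)) t * ‖z (t + y)‖ ^ 2) =
        S.indicator (fun t => ‖z (t + y)‖ ^ 2) := by
      funext t
      by_cases ht : t ∈ S
      · rw [indicator_of_mem ht, indicator_of_mem ht, one_mul]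
      · rw [indicator_of_notMem ht, indicator_of_notMem ht, zero_mul]
    rw [e]
    refine ⟨(integrable_indicator_iff measurableSet_Icc).2 hc.continuousOn.integrableOn_Icc, ?_⟩
    rw [integral_indicator measurableSet_Icc, integral_Icc_eq_integral_Ioc,
      ← intervalIntegral.integral_of_le hab,
      intervalIntegral.integral_comp_add_right (fun t => ‖z t‖ ^ 2) y]
    exact hN y
  · intro t
    exact indicator_nonneg (fun _ _ => by positivity) t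
  · exact ((((kz_cont h D hL).norm.pow 2).measurable).indicator measurableSet_Icc).aestronglyMeasurable
  · intro t
    by_cases ht : t ∈ S
    · simp only [indicator_of_mem ht, one_mul]
      exact (hcs t).2.2
    · simp only [indicator_of_notMem ht, zero_mul, mul_zero, integral_zero, le_refl]

lemma kz_sq' (h : TF ξ1 φ) (D : Dat z G u K) (q : ℕ) : ∃ C : ℝ, 0 ≤ C ∧ ∀ L a b A A' : ℝ, 1 ≤ L → a ≤ b →
    0 ≤ A → 0 ≤ A' → (∀ y : ℝ, ∫ t in (a + y)..(b + y), ‖z t‖ ^ 2 ≤ A + A' * (1 + |y|) ^ q) →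
    ∫ t in a..b, ‖kF φ L z t‖ ^ 2 ≤ C * (A + A') := by
  obtain ⟨C3, hC3, hK⟩ := KL_poly h q
  obtain ⟨C4, hC4, hK0⟩ := KL_poly h 0
  refine ⟨C4 * (C4 + C3), by positivity, fun L a b A A' hL hab hA hA' hN => ?_⟩
  have hi0 : Integrable (fun y => ‖KL φ L y‖) := by simpa using (hK0 L hL).2.1
  have hv0 : ∫ y, ‖KL φ L y‖ ≤ C4 := by simpa using (hK0 L hL).2.2
  have hv00 : 0 ≤ ∫ y, ‖KL φ L y‖ := integral_nonneg fun _ => norm_nonneg _
  refine (kz_sq h D hab hL q hA hA' hN).trans ?_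
  have e : (fun y => ‖KL φ L y‖ * (A + A' * (1 + |y|) ^ q)) =
      fun y => A * ‖KL φ L y‖ + A' * (‖KL φ L y‖ * (1 + |y|) ^ q) := by
    funext y; ring
  rw [e, integral_add (hi0.const_mul _) ((hK L hL).2.1.const_mul _), integral_const_mul, integral_const_mul]
  have h1 : A * (∫ y, ‖KL φ L y‖) ≤ A * C4 := mul_le_mul_of_nonneg_left hv0 hA
  have h2 : A' * ∫ y, ‖KL φ L y‖ * (1 + |y|) ^ q ≤ A' * C3 := mul_le_mul_of_nonneg_left (hK L hL).2.2 hA'
  have h3 : A * C4 + A' * C3 ≤ (C4 + C3) * (A + A') := by nlinarith [mul_nonneg hA hC3, mul_nonneg hA' hC4]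
  calc _ ≤ (∫ y, ‖KL φ L y‖) * ((C4 + C3) * (A + A')) :=
        mul_le_mul_of_nonneg_left (by linarith) hv00
    _ ≤ C4 * ((C4 + C3) * (A + A')) := mul_le_mul_of_nonneg_right hv0 (by positivity)
    _ = _ := by ring

end

end Pool.Agent.J4.H44.LP
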