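import Pool.Agent.R446.KR.Compl

set_option autoImplicit false

/-! One-sided arithmetic progressions of exponentials are complete on short intervals. -/

namespace Pool.Agent.J4.H44.LP

open Complex Filter Topology Set Pool.Agent.R446.KR

noncomputable section

variable {K : ℝ}

lemma ee_real_norm (a : ℝ) (x : Icc (-K) K) : ee K a x = cexp (((a * x : ℝ) : ℂ) * I) := by
  rw [ee_apply]
  congr 1
  push_cast
  ring

lemma ee_add (a b : ℝ) : ee K ((a + b : ℝ) : ℂ) = ee K a * ee K b := by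
  ext x
  rw [ContinuousMap.mul_apply, ee_real_norm, ee_real_norm, ee_real_norm, ← Complex.exp_add]
  congr 1
  push_cast
  ring

lemma ee_zero : ee K ((0:ℝ) : ℂ) = 1 := by
  ext x
  rw [ee_real_norm]
  simp

lemma ee_pow (c : ℝ) (m : ℕ) : ee K ((c * m : ℝ) : ℂ) = ee K c ^ m := by
  induction m with
  | zero => simp [← ee_zero (K := K)]
  | succ m ih =>
    rw [pow_succ, ← ih, ← ee_add]
    congr 1
    push_cast
    ring

lemma ee_neg (c : ℝ) : ee K ((-c : ℝ) : ℂ) * ee K c = 1 := by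
  rw [← ee_add, neg_add_cancel, ee_zero]

/-- the closed algebra generated by one exponential -/
def Sal (K c : ℝ) : Subalgebra ℂ C(Icc (-K) K, ℂ) := (Algebra.adjoin ℂ {ee K c}).topologicalClosure

lemma Sal_closed (K c : ℝ) : IsClosed (Sal K c : Set C(Icc (-K) K, ℂ)) :=
  Subalgebra.isClosed_topologicalClosure _

lemma z_mem (c : ℝ) : ee K c ∈ Sal K c :=
  Subalgebra.le_topologicalClosure _ (Algebra.subset_adjoin rfl)

lemma ray_inv {A : Type*} [NormedRing A] [NormedAlgebra ℂ A] [CompleteSpace A] (S : Subalgebra ℂ A)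
    (hS : IsClosed (S : Set A)) {a : A} (ha : a ∈ S)
    (hray : ∀ t : ℝ, 0 ≤ t → ((-t : ℝ) : ℂ) ∉ spectrum ℂ a) : ∃ y ∈ S, y * a = 1 := by
  have := hS
  have : CompleteSpace S := hS.completeSpace_coe
  set x : S := ⟨a, ha⟩ with hx
  have h0 : (0:ℂ) ∉ spectrum ℂ x := by
    intro h0
    set Z : Set ℝ := {t : ℝ | 0 ≤ t ∧ ((-t : ℝ) : ℂ) ∈ spectrum ℂ x} with hZ
    have hsc : IsClosed (spectrum ℂ x) := spectrum.isClosed x
    have hcont : Continuous (fun t : ℝ => ((-t : ℝ) : ℂ)) := by fun_prop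
    have hZc : IsClosed Z := (isClosed_Ici.preimage continuous_id).inter (hsc.preimage hcont)
    have hZb : BddAbove Z := by
      refine ⟨‖x‖ * ‖(1 : S)‖, fun t ht => ?_⟩
      have := spectrum.norm_le_norm_mul_of_mem ht.2
      rw [Complex.norm_real, norm_neg, Real.norm_of_nonneg ht.1] at this
      exact this
    have hZn : Z.Nonempty := ⟨0, le_rfl, by simpa using h0⟩
    have hs := hZc.csSup_mem hZn hZb
    obtain ⟨s, hsd⟩ : ∃ s, s = sSup Z := ⟨_, rfl⟩
    rw [← hsd] at hs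
    have hfr : ((-s : ℝ) : ℂ) ∈ frontier (spectrum ℂ x) := by
      rw [frontier_eq_closure_inter_closure]
      refine ⟨subset_closure hs.2, ?_⟩
      rw [mem_closure_iff_seq_limit]
      refine ⟨fun n => ((-(s + 1 / ((n:ℝ) + 1)) : ℝ) : ℂ), fun n hmem => ?_, ?_⟩
      · have hp : (0:ℝ) < 1 / ((n:ℝ) + 1) := by positivity
        have : s + 1 / ((n:ℝ) + 1) ∈ Z := ⟨by linarith [hs.1], hmem⟩
        have := le_csSup hZb this
        rw [← hsd] at this
        linarith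
      · have h2 : Tendsto (fun n : ℕ => s + 1 / ((n:ℝ) + 1)) atTop (𝓝 s) := by
          have := (tendsto_one_div_add_atTop_nhds_zero_nat (𝕜 := ℝ)).const_add s
          simpa using this
        exact (hcont.tendsto s).comp h2
    exact hray s hs.1 (Subalgebra.frontier_spectrum S x hfr)
  rw [spectrum.zero_notMem_iff] at h0
  obtain ⟨y, hy⟩ := h0
  refine ⟨((y⁻¹ : Sˣ) : S), ((y⁻¹ : Sˣ) : S).2, ?_⟩
  have h1 : ((y⁻¹ : Sˣ) : S) * x = 1 := by
    rw [← hy]; exact y.inv_mul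
  have := congrArg (fun w : S => (w : A)) h1
  simpa using this

/-- the inverse of the exponential is in the closed algebra when the arc is not the full circle -/
lemma inv_mem {c : ℝ} (hc : 0 < c) (hK : c * K < Real.pi) : ee K ((-c : ℝ) : ℂ) ∈ Sal K c := by
  have hray : ∀ t : ℝ, 0 ≤ t → (((-t : ℝ) : ℂ)) ∉ spectrum ℂ (ee K c) := by
    intro t ht hmem
    rw [ContinuousMap.spectrum_eq_range] at hmem
    obtain ⟨ξ, h1⟩ := hmem
    rw [ee_real_norm] at h1
    have hn := congrArg (fun w : ℂ => ‖w‖) h1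
    simp only [Complex.norm_exp_ofReal_mul_I, Complex.norm_real, norm_neg, Real.norm_of_nonneg ht] at hn
    rw [← hn] at h1
    have hre := congrArg Complex.re h1
    rw [Complex.exp_ofReal_mul_I_re, Complex.ofReal_re] at hre
    have hξ2 : |c * (ξ : ℝ)| < Real.pi := by
      rw [abs_mul, abs_of_pos hc]
      have := abs_le.2 ξ.2
      have := mul_le_mul_of_nonneg_left this hc.le
      linarith
    rw [Real.cos_eq_neg_one_iff] at hre
    obtain ⟨n, hn⟩ := hre
    have hpi := Real.pi_pos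
    rw [abs_lt] at hξ2
    rw [← hn] at hξ2
    have h3 : (n : ℝ) * 2 < 0 := by
      have := hξ2.2
      by_contra hcon
      push Not at hcon
      nlinarith
    have h4 : (-1:ℝ) < n := by
      have := hξ2.1
      by_contra hcon
      push Not at hcon
      nlinarith
    have h5 : (n:ℤ) < 0 := by
      have : (n:ℝ) < 0 := by linarith
      exact_mod_cast this
    have h6 : (-1:ℤ) < n := by exact_mod_cast h4
    omega
  obtain ⟨y, hy, hy1⟩ := ray_inv (Sal K c) (Sal_closed K c) (z_mem c) hray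
  have h3 : y = ee K ((-c : ℝ) : ℂ) := by
    have h4 := ee_neg (K := K) c
    calc y = y * (ee K ((-c : ℝ) : ℂ) * ee K c) := by rw [h4, mul_one]
      _ = (y * ee K c) * ee K ((-c : ℝ) : ℂ) := by ring
      _ = _ := by rw [hy1, one_mul]
  rw [← h3]
  exact hy

lemma int_mem {c : ℝ} (hc : 0 < c) (hK : c * K < Real.pi) (m : ℤ) : ee K ((c * m : ℝ) : ℂ) ∈ Sal K c := by
  obtain ⟨n, rfl | rfl⟩ := m.eq_nat_or_neg
  · rw [Int.cast_natCast, ee_pow]
    exact pow_mem (z_mem c) n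
  · have e : (c * ((-(n:ℤ) : ℤ) : ℝ) : ℝ) = (-c) * n := by push_cast; ring
    rw [e, ee_pow]
    exact pow_mem (inv_mem hc hK) n

lemma all_mem {c : ℝ} (hc : 0 < c) (hK : c * K < Real.pi) (α : ℝ) : ee K (α : ℂ) ∈ Sal K c := by
  have hcl : IsClosed (Sal K c : Set C(Icc (-K) K, ℂ)) := Sal_closed K c
  rw [← SetLike.mem_coe, ← hcl.closure_eq, Metric.mem_closure_iff]
  intro ε hε
  obtain ⟨s, b, hs, hb⟩ := cpl_of_lattice (A := range (fun m : ℤ => c * (m:ℝ))) hc hK (fun m => ⟨m, rfl⟩) α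
    (ε / 2) (by positivity)
  refine ⟨∑ a ∈ s, b a • ee K (a : ℂ), ?_, ?_⟩
  · refine Subalgebra.sum_mem _ fun a ha => Subalgebra.smul_mem _ ?_ _
    obtain ⟨m, hm⟩ := hs a ha
    have : a = c * m := hm.symm
    rw [this]
    exact int_mem hc hK m
  · refine lt_of_le_of_lt ?_ (half_lt_self hε)
    rw [ContinuousMap.dist_le (by positivity)]
    intro x
    have h := hb x (abs_le.2 x.2)
    rw [dist_eq_norm]
    refine le_of_eq_of_le ?_ h
    congr 1
    rw [ContinuousMap.coe_sum, Finset.sum_apply]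
    congr 1
    · rw [ee_apply]; congr 1; ring
    · refine Finset.sum_congr rfl fun a _ => ?_
      rw [ContinuousMap.coe_smul, Pi.smul_apply, ee_apply, smul_eq_mul]
      congr 2; ring

/-- **one-sided progressions of small step** -/
theorem cpl_of_prog {A : Set ℝ} {c : ℝ} {m₀ : ℕ} (hc : 0 < c) (hK : c * K < Real.pi)
    (hA : ∀ m : ℕ, m₀ ≤ m → c * m ∈ A) : Cpl A K := by
  intro α ε hε
  by_cases hK0 : 0 ≤ K
  swap
  · exact ⟨∅, 0, by simp, fun ξ hξ => absurd (abs_nonneg ξ) (by linarith)⟩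
  have h := all_mem hc hK (α - c * m₀)
  have h2 : ee K ((α - c * m₀ : ℝ) : ℂ) ∈ closure ((Algebra.adjoin ℂ {ee K c} : Subalgebra ℂ _) : Set C(Icc (-K) K, ℂ)) := h
  obtain ⟨q, hq, hd⟩ := Metric.mem_closure_iff.1 h2 ε hε
  rw [SetLike.mem_coe, Algebra.adjoin_singleton_eq_range_aeval] at hq
  obtain ⟨p, rfl⟩ := hq
  classical
  refine ⟨(Finset.range (p.natDegree + 1)).image (fun j : ℕ => c * ((j + m₀ : ℕ) : ℝ)),
    fun a => p.coeff (⌊a / c⌋₊ - m₀), fun a ha => ?_, fun ξ hξ => ?_⟩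
  · obtain ⟨j, -, rfl⟩ := Finset.mem_image.1 ha
    exact hA _ (by omega)
  have h1 := (ContinuousMap.dist_lt_iff hε).1 hd ⟨ξ, abs_le.1 hξ⟩
  rw [dist_eq_norm] at h1
  have e1 : ∀ a : ℝ, cexp (I * a * ξ) = ee K (a : ℂ) ⟨ξ, abs_le.1 hξ⟩ := fun a => by
    rw [ee_apply]; congr 1; ring
  rw [Finset.sum_image]
  · have e2 : cexp (I * α * ξ) - ∑ j ∈ Finset.range (p.natDegree + 1),
        p.coeff (⌊c * ((j + m₀ : ℕ) : ℝ) / c⌋₊ - m₀) * cexp (I * ((c * ((j + m₀ : ℕ) : ℝ) : ℝ) : ℂ) * ξ) =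
        ee K ((c * m₀ : ℝ) : ℂ) ⟨ξ, abs_le.1 hξ⟩ *
          (ee K ((α - c * m₀ : ℝ) : ℂ) ⟨ξ, abs_le.1 hξ⟩ -
            ((Polynomial.aeval (ee K c)) p) ⟨ξ, abs_le.1 hξ⟩) := by
      rw [mul_sub, ← ContinuousMap.mul_apply, ← ee_add, add_sub_cancel, ← e1 α]
      congr 1
      rw [Polynomial.aeval_eq_sum_range, ContinuousMap.coe_sum, Finset.sum_apply, Finset.mul_sum]
      refine Finset.sum_congr rfl fun j _ => ?_
      rw [mul_div_cancel_left₀ _ hc.ne', Nat.floor_natCast, Nat.add_sub_cancel]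
      rw [ContinuousMap.coe_smul, Pi.smul_apply, smul_eq_mul, ← ee_pow, e1]
      have e3 : (c * ((j + m₀ : ℕ) : ℝ) : ℝ) = c * m₀ + c * j := by push_cast; ring
      rw [e3, ee_add, ContinuousMap.mul_apply]
      ring
    rw [e2, norm_mul, ← e1, show (I * ((c * m₀ : ℝ) : ℂ) * ξ : ℂ) = ((c * m₀ * ξ : ℝ) : ℂ) * I by push_cast; ring,
      Complex.norm_exp_ofReal_mul_I, one_mul]
    exact h1.le
  · intro i _ j _ hij
    have h3 : ((i + m₀ : ℕ) : ℝ) = ((j + m₀ : ℕ) : ℝ) := mul_left_cancel₀ hc.ne' hij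
    have h4 : i + m₀ = j + m₀ := by exact_mod_cast h3
    omega

end

end Pool.Agent.J4.H44.LP
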