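import Pool.Agent.J4.H44.LP.Rg

set_option autoImplicit false

/-! A complementary pair of cut-offs: the mean squares of the two polynomials add up to the moment. -/

namespace Pool.Agent.J4.H44.LP

open Complex MeasureTheory Filter Topology Set Pool.Agent.W182.KO Pool.Agent.R446.KR Pool.Agent.TH535.SM
open scoped ContDiff FourierTransform ENNReal ComplexConjugate

noncomputable section

variable {ξ1 ξ2 : ℝ} {φ φ1 φ2 : ℝ → ℂ} {z : ℝ → ℂ} {G : ℂ → ℂ} {u K : ℕ}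

/-- the mean square of the smoothed function -/
def PK (k : ℕ) (φ : ℝ → ℂ) (ϑ T : ℝ) : ℝ := ∫ t in (T ^ ϑ)..T, ‖kF φ (Real.log T) (zk k) t‖ ^ 2

/-- the mean square of the Dirichlet polynomial -/
def PD (k : ℕ) (φ : ℝ → ℂ) (ϑ T : ℝ) : ℝ := ∫ t in (T ^ ϑ)..T, ‖Dir k φ (Real.log T) t‖ ^ 2

lemma rpow_le_self {T ϑ : ℝ} (hT : 1 ≤ T) (h : ϑ ≤ 1) : T ^ ϑ ≤ T := by
  calc T ^ ϑ ≤ T ^ (1:ℝ) := Real.rpow_le_rpow_of_exponent_le hT h
    _ = T := Real.rpow_one T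

lemma PK_diff (k : ℕ) (h : TF ξ1 φ) : ∃ C : ℝ, 0 ≤ C ∧ ∀ (ϑ ϑ' T : ℝ), Real.exp 1 ≤ T → 0 < ϑ → ϑ ≤ ϑ' → ϑ' ≤ 1 →
    PK k φ ϑ' T ≤ PK k φ ϑ T ∧ PK k φ ϑ T ≤ PK k φ ϑ' T + C * (1 + M (zk k) (2 * T ^ ϑ')) := by
  have D := zk_dat k (u := 1) le_rfl
  obtain ⟨C4, hC4, hsm⟩ := kz_small k h
  refine ⟨C4, hC4, fun ϑ ϑ' T hT h0 h1 h2 => ?_⟩
  have hTp : 0 < T := (Real.exp_pos 1).trans_le hT
  have hT1 : 1 ≤ T := le_trans (by have := Real.add_one_le_exp 1; linarith) hT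
  have hL : 1 ≤ Real.log T := by rwa [Real.le_log_iff_exp_le hTp]
  have hkc : Continuous (fun t => ‖kF φ (Real.log T) (zk k) t‖ ^ 2) := (kz_cont h D hL).norm.pow 2
  have a1 : T ^ ϑ ≤ T ^ ϑ' := Real.rpow_le_rpow_of_exponent_le hT1 h1
  have a2 := rpow_le_self hT1 h2
  have a3 : 1 ≤ T ^ ϑ' := Real.one_le_rpow hT1 (by linarith)
  have a4 : 0 ≤ T ^ ϑ := by positivity
  have e : PK k φ ϑ T = (∫ t in (T ^ ϑ)..(T ^ ϑ'), ‖kF φ (Real.log T) (zk k) t‖ ^ 2) + PK k φ ϑ' T := by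
    unfold PK
    rw [intervalIntegral.integral_add_adjacent_intervals (hkc.intervalIntegrable _ _)
      (hkc.intervalIntegrable _ _)]
  have n1 : 0 ≤ ∫ t in (T ^ ϑ)..(T ^ ϑ'), ‖kF φ (Real.log T) (zk k) t‖ ^ 2 :=
    intervalIntegral.integral_nonneg a1 fun t _ => by positivity
  have n2 : ∫ t in (T ^ ϑ)..(T ^ ϑ'), ‖kF φ (Real.log T) (zk k) t‖ ^ 2 ≤
      ∫ t in (0:ℝ)..(T ^ ϑ'), ‖kF φ (Real.log T) (zk k) t‖ ^ 2 :=
    intervalIntegral.integral_mono_interval a4 a1 le_rfl (Eventually.of_forall fun t => by positivity)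
      (hkc.intervalIntegrable _ _)
  have n3 := hsm (Real.log T) (T ^ ϑ') hL a3
  constructor
  · linarith
  · linarith

/-- the mean square of the smoothed function does not change under reflection -/
theorem PK_refl (k : ℕ) (h : TF ξ1 φ) {ε η ϑ : ℝ} (hε : 0 < ε) (hη : 0 < η) (hϑ0 : 0 < ϑ) (hϑ : ϑ < 1) :
    ∃ ϑ' C T0 : ℝ, ϑ ≤ ϑ' ∧ ϑ' < 1 ∧ 0 ≤ C ∧ Real.exp 1 ≤ T0 ∧ ∀ T : ℝ, T0 ≤ T →
      |PK k (refl k φ) ϑ T - PK k φ ϑ T| ≤ η * M (zk k) T + C * Er k ε ϑ' T := by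
  obtain ⟨ξ, -, hr⟩ := refl_TF h k
  obtain ⟨ϑ', C, T0, h1, h2, h3, hC, hT0, hb⟩ := refl_near k h hε hη ϑ hϑ
  obtain ⟨C1, hC1, p1⟩ := PK_diff k h
  obtain ⟨C2, hC2, p2⟩ := PK_diff k hr
  refine ⟨ϑ', C + C1 + C2, T0, h1, h3, by positivity, hT0, fun T hT => ?_⟩
  have te : Real.exp 1 ≤ T := hT0.trans hT
  have hTp : 0 < T := (Real.exp_pos 1).trans_le te
  obtain ⟨a1, a2⟩ := p1 ϑ ϑ' T te hϑ0 h1 h3.le
  obtain ⟨b1, b2⟩ := p2 ϑ ϑ' T te hϑ0 h1 h3.le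
  have c1 := hb T hT
  have hEd := Ed_nonneg (zk k) T (r := T ^ ε) (by positivity)
  have hM2 := M_nonneg (zk k) (T := 2 * T ^ ϑ') (by positivity)
  have c2 : |PK k (refl k φ) ϑ' T - PK k φ ϑ' T| ≤ η * M (zk k) T + C * (1 + Ed (zk k) T (T ^ ε)) := c1
  have e : (C + C1 + C2) * Er k ε ϑ' T = C * (1 + Ed (zk k) T (T ^ ε)) + C * M (zk k) (2 * T ^ ϑ') +
      C1 * (1 + M (zk k) (2 * T ^ ϑ')) + C2 * (1 + M (zk k) (2 * T ^ ϑ')) +
      (C1 + C2) * Ed (zk k) T (T ^ ε) := by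
    unfold Er; ring
  rw [e]
  have n1 : 0 ≤ C * M (zk k) (2 * T ^ ϑ') := by positivity
  have n2 : 0 ≤ (C1 + C2) * Ed (zk k) T (T ^ ε) := by positivity
  have n3 : 0 ≤ C1 * (1 + M (zk k) (2 * T ^ ϑ')) := by positivity
  have n4 : 0 ≤ C2 * (1 + M (zk k) (2 * T ^ ϑ')) := by positivity
  rw [abs_le] at c2 ⊢
  constructor <;> linarith [c2.1, c2.2]

lemma refl_refl (k : ℕ) (φ : ℝ → ℂ) : refl k (refl k φ) = φ := by
  funext v
  simp [refl]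

/-- a test function equal to one on `[0, k]` -/
lemma near_one {g : ℝ → ℝ} (hg : Continuous g) (k : ℕ) (h1 : ∀ v : ℝ, 0 ≤ v → v ≤ k → g v = 1) {e : ℝ}
    (he : 0 < e) : ∃ δ : ℝ, 0 < δ ∧ ∀ v, -δ ≤ v → v ≤ k + δ → |g v - 1| ≤ e := by
  have hk : (0:ℝ) ≤ k := Nat.cast_nonneg k
  have huc := (isCompact_Icc (a := (-1:ℝ)) (b := k + 1)).uniformContinuousOn_of_continuous hg.continuousOn
  rw [Metric.uniformContinuousOn_iff] at huc
  obtain ⟨δ, hδ, hd⟩ := huc e he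
  refine ⟨min (δ / 2) 1, by positivity, fun v hv1 hv2 => ?_⟩
  have m1 : min (δ / 2) 1 ≤ δ / 2 := min_le_left _ _
  have m2 : min (δ / 2) 1 ≤ 1 := min_le_right _ _
  have m3 : 0 ≤ min (δ / 2) 1 := by positivity
  set v' : ℝ := max 0 (min v k) with hv'
  have a1 : 0 ≤ v' := le_max_left _ _
  have a2 : v' ≤ k := max_le hk (min_le_right _ _)
  have a3 : |v - v'| ≤ min (δ / 2) 1 := by
    rw [hv', abs_le]
    rcases le_total v k with h | h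
    · rw [min_eq_left h]
      rcases le_total 0 v with h' | h'
      · rw [max_eq_right h']; constructor <;> linarith
      · rw [max_eq_left h']; constructor <;> linarith
    · rw [min_eq_right h, max_eq_right hk]; constructor <;> linarith
  have b := hd v ⟨by linarith, by linarith⟩ v' ⟨by linarith, by linarith⟩ (by
    rw [Real.dist_eq]; linarith)
  rw [Real.dist_eq, h1 v' a1 a2] at b
  exact b.le

/-- **the pair identity** for the smoothed functions -/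
theorem pair_PK (k : ℕ) (h1 : TF ξ1 φ1) (h2 : TF ξ2 φ2)
    (hp : ∀ v : ℝ, 0 ≤ v → v ≤ k → ‖φ1 v‖ ^ 2 + ‖φ2 (k - v)‖ ^ 2 = 1) {ε η ϑ : ℝ} (hε : 0 < ε)
    (hη : 0 < η) (hϑ0 : 0 < ϑ) (hϑ : ϑ < 1) :
    ∃ ϑ' C T0 : ℝ, ϑ ≤ ϑ' ∧ ϑ' < 1 ∧ 0 ≤ C ∧ Real.exp 1 ≤ T0 ∧ ∀ T : ℝ, T0 ≤ T →
      |PK k φ1 ϑ T + PK k φ2 ϑ T - M (zk k) T| ≤ η * M (zk k) T + C * Er k ε ϑ' T := by
  obtain ⟨ξ, -, hr⟩ := refl_TF h2 k
  obtain ⟨S1, hS1⟩ := h1.cont.norm.bounded_above_of_compact_support h1.cs.norm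
  obtain ⟨S2, hS2⟩ := h2.cont.norm.bounded_above_of_compact_support h2.cs.norm
  simp only [norm_norm] at hS1 hS2
  have hS10 : 0 ≤ S1 := (norm_nonneg _).trans (hS1 0)
  have hS20 : 0 ≤ S2 := (norm_nonneg _).trans (hS2 0)
  set g : ℝ → ℝ := fun v => ‖φ1 v‖ ^ 2 + ‖refl k φ2 v‖ ^ 2 with hg
  have hgc : Continuous g := (h1.cont.norm.pow 2).add (hr.cont.norm.pow 2)
  have hrn : ∀ v, ‖refl k φ2 v‖ = ‖φ2 (k - v)‖ := fun v => by unfold refl; rw [RCLike.norm_conj]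
  obtain ⟨δ, hδ, hδg⟩ := near_one hgc k (fun v a b => by
    simp only [hg]; rw [hrn]; exact hp v a b) (e := η / 16) (by positivity)
  obtain ⟨u0, hu0⟩ := exists_nat_ge (1 / δ)
  set u : ℕ := u0 + 1 with hu
  have hu1 : 1 ≤ u := by omega
  have hud : 1 ≤ δ * u := by
    rw [div_le_iff₀ hδ] at hu0
    rw [hu]; push_cast; nlinarith
  have D := zk_dat k (u := u) hu1
  obtain ⟨c1, t1, hc1, ht1, m1⟩ := msq_kz k hu1 h1 hε hϑ0 hϑ (η := η / 8) (by positivity)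
  obtain ⟨c2, t2, hc2, ht2, m2⟩ := msq_kz k hu1 hr hε hϑ0 hϑ (η := η / 8) (by positivity)
  obtain ⟨ϑ', c3, t3, hϑ1', hϑ2', hc3, ht3, m3⟩ := PK_refl k h2 hε (η := η / 8) (by positivity) hϑ0 hϑ
  obtain ⟨c4, t4, hc4, m4⟩ := unit D (η := min (η / 8) 1) (by positivity) hε
  obtain ⟨c5, hc5, m5⟩ := out_right D hδ hud
  obtain ⟨c6, hc6, m6⟩ := out_left D hδ hud
  set S : ℝ := S1 ^ 2 + S2 ^ 2 + 1 with hS
  have hS0 : 0 ≤ S := by positivity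
  refine ⟨ϑ', c1 + c2 + c3 + c4 * (1 + η) + 2 * S * (c5 + c6), max (max t1 t2) (max t3 t4), hϑ1', hϑ2',
    by positivity, ht1.trans ((le_max_left _ _).trans (le_max_left _ _)), fun T hT => ?_⟩
  have a1 := m1 T (((le_max_left _ _).trans (le_max_left _ _)).trans hT)
  have a2 := m2 T (((le_max_right _ _).trans (le_max_left _ _)).trans hT)
  have a3 := m3 T (((le_max_left _ _).trans (le_max_right _ _)).trans hT)
  have a4 := m4 T (((le_max_right _ _).trans (le_max_right _ _)).trans hT)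
  have te : Real.exp 1 ≤ T := ht1.trans (((le_max_left _ _).trans (le_max_left _ _)).trans hT)
  have hTp : 0 < T := (Real.exp_pos 1).trans_le te
  have hT1 : 1 ≤ T := le_trans (by have := Real.add_one_le_exp 1; linarith) te
  have hL : 1 ≤ Real.log T := by rwa [Real.le_log_iff_exp_le hTp]
  have hL0 : 0 < Real.log T := by linarith
  have a5 := m5 T hT1
  have a6 := m6 T hT1
  have hF := Fn_dec D.pg hT1 (r := 0) (neg_nonpos.2 (Nat.cast_nonneg u)) (Nat.cast_nonneg u)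
  have hM := M_nonneg (zk k) (T := T) hTp.le
  have b1 := Er_mono k ε hT1 hϑ1'
  have b2 := Er_pos k ε ϑ' hTp.le
  -- additivity
  have hb1 : ∀ v, |‖φ1 v‖ ^ 2| ≤ S1 ^ 2 := fun v => by
    rw [abs_of_nonneg (by positivity)]; exact pow_le_pow_left₀ (norm_nonneg _) (hS1 v) 2
  have hb2 : ∀ v, |‖refl k φ2 v‖ ^ 2| ≤ S2 ^ 2 := fun v => by
    rw [abs_of_nonneg (by positivity), hrn]; exact pow_le_pow_left₀ (norm_nonneg _) (hS2 _) 2
  have add : St (Fn (H k u) T 0) (Real.log T) g = St (Fn (H k u) T 0) (Real.log T) (fun v => ‖φ1 v‖ ^ 2) +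
      St (Fn (H k u) T 0) (Real.log T) (fun v => ‖refl k φ2 v‖ ^ 2) := by
    unfold St
    rw [← integral_add (St_int hF (g := fun v => ‖φ1 v‖ ^ 2) (h1.cont.norm.pow 2) hb1)
      (St_int hF (g := fun v => ‖refl k φ2 v‖ ^ 2) (hr.cont.norm.pow 2) hb2)]
    refine integral_congr_ae (Eventually.of_forall fun w => ?_)
    simp only [hg]
    ring
  have cl := St_close hF hL0 (g := g) (g' := fun _ => 1) hgc continuous_const hS0 (fun v => by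
      have i1 := hb1 v
      have i2 := hb2 v
      simp only [hg]
      refine (abs_add_le _ _).trans ?_
      rw [hS]; linarith) (fun v => by
      rw [abs_one, hS]
      have i1 : 0 ≤ S1 ^ 2 := by positivity
      have i2 : 0 ≤ S2 ^ 2 := by positivity
      linarith) (a := -δ) (b := k + δ) (e := η / 16) (by positivity) hδg
  rw [St_one hF, add] at cl
  have e5 : -(-δ * Real.log T / (2 * Real.pi)) = δ * Real.log T / (2 * Real.pi) := by ring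
  rw [e5] at cl
  have e1 : PK k φ1 ϑ T = ∫ t in (T ^ ϑ)..T, ‖kF φ1 (Real.log T) (zk k) t‖ ^ 2 := rfl
  have e2 : PK k (refl k φ2) ϑ T = ∫ t in (T ^ ϑ)..T, ‖kF (refl k φ2) (Real.log T) (zk k) t‖ ^ 2 := rfl
  rw [← e1] at a1
  rw [← e2] at a2
  obtain ⟨m, hm⟩ : ∃ m, m = M (zk k) T := ⟨_, rfl⟩
  obtain ⟨R, hR⟩ : ∃ R, R = Er k ε ϑ' T := ⟨_, rfl⟩
  obtain ⟨E, hE⟩ : ∃ E, E = 1 + Ed (zk k) T (T ^ ε) := ⟨_, rfl⟩
  obtain ⟨N, hN⟩ : ∃ N, N = ∫ t, ‖Fn (H k u) T 0 t‖ ^ 2 := ⟨_, rfl⟩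
  have hER : E ≤ R := by
    rw [hE, hR]
    unfold Er
    have hM2 := M_nonneg (zk k) (T := 2 * T ^ ϑ') (by positivity)
    linarith
  have hE0 : 0 ≤ E := by
    have hEd := Ed_nonneg (zk k) T (r := T ^ ε) (by positivity)
    rw [hE]; linarith
  rw [← hm] at a1 a2 a3 a4 hM ⊢
  rw [← hR] at a3 b1 b2 ⊢
  rw [← hE] at a4
  rw [← hN] at a4 cl
  have mn1 : min (η / 8) 1 * m ≤ η / 8 * m := mul_le_mul_of_nonneg_right (min_le_left _ _) hM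
  have mn2 : min (η / 8) 1 * m ≤ 1 * m := mul_le_mul_of_nonneg_right (min_le_right _ _) hM
  have s1 : c1 * Er k ε ϑ T ≤ c1 * R := mul_le_mul_of_nonneg_left b1 hc1
  have s2 : c2 * Er k ε ϑ T ≤ c2 * R := mul_le_mul_of_nonneg_left b1 hc2
  have s4 : c4 * E ≤ c4 * R := mul_le_mul_of_nonneg_left hER hc4
  have s5 : 2 * S * (c6 + c5) ≤ 2 * S * (c5 + c6) * R := by
    have : 2 * S * (c5 + c6) * 1 ≤ 2 * S * (c5 + c6) * R := mul_le_mul_of_nonneg_left b2 (by positivity)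
    linarith
  have s6 : 2 * S * (ms (Fn (H k u) T 0) (Iic (-((k + δ) * Real.log T / (2 * Real.pi)))) +
      ms (Fn (H k u) T 0) (Ici (δ * Real.log T / (2 * Real.pi)))) ≤ 2 * S * (c6 + c5) :=
    mul_le_mul_of_nonneg_left (add_le_add a6 a5) (by positivity)
  have hNb : N ≤ 2 * m + c4 * R := by
    have := (abs_le.1 a4).2
    linarith
  have s7 : η / 16 * N ≤ η / 16 * (2 * m + c4 * R) := mul_le_mul_of_nonneg_left hNb (by positivity)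
  have s8 : 0 ≤ η * (c4 * R) := by positivity
  obtain ⟨X1, hX1⟩ : ∃ X, X = St (Fn (H k u) T 0) (Real.log T) (fun v => ‖φ1 v‖ ^ 2) := ⟨_, rfl⟩
  obtain ⟨X2, hX2⟩ : ∃ X, X = St (Fn (H k u) T 0) (Real.log T) (fun v => ‖refl k φ2 v‖ ^ 2) := ⟨_, rfl⟩
  rw [← hX1] at a1 cl
  rw [← hX2] at a2 cl
  have s9 : 0 ≤ η * m := by positivity
  rw [abs_le] at a1 a2 a3 a4 cl ⊢
  constructor <;> linarith [a1.1, a1.2, a2.1, a2.2, a3.1, a3.2, a4.1, a4.2, cl.1, cl.2]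

end

end Pool.Agent.J4.H44.LP
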