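import Pool.Agent.J4.H44.LP.Mq
import Pool.Agent.H345R2.Chi

set_option autoImplicit false

/-! The functional equation exchanges a cut-off and its reflection. -/

namespace Pool.Agent.J4.H44.LP

open Complex MeasureTheory Filter Topology Set Pool.Agent.W182.KO Pool.Agent.R446.KR Pool.Agent.TH535.SM
open scoped ContDiff FourierTransform ENNReal ComplexConjugate

noncomputable section

variable {ξ1 : ℝ} {φ : ℝ → ℂ} {z : ℝ → ℂ} {G : ℂ → ℂ} {u K : ℕ}

/-- the reflected cut-off -/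
def refl (k : ℕ) (φ : ℝ → ℂ) (v : ℝ) : ℂ := conj (φ (k - v))

lemma supp_bd (h : HasCompactSupport φ) : ∃ R : ℝ, 0 ≤ R ∧ ∀ v, R < |v| → φ v = 0 := by
  obtain ⟨R, hR⟩ := h.isCompact.isBounded.subset_closedBall 0
  refine ⟨max R 0, le_max_right _ _, fun v hv => ?_⟩
  by_contra hne
  have h1 : v ∈ tsupport φ := subset_tsupport _ hne
  have h2 := hR h1
  rw [Metric.mem_closedBall, dist_zero_right, Real.norm_eq_abs] at h2
  exact absurd (h2.trans (le_max_left R 0)) (not_le.2 hv)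

lemma mk_TF (hcd : ContDiff ℝ ∞ φ) (hcs : HasCompactSupport φ) : ∃ ξ : ℝ, 0 ≤ ξ ∧ TF ξ φ := by
  obtain ⟨R, hR, h⟩ := supp_bd hcs
  exact ⟨R, hR, hcd, hcs, fun v hv => h v (hv.trans_le (le_abs_self v))⟩

lemma refl_TF (h : TF ξ1 φ) (k : ℕ) : ∃ ξ : ℝ, 0 ≤ ξ ∧ TF ξ (refl k φ) := by
  refine mk_TF ?_ ?_
  · unfold refl
    have h1 : ContDiff ℝ ∞ (fun v : ℝ => φ (k - v)) := h.cd.comp (contDiff_const.sub contDiff_id)
    exact (conjCLE.contDiff (n := ∞)).comp h1
  · obtain ⟨R, hR, hb⟩ := supp_bd h.cs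
    refine HasCompactSupport.intro (K := Icc (-(R + k)) (R + k)) isCompact_Icc fun v hv => ?_
    unfold refl
    rw [hb, map_zero]
    by_contra hcon
    push Not at hcon
    apply hv
    have := abs_le.1 hcon
    have hk : (0:ℝ) ≤ k := Nat.cast_nonneg k
    constructor <;> linarith

lemma KL_refl (h : TF ξ1 φ) (k : ℕ) (L y : ℝ) :
    KL (refl k φ) L y = cexp ((k * L * y : ℝ) * I) * conj (KL φ L y) := by
  unfold KL
  rw [map_mul, Complex.conj_ofReal, mul_left_comm]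
  congr 1
  unfold P refl
  have e1 : conj (∫ ξ : ℝ, φ ξ * cexp (ξ * (L * y * I))) = ∫ ξ : ℝ, conj (φ ξ) * cexp (-(ξ * (L * y * I))) := by
    rw [← integral_conj]
    refine integral_congr_ae (Eventually.of_forall fun ξ => ?_)
    simp only [map_mul, ← Complex.exp_conj, conj_ofReal, conj_I]
    congr 2
    ring
  rw [e1, ← integral_const_mul]
  have h2 := integral_sub_left_eq_self (fun ξ : ℝ => conj (φ ξ) * cexp (((k:ℝ) - ξ : ℝ) * (L * y * I)))
    (μ := volume) (k:ℝ)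
  have e2 : (fun ξ : ℝ => conj (φ (k - ξ)) * cexp (ξ * (L * y * I))) =
      fun ξ : ℝ => conj (φ (k - ξ)) * cexp (((k:ℝ) - (k - ξ) : ℝ) * (L * y * I)) := by
    funext ξ
    congr 3
    push_cast; ring
  rw [e2, h2]
  refine integral_congr_ae (Eventually.of_forall fun ξ => ?_)
  simp only
  conv_rhs => rw [mul_left_comm, ← Complex.exp_add]
  congr 2
  push_cast; ring

lemma KL_deriv (h : TF ξ1 φ) {L : ℝ} (hL : 0 < L) (y : ℝ) : ‖KL φ L y‖ * |y| = ‖KL (deriv φ) L y‖ / L := by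
  have h1 := P_ibp h (L * y * I)
  have h2 : ‖(L:ℂ) * y * I * P φ (L * y * I)‖ = ‖P (deriv φ) (L * y * I)‖ := by rw [h1, norm_neg]
  rw [norm_mul, norm_mul, norm_mul, norm_I, mul_one, Complex.norm_real, Complex.norm_real,
    Real.norm_of_nonneg hL.le, Real.norm_eq_abs] at h2
  unfold KL
  rw [norm_mul, norm_mul, ← h2]
  field_simp

/-- the factor of the functional equation on the line -/
def Xl (t : ℝ) : ℂ := H345.XX (1 / 2 + (t : ℂ) * I)

lemma Xl_norm (t : ℝ) : ‖Xl t‖ = 1 := H345.norm_XX_half t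

lemma fe_all (t : ℝ) : conj (ze t) = Xl t * ze t := by
  have h := H345.zeta_fe (1 / 2 + (t : ℂ) * I) (by
    intro n hn
    have := congrArg Complex.re hn
    simp at this
    have h2 : (0:ℝ) ≤ n := Nat.cast_nonneg n
    linarith) (line_ne t)
  have e : 1 - (1 / 2 + (t : ℂ) * I) = conj (1 / 2 + (t : ℂ) * I) := by
    rw [map_add, map_mul, conj_I, Complex.conj_ofReal, map_div₀, map_one, map_ofNat]
    ring
  rw [e, riemannZeta_conj] at h
  exact h

lemma conj_Xl (t : ℝ) : conj (Xl t) * Xl t = 1 := by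
  rw [mul_comm, Complex.mul_conj, Complex.normSq_eq_norm_sq, Xl_norm]; simp

lemma zk_fe (k : ℕ) (t : ℝ) : zk k t = conj (Xl t) ^ k * conj (zk k t) := by
  unfold zk
  rw [map_pow, fe_all, ← mul_pow, ← mul_assoc, conj_Xl, one_mul]

lemma Xl_local : ∃ C T0 : ℝ, 0 ≤ C ∧ 2 ≤ T0 ∧ ∀ t : ℝ, T0 ≤ t → ∀ y : ℝ,
    ‖Xl (t + y) - Xl t * cexp (((y * Real.log (t / (2 * Real.pi)) : ℝ) : ℂ) * I)‖ ≤ C * (1 + |y|) ^ 2 / t := by
  obtain ⟨C, T0, hC, hT0, h⟩ := H345.XX_local
  refine ⟨C + 4, T0, by linarith, hT0, fun t ht y => ?_⟩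
  have ht0 : 0 < t := by linarith
  have hy := abs_nonneg y
  rcases le_total |y| (t / 2) with h1 | h1
  · refine (h t ht y h1).trans ?_
    refine div_le_div_of_nonneg_right ?_ ht0.le
    have h2 : 1 + y ^ 2 ≤ (1 + |y|) ^ 2 := by rw [← sq_abs y]; nlinarith
    have h3 : 0 ≤ (1 + |y|) ^ 2 := by positivity
    nlinarith
  · have h2 : ‖Xl (t + y) - Xl t * cexp (((y * Real.log (t / (2 * Real.pi)) : ℝ) : ℂ) * I)‖ ≤ 2 := by
      refine (norm_sub_le _ _).trans ?_
      rw [norm_mul, Xl_norm, Xl_norm, Complex.norm_exp_ofReal_mul_I]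
      norm_num
    refine h2.trans ?_
    rw [le_div_iff₀ ht0]
    have h3 : 0 ≤ C * (1 + |y|) ^ 2 := by positivity
    nlinarith

lemma exp_sub (a b : ℝ) : ‖cexp (a * I) - cexp (b * I)‖ ≤ |a - b| := by
  have e : cexp (a * I) - cexp (b * I) = cexp (b * I) * (cexp (I * ((a - b : ℝ) : ℂ)) - 1) := by
    rw [mul_sub, ← Complex.exp_add, mul_one]
    congr 2
    push_cast; ring
  rw [e, norm_mul, Complex.norm_exp_ofReal_mul_I, one_mul]
  exact (Real.norm_exp_I_mul_ofReal_sub_one_le).trans (le_of_eq (Real.norm_eq_abs _))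

lemma pow_sub_le {a b : ℂ} (ha : ‖a‖ = 1) (hb : ‖b‖ = 1) (k : ℕ) : ‖a ^ k - b ^ k‖ ≤ k * ‖a - b‖ := by
  have hb0 : b ≠ 0 := by
    intro h0
    rw [h0, norm_zero] at hb
    norm_num at hb
  have h1 := pow_sub_one_le (b := a / b) (by rw [norm_div, ha, hb]; norm_num) k
  have e1 : a ^ k - b ^ k = b ^ k * ((a / b) ^ k - 1) := by
    rw [mul_sub, div_pow, mul_div_cancel₀ _ (pow_ne_zero k hb0), mul_one]
  have e2 : a - b = b * (a / b - 1) := by field_simp
  rw [e1, e2, norm_mul, norm_mul, norm_pow, hb, one_pow, one_mul, one_mul]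
  exact h1

lemma wz (D : Dat z G u K) {w : ℝ → ℝ} (hwc : Continuous w) (hw0 : ∀ y, 0 ≤ w y)
    (hwN : ∀ N : ℕ, Integrable (fun y => w y * (1 + |y|) ^ N)) (t : ℝ) :
    Integrable (fun y => w y * ‖z (t + y)‖) ∧ Integrable (fun y => w y * ‖z (t + y)‖ ^ 2) := by
  obtain ⟨C, p, hC, hz⟩ := z_bd D
  have hzc : Continuous (fun y => ‖z (t + y)‖) := (D.zc.comp (by fun_prop)).norm
  have hb : ∀ y, ‖z (t + y)‖ ≤ (C * (1 + |t|) ^ p) * (1 + |y|) ^ p := by
    intro y
    calc ‖z (t + y)‖ ≤ C * (1 + |t + y|) ^ p := hz _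
      _ ≤ C * ((1 + |t|) ^ p * (1 + |y|) ^ p) := by
          gcongr
          exact poly_shift p t y
      _ = _ := by ring
  constructor
  · refine ((hwN p).mul_const (C * (1 + |t|) ^ p)).mono' (hwc.mul hzc).aestronglyMeasurable
      (Eventually.of_forall fun y => ?_)
    rw [Real.norm_of_nonneg (mul_nonneg (hw0 y) (norm_nonneg _))]
    calc w y * ‖z (t + y)‖ ≤ w y * ((C * (1 + |t|) ^ p) * (1 + |y|) ^ p) :=
          mul_le_mul_of_nonneg_left (hb y) (hw0 y)
      _ = _ := by ring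
  · refine ((hwN (2 * p)).mul_const ((C * (1 + |t|) ^ p) ^ 2)).mono' (hwc.mul (hzc.pow 2)).aestronglyMeasurable
      (Eventually.of_forall fun y => ?_)
    rw [Real.norm_of_nonneg (mul_nonneg (hw0 y) (by positivity))]
    calc w y * ‖z (t + y)‖ ^ 2 ≤ w y * ((C * (1 + |t|) ^ p) * (1 + |y|) ^ p) ^ 2 :=
          mul_le_mul_of_nonneg_left (pow_le_pow_left₀ (norm_nonneg _) (hb y) 2) (hw0 y)
      _ = _ := by ring

/-- the weight -/
def wt (φ : ℝ → ℂ) (L c1 c2 y : ℝ) : ℝ := c1 * ‖KL (deriv φ) L y‖ + c2 * (‖KL φ L y‖ * (1 + |y|) ^ 2)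

lemma wt_cont (h : TF ξ1 φ) (L c1 c2 : ℝ) : Continuous (wt φ L c1 c2) := by
  unfold wt
  have h1 := (KL_cont h L).norm
  have h2 := (KL_cont h.deriv L).norm
  fun_prop

lemma wt_nonneg {L c1 c2 : ℝ} (h1 : 0 ≤ c1) (h2 : 0 ≤ c2) (y : ℝ) : 0 ≤ wt φ L c1 c2 y := by
  unfold wt; positivity

lemma wt_poly (h : TF ξ1 φ) (N : ℕ) : ∃ C : ℝ, 0 ≤ C ∧ ∀ L c1 c2 : ℝ, 1 ≤ L → 0 ≤ c1 → 0 ≤ c2 →
    Integrable (fun y => wt φ L c1 c2 y * (1 + |y|) ^ N) ∧
    ∫ y, wt φ L c1 c2 y * (1 + |y|) ^ N ≤ C * (c1 + c2) := by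
  obtain ⟨C1, hC1, h1⟩ := KL_poly h.deriv N
  obtain ⟨C2, hC2, h2⟩ := KL_poly h (2 + N)
  refine ⟨C1 + C2, by positivity, fun L c1 c2 hL hc1 hc2 => ?_⟩
  obtain ⟨-, a1, b1⟩ := h1 L hL
  obtain ⟨-, a2, b2⟩ := h2 L hL
  have e : (fun y => wt φ L c1 c2 y * (1 + |y|) ^ N) = fun y => c1 * (‖KL (deriv φ) L y‖ * (1 + |y|) ^ N) +
      c2 * (‖KL φ L y‖ * (1 + |y|) ^ (2 + N)) := by
    funext y
    unfold wt
    rw [pow_add]; ring
  rw [e]
  refine ⟨iadd (a1.const_mul _) (a2.const_mul _), ?_⟩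
  rw [integral_add (a1.const_mul _) (a2.const_mul _), integral_const_mul, integral_const_mul]
  have i1 := mul_le_mul_of_nonneg_left b1 hc1
  have i2 := mul_le_mul_of_nonneg_left b2 hc2
  nlinarith [mul_nonneg hC1 hc2, mul_nonneg hC2 hc1]

/-- the reflected smoothing against the conjugate of the smoothing -/
lemma refl_pt (k : ℕ) (h : TF ξ1 φ) : ∃ C T0 : ℝ, 0 ≤ C ∧ 2 ≤ T0 ∧ ∀ t L Λ a : ℝ, T0 ≤ a → a ≤ t → 1 ≤ L →
    |L - Real.log (t / (2 * Real.pi))| ≤ Λ →
    |‖kF (refl k φ) L (zk k) t‖ - ‖kF φ L (zk k) t‖| ≤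
      ∫ y, wt φ L (k * Λ / L) (C / a) y * ‖zk k (t + y)‖ := by
  have D := zk_dat k (u := 1) le_rfl
  obtain ⟨C, T0, hC, hT0, hX⟩ := Xl_local
  obtain ⟨ξ, -, hr⟩ := refl_TF h k
  refine ⟨k * C, T0, by positivity, hT0, fun t L Λ a hTa hat hL hΛ => ?_⟩
  have ht : T0 ≤ t := hTa.trans hat
  have ht0 : 0 < t := by linarith
  have ha0 : 0 < a := by linarith
  have hL0 : 0 < L := by linarith
  have hΛ0 : 0 ≤ Λ := (abs_nonneg _).trans hΛ
  set l : ℝ := Real.log (t / (2 * Real.pi)) with hl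
  have e1 : kF (refl k φ) L (zk k) t - conj (Xl t) ^ k * conj (kF φ L (zk k) t) =
      ∫ y, conj (KL φ L y) * (cexp ((k * L * y : ℝ) * I) * zk k (t + y) -
        conj (Xl t) ^ k * conj (zk k (t + y))) := by
    unfold kF
    rw [← integral_conj, ← integral_const_mul, ← integral_sub (kz_int hr D hL t)]
    · refine integral_congr_ae (Eventually.of_forall fun y => ?_)
      simp only
      rw [KL_refl h, map_mul]
      ring
    · refine Integrable.const_mul ?_ _
      have := (kz_int h D hL t)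
      exact Complex.conjCLE.toContinuousLinearMap.integrable_comp this
  have hpt : ∀ y, ‖conj (KL φ L y) * (cexp ((k * L * y : ℝ) * I) * zk k (t + y) -
        conj (Xl t) ^ k * conj (zk k (t + y)))‖ ≤ wt φ L (k * Λ / L) (k * C / a) y * ‖zk k (t + y)‖ := by
    intro y
    have hy := abs_nonneg y
    have b1 : cexp ((k * L * y : ℝ) * I) * zk k (t + y) - conj (Xl t) ^ k * conj (zk k (t + y)) =
        ((cexp ((L * y : ℝ) * I) * conj (Xl (t + y))) ^ k - conj (Xl t) ^ k) * conj (zk k (t + y)) := by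
      have e2 : cexp ((k * L * y : ℝ) * I) = cexp ((L * y : ℝ) * I) ^ k := by
        rw [← Complex.exp_nat_mul]; congr 1; push_cast; ring
      nth_rewrite 1 [zk_fe k (t + y)]
      rw [e2, mul_pow]; ring
    have n1 : ‖cexp ((L * y : ℝ) * I) * conj (Xl (t + y))‖ = 1 := by
      rw [norm_mul, Complex.norm_exp_ofReal_mul_I, RCLike.norm_conj, Xl_norm, one_mul]
    have n2 : ‖conj (Xl t)‖ = 1 := by rw [RCLike.norm_conj, Xl_norm]
    have b2 := pow_sub_le n1 n2 k
    have b3 : ‖cexp ((L * y : ℝ) * I) * conj (Xl (t + y)) - conj (Xl t)‖ =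
        ‖Xl (t + y) - Xl t * cexp ((L * y : ℝ) * I)‖ := by
      have e3 : cexp ((L * y : ℝ) * I) * conj (Xl (t + y)) - conj (Xl t) =
          cexp ((L * y : ℝ) * I) * conj (Xl (t + y) - Xl t * cexp ((L * y : ℝ) * I)) := by
        rw [map_sub, map_mul, mul_sub]
        have e4 : cexp ((L * y : ℝ) * I) * (conj (Xl t) * conj (cexp ((L * y : ℝ) * I))) = conj (Xl t) := by
          have e5 : cexp ((L * y : ℝ) * I) * conj (cexp ((L * y : ℝ) * I)) = 1 := by
            rw [Complex.mul_conj, Complex.normSq_eq_norm_sq, Complex.norm_exp_ofReal_mul_I]; simp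
          linear_combination conj (Xl t) * e5
        rw [e4]
      rw [e3, norm_mul, Complex.norm_exp_ofReal_mul_I, one_mul, RCLike.norm_conj]
    have b4 : ‖Xl (t + y) - Xl t * cexp ((L * y : ℝ) * I)‖ ≤ C * (1 + |y|) ^ 2 / a + Λ * |y| := by
      have e6 : Xl (t + y) - Xl t * cexp ((L * y : ℝ) * I) = (Xl (t + y) - Xl t * cexp ((y * l : ℝ) * I)) +
          Xl t * (cexp ((y * l : ℝ) * I) - cexp ((L * y : ℝ) * I)) := by ring
      rw [e6]
      refine (norm_add_le _ _).trans (add_le_add ((hX t ht y).trans ?_) ?_)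
      · exact div_le_div_of_nonneg_left (by positivity) ha0 hat
      · rw [norm_mul, Xl_norm, one_mul]
        refine (exp_sub _ _).trans ?_
        have : y * l - L * y = -(y * (L - l)) := by ring
        rw [this, abs_neg, abs_mul, mul_comm]
        exact mul_le_mul_of_nonneg_right hΛ hy
    have b5 : ‖KL φ L y‖ * (k * (C * (1 + |y|) ^ 2 / a + Λ * |y|)) = wt φ L (k * Λ / L) (k * C / a) y := by
      unfold wt
      have e7 := KL_deriv h hL0 y
      have e8 : ‖KL (deriv φ) L y‖ = ‖KL φ L y‖ * |y| * L := by rw [e7]; field_simp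
      rw [e8]
      field_simp
      ring
    rw [b1, norm_mul, norm_mul, RCLike.norm_conj, RCLike.norm_conj, ← mul_assoc, ← b5]
    refine mul_le_mul_of_nonneg_right (mul_le_mul_of_nonneg_left ?_ (norm_nonneg _)) (norm_nonneg _)
    refine b2.trans (mul_le_mul_of_nonneg_left ?_ (Nat.cast_nonneg k))
    rw [b3]
    exact b4
  have hwi := (wz D (wt_cont h L (k * Λ / L) (k * C / a)) (fun y => wt_nonneg (by positivity) (by positivity) y)
    (fun N => by
      obtain ⟨C', -, hw⟩ := wt_poly h N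
      exact (hw L (k * Λ / L) (k * C / a) hL (by positivity) (by positivity)).1) t).1
  have e9 : ‖conj (Xl t) ^ k * conj (kF φ L (zk k) t)‖ = ‖kF φ L (zk k) t‖ := by
    rw [norm_mul, norm_pow, RCLike.norm_conj, RCLike.norm_conj, Xl_norm, one_pow, one_mul]
  calc |‖kF (refl k φ) L (zk k) t‖ - ‖kF φ L (zk k) t‖| =
        |‖kF (refl k φ) L (zk k) t‖ - ‖conj (Xl t) ^ k * conj (kF φ L (zk k) t)‖| := by rw [e9]
    _ ≤ ‖kF (refl k φ) L (zk k) t - conj (Xl t) ^ k * conj (kF φ L (zk k) t)‖ := abs_norm_sub_norm_le _ _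
    _ ≤ _ := by
        rw [e1]
        exact norm_integral_le_of_norm_le hwi (Eventually.of_forall hpt)

/-- the mean square over an interval of a function dominated by an average -/
lemma win (D : Dat z G u K) {w : ℝ → ℝ} (hwc : Continuous w) (hw0 : ∀ y, 0 ≤ w y)
    (hwN : ∀ N : ℕ, Integrable (fun y => w y * (1 + |y|) ^ N)) {a b : ℝ} (hab : a ≤ b) {A A' : ℝ}
    (q : ℕ) (hA : 0 ≤ A) (hA' : 0 ≤ A')
    (hN : ∀ y : ℝ, ∫ t in (a + y)..(b + y), ‖z t‖ ^ 2 ≤ A + A' * (1 + |y|) ^ q) {f : ℝ → ℝ}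
    (hf : Continuous f) (hfw : ∀ t ∈ Icc a b, |f t| ≤ ∫ y, w y * ‖z (t + y)‖) :
    ∫ t in a..b, f t ^ 2 ≤ (∫ y, w y) * (A * (∫ y, w y) + A' * ∫ y, w y * (1 + |y|) ^ q) := by
  have hi0 : Integrable w := by simpa using hwN 0
  have hv00 : 0 ≤ ∫ y, w y := integral_nonneg hw0
  have hNbi : Integrable (fun y => w y * (A + A' * (1 + |y|) ^ q)) := by
    refine (iadd (hi0.const_mul A) ((hwN q).const_mul A')).congr (Eventually.of_forall fun y => ?_)
    simp only
    ring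
  set S : Set ℝ := Icc a b with hS
  have key := mink (w := w) (d := fun y t => S.indicator (fun _ => (1:ℝ)) t * ‖z (t + y)‖ ^ 2)
    (Nb := fun y => A + A' * (1 + |y|) ^ q) (e := fun t => S.indicator (fun t => f t ^ 2) t)
    (κ := ∫ y, w y)
    hwc.measurable hw0 ?_ ?_ ?_ (fun y => by positivity) hNbi ?_ ?_ ?_ hv00 ?_
  · have e1 : ∫ t, S.indicator (fun t => f t ^ 2) t = ∫ t in a..b, f t ^ 2 := by
      rw [integral_indicator measurableSet_Icc, intervalIntegral.integral_of_le hab,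
        integral_Icc_eq_integral_Ioc]
    rw [e1] at key
    refine key.2.trans (le_of_eq ?_)
    have e : (fun y => w y * (A + A' * (1 + |y|) ^ q)) = fun y => A * w y + A' * (w y * (1 + |y|) ^ q) := by
      funext y; ring
    rw [e, integral_add (hi0.const_mul _) ((hwN q).const_mul _), integral_const_mul, integral_const_mul]
  · have m1 : Measurable (fun x : ℝ × ℝ => S.indicator (fun _ => (1:ℝ)) x.1) :=
      (measurable_const.indicator measurableSet_Icc).comp measurable_fst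
    have m2 : Measurable (fun x : ℝ × ℝ => ‖z (x.1 + x.2)‖ ^ 2) :=
      (D.sc.comp (by fun_prop : Continuous fun x : ℝ × ℝ => x.1 + x.2)).measurable
    exact m1.mul m2
  · intro y t
    exact mul_nonneg (indicator_nonneg (fun _ _ => zero_le_one) t) (by positivity)
  · intro t
    refine ((wz D hwc hw0 hwN t).2.const_mul (S.indicator (fun _ => (1:ℝ)) t)).congr
      (Eventually.of_forall fun y => ?_)
    simp only
    ring
  · intro y
    have hc : Continuous (fun t => ‖z (t + y)‖ ^ 2) := D.sc.comp (by fun_prop)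
    have e : (fun t => S.indicator (fun _ => (1:ℝ)) t * ‖z (t + y)‖ ^ 2) =
        S.indicator (fun t => ‖z (t + y)‖ ^ 2) := by
      funext t
      by_cases ht : t ∈ S
      · rw [indicator_of_mem ht, indicator_of_mem ht, one_mul]
      · rw [indicator_of_notMem ht, indicator_of_notMem ht, zero_mul]
    rw [e]
    refine ⟨(integrable_indicator_iff measurableSet_Icc).2 hc.continuousOn.integrableOn_Icc, ?_⟩
    rw [integral_indicator measurableSet_Icc, integral_Icc_eq_integral_Ioc,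
      ← intervalIntegral.integral_of_le hab,
      intervalIntegral.integral_comp_add_right (fun t => ‖z t‖ ^ 2) y]
    exact hN y
  · intro t
    exact indicator_nonneg (fun _ _ => by positivity) t
  · exact ((hf.pow 2).measurable.indicator measurableSet_Icc).aestronglyMeasurable
  · intro t
    by_cases ht : t ∈ S
    · simp only [indicator_of_mem ht, one_mul]
      have h1 := hfw t ht
      have h2 : f t ^ 2 ≤ (∫ y, w y * ‖z (t + y)‖) ^ 2 := by
        rw [← sq_abs (f t)]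
        exact pow_le_pow_left₀ (abs_nonneg _) h1 2
      exact h2.trans (cs_int hw0 hi0 (wz D hwc hw0 hwN t).1 (wz D hwc hw0 hwN t).2)
    · simp only [indicator_of_notMem ht, zero_mul, mul_zero, integral_zero, le_refl]

end

end Pool.Agent.J4.H44.LP
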