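import Pool.Agent.J4.H44.LP.Rf

set_option autoImplicit false

/-! The functional equation exchanges a cut-off and its reflection, in mean square. -/

namespace Pool.Agent.J4.H44.LP

open Complex MeasureTheory Filter Topology Set Pool.Agent.W182.KO Pool.Agent.R446.KR Pool.Agent.TH535.SM
open scoped ContDiff FourierTransform ENNReal ComplexConjugate

noncomputable section

variable {ξ1 : ℝ} {φ : ℝ → ℂ} {z : ℝ → ℂ} {G : ℂ → ℂ} {u K : ℕ}

lemma Er_mono (k : ℕ) (ε : ℝ) {ϑ ϑ' T : ℝ} (hT : 1 ≤ T) (h : ϑ ≤ ϑ') : Er k ε ϑ T ≤ Er k ε ϑ' T := by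
  unfold Er
  have D := zk_dat k (u := 1) le_rfl
  have h1 := M_mono D (show 2 * T ^ ϑ ≤ 2 * T ^ ϑ' by
    have := Real.rpow_le_rpow_of_exponent_le hT h
    linarith)
  linarith

/-- windows -/
lemma win_all (k : ℕ) {ε : ℝ} (hε : 0 < ε) : ∃ (C : ℝ) (q : ℕ), 0 ≤ C ∧ ∀ T a y : ℝ, 1 ≤ T → 0 ≤ a → a ≤ T →
    ∫ t in (a + y)..(T + y), ‖zk k t‖ ^ 2 ≤ (M (zk k) T + Ed (zk k) T (T ^ ε)) + C * (1 + |y|) ^ q := by
  have D := zk_dat k (u := 1) le_rfl
  obtain ⟨C1, q, hC1, hE⟩ := Ed_all D hε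
  refine ⟨C1, q, hC1, fun T a y hT ha haT => ?_⟩
  have h1 := mass_win D (S := T) (y := y) ha haT
  have h2 := hE T y hT
  linarith

/-- the mean squares of a smoothing and of the reflected smoothing on `[T^ϑ, T]`, `ϑ` close to one -/
lemma refl_near (k : ℕ) (h : TF ξ1 φ) {ε η : ℝ} (hε : 0 < ε) (hη : 0 < η) (ϑ : ℝ) (hϑ : ϑ < 1) :
    ∃ ϑ' C T0 : ℝ, ϑ ≤ ϑ' ∧ 0 < ϑ' ∧ ϑ' < 1 ∧ 0 ≤ C ∧ Real.exp 1 ≤ T0 ∧ ∀ T : ℝ, T0 ≤ T →
      |(∫ t in (T ^ ϑ')..T, ‖kF (refl k φ) (Real.log T) (zk k) t‖ ^ 2) -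
        ∫ t in (T ^ ϑ')..T, ‖kF φ (Real.log T) (zk k) t‖ ^ 2| ≤
        η * M (zk k) T + C * (1 + Ed (zk k) T (T ^ ε)) := by
  have D := zk_dat k (u := 1) le_rfl
  obtain ⟨ξ, -, hr⟩ := refl_TF h k
  obtain ⟨C1, T1, hC1, hT1, hpt⟩ := refl_pt k h
  obtain ⟨C2, q, hC2, hwin⟩ := win_all k hε
  obtain ⟨C3, hC3, hsq⟩ := kz_sq' h D q
  obtain ⟨C4, hC4, hw0⟩ := wt_poly h 0
  obtain ⟨C5, hC5, hwq⟩ := wt_poly h q
  -- the parameters
  set ζ : ℝ := min 1 (η / (4 * (C3 + 1))) with hζ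
  have hζ0 : 0 < ζ := by positivity
  have hζ1 : ζ ≤ 1 := min_le_left _ _
  have hζ2 : ζ * (4 * (C3 + 1)) ≤ η := by
    have := min_le_right 1 (η / (4 * (C3 + 1)))
    rwa [← hζ, le_div_iff₀ (by positivity)] at this
  set W : ℝ := 2 * (1 + ζ⁻¹) * (C4 * (C4 + C5)) with hW
  have hζi : 0 < ζ⁻¹ := inv_pos.2 hζ0
  have hW0 : 0 ≤ W := by positivity
  set β : ℝ := min 1 (η / (2 * (W + 1))) with hβ
  have hβ0 : 0 < β := by positivity
  have hβ1 : β ≤ 1 := min_le_left _ _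
  have hβ2 : β * (2 * (W + 1)) ≤ η := by
    have := min_le_right 1 (η / (2 * (W + 1)))
    rwa [← hβ, le_div_iff₀ (by positivity)] at this
  -- the exponent
  set γ : ℝ := min (1 / 2) (min (1 - ϑ) (β / (4 * (k + 1)))) with hγ
  have hk0 : (0:ℝ) ≤ k := Nat.cast_nonneg k
  have hϑ1 : 0 < 1 - ϑ := by linarith
  have hγ0 : 0 < γ := by positivity
  have hγ1 : γ ≤ 1 / 2 := min_le_left _ _
  have hγ2 : γ ≤ 1 - ϑ := (min_le_right _ _).trans (min_le_left _ _)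
  have hγ3 : γ * (4 * (k + 1)) ≤ β := by
    have : γ ≤ β / (4 * (k + 1)) := (min_le_right _ _).trans (min_le_right _ _)
    rwa [le_div_iff₀ (by positivity)] at this
  have ev : ∀ᶠ T : ℝ in atTop, Real.exp 1 ≤ T ∧ T1 ≤ T ^ (1 - γ) ∧ 8 * (k + 1) / β ≤ Real.log T ∧
      4 * (C1 + 1) / β ≤ T ^ (1 - γ) := by
    have t1 : Tendsto (fun T : ℝ => T ^ (1 - γ)) atTop atTop := tendsto_rpow_atTop (by linarith)
    exact (eventually_ge_atTop _).and ((t1.eventually_ge_atTop _).and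
      ((Real.tendsto_log_atTop.eventually_ge_atTop _).and (t1.eventually_ge_atTop _)))
  obtain ⟨T0, hT0⟩ := eventually_atTop.1 ev
  refine ⟨1 - γ, (W + 2 * ζ * C3) * (1 + C2), max T0 (Real.exp 1), by linarith, by linarith, by linarith,
    by positivity, le_max_right _ _, fun T hT => ?_⟩
  obtain ⟨te, t1, t2, t3⟩ := hT0 T ((le_max_left _ _).trans hT)
  have hTp : 0 < T := (Real.exp_pos 1).trans_le te
  have hT1' : 1 ≤ T := le_trans (by have := Real.add_one_le_exp 1; linarith) te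
  have hL : 1 ≤ Real.log T := by rwa [Real.le_log_iff_exp_le hTp]
  obtain ⟨L, hLd⟩ : ∃ L, L = Real.log T := ⟨_, rfl⟩
  rw [← hLd] at hL t2 ⊢
  have hL0 : 0 < L := by linarith
  obtain ⟨a, ha⟩ : ∃ a, a = T ^ (1 - γ) := ⟨_, rfl⟩
  rw [← ha] at t1 t3 ⊢
  have ha2 : 2 ≤ a := hT1.trans t1
  have ha0 : 0 < a := by linarith
  have haT : a ≤ T := by
    rw [ha]
    calc T ^ (1 - γ) ≤ T ^ (1:ℝ) := Real.rpow_le_rpow_of_exponent_le hT1' (by linarith)
      _ = T := Real.rpow_one T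
  have hloga : Real.log a = (1 - γ) * L := by rw [ha, Real.log_rpow hTp, hLd]
  -- the frequency
  set Λ : ℝ := γ * L + 2 with hΛ
  have hfreq : ∀ t ∈ Icc a T, |L - Real.log (t / (2 * Real.pi))| ≤ Λ := by
    intro t ht
    have ht0 : 0 < t := ha0.trans_le ht.1
    have hp := Real.pi_pos
    have h2p : Real.log (2 * Real.pi) ≤ 2 := by
      rw [Real.log_le_iff_le_exp (by positivity)]
      have h1 : (7:ℝ) ≤ Real.exp 2 := by
        have e2 : Real.exp 2 = Real.exp 1 * Real.exp 1 := by rw [← Real.exp_add]; norm_num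
        have := Real.exp_one_gt_d9
        rw [e2]; nlinarith
      have := Real.pi_lt_d2
      linarith
    have h2p0 : 0 ≤ Real.log (2 * Real.pi) := Real.log_nonneg (by linarith [Real.pi_gt_three])
    rw [Real.log_div ht0.ne' (by positivity)]
    have l1 : (1 - γ) * L ≤ Real.log t := by rw [← hloga]; exact Real.log_le_log ha0 ht.1
    have l2 : Real.log t ≤ L := by rw [hLd]; exact Real.log_le_log ht0 ht.2
    rw [abs_le]
    constructor
    · have : 0 ≤ γ * L := by positivity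
      linarith
    · rw [hΛ]; linarith
  set c1 : ℝ := k * Λ / L with hc1
  set c2 : ℝ := C1 / a with hc2
  have hΛ0 : 0 ≤ Λ := by positivity
  have hc10 : 0 ≤ c1 := by positivity
  have hc20 : 0 ≤ c2 := by positivity
  have hcc : c1 + c2 ≤ β := by
    have e1 : c1 = k * γ + 2 * k / L := by rw [hc1, hΛ]; field_simp
    have i1 : k * γ ≤ β / 4 := by nlinarith
    have i2 : 2 * k / L ≤ β / 4 := by
      rw [div_le_iff₀ hL0]
      rw [div_le_iff₀ hβ0] at t2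
      nlinarith
    have i3 : c2 ≤ β / 4 := by
      rw [hc2, div_le_iff₀ ha0]
      rw [div_le_iff₀ hβ0] at t3
      nlinarith
    linarith
  obtain ⟨w1, w2⟩ := hw0 L c1 c2 hL hc10 hc20
  obtain ⟨w3, w4⟩ := hwq L c1 c2 hL hc10 hc20
  simp only [pow_zero, mul_one] at w1 w2
  have hf : Continuous (fun t => ‖kF (refl k φ) L (zk k) t‖ - ‖kF φ L (zk k) t‖) :=
    (kz_cont hr D hL).norm.sub (kz_cont h D hL).norm
  have hM := M_nonneg (zk k) (T := T) hTp.le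
  have hEd := Ed_nonneg (zk k) T (r := T ^ ε) (by positivity)
  have hA : 0 ≤ M (zk k) T + Ed (zk k) T (T ^ ε) := by linarith
  have key := win D (wt_cont h L c1 c2) (fun y => wt_nonneg hc10 hc20 y)
    (fun N => by
      obtain ⟨C', -, hw⟩ := wt_poly h N
      exact (hw L c1 c2 hL hc10 hc20).1) haT q hA hC2
    (fun y => hwin T a y hT1' ha0.le haT) hf (fun t ht => hpt t L Λ a t1 ht.1 hL (hfreq t ht))
  have hsqP := hsq L a T (M (zk k) T + Ed (zk k) T (T ^ ε)) C2 hL haT hA hC2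
    (fun y => hwin T a y hT1' ha0.le haT)
  obtain ⟨A, hAd⟩ : ∃ A, A = M (zk k) T + Ed (zk k) T (T ^ ε) := ⟨_, rfl⟩
  rw [← hAd] at key hsqP hA
  -- the difference
  have hI1 : 0 ≤ ∫ y, wt φ L c1 c2 y := integral_nonneg fun y => wt_nonneg hc10 hc20 y
  have hI2 : 0 ≤ ∫ y, wt φ L c1 c2 y * (1 + |y|) ^ q :=
    integral_nonneg fun y => mul_nonneg (wt_nonneg hc10 hc20 y) (by positivity)
  have key2 : ∫ t in a..T, (‖kF (refl k φ) L (zk k) t‖ - ‖kF φ L (zk k) t‖) ^ 2 ≤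
      (C4 * (C4 + C5)) * β * (A + C2) := by
    refine key.trans ?_
    have i1 : ∫ y, wt φ L c1 c2 y ≤ C4 * β := w2.trans (mul_le_mul_of_nonneg_left hcc hC4)
    have i2 : ∫ y, wt φ L c1 c2 y * (1 + |y|) ^ q ≤ C5 * β := w4.trans (mul_le_mul_of_nonneg_left hcc hC5)
    have i3 : A * (∫ y, wt φ L c1 c2 y) + C2 * ∫ y, wt φ L c1 c2 y * (1 + |y|) ^ q ≤
        A * (C4 * β) + C2 * (C5 * β) := add_le_add (mul_le_mul_of_nonneg_left i1 hA)
          (mul_le_mul_of_nonneg_left i2 hC2)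
    have i4 : A * (C4 * β) + C2 * (C5 * β) ≤ (C4 + C5) * (A + C2) := by
      have j1 : A * (C4 * β) ≤ A * (C4 * 1) := by gcongr
      have j2 : C2 * (C5 * β) ≤ C2 * (C5 * 1) := by gcongr
      nlinarith [mul_nonneg hA hC5, mul_nonneg hC2 hC4]
    calc _ ≤ (C4 * β) * ((C4 + C5) * (A + C2)) := mul_le_mul i1 (i3.trans i4) (by positivity) (by positivity)
      _ = _ := by ring
  have hfc1 : Continuous (fun t => (‖kF (refl k φ) L (zk k) t‖ : ℂ)) :=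
    Complex.continuous_ofReal.comp (kz_cont hr D hL).norm
  have hfc2 : Continuous (fun t => (‖kF φ L (zk k) t‖ : ℂ)) :=
    Complex.continuous_ofReal.comp (kz_cont h D hL).norm
  have hc := sq_cmp (μ := volume.restrict (Ioc a T)) (f := fun t => (‖kF (refl k φ) L (zk k) t‖ : ℂ))
    (g := fun t => (‖kF φ L (zk k) t‖ : ℂ))
    ((hfc1.norm.pow 2).integrableOn_Ioc) ((hfc2.norm.pow 2).integrableOn_Ioc)
    (((hfc1.sub hfc2).norm.pow 2).integrableOn_Ioc) hζ0 hζ1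
  have n0 : ∀ x : ℂ, ‖(‖x‖ : ℂ)‖ = ‖x‖ := fun x => by rw [Complex.norm_real, norm_norm]
  have n1 : ∀ x y : ℂ, ‖(‖x‖ : ℂ) - (‖y‖ : ℂ)‖ ^ 2 = (‖x‖ - ‖y‖) ^ 2 := fun x y => by
    rw [← Complex.ofReal_sub, Complex.norm_real, Real.norm_eq_abs, sq_abs]
  simp only [n0, n1] at hc
  rw [← intervalIntegral.integral_of_le haT, ← intervalIntegral.integral_of_le haT,
    ← intervalIntegral.integral_of_le haT] at hc
  refine hc.trans ?_
  have f1 : 2 * ζ * (∫ t in a..T, ‖kF φ L (zk k) t‖ ^ 2) ≤ 2 * ζ * (C3 * (A + C2)) :=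
    mul_le_mul_of_nonneg_left hsqP (by positivity)
  have f2 : 2 * (1 + ζ⁻¹) * ∫ t in a..T, (‖kF (refl k φ) L (zk k) t‖ - ‖kF φ L (zk k) t‖) ^ 2 ≤
      W * β * (A + C2) := by
    calc _ ≤ 2 * (1 + ζ⁻¹) * ((C4 * (C4 + C5)) * β * (A + C2)) :=
          mul_le_mul_of_nonneg_left key2 (by positivity)
      _ = _ := by rw [hW]; ring
  have f3 : 2 * ζ * C3 ≤ η / 2 := by nlinarith
  have f4 : W * β ≤ η / 2 := by nlinarith
  have f5 : W * β ≤ W := by nlinarith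
  obtain ⟨m, hm⟩ : ∃ m, m = M (zk k) T := ⟨_, rfl⟩
  obtain ⟨E, hE⟩ : ∃ E, E = Ed (zk k) T (T ^ ε) := ⟨_, rfl⟩
  rw [← hm, ← hE] at hAd
  rw [← hm, ← hE]
  rw [← hm] at hM
  rw [← hE] at hEd
  have g1 : (2 * ζ * C3) * m ≤ η / 2 * m := mul_le_mul_of_nonneg_right f3 hM
  have g2 : (W * β) * m ≤ η / 2 * m := mul_le_mul_of_nonneg_right f4 hM
  have g3 : (W * β) * (E + C2) ≤ W * (E + C2) := mul_le_mul_of_nonneg_right f5 (by positivity)
  have g4 : (W + 2 * ζ * C3) * (E + C2) ≤ (W + 2 * ζ * C3) * ((1 + C2) * (1 + E)) := by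
    refine mul_le_mul_of_nonneg_left ?_ (by positivity)
    nlinarith [mul_nonneg hC2 hEd]
  rw [hAd] at f1 f2
  linarith

end

end Pool.Agent.J4.H44.LP
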