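import Pool.Agent.J4.H44.LP.Ke
import Pool.Agent.R446.KR.Fin
import Pool.Agent.J4.H44.OL.Ex

set_option autoImplicit false

/-! The smoothed value of `ζ^k` is a Dirichlet polynomial. -/

namespace Pool.Agent.J4.H44.LP

open Complex MeasureTheory Filter Topology Set Pool.Agent.W182.KO Pool.Agent.R446.KR
open scoped ContDiff

noncomputable section

variable {ξ1 : ℝ} {φ : ℝ → ℂ}

/-- the zero shifts -/
def z0 (k : ℕ) : Fin k → ℝ := fun _ => 0

/-- the coefficients of `ζ^k` -/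
def An (k n : ℕ) : ℂ := tau (fun j => -(z0 k j * I)) n

/-- the number of ordered factorisations -/
def dk (k n : ℕ) : ℕ := (Nat.finMulAntidiag k n).card

lemma An_eq (k n : ℕ) : An k n = dk k n := by
  unfold An tau dk z0
  simp

lemma ZP_zk (k : ℕ) (s : ℂ) : ZP (z0 k) s = riemannZeta s ^ k := by
  simp [ZP, z0]

/-- the smoothed Dirichlet polynomial -/
def Dir (k : ℕ) (φ : ℝ → ℂ) (L t : ℝ) : ℂ :=
  ∑' n : ℕ, (dk k n : ℂ) * φ (Real.log n / L) * (n : ℂ) ^ (-(1 / 2 + I * t))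

/-- the smoothed value of `ζ^k` -/
def kz (k : ℕ) (φ : ℝ → ℂ) (L t : ℝ) : ℂ := ∫ y, KL φ L y * zk k (t + y)

lemma one_DF (c R : ℝ) (M : ℕ) : DF (fun _ => (1:ℂ)) c R M 1 where
  hC := zero_le_one
  diff := fun s _ _ _ => differentiableAt_const _
  line := continuous_const
  cline := continuous_const
  bdl := fun u => by
    rw [norm_one, one_mul]; exact one_le_pow₀ (by linarith [abs_nonneg u])
  bd := fun s _ _ _ => by
    rw [norm_one, one_mul]; exact one_le_pow₀ (by linarith [abs_nonneg s.im])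
  bdc := fun u => by simp

/-- the series on the line `c = 1 + 4 κ` -/
theorem K_series (h : TF ξ1 φ) {κ D : ℝ} {F : ℂ → ℂ} {A : ℕ → ℂ} (hκ : 0 < κ) (E : DD F A κ D) {L : ℝ}
    (hL : 1 ≤ L) (t : ℝ) :
    HasSum (fun n : ℕ => ((2 * Real.pi / L : ℝ) : ℂ) *
      (A n * φ (Real.log n / L) * (n : ℂ) ^ (-(1 / 2 + I * t))))
      (K0 φ F (fun _ => 1) (1 + 4 * κ) L t) := by
  have hL0 : 0 < L := by linarith
  set f : ℕ → ℝ → ℂ := fun n y => Pc φ κ L y *
    (A n * (n : ℂ) ^ (-((1 + 4 * κ : ℝ) + (y + t : ℝ) * I) : ℂ)) with hf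
  have hfe : ∀ n, 1 ≤ n → ∀ y, f n y = (A n * (((n : ℝ) ^ (-(1 + 4 * κ)) : ℝ) : ℂ) *
      cexp (-(t * Real.log n) * I)) * (Pc φ κ L y * cexp (-(((Real.log n / L : ℝ) : ℂ) * L * y) * I)) := by
    intro n hn y
    rw [hf]
    simp only
    rw [cpow_eq hn]
    have e : cexp (-(((y + t : ℝ) : ℂ) * Real.log n) * I) = cexp (-(t * Real.log n) * I) *
        cexp (-(((Real.log n / L : ℝ) : ℂ) * L * y) * I) := by
      rw [← exp_add]
      congr 1
      have hLc : (L : ℂ) ≠ 0 := by exact_mod_cast hL0.ne'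
      push_cast
      field_simp
      ring
    rw [e]
    ring
  have hf0 : ∀ y, f 0 y = 0 := by
    intro y
    rw [hf]
    simp only
    rw [E.A0]; simp
  have hfc : ∀ n, Continuous (f n) := by
    intro n
    rcases Nat.eq_zero_or_pos n with h1 | h1
    · rw [h1, show f 0 = fun _ => 0 from funext hf0]; exact continuous_const
    · rw [show f n = _ from funext (hfe n h1)]
      exact continuous_const.mul ((Pc_cont h L).mul (by fun_prop))
  have hfn : ∀ n y, ‖f n y‖ = (‖A n‖ * (n : ℝ) ^ (-(1 + 4 * κ))) * ‖Pc φ κ L y‖ := by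
    intro n y
    rw [hf]
    simp only
    rw [norm_mul, term_norm E]
    ring
  have hfi : ∀ n, Integrable (f n) := by
    intro n
    refine ((Pc_int h hκ hL).norm.const_mul (‖A n‖ * (n : ℝ) ^ (-(1 + 4 * κ)))).mono'
      (hfc n).aestronglyMeasurable (Eventually.of_forall fun y => ?_)
    rw [hfn]
  have hsum : Summable fun n => ∫ y, ‖f n y‖ := by
    refine ((SA_summable hκ E).mul_right (Dp φ κ L)).congr fun x => ?_
    simp only [hfn]
    rw [integral_const_mul]; rfl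
  have key := hasSum_integral_of_summable_integral_norm hfi hsum
  have e1 : (∫ y, ∑' n, f n y) = K0 φ F (fun _ => 1) (1 + 4 * κ) L t := by
    unfold K0
    congr 1; funext y
    rw [hf]
    simp only
    rw [tsum_mul_left, (E.ser (y + t)).tsum_eq, mul_one]
    rfl
  rw [e1] at key
  have e2 : (fun n => ∫ y, f n y) = fun n : ℕ => ((2 * Real.pi / L : ℝ) : ℂ) *
      (A n * φ (Real.log n / L) * (n : ℂ) ^ (-(1 / 2 + I * t))) := by
    funext n
    rcases Nat.eq_zero_or_pos n with h1 | h1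
    · rw [h1, E.A0]
      simp only [hf0, integral_zero, zero_mul, mul_zero]
    · have hn0 : (0:ℝ) < n := by exact_mod_cast h1
      simp only [hfe n h1]
      rw [integral_const_mul]
      have h2 := P_inv h (σ := L * (1 + 4 * κ - 1 / 2)) (by nlinarith) hL0 (Real.log n / L)
      have h3 : ∫ y : ℝ, Pc φ κ L y * cexp (-(((Real.log n / L : ℝ) : ℂ) * L * y) * I) =
          (2 * Real.pi / L : ℝ) * (φ (Real.log n / L) *
            cexp (((Real.log n / L : ℝ) : ℂ) * ((L * (1 + 4 * κ - 1 / 2) : ℝ) : ℂ))) := h2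
      rw [h3]
      have e3 : (n : ℂ) ^ (-(1 / 2 + I * t)) = (((n : ℝ) ^ (-(1 / 2 : ℝ)) : ℝ) : ℂ) *
          cexp (-(t * Real.log n) * I) := by
        rw [← cpow_eq h1 (1 / 2) t]
        congr 1
        push_cast; ring
      have e4 : cexp (((Real.log n / L : ℝ) : ℂ) * ((L * (1 + 4 * κ - 1 / 2) : ℝ) : ℂ)) =
          (((n : ℝ) ^ (1 + 4 * κ - 1 / 2) : ℝ) : ℂ) := by
        rw [← Complex.ofReal_mul, ← Complex.ofReal_exp, Real.rpow_def_of_pos hn0]
        congr 2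
        field_simp
      have e5 : (((n : ℝ) ^ (-(1 + 4 * κ)) : ℝ) : ℂ) * (((n : ℝ) ^ (1 + 4 * κ - 1 / 2) : ℝ) : ℂ) =
          (((n : ℝ) ^ (-(1 / 2 : ℝ)) : ℝ) : ℂ) := by
        rw [← Complex.ofReal_mul, ← Real.rpow_add hn0]
        congr 2
        ring
      rw [e3, e4, ← e5]
      ring
  rw [e2] at key
  exact key

/-- **representation** of the smoothed value -/
theorem rep (k : ℕ) (h : TF ξ1 φ) (hξ : 0 ≤ ξ1) {ε : ℝ} (hε : 0 < ε) : ∃ C T0 : ℝ, 0 ≤ C ∧
    Real.exp 1 ≤ T0 ∧ ∀ T : ℝ, T0 ≤ T → ∀ t : ℝ, T ^ ε ≤ t → t ≤ T →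
      ‖kz k φ (Real.log T) t - Dir k φ (Real.log T) t‖ ≤ C / T := by
  obtain ⟨D, hD, h1⟩ := tau_ptw k (κ := 1) one_pos
  obtain ⟨C1, G1⟩ := ZP_DF (z0 k) one_pos hD (h1 _) (le_refl (2 * k)) (le_refl _)
  have E1 := ZP_DD (z0 k) one_pos (h1 _)
  set c : ℝ := 1 + 4 * 1 with hc
  set M : ℕ := 2 * k with hM
  set R : ℝ := RR (z0 k) with hR
  obtain ⟨n, hn⟩ := exists_nat_ge ((ξ1 * (c - 1 / 2) + 2 * M + 2) / ε)
  obtain ⟨C', hC', hs⟩ := shift h hξ G1 (one_DF c R M) (by rw [hc]; norm_num) n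
  have hR1 : 1 ≤ R := RR_pos _
  refine ⟨C' * 2 ^ (2 * M), max (Real.exp 1) ((2 * R) ^ (1 / ε)), by positivity, le_max_left _ _,
    fun T hT t ht1 ht2 => ?_⟩
  have hTe : Real.exp 1 ≤ T := (le_max_left _ _).trans hT
  have hT0 : 0 < T := (Real.exp_pos 1).trans_le hTe
  have hT1 : 1 ≤ T := le_trans (by have := Real.add_one_le_exp 1; linarith) hTe
  have hL : 1 ≤ Real.log T := by rwa [Real.le_log_iff_exp_le hT0]
  have hL0 : 0 < Real.log T := by linarith
  have hU : 2 * R ≤ T ^ ε := by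
    have h2 : (2 * R) ^ (1 / ε) ≤ T := (le_max_right _ _).trans hT
    calc 2 * R = ((2 * R) ^ (1 / ε)) ^ ε := by
          rw [← Real.rpow_mul (by positivity), one_div, inv_mul_cancel₀ hε.ne', Real.rpow_one]
      _ ≤ T ^ ε := Real.rpow_le_rpow (by positivity) h2 hε.le
  have hU1 : 1 ≤ T ^ ε := by linarith
  have h2 := hs (Real.log T) (T ^ ε) t hL hU1 hU ht1
  have h3 := K_series h one_pos E1 hL t
  have e1 : K0 φ (ZP (z0 k)) (fun _ => 1) c (Real.log T) t =
      ((2 * Real.pi / Real.log T : ℝ) : ℂ) * Dir k φ (Real.log T) t := by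
    rw [← h3.tsum_eq, tsum_mul_left]
    unfold Dir
    congr 1
    refine tsum_congr fun n => ?_
    rw [← An_eq]
    rfl
  have e2 : kz k φ (Real.log T) t = ((Real.log T / (2 * Real.pi) : ℝ) : ℂ) *
      I0 φ (ZP (z0 k)) (fun _ => 1) (Real.log T) t := by
    unfold kz I0 KL
    rw [← integral_const_mul]
    refine integral_congr_ae (Eventually.of_forall fun y => ?_)
    simp only [mul_one]
    rw [ZP_zk]
    unfold zk Pool.Agent.TH535.SM.ze
    rw [add_comm t y]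
    ring
  have e3 : Dir k φ (Real.log T) t = ((Real.log T / (2 * Real.pi) : ℝ) : ℂ) *
      (((2 * Real.pi / Real.log T : ℝ) : ℂ) * Dir k φ (Real.log T) t) := by
    rw [← mul_assoc, ← Complex.ofReal_mul]
    have : Real.log T / (2 * Real.pi) * (2 * Real.pi / Real.log T) = 1 := by
      have := Real.pi_pos
      field_simp
    rw [this]; simp
  rw [e2, e3, ← mul_sub, ← e1, norm_mul, Complex.norm_real, Real.norm_of_nonneg (by positivity)]
  have h4 : Real.log T / (2 * Real.pi) ≤ T := by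
    have a1 : Real.log T ≤ T := by linarith [Real.log_le_sub_one_of_pos hT0]
    have a2 : Real.log T / (2 * Real.pi) ≤ Real.log T := div_le_self hL0.le (by linarith [Real.pi_gt_three])
    linarith
  have h5 : Real.exp (ξ1 * (Real.log T * (c - 1 / 2))) = T ^ (ξ1 * (c - 1 / 2)) := by
    rw [Real.rpow_def_of_pos hT0]
    congr 1; ring
  have h6 : (1 + t) ^ (2 * M) ≤ 2 ^ (2 * M) * T ^ ((2 * M : ℕ) : ℝ) := by
    rw [Real.rpow_natCast, ← mul_pow]
    have : 0 ≤ T ^ ε := by positivity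
    exact pow_le_pow_left₀ (by linarith) (by linarith) _
  have h7 : (T ^ ε) ^ n = T ^ (ε * n) := by
    rw [← Real.rpow_natCast, ← Real.rpow_mul hT0.le]
  rw [h5, h7] at h2
  have hn' : ξ1 * (c - 1 / 2) + 2 * M + 2 ≤ ε * n := by
    rw [div_le_iff₀ hε] at hn; linarith
  calc Real.log T / (2 * Real.pi) * ‖I0 φ (ZP (z0 k)) (fun _ => 1) (Real.log T) t -
        K0 φ (ZP (z0 k)) (fun _ => 1) c (Real.log T) t‖ ≤
        T * (C' * (T ^ (ξ1 * (c - 1 / 2)) * (2 ^ (2 * M) * T ^ ((2 * M : ℕ) : ℝ))) / T ^ (ε * n)) := by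
        refine mul_le_mul h4 (h2.trans ?_) (norm_nonneg _) hT0.le
        gcongr
    _ = C' * 2 ^ (2 * M) * (T ^ (1 : ℝ) * T ^ (ξ1 * (c - 1 / 2)) * T ^ ((2 * M : ℕ) : ℝ) * (T ^ (ε * n))⁻¹) := by
        rw [Real.rpow_one]; ring
    _ = C' * 2 ^ (2 * M) * T ^ (1 + ξ1 * (c - 1 / 2) + ((2 * M : ℕ) : ℝ) + -(ε * n)) := by
        rw [← Real.rpow_neg hT0.le, ← Real.rpow_add hT0, ← Real.rpow_add hT0, ← Real.rpow_add hT0]
    _ ≤ C' * 2 ^ (2 * M) * T ^ (-1 : ℝ) := by
        refine mul_le_mul_of_nonneg_left (Real.rpow_le_rpow_of_exponent_le hT1 ?_) (by positivity)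
        push_cast
        linarith
    _ = C' * 2 ^ (2 * M) / T := by
        rw [Real.rpow_neg_one]; rfl

end

end Pool.Agent.J4.H44.LP
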