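import Pool.Agent.J4.H44.LP.Ab

set_option autoImplicit false

/-! The Tauberian theorem with approximate companions. -/

namespace Pool.Agent.J4.H44.LP

open MeasureTheory Filter Topology Set Pool.Agent.R446.KR

noncomputable section

/-- a one-sided bound by a companion gives an upper bound -/
theorem up_of_P' {F P : ℝ → ℝ} (G : Gr F) (q : ℕ) {ϑ C1 T0 : ℝ} (h0 : 0 < ϑ) (h1 : ϑ < 1) (hC1 : 0 ≤ C1)
    (hb : ∀ T : ℝ, T0 ≤ T → F T ≤ P T + (1 / 4 * F T + C1 * Br F ϑ T)) {A0 : ℝ} (hA0 : 0 ≤ A0)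
    (hPup : ∀ᶠ T : ℝ in atTop, P T ≤ A0 * NN q T) :
    ∃ C T2 : ℝ, 0 ≤ C ∧ ∀ T : ℝ, T2 ≤ T → F T ≤ C * NN q T := by
  obtain ⟨X0, hX0, hgood⟩ := good_above G (ε := 1 / 2) (by norm_num) (by norm_num)
    (η := 1 / (4 * (C1 + 1))) (by positivity)
  obtain ⟨T3, hT3⟩ := eventually_atTop.1 hPup
  set β : ℝ := max ϑ (1 / 2) with hβ
  have hβ0 : 0 < β := lt_of_lt_of_le h0 (le_max_left _ _)
  have hβ1 : β < 1 := max_lt h1 (by norm_num)
  obtain ⟨T4, hT4⟩ := eventually_atTop.1 (one_small q 1 one_pos)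
  refine boot G q hβ0 hβ1 ⟨(A0) * 2 * 2 ^ (q + 1) + 4 * C1 + 6 * C1 + 1, max (max T0 X0) (max T3 (max T4 4)), by positivity,
    fun T hT => ?_⟩
  have u0 : T0 ≤ T := ((le_max_left _ _).trans (le_max_left _ _)).trans hT
  have u1 : X0 ≤ T := ((le_max_right _ _).trans (le_max_left _ _)).trans hT
  have u2 : T3 ≤ T := ((le_max_left _ _).trans (le_max_right _ _)).trans hT
  have u3 : T4 ≤ T := ((le_max_left _ _).trans ((le_max_right _ _).trans (le_max_right _ _))).trans hT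
  have u4 : (4:ℝ) ≤ T := ((le_max_right _ _).trans ((le_max_right _ _).trans (le_max_right _ _))).trans hT
  have hT0 : 0 < T := by linarith
  obtain ⟨T', ⟨v1, v2⟩, v3⟩ := hgood T u1
  have hT'0 : 0 < T' := by linarith
  have w1 := hb T' (u0.trans v1)
  have w2 := hT3 T' (u2.trans v1)
  have w3 := hT4 T u3
  have hβT : T' ^ β ≤ 2 * T ^ β := by
    calc T' ^ β ≤ (2 * T) ^ β := Real.rpow_le_rpow hT'0.le v2 hβ0.le
      _ = 2 ^ β * T ^ β := Real.mul_rpow (by norm_num) hT0.le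
      _ ≤ 2 ^ (1:ℝ) * T ^ β := by
          gcongr
          · norm_num
      _ = _ := by rw [Real.rpow_one]
  have hTβ0 : 0 ≤ T' ^ β := by positivity
  have x1 : F (2 * T' ^ ϑ) ≤ F (4 * T ^ β) := by
    refine G.mono _ _ (by positivity) ?_
    have : T' ^ ϑ ≤ T' ^ β := Real.rpow_le_rpow_of_exponent_le (by linarith) (le_max_left _ _)
    linarith
  have x2 : F (T' ^ (1 / 2 : ℝ)) ≤ F (4 * T ^ β) := by
    refine G.mono _ _ (by positivity) ?_
    have : T' ^ (1 / 2 : ℝ) ≤ T' ^ β := Real.rpow_le_rpow_of_exponent_le (by linarith) (le_max_right _ _)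
    linarith
  have x3 : NN q T' ≤ 2 ^ (q + 1) * NN q T := (NN_mono q (show 1 ≤ T' by linarith) v2).trans (NN_two q u4)
  have hF' := G.nonneg T' hT'0.le
  have hF4 := G.nonneg (4 * T ^ β) (by positivity)
  have hm := G.mono T T' hT0.le v1
  have e1 : C1 * Br F ϑ T' ≤ C1 * (1 + (2 * F (4 * T ^ β) + 1 / (4 * (C1 + 1)) * (1 + F T')) + F (4 * T ^ β)) := by
    refine mul_le_mul_of_nonneg_left ?_ hC1
    unfold Br; linarith
  have e2 : C1 * (1 / (4 * (C1 + 1)) * (1 + F T')) ≤ 1 / 4 * (1 + F T') := by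
    have : C1 * (1 / (4 * (C1 + 1))) ≤ 1 / 4 := by
      rw [mul_one_div, div_le_div_iff₀ (by positivity) (by norm_num)]; linarith
    calc _ = C1 * (1 / (4 * (C1 + 1))) * (1 + F T') := by ring
      _ ≤ _ := mul_le_mul_of_nonneg_right this (by linarith)
  have e3 : F T' ≤ 2 * P T' + 2 * C1 + 6 * C1 * F (4 * T ^ β) + 1 / 2 := by linarith
  have hNT : 0 < NN q T := NN_pos q (by linarith)
  have e4 : (A0) * NN q T' ≤ (A0) * (2 ^ (q + 1) * NN q T) :=
    mul_le_mul_of_nonneg_left x3 (by positivity)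
  have e5 : 0 ≤ (A0) * 2 * 2 ^ (q + 1) * F (4 * T ^ β) := by positivity
  have e6 : C1 * 1 ≤ C1 * NN q T := by
    refine mul_le_mul_of_nonneg_left ?_ hC1
    linarith
  have e7 : 0 ≤ C1 * NN q T := by positivity
  have e8 : 0 ≤ C1 * F (4 * T ^ β) := by positivity
  nlinarith

/-- off small sets the function is close to the limit of its companion -/
lemma near_of_P {F P : ℝ → ℝ} (G : Gr F) (q : ℕ) {ϑ C1 T0 r η K T2 : ℝ} (h0 : 0 < ϑ) (h1 : ϑ < 1) (hC1 : 0 ≤ C1)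
    (hη : 0 < η) (hb : ∀ T : ℝ, T0 ≤ T → |P T - F T| ≤ η * F T + C1 * Br F ϑ T)
    (hr : Tendsto (fun T => P T / NN q T) atTop (𝓝 r)) (hK : 0 ≤ K)
    (hup : ∀ T : ℝ, T2 ≤ T → F T ≤ K * NN q T) {ε δ : ℝ} (hε : 0 < ε) (hδ : 0 < δ) :
    ∃ X0 : ℝ, ∀ X : ℝ, X0 ≤ X → ∃ E : Set ℝ,
      E ⊆ Icc X (2 * X) ∧ volume.real E ≤ δ * X ∧
      ∀ T ∈ Icc X (2 * X), T ∉ E → |F T - r * NN q T| ≤ (η * K + ε) * NN q T := by
  have hup' : ∀ᶠ T : ℝ in atTop, F T ≤ K * NN q T := eventually_atTop.2 ⟨T2, hup⟩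
  obtain ⟨X0, hX0, hexc⟩ := exc' G (ε := 1 / 2) (by norm_num) (by norm_num)
    (η := ε / (8 * (C1 + 1) * (K + 1))) (by positivity) hδ
  have s1 := one_small q 1 (show 0 < ε / (32 * (C1 + 1)) by positivity)
  have s2 := small_shift hK hup' (a := 1) (θ := 1 / 2) one_pos (by norm_num) (by norm_num)
    (show 0 < ε / (64 * (C1 + 1)) by positivity)
  have s4 := small_shift hK hup' (a := 2) (θ := ϑ) two_pos h0 h1 (show 0 < ε / (32 * (C1 + 1)) by positivity)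
  have sE := s1.and (s2.and (s4.and ((ratio_bd hr (show 0 < ε / 4 by positivity)).and (NN_ge q))))
  obtain ⟨T5, hT5⟩ := eventually_atTop.1 sE
  refine ⟨max (max T0 X0) (max T5 (max T2 4)), fun X hX => ?_⟩
  obtain ⟨E, hE1, hE2, hE3⟩ := hexc X (((le_max_right _ _).trans (le_max_left _ _)).trans hX)
  refine ⟨E, hE1, hE2, fun T hT hTE => ?_⟩
  have hXT := hT.1
  obtain ⟨a1, a2, a3, a4, a5⟩ := hT5 T ((((le_max_left _ _).trans (le_max_right _ _)).trans hX).trans hXT)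
  have b := hb T ((((le_max_left _ _).trans (le_max_left _ _)).trans hX).trans hXT)
  have b2 := hup T ((((le_max_left _ _).trans ((le_max_right _ _).trans (le_max_right _ _))).trans hX).trans hXT)
  have b4 : (4:ℝ) ≤ T :=
    (((le_max_right _ _).trans ((le_max_right _ _).trans (le_max_right _ _))).trans hX).trans hXT
  have b3 := hE3 T hT hTE
  rw [one_mul] at a2
  have hN : 0 < NN q T := NN_pos q (by linarith)
  have hN1 : 1 ≤ NN q T := by linarith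
  obtain ⟨N, hNd⟩ : ∃ N, N = NN q T := ⟨_, rfl⟩
  rw [← hNd] at a1 a2 a3 a4 hN b2 hN1 ⊢
  have hF := G.nonneg T (by linarith)
  have e0 : ε / (8 * (C1 + 1) * (K + 1)) * (1 + F T) ≤ ε / (8 * (C1 + 1)) * N := by
    calc ε / (8 * (C1 + 1) * (K + 1)) * (1 + F T) ≤ ε / (8 * (C1 + 1) * (K + 1)) * ((K + 1) * N) := by
          gcongr; linarith
      _ = _ := by field_simp
  have e1 : Br F ϑ T ≤ ε / (32 * (C1 + 1)) * N + (2 * (ε / (64 * (C1 + 1)) * N) + ε / (8 * (C1 + 1)) * N) +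
      ε / (32 * (C1 + 1)) * N := by
    unfold Br; linarith
  have e2 : C1 * Br F ϑ T ≤ ε / 4 * N := by
    calc C1 * Br F ϑ T ≤ C1 * (ε / (32 * (C1 + 1)) * N + (2 * (ε / (64 * (C1 + 1)) * N) +
          ε / (8 * (C1 + 1)) * N) + ε / (32 * (C1 + 1)) * N) := mul_le_mul_of_nonneg_left e1 hC1
      _ = (C1 / (C1 + 1)) * (7 / 32 * (ε * N)) := by field_simp; ring
      _ ≤ 1 * (7 / 32 * (ε * N)) := by
          refine mul_le_mul_of_nonneg_right ?_ (by positivity)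
          rw [div_le_one (by linarith)]; linarith
      _ ≤ _ := by nlinarith [mul_pos hε hN]
  have e3 : η * F T ≤ η * K * N := by
    calc η * F T ≤ η * (K * N) := mul_le_mul_of_nonneg_left b2 hη.le
      _ = _ := by ring
  rw [abs_le] at b a4 ⊢
  constructor <;> linarith [b.1, b.2, a4.1, a4.2, mul_pos hε hN]

/-- **the Tauberian theorem** -/
theorem abs_lim {F : ℝ → ℝ} (G : Gr F) (q : ℕ)
    (hP : ∀ η : ℝ, 0 < η → ∃ (P : ℝ → ℝ) (r ϑ C T0 : ℝ), 0 < ϑ ∧ ϑ < 1 ∧ 0 ≤ C ∧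
      Tendsto (fun T => P T / NN q T) atTop (𝓝 r) ∧
      ∀ T : ℝ, T0 ≤ T → |P T - F T| ≤ η * F T + C * Br F ϑ T) :
    ∃ c : ℝ, Tendsto (fun T => F T / NN q T) atTop (𝓝 c) := by
  obtain ⟨K, T2, hK, hup⟩ : ∃ K T2 : ℝ, 0 ≤ K ∧ ∀ T : ℝ, T2 ≤ T → F T ≤ K * NN q T := by
    obtain ⟨P, r, ϑ, C, T0, h0, h1, hC, hr, hb⟩ := hP (1 / 4) (by norm_num)
    exact up_of_P' (P := P) G q h0 h1 hC (fun T hT => by have := (abs_le.1 (hb T hT)).1; linarith)
      (show 0 ≤ |r| + 1 by positivity) (up_of_ratio hr)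
  have hB : ∀ n : ℕ, ∃ r : ℝ, ∀ ε δ : ℝ, 0 < ε → 0 < δ → ∃ X0 : ℝ, ∀ X : ℝ, X0 ≤ X → ∃ E : Set ℝ,
      E ⊆ Icc X (2 * X) ∧ volume.real E ≤ δ * X ∧
      ∀ T ∈ Icc X (2 * X), T ∉ E → |F T - r * NN q T| ≤ (1 / ((n:ℝ) + 1) * K + ε) * NN q T := by
    intro n
    obtain ⟨P, r, ϑ, C, T0, h0, h1, hC, hr, hb⟩ := hP (1 / ((n:ℝ) + 1)) (by positivity)
    exact ⟨r, fun ε δ hε hδ => near_of_P G q h0 h1 hC (by positivity) hb hr hK hup hε hδ⟩
  choose r hr using hB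
  have hbd : ∀ n, r n ∈ Icc (-(K + 1)) (2 * K + 1) := by
    intro n
    obtain ⟨X0, hX⟩ := hr n 1 (1 / 2) one_pos (by norm_num)
    obtain ⟨E, hE1, hE2, hE3⟩ := hX (max X0 (max T2 4)) (le_max_left _ _)
    set X := max X0 (max T2 4) with hXd
    have hX4 : (4:ℝ) ≤ X := (le_max_right _ _).trans (le_max_right _ _)
    have hX2 : T2 ≤ X := (le_max_left _ _).trans (le_max_right _ _)
    have hfin : volume E ≠ ⊤ :=
      ne_top_of_le_ne_top (by rw [Real.volume_Icc]; exact ENNReal.ofReal_ne_top) (measure_mono hE1)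
    obtain ⟨T', hT', a, b⟩ := exists_good (X := X) (a := X) (b := 2 * X) (m := 1 / 2 * X) hE2 hfin (by linarith)
      le_rfl le_rfl
    have hN : 0 < NN q T' := NN_pos q (by linarith [a.1])
    have h1 := hE3 T' a b
    have h2 := hup T' (hX2.trans a.1)
    have h3 := G.nonneg T' (by linarith [a.1])
    have h4 : 1 / ((n:ℝ) + 1) ≤ 1 := by
      rw [div_le_one (by positivity)]
      have : (0:ℝ) ≤ n := Nat.cast_nonneg n
      linarith
    have h5 : (1 / ((n:ℝ) + 1) * K + 1) * NN q T' ≤ (K + 1) * NN q T' := by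
      refine mul_le_mul_of_nonneg_right ?_ hN.le
      have := mul_le_mul_of_nonneg_right h4 hK
      linarith
    rw [abs_le] at h1
    constructor
    · refine le_of_mul_le_mul_right ?_ hN
      linarith [h1.2]
    · refine le_of_mul_le_mul_right ?_ hN
      linarith [h1.1]
  obtain ⟨c, -, φ, hφ, hc⟩ := isCompact_Icc.tendsto_subseq hbd
  refine ⟨c, monotone_step' G.mono fun ε δ hε hδ => ?_⟩
  have t1 : Tendsto (fun n : ℕ => 1 / ((φ n : ℝ) + 1) * K) atTop (𝓝 0) := by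
    have := ((tendsto_one_div_add_atTop_nhds_zero_nat (𝕜 := ℝ)).comp hφ.tendsto_atTop).mul_const K
    rw [zero_mul] at this
    exact this
  have e1 := t1.eventually_le_const (show 0 < ε / 4 by positivity)
  have e2 := Metric.tendsto_nhds.1 hc (ε / 4) (by positivity)
  obtain ⟨n, h1, h2⟩ := (e1.and e2).exists
  rw [Real.dist_eq] at h2
  obtain ⟨X0, hX⟩ := hr (φ n) (ε / 4) δ (by positivity) hδ
  refine ⟨max X0 4, fun X hX' => ?_⟩
  obtain ⟨E, hE1, hE2, hE3⟩ := hX X ((le_max_left _ _).trans hX')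
  refine ⟨E, hE1, hE2, fun T hT hTE => ?_⟩
  have hX4 : (4:ℝ) ≤ X := (le_max_right _ _).trans hX'
  have hN : 0 < NN q T := NN_pos q (by linarith [hT.1])
  have h3 := hE3 T hT hTE
  have h4 : |F T - c * NN q T| ≤ |F T - r (φ n) * NN q T| + |(r (φ n) - c) * NN q T| := by
    have : F T - c * NN q T = (F T - r (φ n) * NN q T) + (r (φ n) - c) * NN q T := by ring
    rw [this]
    exact abs_add_le _ _
  have h5 : |(r (φ n) - c) * NN q T| ≤ ε / 4 * NN q T := by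
    rw [abs_mul, abs_of_pos hN]
    exact mul_le_mul_of_nonneg_right h2.le hN.le
  have h6 : (1 / ((φ n : ℝ) + 1) * K + ε / 4) * NN q T ≤ (ε / 4 + ε / 4) * NN q T :=
    mul_le_mul_of_nonneg_right (by linarith) hN.le
  have h7 : 0 < ε * NN q T := by positivity
  linarith

/-- a function with arbitrarily good approximate limits has a limit -/
lemma lim_of_approx {f : ℝ → ℂ} (h : ∀ ε : ℝ, 0 < ε → ∃ l : ℂ, ∀ᶠ T : ℝ in atTop, ‖f T - l‖ ≤ ε) :
    ∃ l : ℂ, Tendsto f atTop (𝓝 l) := by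
  rw [← cauchy_map_iff_exists_tendsto, Metric.cauchy_iff]
  refine ⟨inferInstance, fun ε hε => ?_⟩
  obtain ⟨l, hl⟩ := h (ε / 3) (by positivity)
  refine ⟨f '' {T | ‖f T - l‖ ≤ ε / 3}, image_mem_map hl, ?_⟩
  rintro _ ⟨x, hx, rfl⟩ _ ⟨y, hy, rfl⟩
  rw [dist_eq_norm]
  have e : f x - f y = (f x - l) - (f y - l) := by ring
  rw [e]
  refine lt_of_le_of_lt (norm_sub_le _ _) ?_
  have h1 : ‖f x - l‖ ≤ ε / 3 := hx
  have h2 : ‖f y - l‖ ≤ ε / 3 := hy
  linarith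

end

end Pool.Agent.J4.H44.LP
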