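import Pool.Agent.J4.H44.LP.Mb
import Pool.Agent.J4.H44.LP.Tb
import Pool.Agent.J4.H44.LP.Op

set_option autoImplicit false

/-! Shifts whose exponentials are complete on the middle of the spectrum. -/

namespace Pool.Agent.J4.H44.LP

open Complex MeasureTheory Filter Topology Set Pool.Agent.W182.KO Pool.Agent.R446.KR Pool.Agent.TH535.SM Pool.Agent.J4.H44.OL
open scoped ContDiff FourierTransform ENNReal ComplexConjugate

noncomputable section

/-! ### the combination -/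

/-- the exponential in the spectral variable -/
def ev (α v : ℝ) : ℂ := cexp (((-(2 * α * v) : ℝ) : ℂ) * I)

/-- the combination of exponentials -/
def fc (α : ℝ) (s : Finset ℝ) (c : ℝ → ℂ) (v : ℝ) : ℂ := ev α v - ∑ a ∈ s, c a * ev a v

lemma ev_norm (α v : ℝ) : ‖ev α v‖ = 1 := by unfold ev; rw [Complex.norm_exp_ofReal_mul_I]

lemma ev_smooth (α : ℝ) : ContDiff ℝ ∞ (ev α) := by
  unfold ev
  have h2 : ContDiff ℝ ∞ (fun v : ℝ => ((-(2 * α * v) : ℝ) : ℂ)) :=
    (ofRealCLM.contDiff (n := ∞)).comp (contDiff_const.mul contDiff_id).neg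
  exact (h2.mul contDiff_const).cexp

lemma fc_smooth (α : ℝ) (s : Finset ℝ) (c : ℝ → ℂ) : ContDiff ℝ ∞ (fc α s c) := by
  unfold fc
  exact (ev_smooth α).sub (ContDiff.sum fun a _ => contDiff_const.mul (ev_smooth a))

lemma fc_le (α : ℝ) (s : Finset ℝ) (c : ℝ → ℂ) (v : ℝ) : ‖fc α s c v‖ ≤ 1 + ∑ a ∈ s, ‖c a‖ := by
  unfold fc
  refine (norm_sub_le _ _).trans (add_le_add (ev_norm α v).le ((norm_sum_le _ _).trans ?_))
  refine Finset.sum_le_sum fun a _ => ?_
  rw [norm_mul, ev_norm, mul_one]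

/-- smooth cut-off of the middle -/
def mct (k : ℕ) (δ v : ℝ) : ℝ :=
  Real.smoothTransition ((v - (1 - δ)) / (δ / 2)) * Real.smoothTransition ((k - 1 + δ - v) / (δ / 2))

lemma mct_one {k : ℕ} {δ v : ℝ} (hδ : 0 < δ) (h0 : 1 - δ / 2 ≤ v) (h1 : v ≤ k - 1 + δ / 2) : mct k δ v = 1 := by
  unfold mct
  rw [Real.smoothTransition.one_of_one_le, Real.smoothTransition.one_of_one_le, one_mul]
  · rw [le_div_iff₀ (by positivity)]; linarith
  · rw [le_div_iff₀ (by positivity)]; linarith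

lemma mct_left {k : ℕ} {δ v : ℝ} (hδ : 0 < δ) (h : v ≤ 1 - δ) : mct k δ v = 0 := by
  unfold mct
  rw [Real.smoothTransition.zero_of_nonpos, zero_mul]
  exact div_nonpos_of_nonpos_of_nonneg (by linarith) (by positivity)

lemma mct_right {k : ℕ} {δ v : ℝ} (hδ : 0 < δ) (h : k - 1 + δ ≤ v) : mct k δ v = 0 := by
  unfold mct
  rw [Real.smoothTransition.zero_of_nonpos (x := (k - 1 + δ - v) / (δ / 2)), mul_zero]
  exact div_nonpos_of_nonpos_of_nonneg (by linarith) (by positivity)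

lemma mct_nonneg (k : ℕ) (δ v : ℝ) : 0 ≤ mct k δ v :=
  mul_nonneg (Real.smoothTransition.nonneg _) (Real.smoothTransition.nonneg _)

lemma mct_le (k : ℕ) (δ v : ℝ) : mct k δ v ≤ 1 :=
  mul_le_one₀ (Real.smoothTransition.le_one _) (Real.smoothTransition.nonneg _) (Real.smoothTransition.le_one _)

lemma mct_smooth (k : ℕ) (δ : ℝ) : ContDiff ℝ ∞ (mct k δ) := by
  unfold mct
  have h1 : ContDiff ℝ ∞ Real.smoothTransition := Real.smoothTransition.contDiff
  exact (h1.comp ((contDiff_id.sub contDiff_const).div_const _)).mul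
    (h1.comp ((contDiff_const.sub contDiff_id).div_const _))

/-- the edge part of the combination -/
def gc (k : ℕ) (δ α : ℝ) (s : Finset ℝ) (c : ℝ → ℂ) (v : ℝ) : ℂ :=
  ((cut k v * (1 - mct k δ v) : ℝ) : ℂ) * fc α s c v

lemma gc_smooth (k : ℕ) (δ α : ℝ) (s : Finset ℝ) (c : ℝ → ℂ) : ContDiff ℝ ∞ (gc k δ α s c) := by
  unfold gc
  have h : ContDiff ℝ ∞ (fun v => ((cut k v * (1 - mct k δ v) : ℝ) : ℂ)) :=
    (ofRealCLM.contDiff (n := ∞)).comp ((cut_smooth k).mul (contDiff_const.sub (mct_smooth k δ)))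
  exact h.mul (fc_smooth α s c)

lemma gc_cs (k : ℕ) (δ α : ℝ) (s : Finset ℝ) (c : ℝ → ℂ) : HasCompactSupport (gc k δ α s c) := by
  have e : gc k δ α s c = fun v => (cut k v : ℂ) * (((1 - mct k δ v : ℝ) : ℂ) * fc α s c v) := by
    funext v
    unfold gc
    push_cast
    ring
  rw [e]
  exact (cut_cs k).mul_right

lemma gc_le (k : ℕ) (δ α : ℝ) (s : Finset ℝ) (c : ℝ → ℂ) (v : ℝ) : ‖gc k δ α s c v‖ ≤ 1 + ∑ a ∈ s, ‖c a‖ := by
  unfold gc
  rw [norm_mul, Complex.norm_real, Real.norm_of_nonneg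
    (mul_nonneg (cut_nonneg k v) (sub_nonneg.2 (mct_le k δ v)))]
  refine le_trans ?_ (fc_le α s c v)
  refine mul_le_of_le_one_left (norm_nonneg _) ?_
  exact mul_le_one₀ (cut_le k v) (sub_nonneg.2 (mct_le k δ v)) (by linarith [mct_nonneg k δ v])

/-! ### the spectral side -/

lemma Sg_int {F : ℝ → ℂ} (hF : Dec F) {L : ℝ} {g : ℝ → ℂ} (hg : Continuous g) {S : ℝ}
    (hS : ∀ v, ‖g v‖ ≤ S) : Integrable (fun w => g (-(2 * Real.pi * w / L)) * ((‖𝓕 F w‖ ^ 2 : ℝ) : ℂ)) := by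
  refine ((planch hF).1.const_mul S).mono' ?_ (Eventually.of_forall fun w => ?_)
  · have := ft_cont hF
    refine Continuous.aestronglyMeasurable ?_
    fun_prop
  · rw [norm_mul, Complex.norm_real, Real.norm_of_nonneg (by positivity)]
    exact mul_le_mul_of_nonneg_right (hS _) (by positivity)

lemma Sg_close {F : ℝ → ℂ} (hF : Dec F) {L : ℝ} (hL : 0 < L) {f g : ℝ → ℂ} (hf : Continuous f)
    (hg : Continuous g) {S : ℝ} (hS0 : 0 ≤ S) (hS : ∀ v, ‖f v‖ ≤ S) (hS' : ∀ v, ‖g v‖ ≤ S) {a b e : ℝ}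
    (he : 0 ≤ e) (hab : ∀ v, a ≤ v → v ≤ b → ‖f v - g v‖ ≤ e) :
    ‖Sg F L f - Sg F L g‖ ≤ e * (∫ t, ‖F t‖ ^ 2) + 2 * (2 * S) * (ms F (Iic (-(b * L / (2 * Real.pi)))) +
      ms F (Ici (-(a * L / (2 * Real.pi))))) := by
  have h1 := Sg_int hF (L := L) hf hS
  have h2 := Sg_int hF (L := L) hg hS'
  have hb : ∀ v, |‖f v - g v‖| ≤ 2 * S := fun v => by
    rw [abs_of_nonneg (norm_nonneg _)]
    exact (norm_sub_le _ _).trans (by linarith [hS v, hS' v])
  have hc : Continuous (fun v => ‖f v - g v‖) := (hf.sub hg).norm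
  have h3 := St_int hF (L := L) hc hb
  have h4 : ‖Sg F L f - Sg F L g‖ ≤ St F L (fun v => ‖f v - g v‖) := by
    unfold Sg St
    rw [← integral_sub h1 h2]
    refine norm_integral_le_of_norm_le h3 (Eventually.of_forall fun w => ?_)
    rw [← sub_mul, norm_mul, Complex.norm_real, Real.norm_of_nonneg (by positivity)]
  have h5 := St_close hF hL (g := fun v => ‖f v - g v‖) (g' := fun _ => 0) hc continuous_const
    (S := 2 * S) (by positivity) hb (fun v => by rw [abs_zero]; positivity) (a := a) (b := b) (e := e) he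
    (fun v x y => by rw [sub_zero, abs_of_nonneg (norm_nonneg _)]; exact hab v x y)
  have h6 : St F L (fun _ => 0) = 0 := by
    unfold St
    simp
  rw [h6, sub_zero] at h5
  exact h4.trans ((le_abs_self _).trans h5)

lemma Rs_Sg {F : ℝ → ℂ} (L α : ℝ) : Rs F (α / L) = Sg F L (ev α) := by
  unfold Rs Sg ev
  refine integral_congr_ae (Eventually.of_forall fun w => ?_)
  simp only
  congr 4
  ring

lemma comb_Sg {F : ℝ → ℂ} (hF : Dec F) (L α : ℝ) (s : Finset ℝ) (c : ℝ → ℂ) :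
    Rs F (α / L) - ∑ a ∈ s, c a * Rs F (a / L) = Sg F L (fc α s c) := by
  have hi : ∀ a : ℝ, Integrable (fun w => ev a (-(2 * Real.pi * w / L)) * ((‖𝓕 F w‖ ^ 2 : ℝ) : ℂ)) := fun a =>
    Sg_int hF (ev_smooth a).continuous (S := 1) fun v => (ev_norm a v).le
  have e : Sg F L (fc α s c) = Sg F L (ev α) - ∑ a ∈ s, c a * Sg F L (ev a) := by
    unfold Sg
    have h1 : ∑ a ∈ s, c a * ∫ w, ev a (-(2 * Real.pi * w / L)) * ((‖𝓕 F w‖ ^ 2 : ℝ) : ℂ) =
        ∫ w, ∑ a ∈ s, c a * (ev a (-(2 * Real.pi * w / L)) * ((‖𝓕 F w‖ ^ 2 : ℝ) : ℂ)) := by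
      rw [integral_finsetSum _ fun a _ => (hi a).const_mul (c a)]
      refine Finset.sum_congr rfl fun a _ => ?_
      rw [integral_const_mul]
    rw [h1, ← integral_sub (hi α) (integrable_finsetSum _ fun a _ => (hi a).const_mul (c a))]
    refine integral_congr_ae (Eventually.of_forall fun w => ?_)
    simp only
    unfold fc
    rw [sub_mul, Finset.sum_mul]
    congr 1
    refine Finset.sum_congr rfl fun a _ => ?_
    ring
  rw [e, Rs_Sg]
  simp only [Rs_Sg]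

/-- shifts against their spectral side, uniformly -/
lemma Cor_Rs_un (k : ℕ) {η : ℝ} (hη : 0 < η) (ϑ R : ℝ) : ∃ C T0 : ℝ, 0 ≤ C ∧ Real.exp 1 ≤ T0 ∧ ∀ T : ℝ, T0 ≤ T →
    ∀ α : ℝ, |α| ≤ R → ‖Cor (zk k) (α / Real.log T) T - Rs (Fn (H k 1) T 0) (α / Real.log T)‖ ≤
      η * M (zk k) T + C * Er k (1 / 2) ϑ T := by
  have D := zk_dat k (u := 1) le_rfl
  obtain ⟨C, T0, hC, hT0, h⟩ := Cor_Rs D (ε := min (1 / 2) η) (by positivity)
    (lt_of_le_of_lt (min_le_left _ _) (by norm_num))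
  obtain ⟨T1, hT1⟩ := eventually_atTop.1 (B_Ed D (ε := 1 / 2) (by norm_num))
  obtain ⟨T2, hT2⟩ := eventually_atTop.1 (Real.tendsto_log_atTop.eventually_ge_atTop (|R| + 1))
  refine ⟨2 * C, max (max T0 T1) (max T2 (Real.exp 1)), by positivity, (le_max_right _ _).trans (le_max_right _ _),
    fun T hT α hα => ?_⟩
  have u0 : T0 ≤ T := ((le_max_left _ _).trans (le_max_left _ _)).trans hT
  have u1 : T1 ≤ T := ((le_max_right _ _).trans (le_max_left _ _)).trans hT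
  have u2 : T2 ≤ T := ((le_max_left _ _).trans (le_max_right _ _)).trans hT
  have te : Real.exp 1 ≤ T := ((le_max_right _ _).trans (le_max_right _ _)).trans hT
  have hTp : 0 < T := (Real.exp_pos 1).trans_le te
  have hl := hT2 T u2
  have hR := abs_nonneg R
  have hRR := le_abs_self R
  have hl0 : 0 < Real.log T := by linarith
  have ha : |α / Real.log T| ≤ 1 := by
    rw [abs_div, abs_of_pos hl0, div_le_one hl0]; linarith
  have h1 := h T u0 _ ha
  have h2 := hT1 T u1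
  have hM := M_nonneg (zk k) (T := T) hTp.le
  have hM2 := M_nonneg (zk k) (T := 2 * T ^ ϑ) (by positivity)
  have h3 : min (1 / 2) η * M (zk k) T ≤ η * M (zk k) T := mul_le_mul_of_nonneg_right (min_le_right _ _) hM
  have hEd := Ed_nonneg (zk k) T (r := T ^ (1 / 2 : ℝ)) (by positivity)
  have h4 : C * (1 + B (zk k) T) ≤ 2 * C * Er k (1 / 2) ϑ T := by
    have : 1 + B (zk k) T ≤ 2 * Er k (1 / 2) ϑ T := by
      unfold Er; linarith
    nlinarith [mul_le_mul_of_nonneg_left this hC]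
  linarith

/-- **the linear relation**: a combination of shifts against its edge part -/
theorem comb_rel {k : ℕ} (α : ℝ) (s : Finset ℝ) (c : ℝ → ℂ) {ε δ : ℝ} (hδ : 0 < δ)
    (hε : 0 ≤ ε) (hf : ∀ v : ℝ, 1 - δ ≤ v → v ≤ k - 1 + δ → ‖fc α s c v‖ ≤ ε) {η : ℝ} (hη : 0 < η) :
    ∃ C T0 : ℝ, 0 ≤ C ∧ Real.exp 1 ≤ T0 ∧ ∀ T : ℝ, T0 ≤ T →
      ‖Cor (zk k) (α / Real.log T) T - (∑ a ∈ s, c a * Cor (zk k) (a / Real.log T) T +
        Xg k (gc k δ α s c) T)‖ ≤ (ε + η) * M (zk k) T + C * Er k (1 / 2) (1 / 2) T := by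
  have D := zk_dat k (u := 1) le_rfl
  set S : ℝ := 1 + ∑ a ∈ s, ‖c a‖ with hS
  have hS1 : 1 ≤ S := by
    have : 0 ≤ ∑ a ∈ s, ‖c a‖ := Finset.sum_nonneg fun a _ => norm_nonneg _
    linarith
  set R : ℝ := |α| + ∑ a ∈ s, |a| with hR
  have hRa : ∀ a ∈ s, |a| ≤ R := fun a ha => by
    have := Finset.single_le_sum (f := fun a : ℝ => |a|) (fun a _ => abs_nonneg a) ha
    have h2 := abs_nonneg α
    linarith
  have hRα : |α| ≤ R := by
    have : 0 ≤ ∑ a ∈ s, |a| := Finset.sum_nonneg fun a _ => abs_nonneg _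
    linarith
  obtain ⟨C1, T1, hC1, hT1, b1⟩ := Cor_Rs_un k (η := η / (4 * S)) (by positivity) (1 / 2) R
  obtain ⟨ξ, -, hg⟩ := mk_TF (gc_smooth k δ α s c) (gc_cs k δ α s c)
  obtain ⟨C2, T2, hC2, hT2, b2⟩ := Sg_Cor k (u := 1) le_rfl hg (ε := 1 / 2) (η := η / 4) (by norm_num)
    (by positivity) (1 / 2)
  obtain ⟨C3, T3, hC3, b3⟩ := unit D (η := η / (4 * (ε + 1))) (by positivity) (ε := 1 / 2) (by norm_num)
  obtain ⟨c5, hc5, m5⟩ := out_right D (δ := 1) one_pos (by norm_num)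
  obtain ⟨c6, hc6, m6⟩ := out_left D (δ := 1) one_pos (by norm_num)
  refine ⟨S * C1 + C2 + ε * C3 + 2 * (2 * S) * (c6 + c5), max (max T1 T2) T3, by positivity,
    hT1.trans ((le_max_left _ _).trans (le_max_left _ _)), fun T hT => ?_⟩
  have u1 : T1 ≤ T := ((le_max_left _ _).trans (le_max_left _ _)).trans hT
  have u2 : T2 ≤ T := ((le_max_right _ _).trans (le_max_left _ _)).trans hT
  have u3 : T3 ≤ T := (le_max_right _ _).trans hT
  have te : Real.exp 1 ≤ T := hT1.trans u1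
  have hTp : 0 < T := (Real.exp_pos 1).trans_le te
  have hT1' : 1 ≤ T := le_trans (by have := Real.add_one_le_exp 1; linarith) te
  have hL : 1 ≤ Real.log T := by rwa [Real.le_log_iff_exp_le hTp]
  have hL0 : 0 < Real.log T := by linarith
  have d1 := b1 T u1
  have d2 := b2 T u2
  have d3 := (abs_le.1 (b3 T u3)).2
  have a5 := m5 T hT1'
  have a6 := m6 T hT1'
  have hF := Fn_dec D.pg hT1' (r := 0) (neg_nonpos.2 (Nat.cast_nonneg 1)) (Nat.cast_nonneg 1)
  have cl := Sg_close hF hL0 (fc_smooth α s c).continuous (gc_smooth k δ α s c).continuous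
    (S := S) (by positivity) (fc_le α s c) (gc_le k δ α s c) (a := -1) (b := k + 1) (e := ε) hε
    (fun v x y => by
      have e1 : fc α s c v - gc k δ α s c v = ((mct k δ v : ℝ) : ℂ) * fc α s c v := by
        unfold gc
        rw [cut_one x y]
        push_cast
        ring
      rw [e1, norm_mul, Complex.norm_real, Real.norm_of_nonneg (mct_nonneg k δ v)]
      rcases le_total v (1 - δ) with h | h
      · rw [mct_left hδ h, zero_mul]; exact hε
      rcases le_total v (k - 1 + δ) with h' | h'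
      · exact (mul_le_of_le_one_left (norm_nonneg _) (mct_le k δ v)).trans (hf v h h')
      · rw [mct_right hδ h', zero_mul]; exact hε)
  have e5 : -(-1 * Real.log T / (2 * Real.pi)) = 1 * Real.log T / (2 * Real.pi) := by ring
  rw [e5, ← comb_Sg hF] at cl
  have hM := M_nonneg (zk k) (T := T) hTp.le
  obtain ⟨m, hm⟩ : ∃ m, m = M (zk k) T := ⟨_, rfl⟩
  obtain ⟨E, hE⟩ : ∃ E, E = Er k (1 / 2) (1 / 2) T := ⟨_, rfl⟩
  have hE1 : 1 ≤ E := by rw [hE]; exact Er_pos k _ _ hTp.le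
  have hER : 1 + Ed (zk k) T (T ^ (1 / 2 : ℝ)) ≤ E := by
    rw [hE]
    unfold Er
    have hM2 := M_nonneg (zk k) (T := 2 * T ^ (1 / 2 : ℝ)) (by positivity)
    linarith
  have d2' : ‖Sg (Fn (H k 1) T 0) (Real.log T) (gc k δ α s c) - Xg k (gc k δ α s c) T‖ ≤
      η / 4 * M (zk k) T + C2 * Er k (1 / 2) (1 / 2) T := d2
  rw [← hm] at hM d2' d3 ⊢
  rw [← hE] at d2' ⊢
  have d1' : ∀ a, |a| ≤ R → ‖Cor (zk k) (a / Real.log T) T - Rs (Fn (H k 1) T 0) (a / Real.log T)‖ ≤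
      η / (4 * S) * m + C1 * E := fun a ha => by rw [hm, hE]; exact d1 a ha
  have e6 : Cor (zk k) (α / Real.log T) T - (∑ a ∈ s, c a * Cor (zk k) (a / Real.log T) T +
        Xg k (gc k δ α s c) T) =
      ((Cor (zk k) (α / Real.log T) T - Rs (Fn (H k 1) T 0) (α / Real.log T)) -
        ∑ a ∈ s, c a * (Cor (zk k) (a / Real.log T) T - Rs (Fn (H k 1) T 0) (a / Real.log T))) +
      ((Rs (Fn (H k 1) T 0) (α / Real.log T) - ∑ a ∈ s, c a * Rs (Fn (H k 1) T 0) (a / Real.log T)) -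
        Sg (Fn (H k 1) T 0) (Real.log T) (gc k δ α s c)) +
      (Sg (Fn (H k 1) T 0) (Real.log T) (gc k δ α s c) - Xg k (gc k δ α s c) T) := by
    have : ∑ a ∈ s, c a * (Cor (zk k) (a / Real.log T) T - Rs (Fn (H k 1) T 0) (a / Real.log T)) =
        ∑ a ∈ s, c a * Cor (zk k) (a / Real.log T) T - ∑ a ∈ s, c a * Rs (Fn (H k 1) T 0) (a / Real.log T) := by
      rw [← Finset.sum_sub_distrib]
      exact Finset.sum_congr rfl fun a _ => by ring
    rw [this]
    ring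
  have f1 : ‖(Cor (zk k) (α / Real.log T) T - Rs (Fn (H k 1) T 0) (α / Real.log T)) -
        ∑ a ∈ s, c a * (Cor (zk k) (a / Real.log T) T - Rs (Fn (H k 1) T 0) (a / Real.log T))‖ ≤
      S * (η / (4 * S) * m + C1 * E) := by
    have : S * (η / (4 * S) * m + C1 * E) = (η / (4 * S) * m + C1 * E) +
        ∑ a ∈ s, ‖c a‖ * (η / (4 * S) * m + C1 * E) := by
      rw [← Finset.sum_mul, hS]; ring
    rw [this]
    refine (norm_sub_le _ _).trans (add_le_add (d1' α hRα) ((norm_sum_le _ _).trans ?_))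
    refine Finset.sum_le_sum fun a ha => ?_
    rw [norm_mul]
    exact mul_le_mul_of_nonneg_left (d1' a (hRa a ha)) (norm_nonneg _)
  have f2 : S * (η / (4 * S) * m + C1 * E) = η / 4 * m + S * C1 * E := by field_simp
  have f3 : ε * (∫ t, ‖Fn (H k 1) T 0 t‖ ^ 2) ≤ ε * m + η / 4 * m + ε * C3 * E := by
    have g1 : (∫ t, ‖Fn (H k 1) T 0 t‖ ^ 2) ≤ m + (η / (4 * (ε + 1)) * m + C3 * E) := by
      have := mul_le_mul_of_nonneg_left hER hC3
      linarith
    have g2 := mul_le_mul_of_nonneg_left g1 hε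
    have g3 : ε * (η / (4 * (ε + 1)) * m) ≤ η / 4 * m := by
      have : ε * (η / (4 * (ε + 1)) * m) = (ε / (ε + 1)) * (η / 4 * m) := by field_simp
      rw [this]
      refine mul_le_of_le_one_left (by positivity) ?_
      rw [div_le_one (by linarith)]; linarith
    linarith
  have f4 : 2 * (2 * S) * (ms (Fn (H k 1) T 0) (Iic (-((k + 1) * Real.log T / (2 * Real.pi)))) +
      ms (Fn (H k 1) T 0) (Ici (1 * Real.log T / (2 * Real.pi)))) ≤ 2 * (2 * S) * (c6 + c5) * E := by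
    have g1 : 2 * (2 * S) * (ms (Fn (H k 1) T 0) (Iic (-((k + 1) * Real.log T / (2 * Real.pi)))) +
      ms (Fn (H k 1) T 0) (Ici (1 * Real.log T / (2 * Real.pi)))) ≤ 2 * (2 * S) * (c6 + c5) :=
      mul_le_mul_of_nonneg_left (add_le_add a6 a5) (by positivity)
    exact g1.trans (le_mul_of_one_le_right (by positivity) hE1)
  rw [e6]
  refine (norm_add_le _ _).trans ((add_le_add_left (norm_add_le _ _) _).trans ?_)
  have hηm : 0 ≤ η * m := mul_nonneg hη.le hM
  linarith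

/-- the limit of the edge part -/
lemma gc_lim {k : ℕ} (hk : 2 ≤ k) (α : ℝ) (s : Finset ℝ) (c : ℝ → ℂ) {δ : ℝ} (hδ : 0 < δ) :
    Tendsto (fun T => Xg k (gc k δ α s c) T / ((NN (k ^ 2) T : ℝ) : ℂ)) atTop
      (𝓝 (H306R2.aF k * edg k (gc k δ α s c))) := by
  refine edge_lim hk (gc_smooth k δ α s c) (gc_cs k δ α s c) (fun x hx => ?_)
  rw [notMem_tsupport_iff_eventuallyEq]
  filter_upwards [Ioo_mem_nhds (show 1 - δ / 2 < x by linarith [hx.1]) (show x < k - 1 + δ / 2 by linarith [hx.2])]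
    with v hv
  simp only [gc, Pi.zero_apply]
  rw [mct_one hδ hv.1.le hv.2.le]
  simp

end

end Pool.Agent.J4.H44.LP
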