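import Pool.Agent.J4.H44.LP.Sh

set_option autoImplicit false

/-! Shifts whose exponentials are complete on the middle of the spectrum: conclusion. -/

namespace Pool.Agent.J4.H44.LP

open Complex MeasureTheory Filter Topology Set Pool.Agent.W182.KO Pool.Agent.R446.KR Pool.Agent.TH535.SM Pool.Agent.J4.H44.OL
open scoped ContDiff FourierTransform ENNReal ComplexConjugate

noncomputable section

/-- completeness in the spectral variable, on the middle of the spectrum -/
def Cmp (k : ℕ) (A : Set ℝ) (δ : ℝ) : Prop := ∀ α ε : ℝ, 0 < ε → ∃ (s : Finset ℝ) (c : ℝ → ℂ), (∀ a ∈ s, a ∈ A) ∧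
  ∀ v : ℝ, 1 - δ ≤ v → v ≤ k - 1 + δ → ‖fc α s c v‖ ≤ ε

lemma cpl_fc {k : ℕ} {A : Set ℝ} {δ : ℝ} (hA : Cpl A (k - 2 + 2 * δ)) : Cmp k A δ := by
  intro α ε hε
  obtain ⟨s, c, h1, h2⟩ := hA α ε hε
  refine ⟨s, fun a => cexp (-(I * α * k)) * c a * cexp (I * a * k), h1, fun v hv1 hv2 => ?_⟩
  have h3 := h2 (k - 2 * v) (by rw [abs_le]; constructor <;> linarith)
  have e : fc α s (fun a => cexp (-(I * α * k)) * c a * cexp (I * a * k)) v = cexp (((-(α * k) : ℝ) : ℂ) * I) *
      (cexp (I * α * ((k - 2 * v : ℝ) : ℂ)) - ∑ a ∈ s, c a * cexp (I * a * ((k - 2 * v : ℝ) : ℂ))) := by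
    unfold fc
    rw [mul_sub, Finset.mul_sum]
    congr 1
    · unfold ev
      rw [← Complex.exp_add]
      congr 1
      push_cast
      ring
    · refine Finset.sum_congr rfl fun a _ => ?_
      unfold ev
      have e1 : cexp (I * a * ((k - 2 * v : ℝ) : ℂ)) = cexp (I * a * k) * cexp (((-(2 * a * v) : ℝ) : ℂ) * I) := by
        rw [← Complex.exp_add]
        congr 1
        push_cast
        ring
      have e2 : cexp (((-(α * k) : ℝ) : ℂ) * I) = cexp (-(I * α * k)) := by
        congr 1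
        push_cast
        ring
      rw [e1, e2]
      ring
  rw [e, norm_mul, Complex.norm_exp_ofReal_mul_I, one_mul]
  exact h3

/-- the normalised shifted moment -/
def Qn (k : ℕ) (α T : ℝ) : ℂ := Cor (zk k) (α / Real.log T) T / ((NN (k ^ 2) T : ℝ) : ℂ)

/-- the value of a combination in the limit -/
def lv (k : ℕ) (δ α : ℝ) (s : Finset ℝ) (c : ℝ → ℂ) (G : ℝ → ℂ) : ℂ :=
  ∑ a ∈ s, c a * G a + H306R2.aF k * edg k (gc k δ α s c)

lemma comb_lim {k : ℕ} (hk : 2 ≤ k) (α : ℝ) (s : Finset ℝ) (c : ℝ → ℂ) {δ : ℝ} (hδ : 0 < δ) {G : ℝ → ℂ}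
    (hG : ∀ a ∈ s, Tendsto (Qn k a) atTop (𝓝 (G a))) :
    Tendsto (fun T => (∑ a ∈ s, c a * Cor (zk k) (a / Real.log T) T + Xg k (gc k δ α s c) T) /
      ((NN (k ^ 2) T : ℝ) : ℂ)) atTop (𝓝 (lv k δ α s c G)) := by
  have h1 : Tendsto (fun T => ∑ a ∈ s, c a * Qn k a T) atTop (𝓝 (∑ a ∈ s, c a * G a)) :=
    tendsto_finsetSum _ fun a ha => (hG a ha).const_mul (c a)
  refine (h1.add (gc_lim hk α s c hδ)).congr fun T => ?_
  rw [add_div, Finset.sum_div]
  congr 1
  refine Finset.sum_congr rfl fun a _ => ?_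
  unfold Qn
  ring

/-- the moment -/
theorem sh_M {k : ℕ} (hk : 2 ≤ k) {A : Set ℝ} {δ : ℝ} (hδ : 0 < δ)
    (hA : Cmp k A δ) {G : ℝ → ℂ} (hG : ∀ a ∈ A, Tendsto (Qn k a) atTop (𝓝 (G a))) :
    ∃ m : ℝ, Tendsto (fun T => M (zk k) T / NN (k ^ 2) T) atTop (𝓝 m) := by
  refine abs_lim (M_Gr k) (k ^ 2) fun η hη => ?_
  obtain ⟨s, c, hs, hf⟩ := hA 0 (η / 2) (by positivity)
  obtain ⟨C, T0, hC, hT0, hb⟩ := comb_rel (k := k) 0 s c hδ (ε := η / 2) (by positivity) hf (η := η / 2)
    (by positivity)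
  have hl := comb_lim hk 0 s c hδ (G := G) fun a ha => hG a (hs a ha)
  refine ⟨fun T => (∑ a ∈ s, c a * Cor (zk k) (a / Real.log T) T + Xg k (gc k δ 0 s c) T).re, (lv k δ 0 s c G).re, 1 / 2, C, T0,
    by norm_num, by norm_num, hC, ?_, fun T hT => ?_⟩
  · have := (Complex.continuous_re.tendsto _).comp hl
    refine this.congr fun T => ?_
    simp only [Function.comp]
    rw [Complex.div_ofReal_re]
  · have h1 := hb T hT
    rw [zero_div, Cor_zero] at h1
    have h2 := Complex.abs_re_le_norm (((M (zk k) T : ℝ) : ℂ) - (∑ a ∈ s, c a * Cor (zk k) (a / Real.log T) T +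
      Xg k (gc k δ 0 s c) T))
    rw [Complex.sub_re, Complex.ofReal_re, abs_sub_comm] at h2
    rw [Er_eq] at h1
    refine h2.trans (h1.trans_eq ?_)
    unfold Br
    ring

/-- **all shifts** -/
theorem sh_all {k : ℕ} (hk : 2 ≤ k) {A : Set ℝ} {δ : ℝ} (hδ : 0 < δ)
    (hA : Cmp k A δ) {G : ℝ → ℂ} (hG : ∀ a ∈ A, Tendsto (Qn k a) atTop (𝓝 (G a))) (α : ℝ) :
    ∃ l : ℂ, Tendsto (Qn k α) atTop (𝓝 l) ∧ ∀ ε : ℝ, 0 < ε → ∃ (s : Finset ℝ) (c : ℝ → ℂ), (∀ a ∈ s, a ∈ A) ∧
      (∀ v : ℝ, 1 - δ ≤ v → v ≤ k - 1 + δ → ‖fc α s c v‖ ≤ ε) ∧ ‖l - lv k δ α s c G‖ ≤ ε := by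
  obtain ⟨m, hm⟩ := sh_M hk hδ hA hG
  have key : ∀ ε : ℝ, 0 < ε → ∃ (s : Finset ℝ) (c : ℝ → ℂ), (∀ a ∈ s, a ∈ A) ∧
      (∀ v : ℝ, 1 - δ ≤ v → v ≤ k - 1 + δ → ‖fc α s c v‖ ≤ ε) ∧
      ∀ᶠ T : ℝ in atTop, ‖Qn k α T - lv k δ α s c G‖ ≤ ε := by
    intro ε hε
    set ε1 : ℝ := min ε (ε / (4 * (|m| + 1))) with hε1
    have hε1p : 0 < ε1 := by positivity
    obtain ⟨s, c, hs, hf⟩ := hA α ε1 hε1p
    obtain ⟨C, T0, hC, hT0, hb⟩ := comb_rel (k := k) α s c hδ hε1p.le hf (η := ε1) hε1p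
    have hl := comb_lim hk α s c hδ (G := G) fun a ha => hG a (hs a ha)
    refine ⟨s, c, hs, fun v h1 h2 => (hf v h1 h2).trans (min_le_left _ _), ?_⟩
    have e1 := Metric.tendsto_nhds.1 hl (ε / 4) (by positivity)
    filter_upwards [e1, up_of_ratio hm, Er_small k hm (ϑ := 1 / 2) (by norm_num) (by norm_num)
      (show 0 < ε / (4 * (C + 1)) by positivity), eventually_ge_atTop T0, eventually_gt_atTop 1]
      with T a1 a2 a3 a4 a5
    have hN := NN_pos (k ^ 2) a5
    have h1 := hb T a4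
    rw [dist_eq_norm] at a1
    obtain ⟨Y, hY⟩ : ∃ Y, Y = ∑ a ∈ s, c a * Cor (zk k) (a / Real.log T) T + Xg k (gc k δ α s c) T := ⟨_, rfl⟩
    rw [← hY] at h1 a1
    obtain ⟨N, hNd⟩ : ∃ N, N = NN (k ^ 2) T := ⟨_, rfl⟩
    have hQ : Qn k α T = Cor (zk k) (α / Real.log T) T / ((N : ℝ) : ℂ) := by rw [hNd]; rfl
    rw [← hNd] at a1 a2 a3 hN
    have h2 : ‖Cor (zk k) (α / Real.log T) T - Y‖ ≤ 3 * ε / 4 * N := by
      have hM := M_nonneg (zk k) (T := T) (by linarith)
      have g1 : (ε1 + ε1) * M (zk k) T ≤ ε / 2 * N := by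
        have : ε1 ≤ ε / (4 * (|m| + 1)) := min_le_right _ _
        calc (ε1 + ε1) * M (zk k) T ≤ (ε / (4 * (|m| + 1)) + ε / (4 * (|m| + 1))) * ((|m| + 1) * N) := by
              gcongr
          _ = ε / 2 * N := by field_simp; ring
      have g2 : C * Er k (1 / 2) (1 / 2) T ≤ ε / 4 * N := by
        calc C * Er k (1 / 2) (1 / 2) T ≤ C * (ε / (4 * (C + 1)) * N) := mul_le_mul_of_nonneg_left a3 hC
          _ = (C / (C + 1)) * (ε / 4 * N) := by field_simp
          _ ≤ 1 * (ε / 4 * N) := by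
              refine mul_le_mul_of_nonneg_right ?_ (by positivity)
              rw [div_le_one (by linarith)]; linarith
          _ = _ := one_mul _
      linarith
    have h3 : Qn k α T - lv k δ α s c G = (Cor (zk k) (α / Real.log T) T - Y) / ((N : ℝ) : ℂ) +
        (Y / ((N : ℝ) : ℂ) - lv k δ α s c G) := by rw [hQ]; ring
    rw [h3]
    refine (norm_add_le _ _).trans ?_
    have h4 : ‖(Cor (zk k) (α / Real.log T) T - Y) / ((N : ℝ) : ℂ)‖ ≤ 3 * ε / 4 := by
      rw [norm_div, Complex.norm_real, Real.norm_of_nonneg hN.le, div_le_iff₀ hN]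
      exact h2
    linarith
  obtain ⟨l, hl⟩ := lim_of_approx (f := Qn k α) fun ε hε => by
    obtain ⟨s, c, -, -, h⟩ := key ε hε
    exact ⟨_, h⟩
  refine ⟨l, hl, fun ε hε => ?_⟩
  obtain ⟨s, c, h1, h2, h3⟩ := key (ε / 2) (by positivity)
  refine ⟨s, c, h1, fun v a b => (h2 v a b).trans (by linarith), ?_⟩
  obtain ⟨T, h4, h5⟩ := (h3.and (Metric.tendsto_nhds.1 hl (ε / 2) (by positivity))).exists
  rw [dist_eq_norm] at h5
  have e : l - lv k δ α s c G = (Qn k α T - lv k δ α s c G) - (Qn k α T - l) := by ring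
  rw [e]
  refine (norm_sub_le _ _).trans ?_
  linarith

/-- the model: the transform of a density -/
def mod (k : ℕ) (w : ℝ → ℂ) (α : ℝ) : ℂ := ∫ v in (0:ℝ)..k, w v * ev α v

/-- **identification of the limits** -/
theorem sh_match {k : ℕ} (hk : 2 ≤ k) {A : Set ℝ} {δ : ℝ} (hδ : 0 < δ)
    (hA : Cmp k A δ) {w : ℝ → ℂ} (hw : IntervalIntegrable w volume 0 k)
    (hw0 : ∀ v : ℝ, 0 ≤ v → v ≤ 1 → w v = (v : ℂ) ^ (k ^ 2 - 1) / (k ^ 2 - 1).factorial)
    (hw1 : ∀ v : ℝ, (k:ℝ) - 1 ≤ v → v ≤ k → w v = ((k : ℂ) - v) ^ (k ^ 2 - 1) / (k ^ 2 - 1).factorial)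
    (hG : ∀ a ∈ A, Tendsto (Qn k a) atTop (𝓝 (H306R2.aF k * mod k w a))) (α : ℝ) :
    Tendsto (Qn k α) atTop (𝓝 (H306R2.aF k * mod k w α)) := by
  have hk2 : (2:ℝ) ≤ k := by exact_mod_cast hk
  have hk0 : (0:ℝ) ≤ k := by linarith
  obtain ⟨l, hl, hap⟩ := sh_all hk hδ hA hG α
  obtain ⟨W, hW⟩ : ∃ W, W = ∫ v in (0:ℝ)..k, ‖w v‖ := ⟨_, rfl⟩
  have hW0 : 0 ≤ W := by
    rw [hW]
    exact intervalIntegral.integral_nonneg hk0 fun v _ => norm_nonneg _
  -- a product with a bounded continuous function is integrable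
  have hint : ∀ f : ℝ → ℂ, Continuous f → IntervalIntegrable (fun v => w v * f v) volume 0 k := fun f hf =>
    hw.mul_continuousOn hf.continuousOn
  have hval : ∀ (s : Finset ℝ) (c : ℝ → ℂ) (ε : ℝ), 0 ≤ ε →
      (∀ v : ℝ, 1 - δ ≤ v → v ≤ k - 1 + δ → ‖fc α s c v‖ ≤ ε) →
      ‖H306R2.aF k * mod k w α - lv k δ α s c (fun a => H306R2.aF k * mod k w a)‖ ≤
        |H306R2.aF k| * (ε * W) := by
    intro s c ε hε hf
    have e1 : H306R2.aF k * mod k w α - lv k δ α s c (fun a => H306R2.aF k * mod k w a) =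
        H306R2.aF k * ((∫ v in (0:ℝ)..k, w v * fc α s c v) - edg k (gc k δ α s c)) := by
      have e2 : ∫ v in (0:ℝ)..k, w v * fc α s c v = mod k w α - ∑ a ∈ s, c a * mod k w a := by
        unfold mod
        have e3 : ∑ a ∈ s, c a * ∫ v in (0:ℝ)..k, w v * ev a v =
            ∫ v in (0:ℝ)..k, ∑ a ∈ s, c a * (w v * ev a v) := by
          rw [intervalIntegral.integral_finsetSum fun a _ => (hint _ (ev_smooth a).continuous).const_mul (c a)]
          refine Finset.sum_congr rfl fun a _ => ?_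
          rw [intervalIntegral.integral_const_mul]
        rw [e3, ← intervalIntegral.integral_sub (hint _ (ev_smooth α).continuous)
          (by
            have := IntervalIntegrable.sum s (f := fun a v => c a * (w v * ev a v)) (μ := volume) (a := 0) (b := k)
              fun a _ => (hint _ (ev_smooth a).continuous).const_mul (c a)
            have e9 : (∑ a ∈ s, fun v => c a * (w v * ev a v)) = fun v => ∑ a ∈ s, c a * (w v * ev a v) := by
              funext v
              rw [Finset.sum_apply]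
            rwa [e9] at this)]
        refine intervalIntegral.integral_congr fun v _ => ?_
        unfold fc
        rw [mul_sub, Finset.mul_sum]
        congr 1
        refine Finset.sum_congr rfl fun a _ => ?_
        ring
      rw [e2]
      unfold lv
      simp only
      rw [mul_sub, mul_sub, Finset.mul_sum]
      have e4 : ∑ a ∈ s, c a * (H306R2.aF k * mod k w a) = ∑ a ∈ s, (H306R2.aF k : ℂ) * (c a * mod k w a) :=
        Finset.sum_congr rfl fun a _ => by ring
      rw [e4]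
      ring
    have hgcc := (gc_smooth k δ α s c).continuous
    have hfcc := (fc_smooth α s c).continuous
    have e5 : edg k (gc k δ α s c) = ∫ v in (0:ℝ)..k, w v * gc k δ α s c v := by
      have s1 : ∫ v in (0:ℝ)..k, w v * gc k δ α s c v = (∫ v in (0:ℝ)..1, w v * gc k δ α s c v) +
          (∫ v in (1:ℝ)..(k - 1), w v * gc k δ α s c v) + ∫ v in ((k:ℝ) - 1)..k, w v * gc k δ α s c v := by
        have i0 := hint _ hgcc
        have i1 : IntervalIntegrable (fun v => w v * gc k δ α s c v) volume 0 1 :=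
          i0.mono_set (by rw [uIcc_of_le zero_le_one, uIcc_of_le hk0]; exact Icc_subset_Icc le_rfl (by linarith))
        have i2 : IntervalIntegrable (fun v => w v * gc k δ α s c v) volume 1 (k - 1) :=
          i0.mono_set (by
            rw [uIcc_of_le (by linarith), uIcc_of_le hk0]; exact Icc_subset_Icc (by linarith) (by linarith))
        have i3 : IntervalIntegrable (fun v => w v * gc k δ α s c v) volume (k - 1) k :=
          i0.mono_set (by
            rw [uIcc_of_le (by linarith), uIcc_of_le hk0]; exact Icc_subset_Icc (by linarith) (by linarith))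
        rw [intervalIntegral.integral_add_adjacent_intervals i1 i2,
          intervalIntegral.integral_add_adjacent_intervals (i1.trans i2) i3]
      have s2 : ∫ v in (1:ℝ)..(k - 1), w v * gc k δ α s c v = 0 := by
        rw [intervalIntegral.integral_congr (g := fun _ => 0)]
        · simp
        · intro v hv
          rw [uIcc_of_le (by linarith)] at hv
          simp only [gc]
          rw [mct_one hδ (by linarith [hv.1]) (by linarith [hv.2])]
          simp
      rw [s1, s2, add_zero]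
      unfold edg
      congr 1
      · refine intervalIntegral.integral_congr fun v hv => ?_
        rw [uIcc_of_le zero_le_one] at hv
        rw [hw0 v hv.1 hv.2]
      · refine intervalIntegral.integral_congr fun v hv => ?_
        rw [uIcc_of_le (by linarith)] at hv
        rw [hw1 v hv.1 hv.2]
    rw [e1, norm_mul, Complex.norm_real, Real.norm_eq_abs]
    refine mul_le_mul_of_nonneg_left ?_ (abs_nonneg _)
    rw [e5, ← intervalIntegral.integral_sub (hint _ hfcc) (hint _ hgcc), hW, ← intervalIntegral.integral_const_mul]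
    refine (intervalIntegral.norm_integral_le_integral_norm hk0).trans ?_
    refine intervalIntegral.integral_mono_on hk0 ((hint _ hfcc).sub (hint _ hgcc)).norm (hw.norm.const_mul ε)
      fun v hv => ?_
    rw [← mul_sub, norm_mul, mul_comm ε]
    refine mul_le_mul_of_nonneg_left ?_ (norm_nonneg _)
    have e6 : fc α s c v - gc k δ α s c v = ((mct k δ v : ℝ) : ℂ) * fc α s c v := by
      unfold gc
      rw [cut_one (by linarith [hv.1]) (by linarith [hv.2])]
      push_cast
      ring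
    rw [e6, norm_mul, Complex.norm_real, Real.norm_of_nonneg (mct_nonneg k δ v)]
    rcases le_total v (1 - δ) with h | h
    · rw [mct_left hδ h, zero_mul]; exact hε
    rcases le_total v (k - 1 + δ) with h' | h'
    · exact (mul_le_of_le_one_left (norm_nonneg _) (mct_le k δ v)).trans (hf v h h')
    · rw [mct_right hδ h', zero_mul]; exact hε
  have hzero : ‖l - H306R2.aF k * mod k w α‖ ≤ 0 := by
    refine le_of_forall_pos_le_add fun ε hε => ?_
    set ε1 : ℝ := min (ε / 2) (ε / (2 * (|H306R2.aF k| * W + 1))) with hε1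
    have hpos : 0 ≤ |H306R2.aF k| * W := by positivity
    have hε1p : 0 < ε1 := by positivity
    obtain ⟨s, c, h1, h2, h3⟩ := hap ε1 hε1p
    have h4 := hval s c ε1 hε1p.le h2
    have h5 : |H306R2.aF k| * (ε1 * W) ≤ ε / 2 := by
      have h6 : ε1 ≤ ε / (2 * (|H306R2.aF k| * W + 1)) := min_le_right _ _
      calc |H306R2.aF k| * (ε1 * W) = ε1 * (|H306R2.aF k| * W) := by ring
        _ ≤ ε / (2 * (|H306R2.aF k| * W + 1)) * (|H306R2.aF k| * W + 1) := by gcongr; linarith
        _ = ε / 2 := by field_simp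
    have h6 : ε1 ≤ ε / 2 := min_le_left _ _
    have e : l - H306R2.aF k * mod k w α = (l - lv k δ α s c (fun a => H306R2.aF k * mod k w a)) -
        (H306R2.aF k * mod k w α - lv k δ α s c (fun a => H306R2.aF k * mod k w a)) := by ring
    rw [e]
    refine (norm_sub_le _ _).trans ?_
    linarith
  have h0 : l = H306R2.aF k * mod k w α := by
    have := norm_le_zero_iff.1 hzero
    exact sub_eq_zero.1 this
  rw [← h0]
  exact hl

end

end Pool.Agent.J4.H44.LP
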