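import Pool.Agent.J4.H44.LP.Sh2

set_option autoImplicit false

/-! Order of magnitude from finitely many shifts; examples of complete sets; the density for the sixth moment. -/

namespace Pool.Agent.J4.H44.LP

open Complex MeasureTheory Filter Topology Set Pool.Agent.W182.KO Pool.Agent.R446.KR Pool.Agent.TH535.SM Pool.Agent.J4.H44.OL
open scoped ContDiff FourierTransform ENNReal ComplexConjugate

noncomputable section

lemma cmp_of_infinite (k : ℕ) {A : Set ℝ} {R : ℝ} (hA : (A ∩ Icc (-R) R).Infinite) (δ : ℝ) : Cmp k A δ :=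
  cpl_fc (cpl_of_infinite hA)

lemma cmp_of_prog (k : ℕ) {A : Set ℝ} {c : ℝ} {m₀ : ℕ} (hc : 0 < c) (hck : c * (k - 2) < Real.pi)
    (hA : ∀ m : ℕ, m₀ ≤ m → c * m ∈ A) : ∃ δ : ℝ, 0 < δ ∧ Cmp k A δ := by
  refine ⟨(Real.pi - c * (k - 2)) / (4 * c), by
    have : 0 < Real.pi - c * (k - 2) := by linarith
    positivity, cpl_fc (cpl_of_prog (m₀ := m₀) hc ?_ hA)⟩
  have : c * (k - 2 + 2 * ((Real.pi - c * (k - 2)) / (4 * c))) = c * (k - 2) + (Real.pi - c * (k - 2)) / 2 := by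
    field_simp
    ring
  rw [this]
  linarith

/-- an upper bound of the moment bounds all shifted moments -/
lemma sh_O_conv (k : ℕ) (h : ∃ C : ℝ, ∀ᶠ T : ℝ in atTop, M (zk k) T ≤ C * NN (k ^ 2) T) (α : ℝ) :
    ∃ B : ℝ, ∀ᶠ T : ℝ in atTop, ‖Qn k α T‖ ≤ B := by
  have D := zk_dat k (u := 1) le_rfl
  obtain ⟨C0, hC0⟩ := h
  obtain ⟨C, q, hC, hb⟩ := Cor_le D (ε := 1 / 2) (by norm_num)
  have hC0' : ∀ᶠ T : ℝ in atTop, M (zk k) T ≤ |C0| * NN (k ^ 2) T := by
    filter_upwards [hC0, eventually_gt_atTop 1] with T h1 h2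
    exact h1.trans (mul_le_mul_of_nonneg_right (le_abs_self _) (NN_pos _ h2).le)
  have t2 : Tendsto (fun T : ℝ => 2 * T) atTop atTop := tendsto_id.const_mul_atTop two_pos
  refine ⟨|C0| + 3 * |C0| * 2 ^ (k ^ 2 + 1) + C * (1 + |α|) ^ q, ?_⟩
  filter_upwards [hC0', t2.eventually hC0', eventually_ge_atTop 4, one_small (k ^ 2) 1 one_pos,
    Real.tendsto_log_atTop.eventually_ge_atTop 1] with T a1 a2 a3 a4 a5
  have hT : 0 < T := by linarith
  have hN := NN_pos (k ^ 2) (show 1 < T by linarith)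
  have hE : Ed (zk k) T (T ^ (1 / 2 : ℝ)) ≤ 3 * M (zk k) (2 * T) := by
    have e1 := Er_eq k (1 / 2) (1 / 2) (T := T)
    unfold Er at e1
    have e2 : Ed (zk k) T (T ^ (1 / 2 : ℝ)) = 2 * M (zk k) (T ^ (1 / 2 : ℝ)) +
        (M (zk k) (T + T ^ (1 / 2 : ℝ)) - M (zk k) (T - T ^ (1 / 2 : ℝ))) := by linarith
    have hs : T ^ (1 / 2 : ℝ) ≤ T := by
      calc T ^ (1 / 2 : ℝ) ≤ T ^ (1:ℝ) := Real.rpow_le_rpow_of_exponent_le (by linarith) (by norm_num)
        _ = T := Real.rpow_one T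
    have hs0 : 0 < T ^ (1 / 2 : ℝ) := by positivity
    have m1 := M_mono D (show T ^ (1 / 2 : ℝ) ≤ 2 * T by linarith)
    have m2 := M_mono D (show T + T ^ (1 / 2 : ℝ) ≤ 2 * T by linarith)
    have m3 := M_nonneg (zk k) (T := T - T ^ (1 / 2 : ℝ)) (by linarith)
    linarith
  have h1 := hb T (α / Real.log T) (by linarith)
  have h2 := NN_two (k ^ 2) a3
  have h3 : |α / Real.log T| ≤ |α| := by
    rw [abs_div, abs_of_pos (show 0 < Real.log T by linarith)]
    exact div_le_self (abs_nonneg _) a5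
  have h4 : C * (1 + |α / Real.log T|) ^ q ≤ C * (1 + |α|) ^ q * NN (k ^ 2) T := by
    have : C * (1 + |α / Real.log T|) ^ q ≤ C * (1 + |α|) ^ q := by gcongr
    refine this.trans (le_mul_of_one_le_right (by positivity) (by linarith))
  unfold Qn
  rw [norm_div, Complex.norm_real, Real.norm_of_nonneg hN.le, div_le_iff₀ hN]
  have h5 : |C0| * NN (k ^ 2) (2 * T) ≤ |C0| * (2 ^ (k ^ 2 + 1) * NN (k ^ 2) T) :=
    mul_le_mul_of_nonneg_left h2 (abs_nonneg _)
  linarith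

/-- **order of magnitude from finitely many shifts** -/
theorem sh_O {k : ℕ} (hk : 2 ≤ k) {A : Set ℝ} {δ : ℝ} (hδ : 0 < δ) (hA : Cmp k A δ) :
    ∃ s : Finset ℝ, (∀ a ∈ s, a ∈ A) ∧ ((∃ C : ℝ, ∀ᶠ T : ℝ in atTop, M (zk k) T ≤ C * NN (k ^ 2) T) ↔
      ∀ a ∈ s, ∃ B : ℝ, ∀ᶠ T : ℝ in atTop, ‖Qn k a T‖ ≤ B) := by
  obtain ⟨s, c, hs, hf⟩ := hA 0 (1 / 8) (by norm_num)
  refine ⟨s, hs, fun h a _ => sh_O_conv k h a, fun h => ?_⟩
  obtain ⟨C, T0, hC, hT0, hb⟩ := comb_rel (k := k) 0 s c hδ (ε := 1 / 8) (by norm_num) hf (η := 1 / 8)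
    (by norm_num)
  -- the combination is bounded
  have hX := gc_lim hk 0 s c hδ
  have hcomb : ∃ A0 : ℝ, 0 ≤ A0 ∧ ∀ᶠ T : ℝ in atTop, ‖∑ a ∈ s, c a * Cor (zk k) (a / Real.log T) T +
      Xg k (gc k δ 0 s c) T‖ ≤ A0 * NN (k ^ 2) T := by
    have h' : ∀ a : ℝ, ∃ B : ℝ, a ∈ s → ∀ᶠ T : ℝ in atTop, ‖Qn k a T‖ ≤ B := fun a => by
      by_cases ha : a ∈ s
      · obtain ⟨B, hB⟩ := h a ha
        exact ⟨B, fun _ => hB⟩
      · exact ⟨0, fun h => absurd h ha⟩
    choose B hB using h'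
    have hall : ∀ᶠ T : ℝ in atTop, ∀ a ∈ s, ‖Qn k a T‖ ≤ B a := by
      rw [Finset.eventually_all]
      exact hB
    have hXb := hX.norm.eventually_le_const (lt_add_one _)
    refine ⟨∑ a ∈ s, ‖c a‖ * |B a| + (‖(H306R2.aF k : ℂ) * edg k (gc k δ 0 s c)‖ + 1), by positivity, ?_⟩
    filter_upwards [hall, hXb, eventually_gt_atTop 1] with T h1 h2 h3
    have hN := NN_pos (k ^ 2) h3
    have e1 : ∀ a : ℝ, Cor (zk k) (a / Real.log T) T = Qn k a T * ((NN (k ^ 2) T : ℝ) : ℂ) := fun a => by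
      unfold Qn
      rw [div_mul_cancel₀]
      exact_mod_cast hN.ne'
    rw [norm_div, Complex.norm_real, Real.norm_of_nonneg hN.le, div_le_iff₀ hN] at h2
    rw [add_mul, Finset.sum_mul]
    refine (norm_add_le _ _).trans (add_le_add ((norm_sum_le _ _).trans (Finset.sum_le_sum fun a ha => ?_)) h2)
    rw [e1, norm_mul, norm_mul, Complex.norm_real, Real.norm_of_nonneg hN.le, mul_assoc]
    gcongr
    exact (h1 a ha).trans (le_abs_self _)
  obtain ⟨A0, hA0, hup⟩ := hcomb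
  obtain ⟨C', T2, hC', hfin⟩ := up_of_P' (F := M (zk k)) (P := fun T => ‖∑ a ∈ s, c a * Cor (zk k) (a / Real.log T) T +
      Xg k (gc k δ 0 s c) T‖) (M_Gr k) (k ^ 2) (ϑ := 1 / 2) (C1 := C) (T0 := max T0 1) (by norm_num) (by norm_num) hC
    (fun T hT => by
      have h1 := hb T ((le_max_left _ _).trans hT)
      have hT1 : 1 ≤ T := (le_max_right _ _).trans hT
      rw [zero_div, Cor_zero, Er_eq] at h1
      have hM := M_nonneg (zk k) (T := T) (by linarith)
      have h2 : M (zk k) T = ‖((M (zk k) T : ℝ) : ℂ)‖ := by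
        rw [Complex.norm_real, Real.norm_of_nonneg hM]
      have h3 := norm_le_norm_add_norm_sub' ((M (zk k) T : ℝ) : ℂ) (∑ a ∈ s, c a * Cor (zk k) (a / Real.log T) T +
        Xg k (gc k δ 0 s c) T)
      rw [← h2] at h3
      unfold Br
      linarith) hA0 hup
  exact ⟨C', eventually_atTop.2 ⟨T2, hfin⟩⟩

/-! ### the density of the sixth moment -/

/-- the middle polynomial -/
def γm (v : ℝ) : ℝ := (-2 * v ^ 8 + 24 * v ^ 7 - 252 * v ^ 6 + 1512 * v ^ 5 - 4830 * v ^ 4 + 8568 * v ^ 3 -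
  8484 * v ^ 2 + 4392 * v - 927) / Nat.factorial 8

/-- the density for `k = 3` -/
def γ (v : ℝ) : ℝ := if v ≤ 1 then v ^ 8 / Nat.factorial 8 else if v ≤ 2 then γm v else
  (3 - v) ^ 8 / Nat.factorial 8

lemma γ_cont : Continuous γ := by
  unfold γ γm
  refine Continuous.if_le (by fun_prop) (Continuous.if_le (by fun_prop) (by fun_prop) continuous_id
    continuous_const fun x hx => ?_) continuous_id continuous_const fun x hx => ?_
  · have hx' : x = 2 := hx
    rw [hx']; norm_num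
  · have hx' : x = 1 := hx
    rw [hx']; norm_num

lemma γ_left {v : ℝ} (h : v ≤ 1) : γ v = v ^ 8 / Nat.factorial 8 := by unfold γ; rw [if_pos h]

lemma γ_mid {v : ℝ} (h0 : 1 ≤ v) (h : v ≤ 2) : γ v = γm v := by
  unfold γ
  rcases eq_or_lt_of_le h0 with h1 | h1
  · rw [← h1, if_pos le_rfl]
    unfold γm; norm_num
  · rw [if_neg (by linarith), if_pos h]

lemma γ_right {v : ℝ} (h : 2 ≤ v) : γ v = (3 - v) ^ 8 / Nat.factorial 8 := by
  unfold γ
  rcases eq_or_lt_of_le h with h1 | h1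
  · rw [← h1, if_neg (by norm_num), if_pos le_rfl]
    unfold γm; norm_num
  · rw [if_neg (by linarith), if_neg (by linarith)]

lemma γ_int : ∫ v in (0:ℝ)..3, γ v = 42 / Nat.factorial 9 := by
  have hi : ∀ a b : ℝ, IntervalIntegrable γ volume a b := fun a b => γ_cont.intervalIntegrable a b
  rw [← intervalIntegral.integral_add_adjacent_intervals (hi 0 1) (hi 1 3),
    ← intervalIntegral.integral_add_adjacent_intervals (hi 1 2) (hi 2 3)]
  have h1 : ∫ v in (0:ℝ)..1, γ v = 1 / Nat.factorial 9 := by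
    rw [intervalIntegral.integral_congr (g := fun v => v ^ 8 / Nat.factorial 8) fun v hv => by
      rw [uIcc_of_le zero_le_one] at hv
      exact γ_left hv.2]
    rw [intervalIntegral.integral_div, integral_pow]
    norm_num [Nat.factorial]
  have h3 : ∫ v in (2:ℝ)..3, γ v = 1 / Nat.factorial 9 := by
    rw [intervalIntegral.integral_congr (g := fun v => (3 - v) ^ 8 / Nat.factorial 8) fun v hv => by
      rw [uIcc_of_le (by norm_num)] at hv
      exact γ_right hv.1]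
    rw [intervalIntegral.integral_div, intervalIntegral.integral_comp_sub_left (fun x : ℝ => x ^ 8) 3, integral_pow]
    norm_num [Nat.factorial]
  have h2 : ∫ v in (1:ℝ)..2, γ v = 40 / Nat.factorial 9 := by
    rw [intervalIntegral.integral_congr (g := γm) fun v hv => by
      rw [uIcc_of_le (by norm_num)] at hv
      exact γ_mid hv.1 hv.2]
    have hd : ∀ v ∈ uIcc (1:ℝ) 2, HasDerivAt (fun v : ℝ => (-2 / 9 * v ^ 9 + 3 * v ^ 8 - 36 * v ^ 7 + 252 * v ^ 6 -
        966 * v ^ 5 + 2142 * v ^ 4 - 2828 * v ^ 3 + 2196 * v ^ 2 - 927 * v) / Nat.factorial 8) (γm v) v := by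
      intro v _
      have h := ((((((((((hasDerivAt_pow 9 v).const_mul (-2 / 9 : ℝ)).fun_add ((hasDerivAt_pow 8 v).const_mul 3)).fun_sub
        ((hasDerivAt_pow 7 v).const_mul 36)).fun_add ((hasDerivAt_pow 6 v).const_mul 252)).fun_sub
        ((hasDerivAt_pow 5 v).const_mul 966)).fun_add ((hasDerivAt_pow 4 v).const_mul 2142)).fun_sub
        ((hasDerivAt_pow 3 v).const_mul 2828)).fun_add ((hasDerivAt_pow 2 v).const_mul 2196)).fun_sub
        ((hasDerivAt_id' v).const_mul 927)).div_const (Nat.factorial 8 : ℝ)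
      refine h.congr_deriv ?_
      unfold γm
      norm_num
      ring
    rw [intervalIntegral.integral_eq_sub_of_hasDerivAt hd (by unfold γm; exact (Continuous.intervalIntegrable (by fun_prop) _ _))]
    norm_num [Nat.factorial]
  rw [h1, h2, h3]
  norm_num [Nat.factorial]

end

end Pool.Agent.J4.H44.LP
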